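import Mathlib

/-!
# GGM project, elementary definitions (Mathlib only)
-/

namespace Pool.Agent.Helper69.GGM

/-- the Poisson kernel `Pk c u = c / (c² + (2πu)²)` -/
noncomputable def Pk (c u : ℝ) : ℝ := c / (c ^ 2 + (2 * Real.pi * u) ^ 2)

/-- `VV a = (1 - e^(-2a)) / (4a²)` -/
noncomputable def VV (a : ℝ) : ℝ := (1 - Real.exp (-2 * a)) / (4 * a ^ 2)

/-- normalised logarithmic derivative of zeta at `1/2 + a/log T + it` -/
noncomputable def XX (T a t : ℝ) : ℂ :=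
  logDeriv riemannZeta (((1 / 2 + a / Real.log T : ℝ) : ℂ) + (t : ℂ) * Complex.I) / (Real.log T : ℂ)

/-- the truncated mean square of `XX T a` over `[0,T]` -/
noncomputable def MM (T a B : ℝ) : ℝ := (1 / T) * ∫ t in (0:ℝ)..T, min (‖XX T a t‖ ^ 2) B

/-- the mean square law at distance `a / log T`, along `l` -/
def MeanSqAt (l : Filter ℝ) (a : ℝ) : Prop :=
  ∀ ε : ℝ, 0 < ε → ∃ B₀ : ℝ, ∀ B : ℝ, B₀ ≤ B → ∀ᶠ T : ℝ in l, |MM T a B - VV a| ≤ ε

lemma Pk_nonneg {c : ℝ} (hc : 0 < c) (u : ℝ) : 0 ≤ Pk c u := by unfold Pk; positivity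

lemma Pk_le {c : ℝ} (hc : 0 < c) (u : ℝ) : Pk c u ≤ 1 / c := by
  unfold Pk
  rw [div_le_div_iff₀ (by positivity) hc]
  nlinarith [sq_nonneg (2 * Real.pi * u)]

lemma Pk_even (c u : ℝ) : Pk c (-u) = Pk c u := by
  unfold Pk
  congr 2
  ring

lemma Pk_cont {c : ℝ} (hc : 0 < c) : Continuous (Pk c) := by
  unfold Pk
  apply Continuous.div continuous_const (by fun_prop)
  intro u
  positivity

lemma VV_nonneg {a : ℝ} (ha : 0 < a) : 0 ≤ VV a := by
  unfold VV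
  have : Real.exp (-2 * a) ≤ 1 := Real.exp_le_one_iff.mpr (by linarith)
  have h2 : 0 ≤ 1 - Real.exp (-2 * a) := by linarith
  positivity

lemma VV_le {a : ℝ} (ha : 0 < a) : VV a ≤ 1 / (4 * a ^ 2) := by
  unfold VV
  have := Real.exp_pos (-2 * a)
  gcongr
  linarith

end Pool.Agent.Helper69.GGM
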