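import Pool.Agent.Helper57.M.Z
import Pool.Agent.Helper69.GGM.Pk

/-!
# GGM project, definitions

Unconditional Goldston-Gonek-Montgomery theorem.
Throughout `L = Real.log T`; a zero `ρ = β + iγ` seen from the height `t` has the scaled coordinate
`zz T t ρ = L (β - 1/2) + i L (γ - t)`.
-/

open Complex Set MeasureTheory Filter Topology
open Pool.Agent.Helper57.LH Pool.Agent.Helper57.PC Pool.Agent.Helper57.Zeta

namespace Pool.Agent.Helper69.GGM

/-- scaled position of the zero `ρ` seen from the height `t` -/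
noncomputable def zz (T t : ℝ) (ρ : ℂ) : ℂ :=
  ((Real.log T * (ρ.re - 1 / 2) : ℝ) : ℂ) + ((Real.log T * (ρ.im - t) : ℝ) : ℂ) * I

/-- scaled position of the projection of `ρ` to the critical line -/
noncomputable def z0 (T t : ℝ) (ρ : ℂ) : ℂ := ((Real.log T * (ρ.im - t) : ℝ) : ℂ) * I

/-- sum over the zeros with ordinates in `[0,T]` -/
noncomputable def SS (T b t : ℝ) : ℂ := ∑ ρ ∈ Zf T, (mx ρ : ℂ) / ((b : ℂ) - zz T t ρ)

/-- the same sum with all zeros moved horizontally to the critical line -/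
noncomputable def S0 (T b t : ℝ) : ℂ := ∑ ρ ∈ Zf T, (mx ρ : ℂ) / ((b : ℂ) - z0 T t ρ)

/-- majorant: local number of zeros -/
noncomputable def Phi (T t : ℝ) : ℝ := ∑ ρ ∈ Zf T, mx ρ * (1 + (Real.log T * (ρ.im - t)) ^ 2)⁻¹

/-- normalised second moment of `S0 T a - S0 T (2 log T)` -/
noncomputable def UU (T a : ℝ) : ℝ :=
  (WP T (Pk (2 * a)) - 2 * WP T (Pk (a + 2 * Real.log T)) + WP T (Pk (4 * Real.log T))) / SN T

open Classical in
/-- number (with multiplicity) of zeros with ordinates in `[0,T]` at scaled distance `≥ ε` from the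
critical line -/
noncomputable def offCount (T ε : ℝ) : ℝ :=
  ∑ ρ ∈ (Zf T).filter (fun ρ => ε ≤ |Real.log T * (ρ.re - 1 / 2)|), mx ρ

/-- almost all zeros are on the critical line, in the scaled sense, along `l` -/
def OffLine (l : Filter ℝ) : Prop :=
  ∀ ε : ℝ, 0 < ε → Tendsto (fun T : ℝ => offCount T ε / SN T) l (𝓝 0)

/-- the law for the Poisson kernels along `l` -/
def LawP (l : Filter ℝ) : Prop :=
  ∀ a : ℝ, 0 < a → Tendsto (fun T : ℝ => WP T (Pk (2 * a)) / SN T) l (𝓝 (1 / 2 + VV a))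

end Pool.Agent.Helper69.GGM
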