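import Pool.Agent.Helper57.M.Z
import Pool.Agent.Helper69.GGM.Defs

/-!
# GGM block EB: the effect of moving zeros to the critical line

`eb b x v = x²/((b-iv)((b-iv)²-x²))` is the average of `1/(b-x-iv)` and `1/(b+x-iv)` minus `1/(b-iv)`.

* `SS_sub_S0`: the map `ρ ↦ 1 - conj ρ` is an involution of `Zf T` preserving `mx` and the ordinate and
  changing `x_ρ = L(β-1/2)` into `-x_ρ` (`xi_one_sub`, `xi_conj`, `order_one_sub`, `order_conj`, see `refl`),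
  so `SS T b t = Σ mx ρ (1/(b - x - iv) + 1/(b + x - iv))/2` with `v = L(γ-t)`. Then algebra. The hypothesis
  says that no denominator `b - x - iv` vanishes, and by the symmetry no `b + x - iv` does.
* `eb_small`: `|b - iv ∓ x|² >= (b/2)² + v² >= (b²+v²)/4`, `|b-iv| >= b`.
* `eb_large`: `|b-iv| >= |v|`, `|b - |x| - iv| >= |v|`, `|b + |x| - iv| >= |x|`.
-/

open Complex Set MeasureTheory Filter Topology
open Pool.Agent.Helper57.LH Pool.Agent.Helper57.PC Pool.Agent.Helper57.Zeta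

namespace Pool.Agent.Helper69.GGM

noncomputable def eb (b x v : ℝ) : ℂ :=
  (x : ℂ) ^ 2 / (((b : ℂ) - (v : ℂ) * I) * (((b : ℂ) - (v : ℂ) * I) ^ 2 - (x : ℂ) ^ 2))

lemma ebk_refl_mem_Zf {T : ℝ} {ρ : ℂ} (h : ρ ∈ Zf T) : 1 - starRingEnd ℂ ρ ∈ Zf T := by
  rw [mem_Zf, isNontrivialZero_iff] at h ⊢
  refine ⟨by rw [xi_one_sub, xi_conj, h.1, map_zero], ?_, ?_⟩
  · simpa using h.2.1
  · simpa using h.2.2

lemma ebk_mx_refl (ρ : ℂ) : mx (1 - starRingEnd ℂ ρ) = mx ρ := by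
  unfold mx
  rw [order_one_sub, order_conj]

lemma ebk_refl_refl_Zf (ρ : ℂ) : 1 - starRingEnd ℂ (1 - starRingEnd ℂ ρ) = ρ := by simp

/-- Symmetrised form of a sum over `Zf T`. -/
lemma ebk_sum_Zf_refl (T : ℝ) (f : ℂ → ℂ) :
    ∑ ρ ∈ Zf T, (mx ρ : ℂ) * f ρ = ∑ ρ ∈ Zf T, (mx ρ : ℂ) * f (1 - starRingEnd ℂ ρ) := by
  refine Finset.sum_bij' (fun ρ _ => 1 - starRingEnd ℂ ρ) (fun ρ _ => 1 - starRingEnd ℂ ρ)
    (fun ρ h => ebk_refl_mem_Zf h) (fun ρ h => ebk_refl_mem_Zf h) (fun ρ _ => ebk_refl_refl_Zf ρ)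
    (fun ρ _ => ebk_refl_refl_Zf ρ) ?_
  intro ρ _
  rw [ebk_mx_refl, ebk_refl_refl_Zf]

lemma ebk_zz_refl (T t : ℝ) (ρ : ℂ) : zz T t (1 - starRingEnd ℂ ρ) =
    -((Real.log T * (ρ.re - 1 / 2) : ℝ) : ℂ) + ((Real.log T * (ρ.im - t) : ℝ) : ℂ) * I := by
  unfold zz
  have h1 : (1 - starRingEnd ℂ ρ).re = 1 - ρ.re := by simp
  have h2 : (1 - starRingEnd ℂ ρ).im = ρ.im := by simp
  rw [h1, h2, ← Complex.ofReal_neg]
  congr 3
  ring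

lemma ebk_sub_ne_zero_of_re {b v : ℝ} (hb : 0 < b) : ((b : ℂ) - (v : ℂ) * I) ≠ 0 := by
  intro h
  have := congrArg Complex.re h
  simp at this
  exact hb.ne' this

theorem SS_sub_S0 {T b t : ℝ} (hb : 0 < b) (h : ∀ ρ ∈ Zf T, zz T t ρ ≠ (b : ℂ)) :
    SS T b t - S0 T b t =
      ∑ ρ ∈ Zf T, (mx ρ : ℂ) * eb b (Real.log T * (ρ.re - 1 / 2)) (Real.log T * (ρ.im - t)) := by
  have h1 : SS T b t = ∑ ρ ∈ Zf T, (mx ρ : ℂ) * (1 / ((b : ℂ) - zz T t ρ)) := by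
    unfold SS
    refine Finset.sum_congr rfl fun ρ _ => ?_
    rw [mul_one_div]
  have h2 : SS T b t = ∑ ρ ∈ Zf T, (mx ρ : ℂ) * (1 / ((b : ℂ) - zz T t (1 - starRingEnd ℂ ρ))) := by
    rw [h1, ebk_sum_Zf_refl T (fun ρ => 1 / ((b : ℂ) - zz T t ρ))]
  have h3 : SS T b t = ∑ ρ ∈ Zf T, (mx ρ : ℂ) * ((1 / ((b : ℂ) - zz T t ρ) +
      1 / ((b : ℂ) - zz T t (1 - starRingEnd ℂ ρ))) / 2) := by
    have h4 : SS T b t = (SS T b t + SS T b t) / 2 := by ring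
    rw [h4]
    nth_rewrite 1 [h1]
    nth_rewrite 1 [h2]
    rw [← Finset.sum_add_distrib, Finset.sum_div]
    refine Finset.sum_congr rfl fun ρ _ => ?_
    ring
  rw [h3]
  unfold S0
  rw [← Finset.sum_sub_distrib]
  refine Finset.sum_congr rfl fun ρ hρ => ?_
  have e1 := h ρ hρ
  have e2 := h _ (ebk_refl_mem_Zf hρ)
  rw [ebk_zz_refl] at e2 ⊢
  unfold zz at e1 ⊢
  unfold z0 eb
  set x : ℝ := Real.log T * (ρ.re - 1 / 2) with hx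
  set v : ℝ := Real.log T * (ρ.im - t) with hv
  have f0 : ((b : ℂ) - (v : ℂ) * I) ≠ 0 := ebk_sub_ne_zero_of_re hb
  have f1 : ((b : ℂ) - ((x : ℂ) + (v : ℂ) * I)) ≠ 0 := sub_ne_zero.2 (Ne.symm e1)
  have f2 : ((b : ℂ) - (-(x : ℂ) + (v : ℂ) * I)) ≠ 0 := sub_ne_zero.2 (Ne.symm e2)
  have f3 : (((b : ℂ) - (v : ℂ) * I) ^ 2 - (x : ℂ) ^ 2) ≠ 0 := by
    have : (((b : ℂ) - (v : ℂ) * I) ^ 2 - (x : ℂ) ^ 2) =
        ((b : ℂ) - ((x : ℂ) + (v : ℂ) * I)) * ((b : ℂ) - (-(x : ℂ) + (v : ℂ) * I)) := by ring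
    rw [this]
    exact mul_ne_zero f1 f2
  have key : (1 / ((b : ℂ) - ((x : ℂ) + (v : ℂ) * I)) + 1 / ((b : ℂ) - (-(x : ℂ) + (v : ℂ) * I))) / 2 -
      1 / ((b : ℂ) - (v : ℂ) * I) =
      (x : ℂ) ^ 2 / (((b : ℂ) - (v : ℂ) * I) * (((b : ℂ) - (v : ℂ) * I) ^ 2 - (x : ℂ) ^ 2)) := by
    rw [div_add_div _ _ f1 f2, div_div, div_sub_div _ _ (mul_ne_zero (mul_ne_zero f1 f2) two_ne_zero) f0,
      div_eq_div_iff (mul_ne_zero (mul_ne_zero (mul_ne_zero f1 f2) two_ne_zero) f0) (mul_ne_zero f0 f3)]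
    ring
  rw [← key]
  ring

lemma ebk_eb_norm (b x v : ℝ) : ‖eb b x v‖ = x ^ 2 / (‖((b : ℂ) - (v : ℂ) * I)‖ *
    ‖(((b : ℂ) - (v : ℂ) * I) ^ 2 - (x : ℂ) ^ 2)‖) := by
  unfold eb
  rw [norm_div, norm_mul, norm_pow, Complex.norm_real, Real.norm_eq_abs, sq_abs]

lemma ebk_norm_sq_c (b v : ℝ) : ‖((b : ℂ) - (v : ℂ) * I)‖ ^ 2 = b ^ 2 + v ^ 2 := by
  rw [← Complex.normSq_eq_norm_sq, Complex.normSq_apply]
  simp
  ring

lemma eb_small {b x v : ℝ} (hb : 0 < b) (hx : |x| ≤ b / 2) :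
    ‖eb b x v‖ ≤ 4 * x ^ 2 / (b * (b ^ 2 + v ^ 2)) := by
  rw [ebk_eb_norm]
  have h1 : b ≤ ‖((b : ℂ) - (v : ℂ) * I)‖ := by
    have := Complex.abs_re_le_norm ((b : ℂ) - (v : ℂ) * I)
    simp at this
    exact (le_abs_self b).trans this
  have h2 : x ^ 2 ≤ b ^ 2 / 4 := by
    have := sq_abs x
    have h3 := abs_nonneg x
    nlinarith
  have h3 : (b ^ 2 + v ^ 2) / 4 ≤ ‖(((b : ℂ) - (v : ℂ) * I) ^ 2 - (x : ℂ) ^ 2)‖ := by
    have h4 := norm_sub_norm_le (((b : ℂ) - (v : ℂ) * I) ^ 2) ((x : ℂ) ^ 2)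
    rw [norm_pow, ebk_norm_sq_c, norm_pow, Complex.norm_real, Real.norm_eq_abs, sq_abs] at h4
    nlinarith [sq_nonneg v, sq_nonneg b]
  have h5 : 0 < b ^ 2 + v ^ 2 := by positivity
  have h6 : 4 * x ^ 2 / (b * (b ^ 2 + v ^ 2)) = x ^ 2 / (b * ((b ^ 2 + v ^ 2) / 4)) := by
    field_simp
  rw [h6]
  exact div_le_div_of_nonneg_left (by positivity) (by positivity)
    (mul_le_mul h1 h3 (by positivity) (norm_nonneg _))

lemma eb_large {b x v : ℝ} (hb : 0 < b) (hv : v ≠ 0) : ‖eb b x v‖ ≤ |x| / v ^ 2 := by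
  rw [ebk_eb_norm]
  rcases eq_or_ne x 0 with hx | hx
  · subst hx
    simp
  have hx0 : 0 < |x| := abs_pos.2 hx
  have hv0 : 0 < |v| := abs_pos.2 hv
  have h1 : |v| ≤ ‖((b : ℂ) - (v : ℂ) * I)‖ := by
    have := Complex.abs_im_le_norm ((b : ℂ) - (v : ℂ) * I)
    simpa using this
  have h2 : |v| * |x| ≤ ‖(((b : ℂ) - (v : ℂ) * I) ^ 2 - (x : ℂ) ^ 2)‖ := by
    have e : (((b : ℂ) - (v : ℂ) * I) ^ 2 - (x : ℂ) ^ 2) =
        ((b : ℂ) - (v : ℂ) * I - (|x| : ℝ)) * ((b : ℂ) - (v : ℂ) * I + (|x| : ℝ)) := by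
      have h3 : ((|x| : ℝ) : ℂ) ^ 2 = (x : ℂ) ^ 2 := by
        rw [← Complex.ofReal_pow, sq_abs, Complex.ofReal_pow]
      rw [← h3]; ring
    rw [e, norm_mul]
    have h4 : |v| ≤ ‖((b : ℂ) - (v : ℂ) * I - (|x| : ℝ))‖ := by
      have := Complex.abs_im_le_norm ((b : ℂ) - (v : ℂ) * I - (|x| : ℝ))
      simpa using this
    have h5 : |x| ≤ ‖((b : ℂ) - (v : ℂ) * I + (|x| : ℝ))‖ := by
      have := Complex.abs_re_le_norm ((b : ℂ) - (v : ℂ) * I + (|x| : ℝ))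
      simp only [Complex.add_re, Complex.sub_re, Complex.ofReal_re, Complex.mul_re, Complex.I_re,
        Complex.ofReal_im, Complex.I_im, mul_zero, zero_mul, sub_zero] at this
      exact le_trans (by linarith) ((le_abs_self _).trans this)
    exact mul_le_mul h4 h5 (abs_nonneg _) (norm_nonneg _)
  have h6 : |x| / v ^ 2 = x ^ 2 / (|v| * (|v| * |x|)) := by
    rw [← sq_abs x, ← sq_abs v]
    field_simp
  rw [h6]
  exact div_le_div_of_nonneg_left (by positivity) (by positivity)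
    (mul_le_mul h1 h2 (by positivity) (norm_nonneg _))

end Pool.Agent.Helper69.GGM
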