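import Pool.Agent.Helper57.M.C

/-!
# GGM block HD1: logarithmic derivatives of zeta and xi differ by a slowly varying function

Proof. (1) Copy the proof of `logDeriv_xi` (`Pool/Agent/Helper57/M/C.lean` line 20) for `0 < s.re`, `s ≠ 1`,
`ζ(s) ≠ 0` (there `1 < s.re` is only used for `ζ ≠ 0`, `s ≠ 0, 1` and `xi_eq_zeta`):
`logDeriv xi s = 1/s + 1/(s-1) - (log π)/2 + digamma (s/2)/2 + logDeriv ζ s`.
(2) `digamma (s/2) = digamma (s/2+1) - 2/s` (`Complex.digamma_apply_add_one`), and `digamma_hasSum`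
(`M/B.lean` line 192, real part > 1/2) gives `digamma(s/2+1) - digamma(s'/2+1) =
Σ_n ((s-s')/2) / ((n+1+s/2)(n+1+s'/2))`, of norm `<= Σ (3/2)/((n+1)^2) <= 3`.
(3) all other terms are `<= 2` in norm because `|Im s|, |Im s'| >= 1`.
-/

open Complex Set MeasureTheory Filter Topology
open Pool.Agent.Helper57.LH Pool.Agent.Helper57.Zeta

namespace Pool.Agent.Helper69.GGM

lemma hd1_logDeriv {s : ℂ} (hs : 0 < s.re) (hs1 : s ≠ 1) (hz : riemannZeta s ≠ 0) : logDeriv xi s =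
    1 / s + (1 / (s - 1) + (-(Real.log Real.pi : ℂ) / 2 + (Complex.digamma (s / 2) / 2 + logDeriv riemannZeta s))) := by
  have hpi : (Real.pi : ℂ) ≠ 0 := by exact_mod_cast Real.pi_ne_zero
  have hs0 : s ≠ 0 := by rintro rfl; norm_num at hs
  have hev : xi =ᶠ[𝓝 s] fun z => z * ((z - 1) * ((Real.pi : ℂ) ^ (-z / 2) * (Gamma (z / 2) * riemannZeta z))) := by
    filter_upwards [(isOpen_lt continuous_const Complex.continuous_re).mem_nhds hs,
      isOpen_ne.mem_nhds hs1] with z hz hz1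
    have hz' : 0 < z.re := hz
    rw [xi_eq_zeta hz' hz1, Gammaℝ_def]
    ring
  have h1 := (logDeriv_congr_nhds hev).self_of_nhds
  rw [h1]
  have hs2 : 0 < (s / 2).re := by
    rw [show s / 2 = ((1/2 : ℝ) : ℂ) * s by push_cast; ring, Complex.re_ofReal_mul]; linarith only [hs]
  have hG : Gamma (s / 2) ≠ 0 := Complex.Gamma_ne_zero_of_re_pos hs2
  have hdz : DifferentiableAt ℂ riemannZeta s := differentiableAt_riemannZeta hs1
  have hdG0 : DifferentiableAt ℂ Gamma (s / 2) := Complex.differentiableAt_Gamma _ (ne_neg_nat_re hs2)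
  have hdG : DifferentiableAt ℂ (fun z => Gamma (z / 2)) s :=
    DifferentiableAt.comp s hdG0 (by fun_prop)
  have hP : HasDerivAt (fun z : ℂ => (Real.pi : ℂ) ^ (-z / 2)) ((Real.pi : ℂ) ^ (-s / 2) * Complex.log Real.pi * (-1 / 2)) s :=
    HasDerivAt.const_cpow ((hasDerivAt_id s).fun_neg.div_const 2) (Or.inl hpi)
  have hP0 : (Real.pi : ℂ) ^ (-s / 2) ≠ 0 := by
    rw [Complex.cpow_def_of_ne_zero hpi]; exact Complex.exp_ne_zero _
  rw [logDeriv_mul (f := fun z => z) (g := fun z => (z - 1) * ((Real.pi : ℂ) ^ (-z / 2) * (Gamma (z / 2) * riemannZeta z))) s hs0 (mul_ne_zero (sub_ne_zero.mpr hs1) (mul_ne_zero hP0 (mul_ne_zero hG hz))) differentiableAt_id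
    ((by fun_prop : DifferentiableAt ℂ (fun z : ℂ => z - 1) s).mul (hP.differentiableAt.mul (hdG.mul hdz)))]
  rw [logDeriv_mul (f := fun z => z - 1) (g := fun z => ((Real.pi : ℂ) ^ (-z / 2) * (Gamma (z / 2) * riemannZeta z))) s (sub_ne_zero.mpr hs1) (mul_ne_zero hP0 (mul_ne_zero hG hz)) (by fun_prop)
    (hP.differentiableAt.mul (hdG.mul hdz))]
  rw [logDeriv_mul (f := fun z => (Real.pi : ℂ) ^ (-z / 2)) (g := fun z => (Gamma (z / 2) * riemannZeta z)) s hP0 (mul_ne_zero hG hz) hP.differentiableAt (hdG.mul hdz)]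
  rw [logDeriv_mul (f := fun z => Gamma (z / 2)) (g := riemannZeta) s hG hz hdG hdz]
  congr 1
  · rw [logDeriv_apply]; simp
  congr 1
  · rw [logDeriv_apply]; simp
  congr 1
  · rw [logDeriv_apply, hP.deriv, Complex.ofReal_log Real.pi_pos.le]
    field_simp
  congr 1
  · rw [logDeriv_apply, Complex.digamma_def, logDeriv_apply]
    have h2 : HasDerivAt (fun z => Gamma (z / 2)) (deriv Gamma (s / 2) * (1 / 2)) s := by
      have h3 : HasDerivAt (fun z : ℂ => z / 2) (1 / 2) s := (hasDerivAt_id s).div_const 2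
      exact HasDerivAt.comp s hdG0.hasDerivAt h3
    rw [h2.deriv]
    ring

/-- One term of the difference of two digamma series. -/
lemma hd1_term {u u' : ℂ} (hu : 1 ≤ u.re) (hu' : 1 ≤ u'.re) (n : ℕ) :
    ‖(1 / ((n:ℂ) + 1) - 1 / ((n:ℂ) + u)) - (1 / ((n:ℂ) + 1) - 1 / ((n:ℂ) + u'))‖
      ≤ ‖u - u'‖ * (1 / ((n:ℝ) + 1) ^ 2) := by
  have hn : (0:ℝ) ≤ n := Nat.cast_nonneg n
  have hb : ∀ v : ℂ, 1 ≤ v.re → (n:ℝ) + 1 ≤ ‖(n:ℂ) + v‖ := by
    intro v hv
    have h := Complex.re_le_norm ((n:ℂ) + v)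
    rw [Complex.add_re, Complex.natCast_re] at h
    linarith
  have h1 := hb u hu
  have h2 := hb u' hu'
  have hne : ∀ v : ℂ, 1 ≤ v.re → (n:ℂ) + v ≠ 0 := by
    intro v hv h0
    have := hb v hv
    rw [h0, norm_zero] at this
    linarith
  have e : (1 / ((n:ℂ) + 1) - 1 / ((n:ℂ) + u)) - (1 / ((n:ℂ) + 1) - 1 / ((n:ℂ) + u'))
      = (u - u') / (((n:ℂ) + u) * ((n:ℂ) + u')) := by
    have a1 := hne u hu
    have a2 := hne u' hu'
    field_simp
    ring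
  rw [e, norm_div, norm_mul, div_eq_mul_inv]
  apply mul_le_mul_of_nonneg_left _ (norm_nonneg _)
  rw [one_div]
  apply inv_anti₀ (by positivity)
  rw [sq]
  exact mul_le_mul h1 h2 (by positivity) (norm_nonneg _)

lemma hd1_summable : Summable (fun n : ℕ => 1 / ((n:ℝ) + 1) ^ 2) := by
  have h := (summable_nat_add_iff 1).2 (Real.summable_one_div_nat_pow.2 (by norm_num : 1 < 2))
  refine h.congr fun n => ?_
  push_cast
  rfl

lemma hd1_digamma {u u' : ℂ} (hu : 1 ≤ u.re) (hu' : 1 ≤ u'.re) :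
    ‖Complex.digamma u - Complex.digamma u'‖ ≤ ‖u - u'‖ * ∑' n : ℕ, 1 / ((n:ℝ) + 1) ^ 2 := by
  have h1 := digamma_hasSum (s := u) (by linarith)
  have h2 := digamma_hasSum (s := u') (by linarith)
  have h3 := h1.sub h2
  have e : Complex.digamma u + Real.eulerMascheroniConstant
      - (Complex.digamma u' + Real.eulerMascheroniConstant)
      = Complex.digamma u - Complex.digamma u' := by ring
  rw [e] at h3
  rw [← h3.tsum_eq]
  have hs : Summable (fun n : ℕ => ‖u - u'‖ * (1 / ((n:ℝ) + 1) ^ 2)) := hd1_summable.mul_left _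
  have h4 := tsum_of_norm_bounded hs.hasSum (fun n => hd1_term hu hu' n)
  rwa [tsum_mul_left] at h4

lemma hd1_inv {s : ℂ} (h : 1 ≤ s.im) : ‖(1 : ℂ) / s‖ ≤ 1 ∧ ‖(1 : ℂ) / (s - 1)‖ ≤ 1 ∧ ‖(s / 2)⁻¹‖ ≤ 2 := by
  have h1 : 1 ≤ ‖s‖ := h.trans (Complex.im_le_norm s)
  have h2 : 1 ≤ ‖s - 1‖ := by
    have := Complex.im_le_norm (s - 1)
    rw [Complex.sub_im, Complex.one_im, sub_zero] at this
    linarith
  refine ⟨?_, ?_, ?_⟩
  · rw [norm_div, norm_one]
    exact (div_le_one (by linarith)).2 h1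
  · rw [norm_div, norm_one]
    exact (div_le_one (by linarith)).2 h2
  · rw [norm_inv, norm_div, Complex.norm_two, inv_div]
    rw [div_le_iff₀ (by linarith)]
    linarith

theorem arch_diff : ∃ C : ℝ, 0 < C ∧ ∀ s s' : ℂ, 1 / 2 ≤ s.re → s.re ≤ 3 → 1 ≤ s.im →
    1 / 2 ≤ s'.re → s'.re ≤ 3 → 1 ≤ s'.im → ‖s - s'‖ ≤ 3 → riemannZeta s ≠ 0 → riemannZeta s' ≠ 0 →
    ‖(logDeriv riemannZeta s - logDeriv riemannZeta s') - (logDeriv xi s - logDeriv xi s')‖ ≤ C := by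
  set K : ℝ := ∑' n : ℕ, 1 / ((n:ℝ) + 1) ^ 2 with hK
  have hK0 : 0 ≤ K := tsum_nonneg fun n => by positivity
  refine ⟨6 + K, by positivity, ?_⟩
  intro s s' hs _ hsi hs' _ hsi' hd hz hz'
  have hne1 : s ≠ 1 := by
    rintro rfl
    norm_num at hsi
  have hne1' : s' ≠ 1 := by
    rintro rfl
    norm_num at hsi'
  have hre2 : ∀ v : ℂ, (v / 2).re = v.re / 2 := by
    intro v
    rw [show v / 2 = ((1/2 : ℝ) : ℂ) * v by push_cast; ring, Complex.re_ofReal_mul]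
    ring
  rw [hd1_logDeriv (by linarith) hne1 hz, hd1_logDeriv (by linarith) hne1' hz']
  have hdg : ∀ v : ℂ, 1 / 2 ≤ v.re → Complex.digamma (v / 2) = Complex.digamma (v / 2 + 1) - (v / 2)⁻¹ := by
    intro v hv
    have h0 : 0 < (v / 2).re := by rw [hre2]; linarith
    rw [Complex.digamma_apply_add_one (v / 2) (ne_neg_nat_re h0)]
    ring
  rw [hdg s hs, hdg s' hs']
  obtain ⟨a1, a2, a3⟩ := hd1_inv hsi
  obtain ⟨b1, b2, b3⟩ := hd1_inv hsi'
  have hre1 : ∀ v : ℂ, 1 / 2 ≤ v.re → 1 ≤ (v / 2 + 1).re := by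
    intro v hv
    rw [Complex.add_re, hre2, Complex.one_re]
    linarith
  have hD := hd1_digamma (hre1 s hs) (hre1 s' hs')
  have hu : ‖s / 2 + 1 - (s' / 2 + 1)‖ ≤ 3 / 2 := by
    have e : s / 2 + 1 - (s' / 2 + 1) = (s - s') / 2 := by ring
    rw [e, norm_div, Complex.norm_two]
    linarith
  have hD2 : ‖Complex.digamma (s / 2 + 1) - Complex.digamma (s' / 2 + 1)‖ ≤ 3 / 2 * K :=
    hD.trans (mul_le_mul_of_nonneg_right hu hK0)
  set D := Complex.digamma (s / 2 + 1)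
  set D' := Complex.digamma (s' / 2 + 1)
  set P : ℂ := -(Real.log Real.pi : ℂ) / 2
  have e : (logDeriv riemannZeta s - logDeriv riemannZeta s') -
      (1 / s + (1 / (s - 1) + (P + ((D - (s / 2)⁻¹) / 2 + logDeriv riemannZeta s))) -
        (1 / s' + (1 / (s' - 1) + (P + ((D' - (s' / 2)⁻¹) / 2 + logDeriv riemannZeta s')))))
      = (1 / s' - 1 / s) + (1 / (s' - 1) - 1 / (s - 1)) + (((s / 2)⁻¹ - (s' / 2)⁻¹) / 2 - (D - D') / 2) := by
    ring
  rw [e]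
  have n1 : ‖(1 / s' - 1 / s : ℂ)‖ ≤ 2 := (norm_sub_le _ _).trans (by linarith)
  have n2 : ‖(1 / (s' - 1) - 1 / (s - 1) : ℂ)‖ ≤ 2 := (norm_sub_le _ _).trans (by linarith)
  have n3 : ‖(((s / 2)⁻¹ - (s' / 2)⁻¹) / 2 : ℂ)‖ ≤ 2 := by
    rw [norm_div, Complex.norm_two]
    have := norm_sub_le (s / 2)⁻¹ (s' / 2)⁻¹
    linarith
  have n4 : ‖((D - D') / 2 : ℂ)‖ ≤ K := by
    rw [norm_div, Complex.norm_two]
    linarith
  have n5 := norm_sub_le (((s / 2)⁻¹ - (s' / 2)⁻¹) / 2) ((D - D') / 2)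
  have n6 := norm_add_le (1 / s' - 1 / s) (1 / (s' - 1) - 1 / (s - 1))
  have n7 := norm_add_le ((1 / s' - 1 / s) + (1 / (s' - 1) - 1 / (s - 1)))
    (((s / 2)⁻¹ - (s' / 2)⁻¹) / 2 - (D - D') / 2)
  linarith

end Pool.Agent.Helper69.GGM
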