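import Pool.Agent.Helper57.M.E
import Pool.Agent.Helper69.GGM.Defs

/-!
# GGM block HD2: partial fractions with the zeros up to height T

Proof. `pf_tendsto` (`M/Z.lean` line 3379): `logDeriv xi s = lim_R Σ_{ρ ∈ ZR R} mx ρ/(s-ρ)`. For large `R`,
`Zf T ⊆ ZR R`, and the remaining zeros have `γ < 0` or `γ > T`. With `t = s.im, t' = s'.im` in
`[δT,(1-δ)T]` put `d(γ) = γ - (1-δ)T` for `γ > T` and `d(γ) = δT - γ` for `γ < 0`; then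
`|1/(s-ρ) - 1/(s'-ρ)| <= |s-s'|/(|γ-t||γ-t'|) <= 3/d(γ)^2`, and `d(γ) >= (δ/2)(T + |γ|)/2`-type lower bound
(for `γ > T`: `d(γ) >= δ γ`; for `γ < 0`: `d(γ) >= δ (T + |γ|)`), so each term is
`<= 3/(δ^2 max(T,|γ|)^2)`. For any finite set `G` of zeros with `|γ| >= T` or `γ < 0`:
`Σ_{ρ ∈ G} mx ρ/(T+|γ|)^2 <= ∫ (Σ_{ρ ∈ G, |γ-τ|<=1} mx ρ) * C/(T+|τ|)^2 dτ <= C ∫ (1+|τ|)^(1/2)/(T+|τ|)^2 dτ
<= C T^(-1/4) ∫ (1+|τ|)^(-5/4) dτ` by `loc_count` and `Afun_bound` (`Afun τ <= CA sqrt(1+|τ|)`), which tends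
to 0 as `T → ∞` (`wf_integrable`). Pass to the limit `R → ∞`.
-/

open Complex Set MeasureTheory Filter Topology
open Pool.Agent.Helper57.LH Pool.Agent.Helper57.PC Pool.Agent.Helper57.Zeta

namespace Pool.Agent.Helper69.GGM

/-- the sum of `mx ρ / (1 + |γ|)^2` over all zeros converges -/
lemma hd2_summable : Summable (fun ρ : ZS => mx ρ / (1 + |(ρ:ℂ).im|) ^ 2) := by
  have h1 : Summable (fun ρ : ZS => 4 * fz ρ 0) := (fz_hasSum 0).summable.mul_left 4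
  refine Summable.of_nonneg_of_le (fun ρ => ?_) (fun ρ => ?_) h1
  · have := mx_nonneg (ρ:ℂ)
    positivity
  · have hr := zs_re ρ
    have hm := mx_nonneg (ρ:ℂ)
    unfold fz
    set a := 2 - (ρ:ℂ).re with ha
    have ha1 : 1 < a := by rw [ha]; linarith only [hr]
    have ha2 : a < 2 := by rw [ha]; linarith only [hr]
    have h0 := abs_nonneg (ρ:ℂ).im
    have hsq : (0 - (ρ:ℂ).im) ^ 2 = |(ρ:ℂ).im| ^ 2 := by rw [sq_abs]; ring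
    rw [hsq]
    set g := |(ρ:ℂ).im| with hg
    have h4 : 1 / (1 + g) ^ 2 ≤ 4 * (a / (a ^ 2 + g ^ 2)) := by
      rw [← mul_div_assoc, div_le_div_iff₀ (by positivity) (by positivity)]
      have e1 : a ^ 2 ≤ 4 := by nlinarith only [ha1, ha2]
      have e2 : 4 * (1 + g) ^ 2 ≤ 4 * a * (1 + g) ^ 2 := by
        have : 0 ≤ (1 + g) ^ 2 := by positivity
        nlinarith only [ha1, this]
      nlinarith only [e1, e2, h0]
    calc mx ρ / (1 + g) ^ 2 = mx ρ * (1 / (1 + g) ^ 2) := by ring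
      _ ≤ mx ρ * (4 * (a / (a ^ 2 + g ^ 2))) := by gcongr
      _ = _ := by ring

/-- the tail sums tend to zero -/
lemma hd2_tail : Tendsto (fun T : ℝ => ∑' ρ : ZS, mx ρ / (T + |(ρ:ℂ).im|) ^ 2) atTop (𝓝 0) := by
  have h := tendsto_tsum_of_dominated_convergence (𝓕 := (atTop : Filter ℝ))
    (f := fun T (ρ : ZS) => mx ρ / (T + |(ρ:ℂ).im|) ^ 2) (g := fun _ : ZS => (0:ℝ))
    (bound := fun ρ : ZS => mx ρ / (1 + |(ρ:ℂ).im|) ^ 2) hd2_summable ?_ ?_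
  · rwa [tsum_zero] at h
  · intro ρ
    apply Tendsto.div_atTop tendsto_const_nhds
    apply (tendsto_pow_atTop two_ne_zero).comp
    exact tendsto_atTop_add_const_right _ _ tendsto_id
  · filter_upwards [eventually_ge_atTop 1] with T hT ρ
    have hm := mx_nonneg (ρ:ℂ)
    have h0 := abs_nonneg (ρ:ℂ).im
    rw [Real.norm_of_nonneg (by positivity)]
    apply div_le_div_of_nonneg_left hm (by positivity)
    gcongr

/-- lower bound for the distance of a far zero -/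
lemma hd2_dist {δ T t g : ℝ} (hδ : 0 < δ) (hδ2 : δ < 1 / 2) (hT : 0 < T) (ht1 : δ * T ≤ t) (ht2 : t ≤ (1 - δ) * T)
    (hg : g < 0 ∨ T < g) : δ / 2 * (T + |g|) ≤ |t - g| := by
  rcases hg with h | h
  · rw [abs_of_neg h, abs_of_pos (by nlinarith)]
    nlinarith
  · have hg0 : 0 < g := hT.trans h
    have h1 : t < g := by nlinarith
    rw [abs_of_pos hg0, abs_sub_comm, abs_of_pos (by linarith)]
    nlinarith

lemma hd2_term {δ T : ℝ} (hδ : 0 < δ) (hδ2 : δ < 1 / 2) (hT : 0 < T) {s s' ρ : ℂ}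
    (h1 : δ * T ≤ s.im) (h2 : s.im ≤ (1 - δ) * T) (h3 : δ * T ≤ s'.im) (h4 : s'.im ≤ (1 - δ) * T)
    (hss : ‖s - s'‖ ≤ 3) (hρ : ρ.im < 0 ∨ T < ρ.im) :
    ‖1 / (s - ρ) - 1 / (s' - ρ)‖ ≤ 12 / δ ^ 2 * (1 / (T + |ρ.im|) ^ 2) := by
  have d1 := hd2_dist hδ hδ2 hT h1 h2 hρ
  have d2 := hd2_dist hδ hδ2 hT h3 h4 hρ
  have e1 : |s.im - ρ.im| ≤ ‖s - ρ‖ := by
    rw [← Complex.sub_im]; exact Complex.abs_im_le_norm _
  have e2 : |s'.im - ρ.im| ≤ ‖s' - ρ‖ := by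
    rw [← Complex.sub_im]; exact Complex.abs_im_le_norm _
  have h0 := abs_nonneg ρ.im
  have hp : 0 < δ / 2 * (T + |ρ.im|) := by positivity
  have n1 : 0 < ‖s - ρ‖ := hp.trans_le (d1.trans e1)
  have n2 : 0 < ‖s' - ρ‖ := hp.trans_le (d2.trans e2)
  have z1 : s - ρ ≠ 0 := norm_pos_iff.mp n1
  have z2 : s' - ρ ≠ 0 := norm_pos_iff.mp n2
  have e3 : 1 / (s - ρ) - 1 / (s' - ρ) = -(s - s') / ((s - ρ) * (s' - ρ)) := by
    field_simp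
    ring
  rw [e3, norm_div, norm_neg, norm_mul]
  calc ‖s - s'‖ / (‖s - ρ‖ * ‖s' - ρ‖) ≤ 3 / ((δ / 2 * (T + |ρ.im|)) * (δ / 2 * (T + |ρ.im|))) := by
        apply div_le_div₀ (by norm_num) hss (by positivity)
        exact mul_le_mul (d1.trans e1) (d2.trans e2) hp.le n1.le
    _ = _ := by
        field_simp
        ring

theorem xi_diff : ∀ δ : ℝ, 0 < δ → δ < 1 / 2 → ∃ T₀ : ℝ, ∀ T : ℝ, T₀ ≤ T → ∀ s s' : ℂ,
    0 ≤ s.re → s.re ≤ 3 → δ * T ≤ s.im → s.im ≤ (1 - δ) * T →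
    0 ≤ s'.re → s'.re ≤ 3 → δ * T ≤ s'.im → s'.im ≤ (1 - δ) * T → ‖s - s'‖ ≤ 3 →
    xi s ≠ 0 → xi s' ≠ 0 →
    ‖logDeriv xi s - logDeriv xi s' - ∑ ρ ∈ Zf T, (mx ρ : ℂ) * (1 / (s - ρ) - 1 / (s' - ρ))‖ ≤ 1 := by
  classical
  intro δ hδ hδ2
  have htail := hd2_tail
  have hev : ∀ᶠ T : ℝ in atTop, ∑' ρ : ZS, mx ρ / (T + |(ρ:ℂ).im|) ^ 2 < δ ^ 2 / 12 :=
    htail.eventually_lt_const (by positivity)
  obtain ⟨T₁, hT₁⟩ := eventually_atTop.mp hev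
  refine ⟨max T₁ 1, ?_⟩
  intro T hT s s' _ _ h1 h2 _ _ h3 h4 hss hxs hxs'
  have hTT : T₁ ≤ T := (le_max_left _ _).trans hT
  have hT1 : 1 ≤ T := (le_max_right _ _).trans hT
  have hT0 : 0 < T := by linarith
  have hsmall := (hT₁ T hTT).le
  have hsumT : Summable (fun ρ : ZS => mx ρ / (T + |(ρ:ℂ).im|) ^ 2) := by
    refine Summable.of_nonneg_of_le (fun ρ => ?_) (fun ρ => ?_) hd2_summable
    · have hm := mx_nonneg (ρ:ℂ)
      positivity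
    · have hm := mx_nonneg (ρ:ℂ)
      have h0 := abs_nonneg (ρ:ℂ).im
      apply div_le_div_of_nonneg_left hm (by positivity)
      gcongr
  have hl1 := pf_tendsto hxs
  have hl2 := pf_tendsto hxs'
  have hl := ((hl1.sub hl2).sub_const (∑ ρ ∈ Zf T, (mx ρ : ℂ) * (1 / (s - ρ) - 1 / (s' - ρ)))).norm
  refine le_of_tendsto hl ?_
  -- for large R the zeros up to height T are in the disc
  have hR : ∀ᶠ R : ℝ in atTop, Zf T ⊆ ZR R := by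
    have : ∀ ρ ∈ Zf T, ∀ᶠ R : ℝ in atTop, ρ ∈ ZR R := by
      intro ρ hρ
      filter_upwards [eventually_ge_atTop ‖ρ - 1 / 2‖] with R hR
      rw [mem_ZR]
      exact ⟨isNontrivialZero_iff.mp (mem_Zf.mp hρ).1, hR⟩
    have h5 := (Finset.eventually_all (Zf T)).mpr this
    filter_upwards [h5] with R hR
    exact fun ρ hρ => hR ρ hρ
  filter_upwards [hR] with R hsub
  have e1 : ∑ ρ ∈ ZR R, (mx ρ : ℂ) / (s - ρ) - ∑ ρ ∈ ZR R, (mx ρ : ℂ) / (s' - ρ) -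
      ∑ ρ ∈ Zf T, (mx ρ : ℂ) * (1 / (s - ρ) - 1 / (s' - ρ)) =
      ∑ ρ ∈ ZR R \ Zf T, (mx ρ : ℂ) * (1 / (s - ρ) - 1 / (s' - ρ)) := by
    rw [← Finset.sum_sub_distrib]
    have e2 : ∀ ρ : ℂ, (mx ρ : ℂ) / (s - ρ) - (mx ρ : ℂ) / (s' - ρ) = (mx ρ : ℂ) * (1 / (s - ρ) - 1 / (s' - ρ)) := by
      intro ρ; ring
    simp_rw [e2]
    rw [← Finset.sum_sdiff hsub]
    ring
  rw [e1]
  refine (norm_sum_le _ _).trans ?_
  have hterm : ∀ ρ ∈ ZR R \ Zf T, ‖(mx ρ : ℂ) * (1 / (s - ρ) - 1 / (s' - ρ))‖ ≤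
      12 / δ ^ 2 * (mx ρ / (T + |ρ.im|) ^ 2) := by
    intro ρ hρ
    rw [Finset.mem_sdiff, mem_ZR, mem_Zf, isNontrivialZero_iff] at hρ
    obtain ⟨⟨hx, _⟩, hn⟩ := hρ
    have him : ρ.im < 0 ∨ T < ρ.im := by
      by_contra hcon
      push Not at hcon
      exact hn ⟨hx, hcon.1, hcon.2⟩
    have hm := mx_nonneg ρ
    rw [norm_mul, Complex.norm_real, Real.norm_of_nonneg hm]
    calc mx ρ * ‖1 / (s - ρ) - 1 / (s' - ρ)‖ ≤ mx ρ * (12 / δ ^ 2 * (1 / (T + |ρ.im|) ^ 2)) := by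
          gcongr
          exact hd2_term hδ hδ2 hT0 h1 h2 h3 h4 hss him
      _ = _ := by ring
  refine (Finset.sum_le_sum hterm).trans ?_
  rw [← Finset.mul_sum]
  have hfin : ∑ ρ ∈ ZR R \ Zf T, mx ρ / (T + |ρ.im|) ^ 2 ≤ ∑' ρ : ZS, mx ρ / (T + |(ρ:ℂ).im|) ^ 2 := by
    have e3 : ∑ ρ ∈ ZR R \ Zf T, mx ρ / (T + |ρ.im|) ^ 2 =
        ∑ ρ ∈ (ZR R \ Zf T).subtype (fun ρ => xi ρ = 0), mx ρ / (T + |(ρ:ℂ).im|) ^ 2 := by
      rw [Finset.sum_subtype_of_mem (f := fun ρ : ℂ => mx ρ / (T + |ρ.im|) ^ 2)]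
      intro ρ hρ
      rw [Finset.mem_sdiff, mem_ZR] at hρ
      exact hρ.1.1
    rw [e3]
    apply hsumT.sum_le_tsum
    intro ρ _
    have hm := mx_nonneg (ρ:ℂ)
    positivity
  calc 12 / δ ^ 2 * ∑ ρ ∈ ZR R \ Zf T, mx ρ / (T + |ρ.im|) ^ 2 ≤ 12 / δ ^ 2 * (δ ^ 2 / 12) := by
        gcongr
        exact hfin.trans hsmall
    _ = 1 := by field_simp

end Pool.Agent.Helper69.GGM
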