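import Pool.Agent.Helper69.GGM.PH4

/-!
# GGM block TL: number of pairs in windows of length one

Proof. `L = log T`, `φ(v) = 1/(1+v^2)`, `Phi T t = Σ m φ(L(γ-t))`. If `(γ-γ')L/2π ∈ [u,u+1]`, put
`θ = L(γ-γ') - 2πu ∈ [0,2π]`; then `∫ φ(L(γ-t)) φ(L(γ'-t)+2πu) dt = (1/L) ∫ φ(y+θ) φ(y) dy >= c/L`
with `c = 1/120` (for `y ∈ [0,1]`: `φ(y) >= 1/2`, `φ(y+θ) >= 1/(1+(1+2π)^2) >= 1/60`).
Summing over the pairs, `pairCount T u (u+1) <= 120 L ∫ Phi T t * Phi T (t - 2πu/L) dt <= 120 L ∫ Phi^2`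
and `Phi^2 <= Phi + Phi^4`, `∫ Phi = (π/L) NT T <= C T` (`NT_le_ev`), `∫ Phi^4 <= C T` (`Phi_fourth`).
Finally `L T = 2π SN T`.
-/

open Complex Set MeasureTheory Filter Topology
open Pool.Agent.Helper57.LH Pool.Agent.Helper57.PC Pool.Agent.Helper57.Zeta

namespace Pool.Agent.Helper69.GGM

theorem tl_integrable {L : ℝ} (hL : 0 < L) (c : ℝ) :
    Integrable (fun t : ℝ => (1 + (L * (c - t)) ^ 2)⁻¹) := by
  have h1 : Integrable fun x : ℝ => (1 + x ^ 2)⁻¹ := integrable_inv_one_add_sq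
  have h2 : Integrable fun x : ℝ => (1 + (L * x) ^ 2)⁻¹ := h1.comp_mul_left' hL.ne'
  exact h2.comp_sub_left c

theorem tl_integral {L : ℝ} (hL : 0 < L) (c : ℝ) :
    ∫ t : ℝ, (1 + (L * (c - t)) ^ 2)⁻¹ = Real.pi / L := by
  rw [integral_sub_left_eq_self (fun x : ℝ => (1 + (L * x) ^ 2)⁻¹) volume c,
    Measure.integral_comp_mul_left (fun x : ℝ => (1 + x ^ 2)⁻¹) L, integral_univ_inv_one_add_sq,
    abs_of_pos (inv_pos.mpr hL), smul_eq_mul, inv_mul_eq_div]

theorem tl_cont (T : ℝ) : Continuous (Phi T) := by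
  unfold Phi
  refine continuous_finsetSum _ fun ρ _ => ?_
  refine continuous_const.mul ?_
  refine Continuous.inv₀ (by fun_prop) fun t => ?_
  positivity

theorem tl_mx_nonneg (ρ : ℂ) : 0 ≤ mx ρ := by unfold mx; positivity

theorem tl_nonneg (T t : ℝ) : 0 ≤ Phi T t := by
  unfold Phi
  refine Finset.sum_nonneg fun ρ _ => mul_nonneg (tl_mx_nonneg ρ) ?_
  positivity

theorem tl_mx {T : ℝ} {ρ : ℂ} (h : ρ ∈ Zf T) : mx ρ = (mult ρ : ℝ) := by
  rw [mem_Zf] at h
  unfold mx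
  rw [mult_eq h.1]

theorem tl_NT (T : ℝ) : ∑ ρ ∈ Zf T, mx ρ = NT T := by
  unfold NT
  exact Finset.sum_congr rfl fun ρ h => tl_mx h

theorem tl_phi_integrable {T : ℝ} (hL : 0 < Real.log T) : Integrable (Phi T) := by
  have : Phi T = fun t => ∑ ρ ∈ Zf T, mx ρ * (1 + (Real.log T * (ρ.im - t)) ^ 2)⁻¹ := rfl
  rw [this]
  exact integrable_finsetSum _ fun ρ _ => (tl_integrable hL ρ.im).const_mul _

theorem tl_phi_integral {T : ℝ} (hL : 0 < Real.log T) :
    ∫ t, Phi T t = Real.pi / Real.log T * NT T := by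
  have : Phi T = fun t => ∑ ρ ∈ Zf T, mx ρ * (1 + (Real.log T * (ρ.im - t)) ^ 2)⁻¹ := rfl
  rw [this, integral_finsetSum _ fun ρ _ => (tl_integrable hL ρ.im).const_mul _, ← tl_NT,
    Finset.mul_sum]
  refine Finset.sum_congr rfl fun ρ _ => ?_
  rw [integral_const_mul, tl_integral hL]
  ring

/-- the overlap of two bumps -/
theorem tl_overlap {L : ℝ} (hL : 0 < L) {c c' s : ℝ} (h0 : 0 ≤ L * (c - c') - s)
    (h1 : L * (c - c') - s ≤ 2 * Real.pi) :
    1 / (120 * L) ≤ ∫ t : ℝ, (1 + (L * (c - t)) ^ 2)⁻¹ * (1 + (L * (c' - (t - s / L))) ^ 2)⁻¹ := by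
  set g : ℝ → ℝ := fun t => (1 + (L * (c - t)) ^ 2)⁻¹ * (1 + (L * (c' - (t - s / L))) ^ 2)⁻¹ with hg
  have hgn : ∀ t, 0 ≤ g t := fun t => by rw [hg]; positivity
  have hgc : Continuous g := by
    rw [hg]
    refine Continuous.mul (Continuous.inv₀ (by fun_prop) fun t => ?_)
      (Continuous.inv₀ (by fun_prop) fun t => ?_)
    · positivity
    · positivity
  have hgi : Integrable g := by
    refine (tl_integrable hL c).mono hgc.aestronglyMeasurable (Eventually.of_forall fun t => ?_)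
    rw [Real.norm_of_nonneg (hgn t), Real.norm_of_nonneg (by positivity)]
    have h2 : (1 + (L * (c' - (t - s / L))) ^ 2)⁻¹ ≤ 1 := inv_le_one_of_one_le₀ (by nlinarith [sq_nonneg (L * (c' - (t - s / L)))])
    have h3 : 0 ≤ (1 + (L * (c - t)) ^ 2)⁻¹ := by positivity
    calc g t ≤ (1 + (L * (c - t)) ^ 2)⁻¹ * 1 := mul_le_mul_of_nonneg_left h2 h3
      _ = _ := mul_one _
  set a : ℝ := c' + s / L - 1 / L with ha
  have hab : a ≤ a + 1 / L := by have : 0 < 1 / L := by positivity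
                                 linarith
  have hlow : ∀ t ∈ Icc a (a + 1 / L), (1 / 120 : ℝ) ≤ g t := by
    intro t ht
    have e1 : L * (c' - (t - s / L)) = L * (c' - t) + s := by field_simp; ring
    have hy0 : 0 ≤ L * (c' - t) + s := by
      have h2 : t ≤ c' + s / L := by have := ht.2; rw [ha] at this; linarith
      have h3 : L * t ≤ L * (c' + s / L) := mul_le_mul_of_nonneg_left h2 hL.le
      have h4 : L * (c' + s / L) = L * c' + s := by field_simp
      nlinarith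
    have hy1 : L * (c' - t) + s ≤ 1 := by
      have h2 : c' + s / L - 1 / L ≤ t := ht.1
      have h3 : L * (c' + s / L - 1 / L) ≤ L * t := mul_le_mul_of_nonneg_left h2 hL.le
      have h4 : L * (c' + s / L - 1 / L) = L * c' + s - 1 := by field_simp
      nlinarith
    set y : ℝ := L * (c' - t) + s with hy
    have e2 : L * (c - t) = y + (L * (c - c') - s) := by rw [hy]; ring
    have hpi : Real.pi < 3.15 := Real.pi_lt_d2
    have hb0 : 0 ≤ L * (c - t) := by rw [e2]; linarith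
    have hb1 : L * (c - t) ≤ 7.3 := by rw [e2]; linarith
    have h5 : (1 / 2 : ℝ) ≤ (1 + y ^ 2)⁻¹ := by
      rw [one_div]
      apply inv_anti₀ (by positivity)
      nlinarith
    have h6 : (1 / 60 : ℝ) ≤ (1 + (L * (c - t)) ^ 2)⁻¹ := by
      rw [one_div]
      apply inv_anti₀ (by positivity)
      nlinarith
    have h7 : g t = (1 + (L * (c - t)) ^ 2)⁻¹ * (1 + y ^ 2)⁻¹ := by
      rw [hg]; simp only [e1, hy]
    rw [h7]
    calc (1 / 120 : ℝ) = 1 / 60 * (1 / 2) := by norm_num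
      _ ≤ _ := mul_le_mul h6 h5 (by norm_num) (by positivity)
  calc 1 / (120 * L) = ∫ _t in Icc a (a + 1 / L), (1 / 120 : ℝ) := by
        rw [setIntegral_const, smul_eq_mul, Measure.real, Real.volume_Icc,
          ENNReal.toReal_ofReal (by linarith)]
        field_simp
        ring
    _ ≤ ∫ t in Icc a (a + 1 / L), g t := by
        refine setIntegral_mono_on ?_ hgi.integrableOn measurableSet_Icc hlow
        exact integrableOn_const (by rw [Real.volume_Icc]; exact ENNReal.ofReal_ne_top)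
    _ ≤ ∫ t, g t := setIntegral_le_integral hgi (Eventually.of_forall hgn)

theorem tl_sq_integrable {T : ℝ} (hL : 0 < Real.log T) (h4 : Integrable (fun t => Phi T t ^ 4)) :
    Integrable (fun t => Phi T t ^ 2) ∧
      ∫ t, Phi T t ^ 2 ≤ (∫ t, Phi T t) + ∫ t, Phi T t ^ 4 := by
  have h1 := tl_phi_integrable hL
  have hle : ∀ t, Phi T t ^ 2 ≤ Phi T t + Phi T t ^ 4 := by
    intro t
    have h0 := tl_nonneg T t
    rcases le_total (Phi T t) 1 with h | h
    · have h2 : Phi T t ^ 2 ≤ Phi T t := by nlinarith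
      have h3 : 0 ≤ Phi T t ^ 4 := by positivity
      linarith
    · have h2 : (1:ℝ) ≤ Phi T t ^ 2 := by nlinarith
      have h3 : Phi T t ^ 2 ≤ Phi T t ^ 4 := by
        calc Phi T t ^ 2 = Phi T t ^ 2 * 1 := (mul_one _).symm
          _ ≤ Phi T t ^ 2 * Phi T t ^ 2 := by gcongr
          _ = Phi T t ^ 4 := by ring
      linarith
  have hi : Integrable (fun t => Phi T t ^ 2) := by
    refine (h1.add h4).mono ((tl_cont T).pow 2).aestronglyMeasurable (Eventually.of_forall fun t => ?_)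
    have h0 := tl_nonneg T t
    have h5 : 0 ≤ Phi T t + Phi T t ^ 4 := by positivity
    rw [Real.norm_of_nonneg (by positivity), Pi.add_apply, Real.norm_of_nonneg h5]
    exact hle t
  refine ⟨hi, ?_⟩
  rw [← integral_add h1 h4]
  exact integral_mono hi (h1.add h4) hle

theorem tl_pair {T : ℝ} (hL : 0 < Real.log T) (h4 : Integrable (fun t => Phi T t ^ 4)) (u : ℝ) :
    pairCount T u (u + 1) ≤ 120 * Real.log T * ∫ t, Phi T t ^ 2 := by
  classical
  set L := Real.log T with hLd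
  set s : ℝ := 2 * Real.pi * u with hs
  obtain ⟨hi2, -⟩ := tl_sq_integrable hL h4
  have hpi := Real.pi_pos
  -- the shifted product
  have hprod : ∀ t, Phi T t * Phi T (t - s / L) =
      ∑ p ∈ Zf T ×ˢ Zf T, mx p.1 * mx p.2 *
        ((1 + (L * (p.1.im - t)) ^ 2)⁻¹ * (1 + (L * (p.2.im - (t - s / L))) ^ 2)⁻¹) := by
    intro t
    unfold Phi
    rw [Finset.sum_mul_sum, Finset.sum_product]
    refine Finset.sum_congr rfl fun ρ _ => Finset.sum_congr rfl fun ρ' _ => ?_
    rw [← hLd]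
    ring
  have hgi : ∀ p : ℂ × ℂ, Integrable (fun t : ℝ =>
      (1 + (L * (p.1.im - t)) ^ 2)⁻¹ * (1 + (L * (p.2.im - (t - s / L))) ^ 2)⁻¹) := by
    intro p
    have hgc : Continuous (fun t : ℝ =>
        (1 + (L * (p.1.im - t)) ^ 2)⁻¹ * (1 + (L * (p.2.im - (t - s / L))) ^ 2)⁻¹) := by
      refine Continuous.mul (Continuous.inv₀ (by fun_prop) fun t => ?_)
        (Continuous.inv₀ (by fun_prop) fun t => ?_)
      · positivity
      · positivity
    refine (tl_integrable hL p.1.im).mono hgc.aestronglyMeasurable (Eventually.of_forall fun t => ?_)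
    rw [Real.norm_of_nonneg (by positivity), Real.norm_of_nonneg (by positivity)]
    have h2 : (1 + (L * (p.2.im - (t - s / L))) ^ 2)⁻¹ ≤ 1 :=
      inv_le_one_of_one_le₀ (by nlinarith [sq_nonneg (L * (p.2.im - (t - s / L)))])
    have h3 : 0 ≤ (1 + (L * (p.1.im - t)) ^ 2)⁻¹ := by positivity
    calc (1 + (L * (p.1.im - t)) ^ 2)⁻¹ * (1 + (L * (p.2.im - (t - s / L))) ^ 2)⁻¹
        ≤ (1 + (L * (p.1.im - t)) ^ 2)⁻¹ * 1 := mul_le_mul_of_nonneg_left h2 h3
      _ = _ := mul_one _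
  have hint : ∫ t, Phi T t * Phi T (t - s / L) =
      ∑ p ∈ Zf T ×ˢ Zf T, mx p.1 * mx p.2 *
        ∫ t : ℝ, (1 + (L * (p.1.im - t)) ^ 2)⁻¹ * (1 + (L * (p.2.im - (t - s / L))) ^ 2)⁻¹ := by
    simp_rw [hprod]
    rw [integral_finsetSum _ fun p _ => (hgi p).const_mul _]
    exact Finset.sum_congr rfl fun p _ => integral_const_mul _ _
  have h1 : pairCount T u (u + 1) ≤ 120 * L * ∫ t, Phi T t * Phi T (t - s / L) := by
    rw [pairCount_eq, hint, Finset.mul_sum]
    refine Finset.sum_le_sum fun p hp => ?_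
    rw [Finset.mem_product] at hp
    have hm : (mult p.1 : ℝ) * (mult p.2 : ℝ) = mx p.1 * mx p.2 := by
      rw [tl_mx hp.1, tl_mx hp.2]
    have hm0 : 0 ≤ mx p.1 * mx p.2 := mul_nonneg (tl_mx_nonneg _) (tl_mx_nonneg _)
    have hJ0 : 0 ≤ ∫ t : ℝ, (1 + (L * (p.1.im - t)) ^ 2)⁻¹ *
        (1 + (L * (p.2.im - (t - s / L))) ^ 2)⁻¹ := integral_nonneg fun t => by positivity
    split_ifs with hnd
    · rw [hm]
      have e : L * (p.1.im - p.2.im) = 2 * Real.pi * nd T p := by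
        unfold nd; rw [← hLd]; field_simp
      have h2 := tl_overlap (L := L) hL (c := p.1.im) (c' := p.2.im) (s := s)
        (by rw [e, hs]; nlinarith [hnd.1]) (by rw [e, hs]; nlinarith [hnd.2])
      calc mx p.1 * mx p.2 = 120 * L * (mx p.1 * mx p.2 * (1 / (120 * L))) := by field_simp
        _ ≤ _ := by gcongr
    · positivity
  have hsh : Integrable (fun t => Phi T (t - s / L) ^ 2) := hi2.comp_sub_right (s / L)
  have h2 : ∫ t, Phi T t * Phi T (t - s / L) ≤ ∫ t, Phi T t ^ 2 := by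
    have h3 : ∫ t, Phi T t * Phi T (t - s / L) ≤
        ∫ t, (1 / 2 * Phi T t ^ 2 + 1 / 2 * Phi T (t - s / L) ^ 2) := by
      refine integral_mono_of_nonneg (Eventually.of_forall fun t => ?_)
        ((hi2.const_mul _).add (hsh.const_mul _)) (Eventually.of_forall fun t => ?_)
      · exact mul_nonneg (tl_nonneg _ _) (tl_nonneg _ _)
      · change Phi T t * Phi T (t - s / L) ≤ 1 / 2 * Phi T t ^ 2 + 1 / 2 * Phi T (t - s / L) ^ 2
        nlinarith [sq_nonneg (Phi T t - Phi T (t - s / L))]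
    rw [integral_add (hi2.const_mul _) (hsh.const_mul _), integral_const_mul, integral_const_mul,
      integral_sub_right_eq_self (fun t => Phi T t ^ 2) (s / L)] at h3
    linarith
  calc pairCount T u (u + 1) ≤ 120 * L * ∫ t, Phi T t * Phi T (t - s / L) := h1
    _ ≤ _ := by gcongr

theorem tail_pairs : ∃ C T₀ : ℝ, 0 < C ∧ ∀ T : ℝ, T₀ ≤ T → ∀ u : ℝ,
    pairCount T u (u + 1) ≤ C * SN T := by
  obtain ⟨C4, T4, hC4, h4⟩ := Phi_fourth
  obtain ⟨T1, hT1⟩ := eventually_atTop.mp NT_le_ev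
  have hpi := Real.pi_pos
  refine ⟨240 * Real.pi * (Real.pi + C4), max (max T4 T1) 3, by positivity, fun T hT u => ?_⟩
  have hT4 : T4 ≤ T := le_trans (le_trans (le_max_left _ _) (le_max_left _ _)) hT
  have hT1' : T1 ≤ T := le_trans (le_trans (le_max_right _ _) (le_max_left _ _)) hT
  have hT3 : (3:ℝ) ≤ T := le_trans (le_max_right _ _) hT
  have hL : 0 < Real.log T := Real.log_pos (by linarith)
  obtain ⟨hi4, hb4⟩ := h4 T hT4
  have hNT := hT1 T hT1'
  have h1 := tl_pair hL hi4 u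
  obtain ⟨-, h2⟩ := tl_sq_integrable hL hi4
  rw [tl_phi_integral hL] at h2
  have h3 : Real.pi / Real.log T * NT T ≤ Real.pi * T := by
    calc Real.pi / Real.log T * NT T ≤ Real.pi / Real.log T * (T * Real.log T) := by gcongr
      _ = Real.pi * T := by field_simp
  have h5 : ∫ t, Phi T t ^ 2 ≤ (Real.pi + C4) * T := by linarith
  calc pairCount T u (u + 1) ≤ 120 * Real.log T * ∫ t, Phi T t ^ 2 := h1
    _ ≤ 120 * Real.log T * ((Real.pi + C4) * T) := by gcongr
    _ = _ := by unfold SN; field_simp; ring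

end Pool.Agent.Helper69.GGM
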