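import Pool.Agent.Helper69.GGM.PH4

/-!
# GGM block FF: bounds for `f = S0 T a - S0 T A` with `a <= A` fixed

* `S0_le_Phi`: `1/(a-iv) - 1/(A-iv) = (A-a)/((a-iv)(A-iv))` and
  `|A-iv| >= |a-iv| >= min 1 a * sqrt(1+v²)`.
* `S0_fourth`: from `S0_le_Phi` and `Phi_fourth` (continuity of `S0` in `t`: denominators have real part `> 0`).
* `S0_edges`: on `I = [-δT, δT] ∪ [(1-δ)T, (1+δ)T]`: `∫_I ‖f‖² <= (4δT)^(1/2) (∫ ‖f‖⁴)^(1/2) <= C sqrt δ T`.
  For `t < -δT`: `Phi T t <= NT T/(L² t²)` (all `γ >= 0`), for `t > (1+δ)T`: `Phi T t <= NT T/(L²(t-T)²)`;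
  with `NT T <= T log T` (`NT_le_ev`), `∫_{t<-δT} Phi² <= T²/(L²) ∫_{δT}^∞ t^(-4) dt = 1/(3 δ³ L² T)`, which is
  `<= sqrt δ T` for large `T`.
-/

open Complex Set MeasureTheory Filter Topology
open Pool.Agent.Helper57.LH Pool.Agent.Helper57.PC Pool.Agent.Helper57.Zeta

namespace Pool.Agent.Helper69.GGM

lemma FF_den_sq (a v : ℝ) : ‖(a : ℂ) - (v : ℂ) * I‖ ^ 2 = a ^ 2 + v ^ 2 := by
  rw [Complex.sq_norm, Complex.normSq_apply]
  simp
  ring

lemma FF_den_ne {a : ℝ} (ha : 0 < a) (v : ℝ) : (a : ℂ) - (v : ℂ) * I ≠ 0 := by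
  intro h
  have h2 := FF_den_sq a v
  rw [h] at h2
  simp at h2
  nlinarith [sq_nonneg v]

lemma FF_term {a A : ℝ} (ha : 0 < a) (haA : a ≤ A) (v : ℝ) :
    ‖1 / ((a : ℂ) - (v : ℂ) * I) - 1 / ((A : ℂ) - (v : ℂ) * I)‖ ≤
      (A - a) / (min 1 a) ^ 2 * (1 + v ^ 2)⁻¹ := by
  have hA : 0 < A := ha.trans_le haA
  have h1 := FF_den_ne ha v
  have h2 := FF_den_ne hA v
  have e : 1 / ((a : ℂ) - (v : ℂ) * I) - 1 / ((A : ℂ) - (v : ℂ) * I) =
      ((A - a : ℝ) : ℂ) / (((a : ℂ) - (v : ℂ) * I) * ((A : ℂ) - (v : ℂ) * I)) := by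
    field_simp
    push_cast
    ring
  rw [e, norm_div, Complex.norm_real, Real.norm_eq_abs, abs_of_nonneg (sub_nonneg.mpr haA), norm_mul]
  have hm : 0 < min 1 a := lt_min one_pos ha
  have e2 : (A - a) / (min 1 a) ^ 2 * (1 + v ^ 2)⁻¹ = (A - a) / ((min 1 a) ^ 2 * (1 + v ^ 2)) := by
    rw [div_mul_eq_div_div_swap, div_div, ← div_eq_mul_inv, div_div, mul_comm (1 + v ^ 2)]
  have h3 : (min 1 a) ^ 2 * (1 + v ^ 2) ≤
      ‖(a : ℂ) - (v : ℂ) * I‖ * ‖(A : ℂ) - (v : ℂ) * I‖ := by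
    have h4 : ‖(a : ℂ) - (v : ℂ) * I‖ ≤ ‖(A : ℂ) - (v : ℂ) * I‖ := by
      refine le_of_sq_le_sq ?_ (norm_nonneg _)
      rw [FF_den_sq, FF_den_sq]
      nlinarith
    have h5 : (min 1 a) ^ 2 * (1 + v ^ 2) ≤ ‖(a : ℂ) - (v : ℂ) * I‖ ^ 2 := by
      rw [FF_den_sq]
      have h6 : (min 1 a) ^ 2 ≤ a ^ 2 := pow_le_pow_left₀ hm.le (min_le_right _ _) 2
      have h7 : (min 1 a) ^ 2 ≤ 1 := by
        have := pow_le_pow_left₀ hm.le (min_le_left (1:ℝ) a) 2
        simpa using this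
      nlinarith [sq_nonneg v]
    refine h5.trans ?_
    rw [pow_two]
    exact mul_le_mul_of_nonneg_left h4 (norm_nonneg _)
  have h6 : 0 < (min 1 a) ^ 2 * (1 + v ^ 2) := by positivity
  rw [e2]
  exact div_le_div_of_nonneg_left (sub_nonneg.mpr haA) h6 h3

theorem S0_le_Phi {T a A : ℝ} (ha : 0 < a) (haA : a ≤ A) (t : ℝ) :
    ‖S0 T a t - S0 T A t‖ ≤ (A - a) / (min 1 a) ^ 2 * Phi T t := by
  unfold S0 Phi
  rw [← Finset.sum_sub_distrib, Finset.mul_sum]
  refine (norm_sum_le _ _).trans (Finset.sum_le_sum fun ρ _ => ?_)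
  have h := FF_term ha haA (Real.log T * (ρ.im - t))
  have e : (mx ρ : ℂ) / ((a : ℂ) - z0 T t ρ) - (mx ρ : ℂ) / ((A : ℂ) - z0 T t ρ) =
      (mx ρ : ℂ) * (1 / ((a : ℂ) - ((Real.log T * (ρ.im - t) : ℝ) : ℂ) * I) -
        1 / ((A : ℂ) - ((Real.log T * (ρ.im - t) : ℝ) : ℂ) * I)) := by
    unfold z0
    ring
  rw [e, norm_mul, Complex.norm_real, Real.norm_eq_abs, abs_of_nonneg (mx_nonneg ρ)]
  calc mx ρ * _ ≤ mx ρ * _ := mul_le_mul_of_nonneg_left h (mx_nonneg ρ)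
    _ = _ := by ring

lemma S0_continuous {T a : ℝ} (ha : 0 < a) : Continuous (fun t => S0 T a t) := by
  unfold S0 z0
  refine continuous_finsetSum _ fun ρ _ => ?_
  refine Continuous.div continuous_const (by fun_prop) fun t => ?_
  exact FF_den_ne ha _

lemma Phi_nonneg' (T t : ℝ) : 0 ≤ Phi T t :=
  Finset.sum_nonneg fun ρ _ => mul_nonneg (mx_nonneg ρ) (by positivity)

lemma Phi_continuous' (T : ℝ) : Continuous (fun t => Phi T t) := by
  unfold Phi
  refine continuous_finsetSum _ fun ρ _ => ?_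
  refine Continuous.mul continuous_const (Continuous.inv₀ (by fun_prop) fun t => ?_)
  positivity

theorem S0_fourth {a A : ℝ} (ha : 0 < a) (haA : a ≤ A) : ∃ C T₀ : ℝ, 0 < C ∧ ∀ T : ℝ, T₀ ≤ T →
    Integrable (fun t => ‖S0 T a t - S0 T A t‖ ^ 4) ∧ ∫ t, ‖S0 T a t - S0 T A t‖ ^ 4 ≤ C * T := by
  obtain ⟨C, T₀, hC, h⟩ := Phi_fourth
  have hA : 0 < A := ha.trans_le haA
  set K : ℝ := (A - a) / (min 1 a) ^ 2 with hK
  have hK0 : 0 ≤ K := div_nonneg (sub_nonneg.mpr haA) (by positivity)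
  refine ⟨K ^ 4 * C + 1, max T₀ 0, by positivity, fun T hT => ?_⟩
  obtain ⟨h1, h2⟩ := h T ((le_max_left _ _).trans hT)
  have hT0 : 0 ≤ T := (le_max_right _ _).trans hT
  have hb : ∀ t, ‖S0 T a t - S0 T A t‖ ^ 4 ≤ K ^ 4 * Phi T t ^ 4 := fun t => by
    rw [← mul_pow]
    exact pow_le_pow_left₀ (norm_nonneg _) (S0_le_Phi ha haA t) 4
  have hint : Integrable (fun t => ‖S0 T a t - S0 T A t‖ ^ 4) := by
    refine (h1.const_mul (K ^ 4)).mono' ?_ ?_
    · exact (((S0_continuous ha).sub (S0_continuous hA)).norm.pow 4).aestronglyMeasurable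
    · refine Eventually.of_forall fun t => ?_
      rw [Real.norm_eq_abs, abs_of_nonneg (by positivity)]
      exact hb t
  refine ⟨hint, ?_⟩
  calc ∫ t, ‖S0 T a t - S0 T A t‖ ^ 4 ≤ ∫ t, K ^ 4 * Phi T t ^ 4 :=
        integral_mono hint (h1.const_mul _) hb
    _ = K ^ 4 * ∫ t, Phi T t ^ 4 := integral_const_mul _ _
    _ ≤ K ^ 4 * (C * T) := mul_le_mul_of_nonneg_left h2 (by positivity)
    _ ≤ (K ^ 4 * C + 1) * T := by nlinarith

lemma FF_one {L : ℝ} (hL : 0 < L) (g : ℝ) : Integrable (fun t : ℝ => (1 + (L * (g - t)) ^ 2)⁻¹) ∧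
    ∫ t : ℝ, (1 + (L * (g - t)) ^ 2)⁻¹ = Real.pi / L := by
  have h1 : Integrable (fun s : ℝ => (1 + (L * s) ^ 2)⁻¹) :=
    (integrable_comp_mul_left_iff (fun s : ℝ => (1 + s ^ 2)⁻¹) hL.ne').mpr integrable_inv_one_add_sq
  have h2 : ∫ s : ℝ, (1 + (L * s) ^ 2)⁻¹ = Real.pi / L := by
    have := Measure.integral_comp_mul_left (fun s : ℝ => (1 + s ^ 2)⁻¹) L
    rw [this, integral_univ_inv_one_add_sq, abs_of_pos (inv_pos.mpr hL), smul_eq_mul]
    field_simp
  constructor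
  · exact h1.comp_sub_left g
  · rw [← h2]
    exact integral_sub_left_eq_self (fun s : ℝ => (1 + (L * s) ^ 2)⁻¹) volume g

lemma sum_mx_eq (T : ℝ) : ∑ ρ ∈ Zf T, mx ρ = NT T := by
  unfold NT mx
  refine Finset.sum_congr rfl fun ρ hρ => ?_
  rw [mult_eq (mem_Zf.mp hρ).1]

lemma Phi_integral {T : ℝ} (hL : 0 < Real.log T) : Integrable (fun t : ℝ => Phi T t) ∧
    ∫ t : ℝ, Phi T t = Real.pi / Real.log T * NT T := by
  unfold Phi
  constructor
  · exact integrable_finsetSum _ fun ρ _ => (FF_one hL ρ.im).1.const_mul _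
  · rw [integral_finsetSum _ fun ρ _ => (FF_one hL ρ.im).1.const_mul _, ← sum_mx_eq, Finset.mul_sum]
    refine Finset.sum_congr rfl fun ρ _ => ?_
    rw [integral_const_mul, (FF_one hL ρ.im).2, mul_comm]

lemma Phi_far {T d : ℝ} (hL : 0 < Real.log T) (hd : 0 < d) {t : ℝ} (ht : t ≤ -d ∨ T + d ≤ t) :
    Phi T t ≤ NT T / (Real.log T ^ 2 * d ^ 2) := by
  rw [← sum_mx_eq, div_eq_mul_inv, Finset.sum_mul]
  unfold Phi
  refine Finset.sum_le_sum fun ρ hρ => mul_le_mul_of_nonneg_left ?_ (mx_nonneg ρ)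
  obtain ⟨-, h0, h1⟩ := mem_Zf.mp hρ
  refine inv_anti₀ (by positivity) ?_
  have h2 : d ^ 2 ≤ (ρ.im - t) ^ 2 := by
    rcases ht with h | h
    · exact pow_le_pow_left₀ hd.le (by linarith) 2
    · have : (ρ.im - t) ^ 2 = (t - ρ.im) ^ 2 := by ring
      rw [this]
      exact pow_le_pow_left₀ hd.le (by linarith) 2
  rw [mul_pow]
  have := mul_le_mul_of_nonneg_left h2 (sq_nonneg (Real.log T))
  linarith

theorem S0_edges {a A : ℝ} (ha : 0 < a) (haA : a ≤ A) : ∃ C : ℝ, 0 < C ∧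
    ∀ δ : ℝ, 0 < δ → δ < 1 / 2 → ∀ᶠ T : ℝ in atTop,
      ∫ t in (Icc (δ * T) ((1 - δ) * T))ᶜ, ‖S0 T a t - S0 T A t‖ ^ 2 ≤ C * Real.sqrt δ * T := by
  obtain ⟨C, T₀, hC, hPhi⟩ := Phi_fourth
  set K : ℝ := (A - a) / (min 1 a) ^ 2 with hK
  have hK0 : 0 ≤ K := div_nonneg (sub_nonneg.mpr haA) (by positivity)
  refine ⟨K ^ 2 * (3 + C / 2) + 1, by positivity, fun δ hδ _ => ?_⟩
  have hsδ : 0 < Real.sqrt δ := Real.sqrt_pos.mpr hδ
  have hlog : ∀ᶠ T : ℝ in atTop, 1 ≤ Real.log T := Real.tendsto_log_atTop.eventually_ge_atTop 1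
  filter_upwards [eventually_ge_atTop T₀, eventually_ge_atTop (1:ℝ), hlog, NT_le_ev,
    eventually_ge_atTop (Real.pi / δ ^ 2 / Real.sqrt δ)] with T hT hT1 hL hNT hTbig
  obtain ⟨h4i, h4⟩ := hPhi T hT
  have hL0 : 0 < Real.log T := by linarith
  have hT0 : 0 < T := by linarith
  obtain ⟨h1i, h1⟩ := Phi_integral hL0
  have hd : 0 < δ * T := by positivity
  set S : Set ℝ := (Icc (δ * T) ((1 - δ) * T))ᶜ with hS
  set I₁ : Set ℝ := Icc (-(δ * T)) (δ * T) with hI1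
  set I₂ : Set ℝ := Icc ((1 - δ) * T) ((1 + δ) * T) with hI2
  set κ : ℝ := 1 / (Real.log T * δ ^ 2 * T) with hκ
  have hκ0 : 0 ≤ κ := by positivity
  let g : ℝ → ℝ := fun t => (I₁.indicator (fun _ => 1 / (2 * Real.sqrt δ)) t +
    I₂.indicator (fun _ => 1 / (2 * Real.sqrt δ)) t) + (Real.sqrt δ / 2 * Phi T t ^ 4 + κ * Phi T t)
  have hi1 : Integrable (I₁.indicator (fun _ : ℝ => 1 / (2 * Real.sqrt δ))) := by
    rw [integrable_indicator_iff measurableSet_Icc]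
    exact integrableOn_const (by simp) enorm_ne_top
  have hi2 : Integrable (I₂.indicator (fun _ : ℝ => 1 / (2 * Real.sqrt δ))) := by
    rw [integrable_indicator_iff measurableSet_Icc]
    exact integrableOn_const (by simp) enorm_ne_top
  have hgi : Integrable g := (hi1.add hi2).add ((h4i.const_mul _).add (h1i.const_mul _))
  have hg0 : ∀ t, 0 ≤ g t := fun t => by
    have e1 : 0 ≤ I₁.indicator (fun _ : ℝ => 1 / (2 * Real.sqrt δ)) t :=
      indicator_nonneg (fun _ _ => by positivity) t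
    have e2 : 0 ≤ I₂.indicator (fun _ : ℝ => 1 / (2 * Real.sqrt δ)) t :=
      indicator_nonneg (fun _ _ => by positivity) t
    have e3 := Phi_nonneg' T t
    show 0 ≤ (_ + _) + (_ + _)
    positivity
  have hptP : ∀ t ∈ S, Phi T t ^ 2 ≤ g t := by
    intro t ht
    have e1 : 0 ≤ I₁.indicator (fun _ : ℝ => 1 / (2 * Real.sqrt δ)) t :=
      indicator_nonneg (fun _ _ => by positivity) t
    have e2 : 0 ≤ I₂.indicator (fun _ : ℝ => 1 / (2 * Real.sqrt δ)) t :=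
      indicator_nonneg (fun _ _ => by positivity) t
    have e3 := Phi_nonneg' T t
    show _ ≤ (_ + _) + (_ + _)
    by_cases hin : t ∈ I₁ ∪ I₂
    · have e4 : 1 / (2 * Real.sqrt δ) ≤ I₁.indicator (fun _ : ℝ => 1 / (2 * Real.sqrt δ)) t +
          I₂.indicator (fun _ : ℝ => 1 / (2 * Real.sqrt δ)) t := by
        rcases hin with hh | hh
        · rw [indicator_of_mem hh]; linarith
        · rw [indicator_of_mem hh (f := fun _ : ℝ => 1 / (2 * Real.sqrt δ))]; linarith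
      have e5 : Phi T t ^ 2 ≤ 1 / (2 * Real.sqrt δ) + Real.sqrt δ / 2 * Phi T t ^ 4 := by
        have e6 : 0 ≤ (1 - Real.sqrt δ * Phi T t ^ 2) ^ 2 := sq_nonneg _
        have e7 : 1 / (2 * Real.sqrt δ) + Real.sqrt δ / 2 * Phi T t ^ 4 - Phi T t ^ 2 =
            (1 - Real.sqrt δ * Phi T t ^ 2) ^ 2 / (2 * Real.sqrt δ) := by
          field_simp
          ring
        have e8 : 0 ≤ (1 - Real.sqrt δ * Phi T t ^ 2) ^ 2 / (2 * Real.sqrt δ) := by positivity
        linarith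
      have e9 : 0 ≤ κ * Phi T t := mul_nonneg hκ0 e3
      linarith
    · have hfar : t ≤ -(δ * T) ∨ T + δ * T ≤ t := by
        simp only [hI1, hI2, mem_union, mem_Icc, not_or, not_and, not_le] at hin
        simp only [hS, mem_compl_iff, mem_Icc, not_and, not_le] at ht
        by_contra hcon
        push Not at hcon
        obtain ⟨hc1, hc2⟩ := hcon
        by_cases hc3 : t ≤ δ * T
        · have := hin.1 hc1.le
          linarith
        · push Not at hc3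
          have h5 := ht hc3.le
          have h6 := hin.2 h5.le
          nlinarith
      have e4 := Phi_far hL0 hd hfar
      have e5 : NT T / (Real.log T ^ 2 * (δ * T) ^ 2) ≤ κ := by
        rw [hκ, div_le_div_iff₀ (by positivity) (by positivity), one_mul]
        calc NT T * (Real.log T * δ ^ 2 * T) ≤ T * Real.log T * (Real.log T * δ ^ 2 * T) :=
              mul_le_mul_of_nonneg_right hNT (by positivity)
          _ = Real.log T ^ 2 * (δ * T) ^ 2 := by ring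
      have e6 : Phi T t ^ 2 ≤ κ * Phi T t := by
        rw [pow_two]
        exact mul_le_mul_of_nonneg_right (e4.trans e5) e3
      have e7 : 0 ≤ Real.sqrt δ / 2 * Phi T t ^ 4 := by positivity
      linarith
  have hpt : ∀ t ∈ S, ‖S0 T a t - S0 T A t‖ ^ 2 ≤ K ^ 2 * g t := by
    intro t ht
    calc ‖S0 T a t - S0 T A t‖ ^ 2 ≤ (K * Phi T t) ^ 2 :=
          pow_le_pow_left₀ (norm_nonneg _) (S0_le_Phi ha haA t) 2
      _ = K ^ 2 * Phi T t ^ 2 := by ring
      _ ≤ K ^ 2 * g t := mul_le_mul_of_nonneg_left (hptP t ht) (by positivity)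
  have hSm : MeasurableSet S := measurableSet_Icc.compl
  have hstep : ∫ t in S, ‖S0 T a t - S0 T A t‖ ^ 2 ≤ ∫ t, K ^ 2 * g t := by
    calc ∫ t in S, ‖S0 T a t - S0 T A t‖ ^ 2 ≤ ∫ t in S, K ^ 2 * g t := by
          refine integral_mono_of_nonneg (Eventually.of_forall fun t => by positivity)
            (hgi.const_mul _).integrableOn ?_
          exact (ae_restrict_iff' hSm).mpr (Eventually.of_forall hpt)
      _ ≤ ∫ t, K ^ 2 * g t := setIntegral_le_integral (hgi.const_mul _)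
          (Eventually.of_forall fun t => mul_nonneg (by positivity) (hg0 t))
  have hgval : ∫ t, g t ≤ (3 + C / 2) * Real.sqrt δ * T := by
    have v1 : ∫ t, I₁.indicator (fun _ : ℝ => 1 / (2 * Real.sqrt δ)) t = Real.sqrt δ * T := by
      rw [integral_indicator measurableSet_Icc, setIntegral_const, Real.volume_real_Icc,
        max_eq_left (by linarith), smul_eq_mul]
      have : Real.sqrt δ * Real.sqrt δ = δ := Real.mul_self_sqrt hδ.le
      field_simp
      nlinarith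
    have v2 : ∫ t, I₂.indicator (fun _ : ℝ => 1 / (2 * Real.sqrt δ)) t = Real.sqrt δ * T := by
      rw [integral_indicator measurableSet_Icc, setIntegral_const, Real.volume_real_Icc,
        max_eq_left (by nlinarith), smul_eq_mul]
      have : Real.sqrt δ * Real.sqrt δ = δ := Real.mul_self_sqrt hδ.le
      field_simp
      nlinarith
    have v3 : ∫ t, Real.sqrt δ / 2 * Phi T t ^ 4 ≤ Real.sqrt δ / 2 * (C * T) := by
      rw [integral_const_mul]
      exact mul_le_mul_of_nonneg_left h4 (by positivity)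
    have v4 : ∫ t, κ * Phi T t ≤ Real.sqrt δ * T := by
      rw [integral_const_mul, h1]
      have w1 : κ * (Real.pi / Real.log T * NT T) ≤ κ * (Real.pi / Real.log T * (T * Real.log T)) := by
        gcongr
      refine w1.trans ?_
      have w2 : κ * (Real.pi / Real.log T * (T * Real.log T)) = Real.pi / δ ^ 2 / Real.log T := by
        rw [hκ]; field_simp
      rw [w2]
      have w3 : Real.pi / δ ^ 2 / Real.log T ≤ Real.pi / δ ^ 2 := div_le_self (by positivity) hL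
      refine w3.trans ?_
      rw [div_le_iff₀ hsδ] at hTbig
      linarith
    have hsum : ∫ t, g t = ((∫ t, I₁.indicator (fun _ : ℝ => 1 / (2 * Real.sqrt δ)) t) +
        ∫ t, I₂.indicator (fun _ : ℝ => 1 / (2 * Real.sqrt δ)) t) +
        ((∫ t, Real.sqrt δ / 2 * Phi T t ^ 4) + ∫ t, κ * Phi T t) := by
      rw [← integral_add hi1 hi2, ← integral_add (h4i.const_mul _) (h1i.const_mul _)]
      exact integral_add (hi1.add hi2) ((h4i.const_mul _).add (h1i.const_mul _))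
    rw [hsum, v1, v2]
    linarith
  calc ∫ t in S, ‖S0 T a t - S0 T A t‖ ^ 2 ≤ ∫ t, K ^ 2 * g t := hstep
    _ = K ^ 2 * ∫ t, g t := integral_const_mul _ _
    _ ≤ K ^ 2 * ((3 + C / 2) * Real.sqrt δ * T) := mul_le_mul_of_nonneg_left hgval (by positivity)
    _ ≤ (K ^ 2 * (3 + C / 2) + 1) * Real.sqrt δ * T := by
        have : 0 ≤ Real.sqrt δ * T := by positivity
        nlinarith

end Pool.Agent.Helper69.GGM
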