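import Pool.Agent.Helper57.M.Z
import Pool.Agent.Helper69.GGM.Defs

/-!
# GGM block OD: diagonal mass one forces the zeros onto the line

Proof. `pairCount T 0 0 = Σ_ρ mult ρ * M(ρ)`, `M(ρ) = Σ_{ρ' ∈ Zf T, γ'=γ} mult ρ'` (`pairCount_eq`,
`nd T p = 0` iff `γ = γ'` for `T > 1`). `M(ρ) >= 1` always (`mult >= 1` on zeros) and `M(ρ) >= 2` if
`ρ.re ≠ 1/2`, since then `1 - conj ρ ≠ ρ` is in `Zf T` with the same ordinate. Hence for `ε > 0`
`offCount T ε <= Σ_{ρ.re ≠ 1/2} mult ρ <= Σ mult ρ (M(ρ) - 1) = pairCount T 0 0 - NT T`.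
Divide by `SN T`: `pairCount T 0 0/SN T → 1` along `l`, `NT T >= (1-η) SN T` eventually (`NT_lower`).
-/

open Complex Set MeasureTheory Filter Topology
open Pool.Agent.Helper57.LH Pool.Agent.Helper57.PC Pool.Agent.Helper57.Zeta

namespace Pool.Agent.Helper69.GGM

lemma od_mult_one_le {ρ : ℂ} (h : IsNontrivialZero ρ) : (1 : ℝ) ≤ mult ρ := by
  rw [mult_eq h]
  obtain ⟨g, -, hfg, hga⟩ := div_point differentiable_xi xi_two_ne ρ
  have hn : analyticOrderNatAt xi ρ ≠ 0 := by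
    intro h0
    have h1 := hfg ρ
    rw [h0, pow_zero, one_mul, isNontrivialZero_iff.mp h] at h1
    exact hga h1.symm
  exact_mod_cast Nat.one_le_iff_ne_zero.2 hn

lemma od_key {T : ℝ} (hT : 1 < T) {ε : ℝ} (hε : 0 < ε) :
    offCount T ε + NT T ≤ pairCount T 0 0 := by
  classical
  have hL : 0 < Real.log T := Real.log_pos hT
  have hpi := Real.pi_pos
  have h1 : offCount T ε ≤ ∑ ρ ∈ Zf T, if ρ.re ≠ 1 / 2 then (mult ρ : ℝ) else 0 := by
    unfold offCount
    rw [← Finset.sum_filter]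
    have h2 : ∀ ρ ∈ (Zf T).filter (fun ρ => ε ≤ |Real.log T * (ρ.re - 1 / 2)|), mx ρ = (mult ρ : ℝ) := by
      intro ρ hρ
      rw [Finset.mem_filter, mem_Zf] at hρ
      unfold mx
      rw [mult_eq hρ.1.1]
    rw [Finset.sum_congr rfl h2]
    apply Finset.sum_le_sum_of_subset_of_nonneg
    · intro ρ hρ
      rw [Finset.mem_filter] at hρ ⊢
      refine ⟨hρ.1, fun h => ?_⟩
      have h3 := hρ.2
      rw [h, sub_self, mul_zero, abs_zero] at h3
      linarith
    · intro ρ _ _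
      exact Nat.cast_nonneg _
  have hnd : ∀ p : ℂ × ℂ, p.1.im = p.2.im → nd T p ∈ Icc (0 : ℝ) 0 := by
    intro p hp
    unfold nd
    rw [hp, sub_self, zero_mul, zero_div]
    exact ⟨le_refl _, le_refl _⟩
  rw [pairCount_eq, Finset.sum_product]
  unfold NT
  refine (add_le_add_left h1 _).trans ?_
  rw [← Finset.sum_add_distrib]
  refine Finset.sum_le_sum fun ρ hρ => ?_
  have hρ' := mem_Zf.mp hρ
  have hm := od_mult_one_le hρ'.1
  have hterm : ∀ ρ' : ℂ, (0 : ℝ) ≤ if nd T (ρ, ρ') ∈ Icc (0 : ℝ) 0 then (mult ρ : ℝ) * (mult ρ' : ℝ) else 0 := by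
    intro ρ'
    split_ifs
    · positivity
    · exact le_refl _
  by_cases hre : ρ.re = 1 / 2
  · rw [if_neg (not_not.mpr hre), zero_add]
    refine le_trans ?_ (Finset.single_le_sum (f := fun ρ' => if nd T (ρ, ρ') ∈ Icc (0 : ℝ) 0 then
      (mult ρ : ℝ) * (mult ρ' : ℝ) else 0) (fun ρ' _ => hterm ρ') hρ)
    show (mult ρ : ℝ) ≤ if nd T (ρ, ρ) ∈ Icc (0 : ℝ) 0 then (mult ρ : ℝ) * (mult ρ : ℝ) else 0
    rw [if_pos (hnd (ρ, ρ) rfl)]
    nlinarith
  · rw [if_pos hre]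
    obtain ⟨σ, hσ⟩ : ∃ σ, σ = 1 - starRingEnd ℂ ρ := ⟨_, rfl⟩
    have hσim : σ.im = ρ.im := by rw [hσ]; simp
    have hσre : σ.re = 1 - ρ.re := by rw [hσ]; simp
    have hne : σ ≠ ρ := by
      intro h
      apply hre
      have := congrArg Complex.re h
      rw [hσre] at this
      linarith
    have hσz : IsNontrivialZero σ := by
      rw [isNontrivialZero_iff, hσ, xi_one_sub, xi_conj, isNontrivialZero_iff.mp hρ'.1, map_zero]
    have hσf : σ ∈ Zf T := by
      rw [mem_Zf, hσim]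
      exact ⟨hσz, hρ'.2⟩
    have hmσ := od_mult_one_le hσz
    have hsub : ({ρ, σ} : Finset ℂ) ⊆ Zf T := by
      intro z hz
      rw [Finset.mem_insert, Finset.mem_singleton] at hz
      rcases hz with rfl | rfl
      · exact hρ
      · exact hσf
    refine le_trans ?_ (Finset.sum_le_sum_of_subset_of_nonneg hsub (fun ρ' _ _ => hterm ρ'))
    rw [Finset.sum_pair hne.symm, if_pos (hnd (ρ, ρ) rfl), if_pos (hnd (ρ, σ) hσim.symm)]
    nlinarith

theorem offLine_of_diag {l : Filter ℝ} (hl : l ≤ atTop)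
    (h : Tendsto (fun T : ℝ => pairCount T 0 0 / SN T) l (𝓝 1)) : OffLine l := by
  intro ε hε
  rw [Metric.tendsto_nhds]
  intro η hη
  obtain ⟨T₀, hT₀⟩ := NT_lower (η / 2) (by linarith)
  have h1 : ∀ᶠ T : ℝ in l, T₀ ≤ T := hl (eventually_ge_atTop T₀)
  have h2 : ∀ᶠ T : ℝ in l, 1 < T := hl (eventually_gt_atTop 1)
  have h3 : ∀ᶠ T : ℝ in l, pairCount T 0 0 / SN T < 1 + η / 2 :=
    h.eventually_lt_const (by linarith)
  filter_upwards [h1, h2, h3] with T g1 g2 g3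
  have hL : 0 < Real.log T := Real.log_pos g2
  have hpi := Real.pi_pos
  have hSN : 0 < SN T := by
    unfold SN
    have : 0 < T := by linarith
    positivity
  have hk := od_key g2 hε
  have hNT := hT₀ T g1
  have hoff : 0 ≤ offCount T ε := by
    unfold offCount
    exact Finset.sum_nonneg fun ρ _ => by unfold mx; positivity
  rw [Real.dist_eq, sub_zero, abs_of_nonneg (div_nonneg hoff hSN.le), div_lt_iff₀ hSN]
  rw [div_lt_iff₀ hSN] at g3
  have e : (1 - η / 2) * (T * Real.log T / (2 * Real.pi)) = (1 - η / 2) * SN T := rfl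
  rw [e] at hNT
  nlinarith

end Pool.Agent.Helper69.GGM
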