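import Mathlib

/-!
# GGM block AT: the mean square density is `1 + O(1/log T)`

`∫_0^T log²(t/2π) dt = T (ℓ² - 2ℓ + 2)` with `ℓ = log(T/2π) = log T - log 2π`
(primitive `t (log²(t/c) - 2 log(t/c) + 2)`, continuous at 0).
-/

open MeasureTheory Set Filter Topology

namespace Pool.Agent.Helper69.GGM

private lemma log_sq_integral {c T : ℝ} (hc : 0 < c) (hT : 0 < T) :
    (∫ t in (0:ℝ)..T, Real.log (t / c) ^ 2) =
      T * (Real.log (T / c) ^ 2 - 2 * Real.log (T / c) + 2) := by
  have hcont : ContinuousOn (fun t : ℝ => t * (Real.log (t / c) ^ 2 - 2 * Real.log (t / c) + 2))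
      (Icc 0 T) := by
    have h1 : Continuous (fun t : ℝ => c * ((2 * (Real.sqrt (t / c) * Real.log (Real.sqrt (t / c)))) ^ 2
        - 2 * ((t / c) * Real.log (t / c)) + 2 * (t / c))) := by
      have h2 : Continuous (fun t : ℝ => t / c) := by fun_prop
      have h3 : Continuous (fun t : ℝ => Real.sqrt (t / c) * Real.log (Real.sqrt (t / c))) :=
        Real.continuous_mul_log.comp (Real.continuous_sqrt.comp h2)
      have h4 : Continuous (fun t : ℝ => (t / c) * Real.log (t / c)) :=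
        Real.continuous_mul_log.comp h2
      fun_prop
    refine h1.continuousOn.congr fun t ht => ?_
    have h5 : 0 ≤ t / c := div_nonneg ht.1 hc.le
    show t * (Real.log (t / c) ^ 2 - 2 * Real.log (t / c) + 2) =
      c * ((2 * (Real.sqrt (t / c) * Real.log (Real.sqrt (t / c)))) ^ 2
        - 2 * ((t / c) * Real.log (t / c)) + 2 * (t / c))
    rw [Real.log_sqrt h5, mul_pow, mul_pow, Real.sq_sqrt h5]
    field_simp
  have hderiv : ∀ t ∈ Ioo (0 : ℝ) T, HasDerivAt
      (fun t : ℝ => t * (Real.log (t / c) ^ 2 - 2 * Real.log (t / c) + 2)) (Real.log (t / c) ^ 2) t := by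
    intro t ht
    have ht0 : 0 < t := ht.1
    have h1 : HasDerivAt (fun t : ℝ => t / c) (1 / c) t := (hasDerivAt_id t).div_const c
    have h2 : HasDerivAt (fun t : ℝ => Real.log (t / c)) ((1 / c) / (t / c)) t :=
      h1.log (by positivity)
    have h3 := (hasDerivAt_id t).mul (((h2.pow 2).sub (h2.const_mul 2)).add_const 2)
    have h4 : 1 * (Real.log (t / c) ^ 2 - 2 * Real.log (t / c) + 2) +
        t * ((2 : ℕ) * Real.log (t / c) ^ (2 - 1) * ((1 / c) / (t / c)) - 2 * ((1 / c) / (t / c))) =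
        Real.log (t / c) ^ 2 := by
      have h5 : (1 / c) / (t / c) = 1 / t := by field_simp
      rw [h5]
      field_simp
      push_cast
      ring
    rw [← h4]
    exact h3
  have hint : IntervalIntegrable (fun t : ℝ => Real.log (t / c) ^ 2) volume 0 T := by
    rw [intervalIntegrable_iff_integrableOn_Ioc_of_le hT.le]
    exact intervalIntegral.integrableOn_deriv_of_nonneg hcont hderiv fun t _ => sq_nonneg _
  rw [intervalIntegral.integral_eq_sub_of_hasDerivAt_of_le hT.le hcont hderiv hint]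
  ring

theorem AT_near_one : ∃ C T₀ : ℝ, 0 < C ∧ ∀ T : ℝ, T₀ ≤ T →
    |(∫ t in (0:ℝ)..T, Real.log (t / (2 * Real.pi)) ^ 2) / (T * Real.log T ^ 2) - 1| ≤
      C / Real.log T := by
  have hpi := Real.pi_pos
  have hk0 : 0 ≤ Real.log (2 * Real.pi) := by
    apply Real.log_nonneg
    nlinarith [Real.pi_gt_three]
  set κ := Real.log (2 * Real.pi) with hκ
  refine ⟨2 * (κ + 1) + κ ^ 2 + 2 * κ + 2, Real.exp 1, by positivity, fun T hT => ?_⟩
  have hT0 : 0 < T := (Real.exp_pos 1).trans_le hT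
  have hL : 1 ≤ Real.log T := by
    rw [Real.le_log_iff_exp_le hT0]; exact hT
  rw [log_sq_integral (by positivity) hT0, Real.log_div hT0.ne' (by positivity), ← hκ]
  set L := Real.log T with hLdef
  have hL0 : 0 < L := by linarith
  have h1 : T * ((L - κ) ^ 2 - 2 * (L - κ) + 2) / (T * L ^ 2) - 1 =
      (-2 * (κ + 1) * L + (κ ^ 2 + 2 * κ + 2)) / L ^ 2 := by
    field_simp
    ring
  rw [h1, abs_div, abs_of_pos (by positivity : 0 < L ^ 2), div_le_div_iff₀ (by positivity) hL0]
  have h2 : |-2 * (κ + 1) * L + (κ ^ 2 + 2 * κ + 2)| ≤ (2 * (κ + 1) + κ ^ 2 + 2 * κ + 2) * L := by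
    rw [abs_le]
    constructor
    · nlinarith [mul_nonneg hk0 hL0.le, mul_nonneg (sq_nonneg κ) hL0.le]
    · nlinarith [mul_nonneg hk0 hL0.le, mul_nonneg (sq_nonneg κ) (by linarith : 0 ≤ L - 1),
        mul_nonneg hk0 (by linarith : 0 ≤ L - 1)]
  calc |-2 * (κ + 1) * L + (κ ^ 2 + 2 * κ + 2)| * L
      ≤ (2 * (κ + 1) + κ ^ 2 + 2 * κ + 2) * L * L := mul_le_mul_of_nonneg_right h2 hL0.le
    _ = (2 * (κ + 1) + κ ^ 2 + 2 * κ + 2) * L ^ 2 := by ring

end Pool.Agent.Helper69.GGM
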