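import Pool.Agent.Helper69.GGM.BE0
import Pool.Agent.Helper69.GGM.AT
import Pool.Agent.Helper69.GGM.TL

/-!
# GGM block BE: Poisson kernels of large width

Statement: `|WP T (Pk c)/SN T - 1/2| <= C/c` for `1 <= c <= 5 log T`, `T >= T₀`.

Proof. Write `M₀ = pairCount T 0 0` (pairs with difference 0), `G(r)` = number of pairs with
`0 < |nd| <= r` = `2 lim_{α → 0+} pairCount T α r` (finitely many pairs; `pairCount_neg`).
`Pk c` is even and decreasing in `|u|` with derivative `(Pk c)'`, so (layer cake, finite sum over pairs)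
`WP T (Pk c) = Pk c 0 * M₀ + ∫_0^∞ (-(Pk c)'(r)) G(r) dr`.
* `Pk c 0 = 1/c`, `0 <= M₀ <= pairCount T 0 1 <= C SN T` (`tail_pairs`).
* for `r <= sqrt T`: `|G(r) - 2 SN T ∫_0^r (F + A_T - 1)| <= 2 C (1 + r T^(-1/100)) SN T`
  (`bounded_error`, let `α → 0+`), `F = 1 - sinc²` (`pcDensity`).
* for `r > sqrt T`: `0 <= G(r) <= 2 C (r+1) SN T` (`tail_pairs`), and `0 <= 2 SN T ∫_0^r (F + A_T -1) <= 4 r SN T`.
* `∫_0^∞ (-(Pk c)'(r)) 2 ∫_0^r (F + A_T - 1) du dr = 2 ∫_0^∞ Pk c (u) (F + A_T - 1) du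
   = A_T/2 - ∫_ℝ Pk c sinc²`, and `0 <= ∫ Pk c sinc² <= 1/c` (`∫_ℝ sinc² = 1`, `sc_integral`, `∫_ℝ Pk c = 1/2`).
* errors: `∫_0^{sqrt T} (-(Pk c)') (1 + r T^(-1/100)) dr <= 1/c + T^(-1/100)/4` and
  `T^(-1/100) <= C'/c` because `c <= 5 log T`; `∫_{sqrt T}^∞ (-(Pk c)'(r)) (r+1) dr <= 2 c/ sqrt T + ... <= C/c`.
* finally `|A_T - 1| <= C/log T <= 5C/c` (`AT_near_one`).
Instead of the layer cake formula one may cut `[0, sqrt T]` into windows `((k-1)h, kh]` and use Abel summation.
-/

open Filter Topology MeasureTheory Set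
open Pool.Agent.Helper57.PC Pool.Agent.Helper57.LH Pool.Agent.Helper57.Zeta

namespace Pool.Agent.Helper69.GGM

namespace BEaux

/-- minus the derivative of the Poisson kernel -/
noncomputable def wkB (c r : ℝ) : ℝ := 8 * Real.pi ^ 2 * c * r / (c ^ 2 + (2 * Real.pi * r) ^ 2) ^ 2

lemma wkB_nonneg {c r : ℝ} (hc : 0 < c) (hr : 0 ≤ r) : 0 ≤ wkB c r := by
  unfold wkB; positivity

lemma hasDerivAt_Pk {c : ℝ} (hc : 0 < c) (r : ℝ) : HasDerivAt (Pk c) (-wkB c r) r := by
  have h1 : HasDerivAt (fun u : ℝ => c ^ 2 + (2 * Real.pi * u) ^ 2)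
      (2 * (2 * Real.pi * r) * (2 * Real.pi)) r := by
    have h2 : HasDerivAt (fun u : ℝ => 2 * Real.pi * u) (2 * Real.pi) r := by
      simpa using (hasDerivAt_id r).const_mul (2 * Real.pi)
    have h3 := (h2.fun_pow 2).const_add (c ^ 2)
    refine h3.congr_deriv ?_
    norm_num
  have h4 : c ^ 2 + (2 * Real.pi * r) ^ 2 ≠ 0 := by positivity
  have h5 := (h1.fun_inv h4).const_mul c
  have h6 : Pk c = fun u => c * (c ^ 2 + (2 * Real.pi * u) ^ 2)⁻¹ := by
    funext u; unfold Pk; rw [div_eq_mul_inv]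
  rw [h6]
  refine h5.congr_deriv ?_
  unfold wkB
  field_simp
  ring

lemma arctan_le_self {x : ℝ} (hx : 0 ≤ x) : Real.arctan x ≤ x := by
  have h := Real.le_tan (Real.arctan_nonneg.mpr hx) (Real.arctan_lt_pi_div_two x)
  rwa [Real.tan_arctan] at h

lemma tendsto_Pk (c : ℝ) : Tendsto (Pk c) atTop (𝓝 0) := by
  have h1 : Tendsto (fun u : ℝ => c ^ 2 + (2 * Real.pi * u) ^ 2) atTop atTop := by
    apply tendsto_atTop_add_const_left
    apply (tendsto_pow_atTop (by norm_num : (2:ℕ) ≠ 0)).comp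
    exact tendsto_id.const_mul_atTop (by positivity)
  exact h1.const_div_atTop c

lemma wkB_integrableOn {c : ℝ} (hc : 0 < c) {u : ℝ} (hu : 0 ≤ u) : IntegrableOn (wkB c) (Ioi u) := by
  have h1 : IntegrableOn (fun r => -(-wkB c r)) (Ioi u) := by
    refine integrableOn_Ioi_deriv_of_nonneg' (g := fun r => - Pk c r) (l := -0) (fun x _ => (hasDerivAt_Pk hc x).neg) (fun x hx => ?_) (tendsto_Pk c).neg
    rw [neg_neg]
    exact wkB_nonneg hc (hu.trans (le_of_lt hx))
  simpa using h1

lemma wkB_integral {c : ℝ} (hc : 0 < c) {u : ℝ} (hu : 0 ≤ u) : ∫ r in Ioi u, wkB c r = Pk c u := by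
  have h1 : ∫ r in Ioi u, -(-wkB c r) = -0 - (-Pk c u) := by
    refine integral_Ioi_of_hasDerivAt_of_nonneg' (g := fun r => - Pk c r) (fun x _ => (hasDerivAt_Pk hc x).neg) (fun x hx => ?_) (tendsto_Pk c).neg
    rw [neg_neg]
    exact wkB_nonneg hc (hu.trans (le_of_lt hx))
  simpa using h1

/-- primitive of `2 r wkB c r` -/
noncomputable def Vk (c r : ℝ) : ℝ := (1 / Real.pi) * Real.arctan (2 * Real.pi * r / c) - 2 * r * Pk c r

lemma hasDerivAt_Vk {c : ℝ} (hc : 0 < c) (r : ℝ) : HasDerivAt (Vk c) (2 * r * wkB c r) r := by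
  have h2 : HasDerivAt (fun u : ℝ => 2 * Real.pi * u / c) (2 * Real.pi / c) r := by
    have := ((hasDerivAt_id r).const_mul (2 * Real.pi)).div_const c
    simpa using this
  have h3 := (h2.arctan).const_mul (1 / Real.pi)
  have h4 : HasDerivAt (fun u : ℝ => 2 * u) 2 r := by simpa using (hasDerivAt_id r).const_mul (2:ℝ)
  have h5 := h3.fun_sub (h4.fun_mul (hasDerivAt_Pk hc r))
  have h6 : Vk c = fun u => 1 / Real.pi * Real.arctan (2 * Real.pi * u / c) - 2 * u * Pk c u := by
    funext u; rfl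
  rw [h6]
  refine h5.congr_deriv ?_
  unfold Pk
  have h7 : c ^ 2 + (2 * Real.pi * r) ^ 2 ≠ 0 := by positivity
  have h8 : 1 + (2 * Real.pi * r / c) ^ 2 ≠ 0 := by positivity
  have h9 : 1 / Real.pi * (1 / (1 + (2 * Real.pi * r / c) ^ 2) * (2 * Real.pi / c)) = 2 * c / (c ^ 2 + (2 * Real.pi * r) ^ 2) := by
    have : 1 + (2 * Real.pi * r / c) ^ 2 = (c ^ 2 + (2 * Real.pi * r) ^ 2) / c ^ 2 := by
      field_simp
    rw [this]
    field_simp
  rw [h9]
  ring

lemma tendsto_Vk {c : ℝ} (hc : 0 < c) : Tendsto (Vk c) atTop (𝓝 (1 / 2)) := by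
  have h1 : Tendsto (fun r : ℝ => (1 / Real.pi) * Real.arctan (2 * Real.pi * r / c)) atTop
      (𝓝 ((1 / Real.pi) * (Real.pi / 2))) := by
    apply Tendsto.const_mul
    have h2 : Tendsto (fun r : ℝ => 2 * Real.pi * r / c) atTop atTop := by
      apply Tendsto.atTop_div_const hc
      exact tendsto_id.const_mul_atTop (by positivity)
    exact (Real.tendsto_arctan_atTop.mono_right nhdsWithin_le_nhds).comp h2
  have h3 : Tendsto (fun r : ℝ => 2 * r * Pk c r) atTop (𝓝 0) := by
    have h4 : Tendsto (fun r : ℝ => c / (2 * Real.pi ^ 2) * r⁻¹) atTop (𝓝 (c / (2 * Real.pi ^ 2) * 0)) :=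
      tendsto_inv_atTop_zero.const_mul _
    rw [mul_zero] at h4
    refine squeeze_zero' ?_ ?_ h4
    · filter_upwards [eventually_gt_atTop 0] with r hr
      have := Pk_nonneg hc r
      positivity
    · filter_upwards [eventually_gt_atTop 0] with r hr
      unfold Pk
      rw [← div_eq_mul_inv, div_div, mul_div_assoc', div_le_div_iff₀ (by positivity) (by positivity)]
      have : 0 ≤ c ^ 3 := by positivity
      nlinarith [this]
  have h5 := h1.sub h3
  have h6 : (1 / Real.pi) * (Real.pi / 2) - 0 = 1 / 2 := by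
    have := Real.pi_ne_zero
    field_simp
    norm_num
  rw [h6] at h5
  exact h5

lemma twkB_integrableOn {c : ℝ} (hc : 0 < c) {u : ℝ} (hu : 0 ≤ u) :
    IntegrableOn (fun r => 2 * r * wkB c r) (Ioi u) := by
  refine integrableOn_Ioi_deriv_of_nonneg' (g := Vk c) (l := 1 / 2) (fun x _ => hasDerivAt_Vk hc x) (fun x hx => ?_) (tendsto_Vk hc)
  have h1 : 0 ≤ x := hu.trans (le_of_lt hx)
  have := wkB_nonneg hc h1
  positivity

lemma twkB_integral {c : ℝ} (hc : 0 < c) {u : ℝ} (hu : 0 ≤ u) :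
    ∫ r in Ioi u, 2 * r * wkB c r = 1 / 2 - Vk c u := by
  refine integral_Ioi_of_hasDerivAt_of_nonneg' (g := Vk c) (fun x _ => hasDerivAt_Vk hc x) (fun x hx => ?_) (tendsto_Vk hc)
  have h1 : 0 ≤ x := hu.trans (le_of_lt hx)
  have := wkB_nonneg hc h1
  positivity

lemma Vk_zero (c : ℝ) : Vk c 0 = 0 := by unfold Vk; simp

/-- the tail of the Poisson kernel -/
lemma Vk_tail {c u : ℝ} (hc : 0 < c) (hu : 0 < u) : 1 / 2 - Vk c u ≤ c / u := by
  unfold Vk
  have h1 : Real.arctan (2 * Real.pi * u / c) = Real.pi / 2 - Real.arctan (c / (2 * Real.pi * u)) := by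
    have h2 : 0 < 2 * Real.pi * u / c := by positivity
    have h3 := Real.arctan_inv_of_pos h2
    rw [inv_div] at h3
    linarith
  have h4 : Real.arctan (c / (2 * Real.pi * u)) ≤ c / (2 * Real.pi * u) := arctan_le_self (by positivity)
  have h5 : 2 * u * Pk c u ≤ c / (2 * u) := by
    unfold Pk
    rw [mul_div_assoc', div_le_div_iff₀ (by positivity) (by positivity)]
    have h6 : 3 < Real.pi := Real.pi_gt_three
    have h7 : (9:ℝ) * (c * u ^ 2) ≤ Real.pi ^ 2 * (c * u ^ 2) := by
      apply mul_le_mul_of_nonneg_right _ (by positivity)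
      nlinarith
    have h8 : 0 ≤ c ^ 3 := by positivity
    have h9 : 0 ≤ c * u ^ 2 := by positivity
    nlinarith
  rw [h1]
  have h10 : (1 / Real.pi) * (Real.pi / 2 - Real.arctan (c / (2 * Real.pi * u))) =
      1 / 2 - (1 / Real.pi) * Real.arctan (c / (2 * Real.pi * u)) := by
    have := Real.pi_ne_zero
    field_simp
  rw [h10]
  have h11 : (1 / Real.pi) * Real.arctan (c / (2 * Real.pi * u)) ≤ c / (2 * u) := by
    have h12 : (1 / Real.pi) * Real.arctan (c / (2 * Real.pi * u)) ≤ 1 * (c / (2 * Real.pi * u)) := by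
      apply mul_le_mul _ h4 (Real.arctan_nonneg.mpr (by positivity)) (by norm_num)
      rw [div_le_one Real.pi_pos]
      linarith [Real.pi_gt_three]
    refine h12.trans ?_
    rw [one_mul]
    apply div_le_div_of_nonneg_left hc.le (by positivity)
    nlinarith [Real.pi_gt_three]
  have h13 : c / u = c / (2 * u) + c / (2 * u) := by field_simp; norm_num
  linarith


/-- layer cake formula for pair sums -/
lemma WP_layer {T c : ℝ} (hc : 0 < c) :
    IntegrableOn (fun r => wkB c r * pairCount T (-r) r) (Ioi 0) ∧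
    WP T (Pk c) = ∫ r in Ioi (0:ℝ), wkB c r * pairCount T (-r) r := by
  classical
  have hF : ∀ r : ℝ, wkB c r * pairCount T (-r) r =
      ∑ p ∈ Zf T ×ˢ Zf T, ((mult p.1 : ℝ) * (mult p.2 : ℝ)) * (Ici |nd T p|).indicator (wkB c) r := by
    intro r
    rw [pairCount_eq, Finset.mul_sum]
    refine Finset.sum_congr rfl fun p _ => ?_
    rw [indicator_apply]
    by_cases h : |nd T p| ≤ r
    · rw [if_pos (show nd T p ∈ Icc (-r) r from abs_le.mp h), if_pos (show r ∈ Ici |nd T p| from h)]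
      ring
    · rw [if_neg (show nd T p ∉ Icc (-r) r from fun h2 => h (abs_le.mpr h2)),
        if_neg (show r ∉ Ici |nd T p| from fun h2 => h h2)]
      ring
  have hI : ∀ p ∈ Zf T ×ˢ Zf T, IntegrableOn
      (fun r => ((mult p.1 : ℝ) * (mult p.2 : ℝ)) * (Ici |nd T p|).indicator (wkB c) r) (Ioi 0) := by
    intro p _
    apply Integrable.const_mul
    exact (wkB_integrableOn hc le_rfl).indicator measurableSet_Ici
  refine ⟨?_, ?_⟩
  · have := integrable_finsetSum _ hI
    refine this.congr (Eventually.of_forall fun r => ?_)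
    exact (hF r).symm
  · rw [show (∫ r in Ioi (0:ℝ), wkB c r * pairCount T (-r) r) = ∫ r in Ioi (0:ℝ),
      ∑ p ∈ Zf T ×ˢ Zf T, ((mult p.1 : ℝ) * (mult p.2 : ℝ)) * (Ici |nd T p|).indicator (wkB c) r from by
        congr 1; funext r; exact hF r]
    rw [integral_finsetSum _ hI]
    unfold WP
    refine Finset.sum_congr rfl fun p _ => ?_
    rw [integral_const_mul, setIntegral_indicator measurableSet_Ici]
    congr 1
    have h1 : (Ioi (0:ℝ) ∩ Ici |nd T p| : Set ℝ) =ᵐ[volume] (Ioi |nd T p| : Set ℝ) := by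
      rcases eq_or_lt_of_le (abs_nonneg (nd T p)) with h2 | h2
      · exact Filter.EventuallyEq.of_eq (by rw [← h2, inter_eq_left.mpr Ioi_subset_Ici_self])
      · rw [inter_eq_right.mpr (Ici_subset_Ioi.mpr h2)]
        exact Ioi_ae_eq_Ici.symm
    rw [setIntegral_congr_set h1, wkB_integral hc (abs_nonneg _)]
    rcases abs_choice (nd T p) with h | h
    · rw [h]
    · rw [h, Pk_even]

/-- pairs in a symmetric window -/
lemma sym_window {T C : ℝ} (h : ∀ u : ℝ, pairCount T u (u + 1) ≤ C * SN T) (hT : 1 < T) (hC : 0 < C)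
    {r : ℝ} (hr : 0 ≤ r) : pairCount T (-r) r ≤ 4 * C * (r + 1) * SN T := by
  have hS := SN_pos hT
  have h1 : ∀ n : ℕ, pairCount T 0 n ≤ C * (n + 1) * SN T := by
    intro n
    induction n with
    | zero =>
      have h2 : pairCount T 0 ((0:ℕ):ℝ) ≤ pairCount T 0 (0 + 1) := pairCount_mono T le_rfl (by simp)
      have h3 := h 0
      push_cast at h2 ⊢
      linarith
    | succ n ih =>
      have h2 := pairCount_split T 0 (n:ℝ) ((n + 1 : ℕ) : ℝ)
      have h3 := h n
      push_cast at h2 ⊢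
      nlinarith
  have h2 : pairCount T 0 r ≤ C * (r + 2) * SN T := by
    have h3 : pairCount T 0 r ≤ pairCount T 0 (⌈r⌉₊ : ℝ) := pairCount_mono T le_rfl (Nat.le_ceil r)
    have h4 := h1 ⌈r⌉₊
    have h5 : (⌈r⌉₊ : ℝ) < r + 1 := Nat.ceil_lt_add_one hr
    have h6 : C * ((⌈r⌉₊ : ℝ) + 1) * SN T ≤ C * (r + 2) * SN T := by
      apply mul_le_mul_of_nonneg_right _ hS.le
      apply mul_le_mul_of_nonneg_left _ hC.le
      linarith
    linarith
  have h7 : pairCount T (-r) 0 = pairCount T 0 r := by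
    have := pairCount_neg T 0 r
    rwa [neg_zero] at this
  have h8 := pairCount_split T (-r) 0 r
  have h9 : 0 ≤ C * SN T := by positivity
  nlinarith [mul_nonneg (mul_nonneg hC.le hr) hS.le]

lemma two_windows (T : ℝ) {a r : ℝ} (ha : 0 < a) (har : a ≤ r) :
    2 * pairCount T a r ≤ pairCount T (-r) r := by
  classical
  have h1 : 2 * pairCount T a r = pairCount T a r + pairCount T (-r) (-a) := by
    rw [pairCount_neg]; ring
  rw [h1, pairCount_eq, pairCount_eq, pairCount_eq, ← Finset.sum_add_distrib]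
  refine Finset.sum_le_sum fun p _ => ?_
  have hm : (0:ℝ) ≤ (mult p.1 : ℝ) * (mult p.2 : ℝ) := by positivity
  by_cases h2 : nd T p ∈ Icc a r
  · have h3 : nd T p ∉ Icc (-r) (-a) := by
      intro h4
      linarith [h2.1, h4.2]
    have h5 : nd T p ∈ Icc (-r) r := ⟨by linarith [h2.1], h2.2⟩
    rw [if_pos h2, if_neg h3, if_pos h5]
    linarith
  · rw [if_neg h2]
    by_cases h3 : nd T p ∈ Icc (-r) (-a)
    · have h5 : nd T p ∈ Icc (-r) r := ⟨h3.1, by linarith [h3.2]⟩
      rw [if_pos h3, if_pos h5]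
      linarith
    · rw [if_neg h3]
      split_ifs <;> linarith

/-- the main term and error for symmetric windows of length at most `sqrt T` -/
lemma sym_main {T C D A : ℝ} (hT : 1 < T) (hC : 0 < C) (hD : 0 < D) (hA : 0 < A)
    (h : ∀ u : ℝ, pairCount T u (u + 1) ≤ C * SN T)
    (hb : ∀ α β : ℝ, 0 < α → α < β → β ≤ Real.sqrt T →
      |pairCount T α β - (T * Real.log T / (2 * Real.pi)) * ∫ u in α..β,
          (pcDensity u + ((∫ t in (0:ℝ)..T, Real.log (t / (2 * Real.pi)) ^ 2) /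
            (T * Real.log T ^ 2) - 1))| ≤
        D * (1 + (β - α) / T ^ (1/100 : ℝ)) * (T * Real.log T / (2 * Real.pi)))
    (hat : |(∫ t in (0:ℝ)..T, Real.log (t / (2 * Real.pi)) ^ 2) / (T * Real.log T ^ 2) - 1| ≤
      A / Real.log T) {r : ℝ} (hr : 0 ≤ r) (hrT : r ≤ Real.sqrt T) :
    |pairCount T (-r) r - 2 * r * SN T| ≤
      (202 * D + 2 * A + 8 * C + 4) * (1 + r / Real.log T) * SN T := by
  have hS := SN_pos hT
  have hL : 0 < Real.log T := Real.log_pos hT
  have hT0 : 0 < T := by linarith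
  have hSN : T * Real.log T / (2 * Real.pi) = SN T := rfl
  rw [hSN] at hb
  set L := Real.log T with hLdef
  set m : ℝ := (∫ t in (0:ℝ)..T, Real.log (t / (2 * Real.pi)) ^ 2) / (T * L ^ 2) - 1 with hm
  have hrL : 0 ≤ r / L := by positivity
  rcases le_or_gt r 1 with h1 | h1
  · have h2 := sym_window h hT hC hr
    have h3 := pairCount_nonneg T (-r) r
    have h4 : 4 * C * (r + 1) * SN T ≤ 8 * C * SN T := by nlinarith [mul_pos hC hS]
    have h5 : 0 ≤ 2 * r * SN T := by positivity
    have h6 : 2 * r * SN T ≤ 2 * SN T := by nlinarith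
    have h7 : (8 * C + 4) * SN T ≤ (202 * D + 2 * A + 8 * C + 4) * (1 + r / L) * SN T := by
      apply mul_le_mul_of_nonneg_right _ hS.le
      nlinarith [mul_nonneg hD.le hrL, mul_nonneg hA.le hrL, mul_nonneg hC.le hrL]
    rw [abs_le]
    constructor
    · nlinarith [mul_pos hC hS]
    · nlinarith
  · -- r > 1
    have h2 := hb (1/2) r (by norm_num) (by linarith) hrT
    have hint : ∫ u in (1/2:ℝ)..r, (pcDensity u + m) =
        (r - 1/2) - (∫ u in (1/2:ℝ)..r, Pool.Agent.Helper57.PC.sq u) + (r - 1/2) * m := by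
      rw [intervalIntegral.integral_add (intervalIntegrable_pcDensity _ _) intervalIntegrable_const]
      have h3 : ∫ u in (1/2:ℝ)..r, pcDensity u = (r - 1/2) - ∫ u in (1/2:ℝ)..r, Pool.Agent.Helper57.PC.sq u := by
        have h4 : (pcDensity : ℝ → ℝ) = fun u => 1 - Pool.Agent.Helper57.PC.sq u := rfl
        rw [h4, intervalIntegral.integral_sub intervalIntegrable_const (intervalIntegrable_sq _ _)]
        simp
      rw [h3]
      simp
    have hsq := Pool.Agent.Helper57.LH.int_sq_le_half (show (0:ℝ) ≤ 1/2 by norm_num)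
      (show (1/2:ℝ) ≤ r by linarith)
    have hsq0 : 0 ≤ ∫ u in (1/2:ℝ)..r, Pool.Agent.Helper57.PC.sq u :=
      intervalIntegral.integral_nonneg (by linarith) fun u _ => Pool.Agent.Helper57.PC.sq_nonneg' u
    rw [hint] at h2
    set S := ∫ u in (1/2:ℝ)..r, Pool.Agent.Helper57.PC.sq u with hSdef
    -- the power of T
    have hpow : (r - 1/2) / T ^ (1/100 : ℝ) ≤ 100 * (r / L) := by
      have h3 : L ≤ T ^ (1/100 : ℝ) / (1/100) := Real.log_le_rpow_div hT0.le (by norm_num)
      have h4 : 0 < T ^ (1/100 : ℝ) := Real.rpow_pos_of_pos hT0 _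
      rw [mul_div_assoc', div_le_div_iff₀ h4 hL]
      have h5 : L ≤ 100 * T ^ (1/100 : ℝ) := by linarith
      have h6 : (r - 1/2) * L ≤ r * L := by nlinarith
      have h7 : r * L ≤ r * (100 * T ^ (1/100 : ℝ)) := mul_le_mul_of_nonneg_left h5 hr
      linarith
    have hD1 : D * (1 + (r - 1/2) / T ^ (1/100 : ℝ)) * SN T ≤ D * (1 + 100 * (r / L)) * SN T := by
      apply mul_le_mul_of_nonneg_right _ hS.le
      apply mul_le_mul_of_nonneg_left _ hD.le
      linarith
    have hm1 : |(r - 1/2) * m| ≤ A * (r / L) := by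
      rw [abs_mul, abs_of_nonneg (by linarith : (0:ℝ) ≤ r - 1/2)]
      have h3 : (r - 1/2) * |m| ≤ r * (A / L) := by
        apply mul_le_mul (by linarith) hat (abs_nonneg _) hr
      calc (r - 1/2) * |m| ≤ r * (A / L) := h3
        _ = A * (r / L) := by ring
    have hP : |pairCount T (1/2) r - r * SN T| ≤ (D * (1 + 100 * (r / L)) + (1 + A * (r / L))) * SN T := by
      have h3 : pairCount T (1/2) r - r * SN T = (pairCount T (1/2) r - SN T * ((r - 1/2) - S + (r - 1/2) * m)) +
          SN T * (-(1/2) - S + (r - 1/2) * m) := by ring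
      rw [h3]
      refine (abs_add_le _ _).trans ?_
      have h4 : |SN T * (-(1/2) - S + (r - 1/2) * m)| ≤ (1 + A * (r / L)) * SN T := by
        rw [abs_mul, abs_of_pos hS, mul_comm]
        apply mul_le_mul_of_nonneg_right _ hS.le
        obtain ⟨h5, h6⟩ := abs_le.mp hm1
        rw [abs_le]
        constructor
        · linarith
        · linarith
      linarith
    have h8 := two_windows T (show (0:ℝ) < 1/2 by norm_num) (show (1/2:ℝ) ≤ r by linarith)
    have h9 : pairCount T (-r) r ≤ 2 * pairCount T (1/2) r + 6 * C * SN T := by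
      have h10 := pairCount_split T (-r) (-(1/2)) r
      have h11 := pairCount_split T (-(1/2)) (1/2) r
      have h12 := pairCount_neg T (1/2) r
      have h13 := sym_window h hT hC (show (0:ℝ) ≤ 1/2 by norm_num)
      linarith
    obtain ⟨h14, h15⟩ := abs_le.mp hP
    have h16 : 2 * (D * (1 + 100 * (r / L)) + (1 + A * (r / L))) * SN T + 6 * C * SN T ≤
        (202 * D + 2 * A + 8 * C + 4) * (1 + r / L) * SN T := by
      rw [← add_mul]
      apply mul_le_mul_of_nonneg_right _ hS.le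
      nlinarith [mul_nonneg hD.le hrL, mul_nonneg hA.le hrL, mul_nonneg hC.le hrL]
    have h17 : 0 ≤ C * SN T := by positivity
    rw [abs_le]
    constructor <;> nlinarith

end BEaux

open BEaux in
theorem poisson_large : ∃ C T₀ : ℝ, 0 < C ∧ ∀ T : ℝ, T₀ ≤ T → ∀ c : ℝ, 1 ≤ c →
    c ≤ 5 * Real.log T → |WP T (Pk c) / SN T - 1 / 2| ≤ C / c := by
  obtain ⟨D, T1, hD, hb⟩ := bounded_error
  obtain ⟨A, T2, hA, hat⟩ := AT_near_one
  obtain ⟨C, T3, hC, htp⟩ := tail_pairs
  set K1 : ℝ := 202 * D + 2 * A + 8 * C + 4 with hK1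
  have hK1p : 0 < K1 := by positivity
  refine ⟨K1 * 3 + (4 * C + 1) * 400, max (max T1 T2) (max T3 2), by positivity, ?_⟩
  intro T hT c hc1 hcL
  have hT1 : T1 ≤ T := (le_max_left _ _).trans ((le_max_left _ _).trans hT)
  have hT2 : T2 ≤ T := (le_max_right _ _).trans ((le_max_left _ _).trans hT)
  have hT3 : T3 ≤ T := (le_max_left _ _).trans ((le_max_right _ _).trans hT)
  have hT4 : 2 ≤ T := (le_max_right _ _).trans ((le_max_right _ _).trans hT)
  have hTgt : 1 < T := by linarith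
  have hT0 : 0 < T := by linarith
  have hS := SN_pos hTgt
  have hL : 0 < Real.log T := Real.log_pos hTgt
  have hc : 0 < c := by linarith
  have hq : 0 < Real.sqrt T := Real.sqrt_pos.mpr hT0
  obtain ⟨hI1, hWP⟩ := WP_layer (T := T) hc
  have hI2 := twkB_integrableOn hc (le_refl (0:ℝ))
  have hV := twkB_integral hc (le_refl (0:ℝ))
  rw [Vk_zero, sub_zero] at hV
  -- the difference as an integral
  have hdiff : WP T (Pk c) - SN T * (1 / 2) =
      ∫ r in Ioi (0:ℝ), wkB c r * (pairCount T (-r) r - 2 * r * SN T) := by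
    rw [hWP, ← hV, ← integral_const_mul, ← integral_sub hI1 (hI2.const_mul _)]
    congr 1
    funext r
    ring
  -- the bound function
  have hB0 : IntegrableOn (fun r => K1 * SN T * (wkB c r + 1 / (2 * Real.log T) * (2 * r * wkB c r))) (Ioi 0) :=
    ((wkB_integrableOn hc le_rfl).add (hI2.const_mul _)).const_mul _
  have hB1 : IntegrableOn (fun r => (4 * C + 1) * SN T *
      (Ioi (Real.sqrt T)).indicator (fun r => 2 * r * wkB c r) r) (Ioi 0) :=
    (hI2.indicator measurableSet_Ioi).const_mul _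
  have hle : ‖∫ r in Ioi (0:ℝ), wkB c r * (pairCount T (-r) r - 2 * r * SN T)‖ ≤
      ∫ r in Ioi (0:ℝ), (K1 * SN T * (wkB c r + 1 / (2 * Real.log T) * (2 * r * wkB c r)) +
        (4 * C + 1) * SN T * (Ioi (Real.sqrt T)).indicator (fun r => 2 * r * wkB c r) r) := by
    apply norm_integral_le_of_norm_le (hB0.add hB1)
    refine (ae_restrict_iff' measurableSet_Ioi).mpr (Eventually.of_forall fun r hr => ?_)
    have hr0 : 0 < r := hr
    have hw := wkB_nonneg hc hr0.le
    rw [norm_mul, Real.norm_of_nonneg hw, Real.norm_eq_abs]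
    show wkB c r * |pairCount T (-r) r - 2 * r * SN T| ≤
      K1 * SN T * (wkB c r + 1 / (2 * Real.log T) * (2 * r * wkB c r)) +
        (4 * C + 1) * SN T * (Ioi (Real.sqrt T)).indicator (fun r => 2 * r * wkB c r) r
    have hfirst : K1 * SN T * (wkB c r + 1 / (2 * Real.log T) * (2 * r * wkB c r)) =
        wkB c r * (K1 * (1 + r / Real.log T) * SN T) := by
      field_simp
    rcases le_or_gt r (Real.sqrt T) with h1 | h1
    · have h2 := sym_main hTgt hC hD hA (htp T hT3) (hb T hT1) (hat T hT2) hr0.le h1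
      have h3 : (Ioi (Real.sqrt T)).indicator (fun r => 2 * r * wkB c r) r = 0 :=
        indicator_of_notMem (by simpa using h1) _
      rw [h3, mul_zero, add_zero, hfirst]
      exact mul_le_mul_of_nonneg_left h2 hw
    · have h3 : (Ioi (Real.sqrt T)).indicator (fun r => 2 * r * wkB c r) r = 2 * r * wkB c r :=
        indicator_of_mem (show r ∈ Ioi (Real.sqrt T) from h1) _
      rw [h3, hfirst]
      have h4 := sym_window (htp T hT3) hTgt hC hr0.le
      have h5 := pairCount_nonneg T (-r) r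
      have h6 : 1 ≤ r := by
        have : 1 ≤ Real.sqrt T := by
          rw [show (1:ℝ) = Real.sqrt 1 by simp]
          exact Real.sqrt_le_sqrt hTgt.le
        linarith
      have h7 : |pairCount T (-r) r - 2 * r * SN T| ≤ (4 * C + 1) * SN T * (2 * r) := by
        have h8 : 4 * C * (r + 1) * SN T ≤ 8 * C * r * SN T := by
          nlinarith [mul_pos hC hS]
        have h9 : 0 ≤ C * r * SN T := by positivity
        have h10 : 0 ≤ r * SN T := by positivity
        rw [abs_le]
        constructor <;> nlinarith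
      have h11 : 0 ≤ wkB c r * (K1 * (1 + r / Real.log T) * SN T) := by positivity
      have h12 := mul_le_mul_of_nonneg_left h7 hw
      linarith
  rw [integral_add hB0 hB1, integral_const_mul, integral_const_mul,
    integral_add (wkB_integrableOn hc le_rfl) (hI2.const_mul _), integral_const_mul, hV,
    wkB_integral hc le_rfl, setIntegral_indicator measurableSet_Ioi, Ioi_inter_Ioi,
    sup_eq_right.mpr hq.le, twkB_integral hc hq.le] at hle
  rw [← hdiff, Real.norm_eq_abs] at hle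
  have hP0 : Pk c 0 = 1 / c := by
    unfold Pk
    field_simp
    ring
  rw [hP0] at hle
  have hV2 := Vk_tail hc hq
  have hc2 : c / Real.sqrt T ≤ 400 / c := by
    rw [div_le_div_iff₀ hq hc]
    have h1 : Real.log T ≤ T ^ (1/4 : ℝ) / (1/4) := Real.log_le_rpow_div hT0.le (by norm_num)
    have h2 : c ≤ 20 * T ^ (1/4 : ℝ) := by linarith
    have h3 : (T ^ (1/4 : ℝ)) * (T ^ (1/4 : ℝ)) = Real.sqrt T := by
      rw [← Real.rpow_add hT0, Real.sqrt_eq_rpow]
      norm_num
    have h4 : 0 ≤ T ^ (1/4 : ℝ) := (Real.rpow_pos_of_pos hT0 _).le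
    nlinarith
  have hL2 : 1 / (2 * Real.log T) * (1 / 2) ≤ 5 / 4 * (1 / c) := by
    rw [← div_div, ← mul_one_div]
    have : 1 / Real.log T ≤ 5 / c := by
      rw [div_le_div_iff₀ hL hc]
      linarith
    have h2 : 5 / c = 5 * (1 / c) := by ring
    have h3 : 1 / Real.log T ≤ 5 * (1 / c) := by linarith
    linarith
  have hfin : |WP T (Pk c) - SN T * (1 / 2)| ≤ (K1 * 3 + (4 * C + 1) * 400) * (1 / c) * SN T := by
    refine hle.trans ?_
    have h1 : K1 * SN T * (1 / c + 1 / (2 * Real.log T) * (1 / 2)) ≤ K1 * SN T * (3 * (1 / c)) := by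
      apply mul_le_mul_of_nonneg_left _ (by positivity)
      have : 0 ≤ 1 / c := by positivity
      linarith
    have h2 : (4 * C + 1) * SN T * (1 / 2 - Vk c (Real.sqrt T)) ≤ (4 * C + 1) * SN T * (400 * (1 / c)) := by
      apply mul_le_mul_of_nonneg_left _ (by positivity)
      have : 400 / c = 400 * (1 / c) := by ring
      linarith
    linarith
  have h1 : WP T (Pk c) / SN T - 1 / 2 = (WP T (Pk c) - SN T * (1 / 2)) / SN T := by
    field_simp
  rw [h1, abs_div, abs_of_pos hS, div_le_iff₀ hS]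
  refine hfin.trans (le_of_eq ?_)
  ring

end Pool.Agent.Helper69.GGM
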