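import Mathlib

/-!
# GGM block CI: area integrals of a truncated square near poles

Statement: near the point `w₀`, `X(w) = Σ_{k ∈ K} m_k/(w - z_k) + R(w) + O(1/2)`, one of the poles is `w₀`.
Then the area integral of `min (‖X‖²) B` over the disc of radius `r₀ <= 1` is at least
`(π/2) (log (r₀ sqrt B/(4(N+Kb+1))) - 2N)`, `N = Σ m_k`.

Proof. `M = sqrt B`, `d = 4(N+Kb+1)/M`. If `r₀ <= d` the right side is `<= 0`. Let `d < r < r₀` with
`|r - ‖z_k - w₀‖| >= d` for all `k ∈ K` (good radius). On the circle `‖w-w₀‖ = r`: `‖w - z_k‖ >= d`, so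
`‖X‖ <= N/d + Kb + 1/2 <= M/4 + Kb + 1/2`, and `M >= 4(N+Kb+1)/r₀ >= 4(Kb+1)` (as `d < r₀ <= 1`), so `‖X‖ <= M/2 < M`
and `min (‖X‖²) B = ‖X‖²` there. The circle integral of `Y = Σ m_k/(w - z_k) + R` is `2πi Σ_{z_k inside} m_k`
(`circleIntegral.integral_sub_inv_of_mem_ball`, Cauchy-Goursat for the poles outside and for `R`), of modulus
`>= 2π`; so `∫_0^{2π} ‖Y‖ r dθ >= 2π`, `∫_0^{2π} ‖X‖ r dθ >= 2π - π r >= π`, and by Cauchy-Schwarz
`∫_0^{2π} ‖X‖² r dθ >= π²/(2π r) = π/(2r)`. Integrate over the good radii (polar coordinates, e.g.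
`lintegral_ball_polar` in `Pool/Agent/Helper57/M/Z.lean`, or `Complex.lintegral_comp_polarCoord_symm`):
`∫_{good} dr/r >= ∫_d^{r₀} dr/r - Σ_k ∫_{r>d, |r-r_k|<d} dr/r >= log(r₀/d) - 2N` (each bad interval has length
`<= 2d` and `1/r <= 1/d`, the number of `k` is `<= N` because `m_k >= 1`).
-/

open Complex Set MeasureTheory Filter Topology Metric

open scoped ENNReal

namespace Pool.Agent.Helper69.GGM

/-- polar coordinates in a disc (copied from `Pool/Agent/Helper57/M/Z.lean`) -/
lemma ci_ball_polar (f : ℂ → ℝ≥0∞) (hf : Measurable f) (c : ℂ) (R : ℝ) :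
    ∫⁻ z in ball c R, f z =
      ∫⁻ r in Ioo 0 R, ENNReal.ofReal r * ∫⁻ θ in Ioo (-Real.pi) Real.pi, f (circleMap c r θ) := by
  have h1 : ∫⁻ z in ball c R, f z = ∫⁻ z, (ball (0:ℂ) R).indicator (fun z => f (c + z)) z := by
    rw [← lintegral_indicator measurableSet_ball]
    rw [← lintegral_add_left_eq_self _ c]
    congr 1
    ext z
    by_cases hz : z ∈ ball (0:ℂ) R
    · rw [indicator_of_mem hz, indicator_of_mem]
      rw [mem_ball, dist_eq_norm] at hz ⊢
      simpa using hz
    · rw [indicator_of_notMem hz, indicator_of_notMem]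
      rw [mem_ball, dist_eq_norm] at hz ⊢
      simpa using hz
  rw [h1, ← Complex.lintegral_comp_polarCoord_symm]
  have h2 : polarCoord.target = Ioi (0:ℝ) ×ˢ Ioo (-Real.pi) Real.pi := rfl
  rw [h2, Measure.volume_eq_prod, ← Measure.prod_restrict]
  have hmeas : Measurable (fun p : ℝ × ℝ => ENNReal.ofReal p.1 •
      (ball (0:ℂ) R).indicator (fun z => f (c + z)) (Complex.polarCoord.symm p)) := by
    have hc : Measurable (fun p : ℝ × ℝ => Complex.polarCoord.symm p) := by
      have : (fun p : ℝ × ℝ => Complex.polarCoord.symm p) =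
          fun p : ℝ × ℝ => (p.1 : ℂ) * (Real.cos p.2 + Real.sin p.2 * Complex.I) := by
        ext p; rw [Complex.polarCoord_symm_apply]
      rw [this]
      fun_prop
    simp only [smul_eq_mul]
    apply Measurable.mul
    · fun_prop
    · have h3 : Measurable ((ball (0:ℂ) R).indicator (fun z => f (c + z))) :=
        (hf.comp (measurable_const_add c)).indicator measurableSet_ball
      exact h3.comp hc
  rw [lintegral_prod _ hmeas.aemeasurable]
  rw [← lintegral_indicator measurableSet_Ioi, ← lintegral_indicator measurableSet_Ioo]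
  congr 1
  ext r
  by_cases hr : r ∈ Ioo 0 R
  · rw [indicator_of_mem hr, indicator_of_mem (show r ∈ Ioi (0:ℝ) from hr.1)]
    simp only [smul_eq_mul]
    rw [lintegral_const_mul']
    · congr 1
      apply lintegral_congr
      intro θ
      rw [indicator_of_mem]
      · congr 1
        rw [Complex.polarCoord_symm_apply, circleMap]
        simp only [Complex.exp_mul_I]
        push_cast
        rfl
      · rw [mem_ball, dist_zero_right, Complex.norm_polarCoord_symm]
        simp only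
        rw [abs_of_pos hr.1]
        exact hr.2
    · exact ENNReal.ofReal_ne_top
  · rw [indicator_of_notMem hr]
    by_cases hr0 : r ∈ Ioi (0:ℝ)
    · rw [indicator_of_mem hr0]
      simp only [smul_eq_mul]
      have hR : R ≤ r := by
        by_contra hcon
        exact hr ⟨hr0, not_le.mp hcon⟩
      rw [lintegral_const_mul' _ _ ENNReal.ofReal_ne_top]
      have : ∫⁻ θ in Ioo (-Real.pi) Real.pi, (ball (0:ℂ) R).indicator (fun z => f (c + z)) (Complex.polarCoord.symm (r, θ)) = 0 := by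
        rw [lintegral_eq_zero_iff']
        · apply Eventually.of_forall
          intro θ
          show (ball (0:ℂ) R).indicator (fun z => f (c + z)) (Complex.polarCoord.symm (r, θ)) = 0
          rw [indicator_of_notMem]
          · rw [mem_ball, dist_zero_right, Complex.norm_polarCoord_symm]
            simp only
            rw [abs_of_pos hr0, not_lt]
            exact hR
        · have h3 : Measurable ((ball (0:ℂ) R).indicator (fun z => f (c + z))) :=
            (hf.comp (measurable_const_add c)).indicator measurableSet_ball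
          have h4 : Measurable (fun θ : ℝ => Complex.polarCoord.symm (r, θ)) := by
            have : (fun θ : ℝ => Complex.polarCoord.symm (r, θ)) =
                fun θ : ℝ => (r : ℂ) * (Real.cos θ + Real.sin θ * Complex.I) := by
              ext θ; rw [Complex.polarCoord_symm_apply]
            rw [this]
            fun_prop
          exact (h3.comp h4).aemeasurable
      rw [this, mul_zero]
    · rw [indicator_of_notMem hr0]

/-- the circle integral of the model function has modulus at least `2π` -/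
lemma ci_circle {ι : Type*} (K : Finset ι) (z : ι → ℂ) (m : ι → ℕ) (hm : ∀ k ∈ K, 1 ≤ m k)
    (R : ℂ → ℂ) (w₀ : ℂ) {r : ℝ} (hr : 0 < r)
    (hw₀ : ∃ k ∈ K, z k = w₀) (hR : DifferentiableOn ℂ R (closedBall w₀ r))
    (hz : ∀ k ∈ K, ‖z k - w₀‖ ≠ r) :
    2 * Real.pi ≤ ‖∮ w in C(w₀, r), (∑ k ∈ K, (m k : ℂ) / (w - z k) + R w)‖ := by
  classical
  have hRc : ContinuousOn R (closedBall w₀ r) := hR.continuousOn
  have hRi : CircleIntegrable R w₀ r :=
    (hRc.mono sphere_subset_closedBall).circleIntegrable hr.le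
  have hR0 : (∮ w in C(w₀, r), R w) = 0 := by
    apply Complex.circleIntegral_eq_zero_of_differentiable_on_off_countable hr.le countable_empty hRc
    intro w hw
    exact (hR.mono ball_subset_closedBall).differentiableAt (isOpen_ball.mem_nhds hw.1)
  have hint : ∀ k ∈ K, CircleIntegrable (fun w => (m k : ℂ) / (w - z k)) w₀ r := by
    intro k hk
    apply ContinuousOn.circleIntegrable hr.le
    apply ContinuousOn.div continuousOn_const (by fun_prop)
    intro w hw h0
    rw [sub_eq_zero] at h0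
    rw [h0, mem_sphere, dist_eq_norm] at hw
    exact hz k hk hw
  have hval : ∀ k ∈ K, (∮ w in C(w₀, r), (m k : ℂ) / (w - z k)) =
      ((if ‖z k - w₀‖ < r then (m k : ℝ) else 0 : ℝ) : ℂ) * (2 * Real.pi * I) := by
    intro k hk
    simp_rw [div_eq_mul_inv]
    rw [circleIntegral.integral_const_mul]
    by_cases h : ‖z k - w₀‖ < r
    · rw [if_pos h, circleIntegral.integral_sub_inv_of_mem_ball (by rw [mem_ball, dist_eq_norm]; exact h)]
      push_cast
      ring
    · rw [if_neg h]
      have h2 : r < ‖z k - w₀‖ := lt_of_le_of_ne (not_lt.mp h) (Ne.symm (hz k hk))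
      have hne : ∀ w ∈ closedBall w₀ r, w - z k ≠ 0 := by
        intro w hw h0
        rw [sub_eq_zero] at h0
        rw [h0, mem_closedBall, dist_eq_norm] at hw
        linarith
      rw [Complex.circleIntegral_eq_zero_of_differentiable_on_off_countable hr.le countable_empty]
      · simp
      · apply ContinuousOn.inv₀ (by fun_prop) hne
      · intro w hw
        apply DifferentiableAt.inv (by fun_prop)
        exact hne w (ball_subset_closedBall hw.1)
  have hsum : (∮ w in C(w₀, r), (∑ k ∈ K, (m k : ℂ) / (w - z k) + R w)) =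
      ((∑ k ∈ K, (if ‖z k - w₀‖ < r then (m k : ℝ) else 0) : ℝ) : ℂ) * (2 * Real.pi * I) := by
    rw [circleIntegral.integral_add _ hRi, hR0, add_zero, circleIntegral.integral_fun_sum hint,
      Finset.sum_congr rfl hval]
    · push_cast
      rw [Finset.sum_mul]
    · exact CircleIntegrable.fun_sum K hint
  rw [hsum, norm_mul, norm_real, Real.norm_eq_abs]
  have h2 : ‖(2 * Real.pi * I : ℂ)‖ = 2 * Real.pi := by
    simp [abs_of_pos Real.pi_pos]
  rw [h2]
  obtain ⟨k₀, hk₀, hz₀⟩ := hw₀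
  have hnn : ∀ k ∈ K, 0 ≤ (if ‖z k - w₀‖ < r then (m k : ℝ) else 0) := by
    intro k _
    split_ifs
    · positivity
    · exact le_rfl
  have h3 : 1 ≤ ∑ k ∈ K, (if ‖z k - w₀‖ < r then (m k : ℝ) else 0) := by
    refine le_trans ?_ (Finset.single_le_sum hnn hk₀)
    rw [hz₀, sub_self, norm_zero, if_pos hr]
    exact_mod_cast hm k₀ hk₀
  rw [abs_of_nonneg (by linarith)]
  have := Real.pi_pos
  nlinarith

/-- lower bound on one circle -/
lemma ci_radius {ι : Type*} (K : Finset ι) (z : ι → ℂ) (m : ι → ℕ) (hm : ∀ k ∈ K, 1 ≤ m k)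
    (X R : ℂ → ℂ) (w₀ : ℂ) {r r₀ Kb d M : ℝ} (hr : 0 < r) (hrr : r < r₀) (hr1 : r₀ ≤ 1)
    (hw₀ : ∃ k ∈ K, z k = w₀) (hR : DifferentiableOn ℂ R (ball w₀ (2 * r₀)))
    (hRb : ∀ w ∈ closedBall w₀ r₀, ‖R w‖ ≤ Kb)
    (hXR : ∀ w ∈ closedBall w₀ r₀, (∀ k ∈ K, w ≠ z k) →
      ‖X w - ∑ k ∈ K, (m k : ℂ) / (w - z k) - R w‖ ≤ 1 / 2) (hM : 0 < M) (hd : 0 < d)
    (hdN : (∑ k ∈ K, (m k : ℝ)) / d ≤ M / 4) (hKM : Kb + 1 / 2 ≤ M / 4)
    (hgood : ∀ k ∈ K, d ≤ |r - ‖z k - w₀‖|) :
    ENNReal.ofReal (Real.pi / (2 * r ^ 2)) ≤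
      ∫⁻ θ in Ioo (-Real.pi) Real.pi, ENNReal.ofReal (min (‖X (circleMap w₀ r θ)‖ ^ 2) (M ^ 2)) := by
  have hpi := Real.pi_pos
  have hr0' : 0 < r₀ := hr.trans hrr
  have hz : ∀ k ∈ K, ‖z k - w₀‖ ≠ r := by
    intro k hk h
    have := hgood k hk
    rw [h, sub_self, abs_zero] at this
    linarith
  have hRcb : DifferentiableOn ℂ R (closedBall w₀ r) := by
    apply hR.mono
    apply closedBall_subset_ball
    linarith
  have hC := ci_circle K z m hm R w₀ hr hw₀ hRcb hz
  set Y : ℂ → ℂ := fun w => ∑ k ∈ K, (m k : ℂ) / (w - z k) + R w with hY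
  -- on the circle
  have hcirc : ∀ θ : ℝ, circleMap w₀ r θ ∈ closedBall w₀ r₀ := by
    intro θ
    rw [mem_closedBall, dist_eq_norm]
    have : ‖circleMap w₀ r θ - w₀‖ = r := by simp [circleMap, abs_of_pos hr]
    rw [this]; exact hrr.le
  have hdist : ∀ θ : ℝ, ∀ k ∈ K, d ≤ ‖circleMap w₀ r θ - z k‖ := by
    intro θ k hk
    have h1 : ‖circleMap w₀ r θ - w₀‖ = r := by simp [circleMap, abs_of_pos hr]
    have h2 : |‖circleMap w₀ r θ - w₀‖ - ‖z k - w₀‖| ≤ ‖(circleMap w₀ r θ - w₀) - (z k - w₀)‖ :=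
      abs_norm_sub_norm_le _ _
    rw [h1, sub_sub_sub_cancel_right] at h2
    exact (hgood k hk).trans h2
  have hne : ∀ θ : ℝ, ∀ k ∈ K, circleMap w₀ r θ ≠ z k := by
    intro θ k hk h
    have := hdist θ k hk
    rw [h, sub_self, norm_zero] at this
    linarith
  have hXY : ∀ θ : ℝ, ‖X (circleMap w₀ r θ) - Y (circleMap w₀ r θ)‖ ≤ 1 / 2 := by
    intro θ
    have := hXR _ (hcirc θ) (hne θ)
    rw [hY]
    simp only
    rwa [← sub_sub]
  have hsumb : ∀ θ : ℝ, ‖∑ k ∈ K, (m k : ℂ) / (circleMap w₀ r θ - z k)‖ ≤ M / 4 := by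
    intro θ
    calc ‖∑ k ∈ K, (m k : ℂ) / (circleMap w₀ r θ - z k)‖ ≤ ∑ k ∈ K, ‖(m k : ℂ) / (circleMap w₀ r θ - z k)‖ :=
          norm_sum_le _ _
      _ ≤ ∑ k ∈ K, (m k : ℝ) / d := by
          apply Finset.sum_le_sum
          intro k hk
          rw [norm_div, Complex.norm_natCast]
          exact div_le_div_of_nonneg_left (by positivity) hd (hdist θ k hk)
      _ = (∑ k ∈ K, (m k : ℝ)) / d := by rw [Finset.sum_div]
      _ ≤ M / 4 := hdN
  have hXb : ∀ θ : ℝ, ‖X (circleMap w₀ r θ)‖ ≤ M := by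
    intro θ
    have h1 := hXY θ
    have h2 : ‖Y (circleMap w₀ r θ)‖ ≤ M / 4 + Kb := by
      rw [hY]
      exact (norm_add_le _ _).trans (add_le_add (hsumb θ) (hRb _ (hcirc θ)))
    have h3 : ‖X (circleMap w₀ r θ)‖ ≤ ‖X (circleMap w₀ r θ) - Y (circleMap w₀ r θ)‖ + ‖Y (circleMap w₀ r θ)‖ := by
      have := norm_add_le (X (circleMap w₀ r θ) - Y (circleMap w₀ r θ)) (Y (circleMap w₀ r θ))
      rwa [sub_add_cancel] at this
    linarith
  -- continuity of Y on the circle
  have hYc : Continuous (fun θ : ℝ => Y (circleMap w₀ r θ)) := by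
    rw [hY]
    simp only
    apply Continuous.add
    · apply continuous_finsetSum
      intro k hk
      apply Continuous.div continuous_const ((continuous_circleMap w₀ r).sub continuous_const)
      intro θ h0
      exact hne θ k hk (sub_eq_zero.mp h0)
    · have h1 : ContinuousOn R (closedBall w₀ r) := hRcb.continuousOn
      rw [← continuousOn_univ]
      apply h1.comp (continuous_circleMap w₀ r).continuousOn
      intro θ _
      rw [mem_closedBall, dist_eq_norm]
      simp [circleMap, abs_of_pos hr]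
  set h : ℝ → ℝ := fun θ => max (‖Y (circleMap w₀ r θ)‖ - 1 / 2) 0 with hh
  have hhc : Continuous h := (hYc.norm.sub continuous_const).max continuous_const
  have hh0 : ∀ θ, 0 ≤ h θ := fun θ => le_max_right _ _
  have hper : Function.Periodic (fun θ => h θ ^ 2) (2 * Real.pi) := by
    intro θ
    simp only [hh]
    rw [(periodic_circleMap w₀ r) θ]
  -- integral of norm of Y
  have hYint : 2 * Real.pi / r ≤ ∫ θ in (0:ℝ)..(2 * Real.pi), ‖Y (circleMap w₀ r θ)‖ := by
    have h1 : ‖∮ w in C(w₀, r), Y w‖ ≤ ∫ θ in (0:ℝ)..(2 * Real.pi), ‖deriv (circleMap w₀ r) θ • Y (circleMap w₀ r θ)‖ :=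
      intervalIntegral.norm_integral_le_integral_norm Real.two_pi_pos.le
    have h2 : ∀ θ : ℝ, ‖deriv (circleMap w₀ r) θ • Y (circleMap w₀ r θ)‖ = r * ‖Y (circleMap w₀ r θ)‖ := by
      intro θ
      rw [norm_smul, deriv_circleMap]
      simp [circleMap, abs_of_pos hr]
    simp_rw [h2] at h1
    rw [intervalIntegral.integral_const_mul] at h1
    rw [div_le_iff₀ hr]
    linarith
  have hhint : Real.pi / r ≤ ∫ θ in (0:ℝ)..(2 * Real.pi), h θ := by
    have h1 : ∫ θ in (0:ℝ)..(2 * Real.pi), (‖Y (circleMap w₀ r θ)‖ - 1 / 2) ≤ ∫ θ in (0:ℝ)..(2 * Real.pi), h θ := by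
      apply intervalIntegral.integral_mono_on Real.two_pi_pos.le
      · exact (hYc.norm.sub continuous_const).intervalIntegrable _ _
      · exact hhc.intervalIntegrable _ _
      · intro θ _
        exact le_max_left _ _
    rw [intervalIntegral.integral_sub (hYc.norm.intervalIntegrable _ _) (continuous_const.intervalIntegrable _ _),
      intervalIntegral.integral_const] at h1
    simp only [smul_eq_mul] at h1
    have h2 : Real.pi ≤ Real.pi / r := by
      rw [le_div_iff₀ hr]
      nlinarith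
    have h3 : 2 * Real.pi / r = Real.pi / r + Real.pi / r := by ring
    linarith
  have hsq : Real.pi / (2 * r ^ 2) ≤ ∫ θ in (0:ℝ)..(2 * Real.pi), h θ ^ 2 := by
    have h1 : ∫ θ in (0:ℝ)..(2 * Real.pi), (1 / r * h θ - (1 / (2 * r)) ^ 2) ≤ ∫ θ in (0:ℝ)..(2 * Real.pi), h θ ^ 2 := by
      apply intervalIntegral.integral_mono_on Real.two_pi_pos.le
      · exact ((continuous_const.mul hhc).sub continuous_const).intervalIntegrable _ _
      · exact (hhc.pow 2).intervalIntegrable _ _
      · intro θ _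
        have h2 := sq_nonneg (h θ - 1 / (2 * r))
        have h3 : (h θ - 1 / (2 * r)) ^ 2 = h θ ^ 2 - (1 / r * h θ - (1 / (2 * r)) ^ 2) := by
          field_simp
          ring
        linarith
    have hi1 : IntervalIntegrable (fun θ => 1 / r * h θ) volume 0 (2 * Real.pi) :=
      (continuous_const.mul hhc).intervalIntegrable _ _
    have hi2 : IntervalIntegrable (fun _ : ℝ => (1 / (2 * r)) ^ 2) volume 0 (2 * Real.pi) :=
      continuous_const.intervalIntegrable _ _
    rw [intervalIntegral.integral_sub hi1 hi2,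
      intervalIntegral.integral_const, intervalIntegral.integral_const_mul] at h1
    simp only [smul_eq_mul] at h1
    refine le_trans ?_ h1
    have h4 : 1 / r * (Real.pi / r) ≤ 1 / r * ∫ θ in (0:ℝ)..(2 * Real.pi), h θ := by gcongr
    have h5 : Real.pi / (2 * r ^ 2) = 1 / r * (Real.pi / r) - (2 * Real.pi - 0) * (1 / (2 * r)) ^ 2 := by
      field_simp
      ring
    linarith
  -- pass to the lintegral
  have hIoo : ∫⁻ θ in Ioo (-Real.pi) Real.pi, ENNReal.ofReal (h θ ^ 2) =
      ENNReal.ofReal (∫ θ in (0:ℝ)..(2 * Real.pi), h θ ^ 2) := by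
    rw [← ofReal_integral_eq_lintegral_ofReal]
    · congr 1
      rw [← integral_Ioc_eq_integral_Ioo, ← intervalIntegral.integral_of_le (by linarith)]
      have := hper.intervalIntegral_add_eq 0 (-Real.pi)
      rw [zero_add] at this
      rw [this]
      congr 1
      ring
    · apply (((hhc.pow 2).integrableOn_Icc (a := -Real.pi) (b := Real.pi)).mono_set Ioo_subset_Icc_self)
    · exact Eventually.of_forall fun θ => sq_nonneg _
  calc ENNReal.ofReal (Real.pi / (2 * r ^ 2)) ≤ ENNReal.ofReal (∫ θ in (0:ℝ)..(2 * Real.pi), h θ ^ 2) :=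
        ENNReal.ofReal_le_ofReal hsq
    _ = ∫⁻ θ in Ioo (-Real.pi) Real.pi, ENNReal.ofReal (h θ ^ 2) := hIoo.symm
    _ ≤ _ := by
        apply lintegral_mono
        intro θ
        apply ENNReal.ofReal_le_ofReal
        have hX0 := norm_nonneg (X (circleMap w₀ r θ))
        have h1 : h θ ≤ ‖X (circleMap w₀ r θ)‖ := by
          rw [hh]
          simp only
          apply max_le _ hX0
          have h2 := hXY θ
          have h3 : ‖Y (circleMap w₀ r θ)‖ ≤ ‖X (circleMap w₀ r θ)‖ + ‖X (circleMap w₀ r θ) - Y (circleMap w₀ r θ)‖ := by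
            have := norm_sub_le (X (circleMap w₀ r θ)) (X (circleMap w₀ r θ) - Y (circleMap w₀ r θ))
            rwa [sub_sub_cancel] at this
          linarith
        apply le_min
        · exact pow_le_pow_left₀ (hh0 θ) h1 2
        · exact pow_le_pow_left₀ (hh0 θ) (h1.trans (hXb θ)) 2

theorem circle_lower {ι : Type*} (K : Finset ι) (z : ι → ℂ) (m : ι → ℕ) (hm : ∀ k ∈ K, 1 ≤ m k)
    (X R : ℂ → ℂ) (hX : Measurable X) (w₀ : ℂ) {r₀ Kb : ℝ} (hr : 0 < r₀) (hr1 : r₀ ≤ 1) (hKb : 0 ≤ Kb)
    (hw₀ : ∃ k ∈ K, z k = w₀) (hR : DifferentiableOn ℂ R (ball w₀ (2 * r₀)))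
    (hRb : ∀ w ∈ closedBall w₀ r₀, ‖R w‖ ≤ Kb)
    (hXR : ∀ w ∈ closedBall w₀ r₀, (∀ k ∈ K, w ≠ z k) →
      ‖X w - ∑ k ∈ K, (m k : ℂ) / (w - z k) - R w‖ ≤ 1 / 2) {B : ℝ} (hB : 0 < B) :
    ENNReal.ofReal (Real.pi / 2 * (Real.log (r₀ * Real.sqrt B /
      (4 * ((∑ k ∈ K, (m k : ℝ)) + Kb + 1))) - 2 * ∑ k ∈ K, (m k : ℝ))) ≤
      ∫⁻ w in ball w₀ r₀, ENNReal.ofReal (min (‖X w‖ ^ 2) B) := by
  classical
  have hpi := Real.pi_pos
  set N : ℝ := ∑ k ∈ K, (m k : ℝ) with hN
  set M : ℝ := Real.sqrt B with hM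
  have hM0 : 0 < M := Real.sqrt_pos.mpr hB
  have hM2 : M ^ 2 = B := Real.sq_sqrt hB.le
  have hcard : (K.card : ℝ) ≤ N := by
    rw [hN, Finset.card_eq_sum_ones]
    push_cast
    apply Finset.sum_le_sum
    intro k hk
    exact_mod_cast hm k hk
  have hN1 : 0 ≤ N := le_trans (Nat.cast_nonneg _) hcard
  set d : ℝ := 4 * (N + Kb + 1) / M with hd
  have hd0 : 0 < d := by positivity
  have hlogd : r₀ * M / (4 * (N + Kb + 1)) = r₀ / d := by
    rw [hd]; field_simp
  rw [hlogd]
  by_cases hcase : r₀ ≤ d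
  · have h1 : Real.log (r₀ / d) ≤ 0 := by
      apply Real.log_nonpos (by positivity)
      rw [div_le_one hd0]; exact hcase
    rw [ENNReal.ofReal_eq_zero.mpr]
    · exact zero_le
    · nlinarith
  push Not at hcase
  have hd1 : d < 1 := hcase.trans_le hr1
  have hMbig : 4 * (N + Kb + 1) < M := by
    rw [hd, div_lt_one hM0] at hd1
    exact hd1
  have hdN : N / d ≤ M / 4 := by
    rw [hd, div_div_eq_mul_div, div_le_div_iff₀ (by positivity) (by norm_num)]
    nlinarith
  have hKM : Kb + 1 / 2 ≤ M / 4 := by linarith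
  -- the bad radii
  set bad : Set ℝ := ⋃ k ∈ K, ball (‖z k - w₀‖) d with hbad
  have hbadm : MeasurableSet bad := by
    apply Finset.measurableSet_biUnion
    intro k _
    exact measurableSet_ball
  have hmeasf : Measurable (fun w => ENNReal.ofReal (min (‖X w‖ ^ 2) B)) := by fun_prop
  rw [ci_ball_polar _ hmeasf]
  have hgoodm : MeasurableSet (Ioo d r₀ \ bad) := measurableSet_Ioo.diff hbadm
  have hsub : Ioo d r₀ \ bad ⊆ Ioo 0 r₀ := fun x hx => ⟨hd0.trans hx.1.1, hx.1.2⟩
  have step1 : ∫⁻ r in Ioo d r₀ \ bad, ENNReal.ofReal (Real.pi / 2 * (1 / r)) ≤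
      ∫⁻ r in Ioo 0 r₀, ENNReal.ofReal r * ∫⁻ θ in Ioo (-Real.pi) Real.pi,
        ENNReal.ofReal (min (‖X (circleMap w₀ r θ)‖ ^ 2) B) := by
    refine le_trans ?_ (lintegral_mono_set hsub)
    apply setLIntegral_mono' hgoodm
    intro r hrg
    have hr0 : 0 < r := hd0.trans hrg.1.1
    have hgood : ∀ k ∈ K, d ≤ |r - ‖z k - w₀‖| := by
      intro k hk
      by_contra hcon
      push Not at hcon
      apply hrg.2
      rw [hbad]
      simp only [mem_iUnion]
      exact ⟨k, hk, by rw [mem_ball, Real.dist_eq]; exact hcon⟩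
    have h1 := ci_radius K z m hm X R w₀ hr0 hrg.1.2 hr1 hw₀ hR hRb hXR hM0 hd0 hdN hKM hgood
    rw [hM2] at h1
    refine le_trans ?_ (mul_le_mul_right h1 (ENNReal.ofReal r))
    rw [← ENNReal.ofReal_mul hr0.le]
    apply ENNReal.ofReal_le_ofReal
    apply le_of_eq
    field_simp
  refine le_trans ?_ step1
  -- total integral
  have hlog : ∫⁻ r in Ioo d r₀, ENNReal.ofReal (1 / r) = ENNReal.ofReal (Real.log (r₀ / d)) := by
    rw [← ofReal_integral_eq_lintegral_ofReal]
    · congr 1
      rw [← integral_Ioc_eq_integral_Ioo, ← intervalIntegral.integral_of_le hcase.le]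
      rw [integral_one_div_of_pos hd0 hr]
    · apply IntegrableOn.mono_set _ Ioo_subset_Icc_self
      apply ContinuousOn.integrableOn_Icc
      apply ContinuousOn.div continuousOn_const continuousOn_id
      intro x hx
      have : 0 < x := hd0.trans_le hx.1
      exact this.ne'
    · rw [EventuallyLE, ae_restrict_iff' measurableSet_Ioo]
      apply Eventually.of_forall
      intro x hx
      have : 0 < x := hd0.trans hx.1
      simp only [Pi.zero_apply]
      positivity
  have hbadint : ∫⁻ r in Ioo d r₀ ∩ bad, ENNReal.ofReal (1 / r) ≤ ENNReal.ofReal (2 * N) := by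
    calc ∫⁻ r in Ioo d r₀ ∩ bad, ENNReal.ofReal (1 / r) ≤ ∫⁻ r in Ioo d r₀ ∩ bad, ENNReal.ofReal (1 / d) := by
          apply setLIntegral_mono' (measurableSet_Ioo.inter hbadm)
          intro r hr'
          apply ENNReal.ofReal_le_ofReal
          exact one_div_le_one_div_of_le hd0 hr'.1.1.le
      _ = ENNReal.ofReal (1 / d) * volume (Ioo d r₀ ∩ bad) := by rw [setLIntegral_const]
      _ ≤ ENNReal.ofReal (1 / d) * ∑ k ∈ K, volume (ball (‖z k - w₀‖) d) := by
          gcongr
          exact (measure_mono inter_subset_right).trans (measure_biUnion_finset_le K _)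
      _ = ENNReal.ofReal (1 / d) * ENNReal.ofReal (K.card * (2 * d)) := by
          congr 1
          simp_rw [Real.volume_ball]
          rw [Finset.sum_const, nsmul_eq_mul, ENNReal.ofReal_mul (Nat.cast_nonneg _), ENNReal.ofReal_natCast]
      _ = ENNReal.ofReal (2 * K.card) := by
          rw [← ENNReal.ofReal_mul (by positivity)]
          congr 1
          field_simp
      _ ≤ _ := by
          apply ENNReal.ofReal_le_ofReal
          linarith
  have hsplit : ENNReal.ofReal (Real.log (r₀ / d)) ≤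
      (∫⁻ r in Ioo d r₀ \ bad, ENNReal.ofReal (1 / r)) + ENNReal.ofReal (2 * N) := by
    rw [← hlog, ← lintegral_inter_add_sdiff _ _ hbadm, add_comm]
    gcongr
  have hconst : ∫⁻ r in Ioo d r₀ \ bad, ENNReal.ofReal (Real.pi / 2 * (1 / r)) =
      ENNReal.ofReal (Real.pi / 2) * ∫⁻ r in Ioo d r₀ \ bad, ENNReal.ofReal (1 / r) := by
    rw [← lintegral_const_mul' _ _ ENNReal.ofReal_ne_top]
    apply lintegral_congr
    intro r
    rw [ENNReal.ofReal_mul (by positivity)]
  rw [hconst, ENNReal.ofReal_mul (by positivity)]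
  apply mul_le_mul_right
  rw [ENNReal.ofReal_sub _ (by positivity)]
  exact tsub_le_iff_right.mpr hsplit

end Pool.Agent.Helper69.GGM
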