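import Pool.Agent.Helper57.M.E
import Pool.Agent.Helper69.GGM.Defs

/-!
# GGM block M2: second moment of the scaled distance of the zeros from the critical line

Proof. `L = log T`, `x_ρ = L(β-1/2)`. By symmetry (`refl` / `order_one_sub`, `order_conj`, the map
`ρ ↦ 1 - conj ρ` preserves `Zf T`, `mx` and `x^2`) it suffices to sum over `β >= 1/2`.
Zeros with `γ < 11`: bounded total multiplicity (`loc_count`, `Afun_bound`, or NT 11) and `x^2 <= L^2/4`.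
Zeros with `11 <= γ <= T`: `[γ-1/L, γ+1/L] ⊆ RA T`, so
`(2/L) Σ m x^2 = ∫_{RA T} Σ_{L|γ-τ|<=1} m x^2 dτ <= B^2 ∫_{RA T} Σ_{L|γ-τ|<=1} m Wt B x dτ
 <= B^2 ∫_{RA T} sqrt Ψ <= B^2 (6T)^(1/2) (∫_{RA T} Ψ)^(1/2) <= C T`
with `B = 9600`, `Ψ` from `Qbound` and `Wt B x >= (x/B)^2` for `x >= 0`, `RA_vol`.
-/

open Complex Set MeasureTheory Filter Topology
open Pool.Agent.Helper57.LH Pool.Agent.Helper57.PC Pool.Agent.Helper57.Zeta

namespace Pool.Agent.Helper69.GGM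

namespace M2

lemma mem_Zf' {T : ℝ} {ρ : ℂ} : ρ ∈ Zf T ↔ xi ρ = 0 ∧ 0 ≤ ρ.im ∧ ρ.im ≤ T := by
  rw [mem_Zf, isNontrivialZero_iff]

lemma re_bd {ρ : ℂ} (h : xi ρ = 0) : 0 < ρ.re ∧ ρ.re < 1 :=
  ⟨(xi_eq_zero_iff.1 h).1, (xi_eq_zero_iff.1 h).2.1⟩

/-- reflection -/
lemma sum_left_le (T a : ℝ) (L : ℝ) :
    ∑ ρ ∈ (Zf T).filter (fun ρ => a ≤ ρ.im ∧ ρ.re < 1 / 2), mx ρ * (L * (ρ.re - 1 / 2)) ^ 2 ≤
    ∑ ρ ∈ (Zf T).filter (fun ρ => a ≤ ρ.im ∧ 1 / 2 ≤ ρ.re), mx ρ * (L * (ρ.re - 1 / 2)) ^ 2 := by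
  classical
  have h1 : ∑ ρ ∈ (Zf T).filter (fun ρ => a ≤ ρ.im ∧ ρ.re < 1 / 2), mx ρ * (L * (ρ.re - 1 / 2)) ^ 2 =
      ∑ ρ ∈ ((Zf T).filter (fun ρ => a ≤ ρ.im ∧ ρ.re < 1 / 2)).image (fun ρ => 1 - starRingEnd ℂ ρ),
        mx ρ * (L * (ρ.re - 1 / 2)) ^ 2 := by
    rw [Finset.sum_image]
    · refine Finset.sum_congr rfl fun ρ _ => ?_
      have e1 : mx (1 - starRingEnd ℂ ρ) = mx ρ := by
        unfold mx
        rw [order_one_sub, order_conj]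
      have e2 : (1 - starRingEnd ℂ ρ).re = 1 - ρ.re := by simp
      rw [e1, e2]
      ring
    · intro x _ y _ hxy
      have : starRingEnd ℂ x = starRingEnd ℂ y := by
        simpa using hxy
      exact (starRingEnd ℂ).injective this
  rw [h1]
  refine Finset.sum_le_sum_of_subset_of_nonneg ?_ fun ρ _ _ => mul_nonneg (mx_nonneg _) (sq_nonneg _)
  intro ρ hρ
  obtain ⟨ρ', hρ', rfl⟩ := Finset.mem_image.1 hρ
  obtain ⟨hz, ha, hre⟩ := Finset.mem_filter.1 hρ'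
  obtain ⟨hz1, hz2, hz3⟩ := mem_Zf'.1 hz
  rw [Finset.mem_filter, mem_Zf']
  have e2 : (1 - starRingEnd ℂ ρ').re = 1 - ρ'.re := by simp
  have e3 : (1 - starRingEnd ℂ ρ').im = ρ'.im := by simp
  rw [e2, e3]
  refine ⟨⟨by rw [xi_one_sub, xi_conj, hz1, map_zero], hz2, hz3⟩, ha, by linarith⟩

lemma interval_int {T L γ : ℝ} (hL : 1 ≤ L) (hγ : 11 ≤ γ) (hγT : γ ≤ T) :
    ∫ τ in RA T, (Icc (γ - 1 / L) (γ + 1 / L)).indicator (fun _ => (1 : ℝ)) τ = 2 / L := by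
  have hL0 : 0 < L := by linarith
  have h1 : 1 / L ≤ 1 := by rw [div_le_one hL0]; exact hL
  have h0 : 0 < 1 / L := by positivity
  rw [setIntegral_indicator measurableSet_Icc]
  have h2 : RA T ∩ Icc (γ - 1 / L) (γ + 1 / L) = Icc (γ - 1 / L) (γ + 1 / L) := by
    apply inter_eq_self_of_subset_right
    intro τ hτ
    have h3 : 0 < τ := by linarith [hτ.1]
    unfold RA
    simp only [mem_ofPred_eq]
    rw [abs_of_pos h3]
    constructor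
    · linarith [hτ.1]
    · linarith [hτ.2]
  rw [h2, setIntegral_const, smul_eq_mul, mul_one, Real.volume_real_Icc_of_le (by linarith)]
  ring

lemma right_bound {T C Q L : ℝ} (hL : L = Real.log T) (hL1 : 1 ≤ L) (hT : 0 ≤ T)
    {Ψ : ℝ → ℝ} (hΨc : Continuous Ψ) (hΨ0 : ∀ τ, 0 ≤ Ψ τ)
    (hQ : ∫ τ in RA T, Ψ τ ≤ Q * T)
    (hΨ : ∀ τ ∈ RA T, ∀ F : Finset ℂ, (∀ ρ ∈ F, xi ρ = 0 ∧ 1 / 2 ≤ ρ.re ∧ Real.log T * |ρ.im - τ| ≤ 1) →
      (∑ ρ ∈ F, (analyticOrderNatAt xi ρ : ℝ) * Wt 9600 (Real.log T * (ρ.re - 1 / 2))) ^ 2 ≤ Ψ τ)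
    (hC : C = 9600 ^ 2 * (6 + Q)) :
    ∑ ρ ∈ (Zf T).filter (fun ρ => 11 ≤ ρ.im ∧ 1 / 2 ≤ ρ.re), mx ρ * (L * (ρ.re - 1 / 2)) ^ 2 ≤
      C * (T * L) := by
  classical
  have hL0 : 0 < L := by linarith
  set F := (Zf T).filter (fun ρ => 11 ≤ ρ.im ∧ 1 / 2 ≤ ρ.re) with hF
  have hmem : ∀ ρ ∈ F, xi ρ = 0 ∧ 11 ≤ ρ.im ∧ ρ.im ≤ T ∧ 1 / 2 ≤ ρ.re := by
    intro ρ hρ
    rw [hF, Finset.mem_filter, mem_Zf'] at hρ
    exact ⟨hρ.1.1, hρ.2.1, hρ.1.2.2, hρ.2.2⟩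
  set J : ℂ → Set ℝ := fun ρ => Icc (ρ.im - 1 / L) (ρ.im + 1 / L) with hJ
  have hJm : ∀ (ρ : ℂ) (τ : ℝ), τ ∈ J ρ ↔ L * |ρ.im - τ| ≤ 1 := by
    intro ρ τ
    simp only [hJ, mem_Icc]
    rw [← le_div_iff₀' hL0, abs_le]
    constructor
    · rintro ⟨h1, h2⟩; constructor <;> linarith
    · rintro ⟨h1, h2⟩; constructor <;> linarith
  have hint : ∀ ρ : ℂ, Integrable (fun τ => (J ρ).indicator (fun _ => (1 : ℝ)) τ)
      (volume.restrict (RA T)) := by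
    intro ρ
    refine Integrable.mono_measure ?_ Measure.restrict_le_self
    exact (integrable_indicator_iff measurableSet_Icc).2 (by
      refine integrableOn_const (by simp) (by simp))
  have h1 : (2 / L) * ∑ ρ ∈ F, mx ρ * (L * (ρ.re - 1 / 2)) ^ 2 =
      ∫ τ in RA T, ∑ ρ ∈ F, mx ρ * (L * (ρ.re - 1 / 2)) ^ 2 * (J ρ).indicator (fun _ => (1 : ℝ)) τ := by
    rw [integral_finsetSum _ (fun ρ _ => (hint ρ).const_mul _), Finset.mul_sum]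
    refine Finset.sum_congr rfl fun ρ hρ => ?_
    rw [integral_const_mul]
    have := interval_int (T := T) hL1 (hmem ρ hρ).2.1 (hmem ρ hρ).2.2.1
    rw [hJ] 
    simp only
    rw [this]
    ring
  have h2 : ∫ τ in RA T, ∑ ρ ∈ F, mx ρ * (L * (ρ.re - 1 / 2)) ^ 2 * (J ρ).indicator (fun _ => (1 : ℝ)) τ
      ≤ ∫ τ in RA T, 9600 ^ 2 * ((1 + Ψ τ) / 2) := by
    refine setIntegral_mono_on ?_ ?_ (RA_meas T) ?_
    · exact integrable_finsetSum _ (fun ρ _ => (hint ρ).const_mul _)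
    · exact ion (by fun_prop) T
    · intro τ hτ
      have e1 : ∑ ρ ∈ F, mx ρ * (L * (ρ.re - 1 / 2)) ^ 2 * (J ρ).indicator (fun _ => (1 : ℝ)) τ =
          ∑ ρ ∈ F.filter (fun ρ => τ ∈ J ρ), mx ρ * (L * (ρ.re - 1 / 2)) ^ 2 := by
        rw [Finset.sum_filter (s := F) (p := fun ρ => τ ∈ J ρ)]
        refine Finset.sum_congr rfl fun ρ _ => ?_
        by_cases h : τ ∈ J ρ
        · rw [if_pos h, indicator_of_mem h, mul_one]
        · rw [if_neg h, indicator_of_notMem h, mul_zero]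
      rw [e1]
      have h3 := hΨ τ hτ (F.filter (fun ρ => τ ∈ J ρ)) (by
        intro ρ hρ
        rw [Finset.mem_filter] at hρ
        refine ⟨(hmem ρ hρ.1).1, (hmem ρ hρ.1).2.2.2, ?_⟩
        rw [← hL]
        exact (hJm ρ τ).1 hρ.2)
      set Sm := ∑ ρ ∈ F.filter (fun ρ => τ ∈ J ρ),
        (analyticOrderNatAt xi ρ : ℝ) * Wt 9600 (Real.log T * (ρ.re - 1 / 2)) with hSm
      have h4 : ∑ ρ ∈ F.filter (fun ρ => τ ∈ J ρ), mx ρ * (L * (ρ.re - 1 / 2)) ^ 2 ≤ 9600 ^ 2 * Sm := by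
        rw [hSm, Finset.mul_sum]
        refine Finset.sum_le_sum fun ρ hρ => ?_
        rw [Finset.mem_filter] at hρ
        have hre := (hmem ρ hρ.1).2.2.2
        have hx : 0 ≤ L * (ρ.re - 1 / 2) := mul_nonneg hL0.le (by linarith)
        rw [← hL]
        have h5 : (L * (ρ.re - 1 / 2)) ^ 2 ≤ 9600 ^ 2 * Wt 9600 (L * (ρ.re - 1 / 2)) := by
          unfold Wt
          have h6 : 1 ≤ Real.exp (L * (ρ.re - 1 / 2) / 9600) := Real.one_le_exp (by positivity)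
          have h7 : 0 ≤ (L * (ρ.re - 1 / 2)) ^ 2 := sq_nonneg _
          calc (L * (ρ.re - 1 / 2)) ^ 2 ≤ (L * (ρ.re - 1 / 2)) ^ 2 * Real.exp (L * (ρ.re - 1 / 2) / 9600) :=
                le_mul_of_one_le_right h7 h6
            _ = _ := by ring
        have h8 := mx_nonneg ρ
        calc mx ρ * (L * (ρ.re - 1 / 2)) ^ 2 ≤ mx ρ * (9600 ^ 2 * Wt 9600 (L * (ρ.re - 1 / 2))) := by
              gcongr
          _ = _ := by unfold mx; ring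
      have h5 : Sm ≤ (1 + Ψ τ) / 2 := by
        nlinarith [sq_nonneg (Sm - 1)]
      linarith
  have h3 : ∫ τ in RA T, 9600 ^ 2 * ((1 + Ψ τ) / 2) ≤ 9600 ^ 2 * ((6 * T + Q * T) / 2) := by
    rw [integral_const_mul, integral_div, integral_add (ion continuous_const T) (ion hΨc T)]
    have := RA_vol hT
    gcongr
  have h4 : (2 / L) * ∑ ρ ∈ F, mx ρ * (L * (ρ.re - 1 / 2)) ^ 2 ≤ 9600 ^ 2 * ((6 * T + Q * T) / 2) := by
    rw [h1]; exact h2.trans h3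
  have h5 : ∑ ρ ∈ F, mx ρ * (L * (ρ.re - 1 / 2)) ^ 2 ≤ (L / 2) * (9600 ^ 2 * ((6 * T + Q * T) / 2)) := by
    have h6 : ∑ ρ ∈ F, mx ρ * (L * (ρ.re - 1 / 2)) ^ 2 =
        (L / 2) * ((2 / L) * ∑ ρ ∈ F, mx ρ * (L * (ρ.re - 1 / 2)) ^ 2) := by
      rw [← mul_assoc, show L / 2 * (2 / L) = 1 by field_simp, one_mul]
    rw [h6]
    exact mul_le_mul_of_nonneg_left h4 (by positivity)
  refine h5.trans ?_
  have hQT : 0 ≤ Q * T := le_trans (integral_nonneg fun τ => hΨ0 τ) hQ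
  rw [hC]
  have : L * 9600 ^ 2 * (6 * T + Q * T) ≥ 0 := by positivity
  nlinarith

lemma low_bound {T L : ℝ} :
    ∑ ρ ∈ (Zf T).filter (fun ρ => ¬ 11 ≤ ρ.im), mx ρ * (L * (ρ.re - 1 / 2)) ^ 2 ≤
      (∑ ρ ∈ Zf 11, mx ρ) * L ^ 2 := by
  classical
  rw [Finset.sum_mul]
  calc ∑ ρ ∈ (Zf T).filter (fun ρ => ¬ 11 ≤ ρ.im), mx ρ * (L * (ρ.re - 1 / 2)) ^ 2
      ≤ ∑ ρ ∈ (Zf T).filter (fun ρ => ¬ 11 ≤ ρ.im), mx ρ * L ^ 2 := by
        refine Finset.sum_le_sum fun ρ hρ => ?_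
        rw [Finset.mem_filter, mem_Zf'] at hρ
        have h1 := re_bd hρ.1.1
        have h2 : (ρ.re - 1 / 2) ^ 2 ≤ 1 := by nlinarith
        have h3 : (L * (ρ.re - 1 / 2)) ^ 2 ≤ L ^ 2 := by
          rw [mul_pow]
          nlinarith [sq_nonneg L]
        exact mul_le_mul_of_nonneg_left h3 (mx_nonneg _)
    _ ≤ ∑ ρ ∈ Zf 11, mx ρ * L ^ 2 := by
        refine Finset.sum_le_sum_of_subset_of_nonneg ?_ fun ρ _ _ => mul_nonneg (mx_nonneg _) (sq_nonneg _)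
        intro ρ hρ
        rw [Finset.mem_filter, mem_Zf'] at hρ
        rw [mem_Zf']
        exact ⟨hρ.1.1, hρ.1.2.1, (not_le.1 hρ.2).le⟩

end M2

theorem sum_x2 : ∃ C T₀ : ℝ, 0 < C ∧ ∀ T : ℝ, T₀ ≤ T →
    ∑ ρ ∈ Zf T, mx ρ * (Real.log T * (ρ.re - 1 / 2)) ^ 2 ≤ C * (T * Real.log T) := by
  classical
  obtain ⟨CQ, hCQ, T0, hT0, hQ⟩ := Qbound
  set c0 := ∑ ρ ∈ Zf 11, mx ρ with hc0
  have hc00 : 0 ≤ c0 := Finset.sum_nonneg fun ρ _ => mx_nonneg ρ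
  refine ⟨2 * (9600 ^ 2 * (6 + CQ)) + c0, T0, by positivity, fun T hT => ?_⟩
  have hT40 : (3 : ℝ) ^ 40 ≤ T := hT0.trans hT
  have hTpos : 0 < T := lt_of_lt_of_le (by positivity) hT40
  have hL40 : 40 ≤ Real.log T := log_T40 hT40
  obtain ⟨Ψ, hΨc, hΨ0, hΨi, hΨ⟩ := hQ T hT 9600 le_rfl
  set L := Real.log T with hL
  have hL1 : 1 ≤ L := by linarith
  have hLT : L ≤ T := by
    have := Real.log_le_sub_one_of_pos hTpos
    linarith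
  have hi : ∫ τ in RA T, Ψ τ ≤ CQ * T := by
    refine hΨi.trans ?_
    have : T / 9600 ^ 4 ≤ T := div_le_self hTpos.le (by norm_num)
    gcongr
  have h1 := M2.right_bound hL hL1 hTpos.le hΨc hΨ0 hi hΨ rfl
  have h2 := M2.sum_left_le T 11 L
  have h3 := M2.low_bound (T := T) (L := L)
  have hsplit : ∑ ρ ∈ Zf T, mx ρ * (L * (ρ.re - 1 / 2)) ^ 2 =
      (∑ ρ ∈ (Zf T).filter (fun ρ => 11 ≤ ρ.im ∧ 1 / 2 ≤ ρ.re), mx ρ * (L * (ρ.re - 1 / 2)) ^ 2 +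
      ∑ ρ ∈ (Zf T).filter (fun ρ => 11 ≤ ρ.im ∧ ρ.re < 1 / 2), mx ρ * (L * (ρ.re - 1 / 2)) ^ 2) +
      ∑ ρ ∈ (Zf T).filter (fun ρ => ¬ 11 ≤ ρ.im), mx ρ * (L * (ρ.re - 1 / 2)) ^ 2 := by
    rw [← Finset.sum_filter_add_sum_filter_not (Zf T) (fun ρ => 11 ≤ ρ.im)]
    congr 1
    rw [← Finset.sum_filter_add_sum_filter_not ((Zf T).filter (fun ρ => 11 ≤ ρ.im)) (fun ρ => 1 / 2 ≤ ρ.re),
      Finset.filter_filter, Finset.filter_filter]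
    simp only [not_le]
  rw [hsplit]
  have h4 : c0 * L ^ 2 ≤ c0 * (T * L) := by
    refine mul_le_mul_of_nonneg_left ?_ hc00
    nlinarith
  nlinarith

end Pool.Agent.Helper69.GGM
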