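import Pool.Agent.Helper69.GGM.HX
import Pool.Agent.Helper69.GGM.EB
import Pool.Agent.Helper69.GGM.M2

/-!
# GGM block CV: `XX T a` is close to `S0 T a - S0 T (2 log T)` in measure

Proof. `L = log T`, `r(t) = XX T a t - (S0 T a t - S0 T (2L) t)`. For all `t ∈ [δT,(1-δ)T]` except finitely
many (`zz T t ρ ≠ a`, `zz T t ρ ≠ 2L` automatic since `|x_ρ| <= L/2`):
`‖r‖ <= C/L + ‖E_a(t)‖ + ‖E_{2L}(t)‖`, `E_b = SS T b - S0 T b = Σ mx eb` (`XX_diff`, `SS_sub_S0`).
Let `m(y) = min (y²) B <= sqrt B * min y (sqrt B)` (`y >= 0`), subadditive bound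
`min (y1+y2+y3) (sqrt B) <= y1 + y2 + min y3 (sqrt B)`.
* `E_{2L}`: `|x| <= L/2 <= b/2` with `b = 2L`: `∫ ‖E_{2L}‖ dt <= Σ mx 4x²π/(b² L) <= C T/L²` (`eb_small`, `sum_x2`,
  `∫ dt/(b²+L²(γ-t)²) = π/(bL)`).
* `E_a`, zeros with `|x| < ε'` (`ε' <= a/2`): `∫ <= 4 ε'² π NT T/(a² L) <= C ε'² T/a²` (`NT_upper`).
* `E_a`, bad zeros `|x| >= ε'`: the set of `t` with `L|γ-t| < 1` for some bad zero has measure
  `<= 2 offCount T ε'/L`; off this set the sum is `<= Σ_bad mx |x|/(L(γ-t))²` with integral (over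
  `L|γ-t| >= 1`) `<= (2/L) Σ_bad mx |x| <= (2/L) (offCount)^(1/2) (sum_x2)^(1/2) = o(T)` along `l`
  (`OffLine`, `SN T = TL/2π`).
So `limsup (1/T) ∫ m(‖r‖) <= C sqrt B ε'²/a²` for every `ε' > 0`. The integral is over an interval; the
integrand is bounded by `B`; measurability of `XX T a`: `riemannZeta` is differentiable off 1, `deriv` is
measurable, or use that `XX T a` is continuous off finitely many points of `[δT,(1-δ)T]`.
(One may also use `intervalIntegral`/`lintegral`, whatever is convenient, to reach the statement.)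
-/

open Complex Set MeasureTheory Filter Topology
open Pool.Agent.Helper57.LH Pool.Agent.Helper57.PC Pool.Agent.Helper57.Zeta

namespace Pool.Agent.Helper69.GGM

namespace CVp

lemma mx_one_le {T : ℝ} {ρ : ℂ} (h : ρ ∈ Zf T) : 1 ≤ mx ρ := by
  rw [mem_Zf] at h
  have h1 := isNontrivialZero_iff.mp h.1
  have h2 := (order_pos_iff differentiable_xi xi_two_ne ρ).mpr h1
  unfold mx
  have : 1 ≤ analyticOrderNatAt xi ρ := Nat.one_le_iff_ne_zero.mpr h2
  exact_mod_cast this

/-- the Poisson kernel in `t` -/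
noncomputable def pk (c L γ t : ℝ) : ℝ := (c ^ 2 + (L * (γ - t)) ^ 2)⁻¹

lemma pk_nonneg (c L γ t : ℝ) : 0 ≤ pk c L γ t := by unfold pk; positivity

lemma pk_eq {c L : ℝ} (hc : 0 < c) (γ t : ℝ) :
    pk c L γ t = c⁻¹ ^ 2 * (1 + ((L / c) * (γ - t)) ^ 2)⁻¹ := by
  have h : c ^ 2 + (L * (γ - t)) ^ 2 = c ^ 2 * (1 + ((L / c) * (γ - t)) ^ 2) := by
    field_simp
  unfold pk
  rw [h, mul_inv, inv_pow]

lemma pk_integrable {c L : ℝ} (hc : 0 < c) (hL : 0 < L) (γ : ℝ) : Integrable (pk c L γ) := by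
  have h1 : Integrable (fun x : ℝ => (1 + ((L / c) * x) ^ 2)⁻¹) :=
    integrable_inv_one_add_sq.comp_mul_left' (by positivity)
  have h2 := (h1.comp_sub_left γ).const_mul (c⁻¹ ^ 2)
  refine h2.congr (Eventually.of_forall fun t => ?_)
  exact (pk_eq hc γ t).symm

lemma pk_integral {c L : ℝ} (hc : 0 < c) (hL : 0 < L) (γ : ℝ) :
    ∫ t, pk c L γ t = Real.pi / (c * L) := by
  have h0 : ∫ t, pk c L γ t = ∫ t, c⁻¹ ^ 2 * (1 + ((L / c) * (γ - t)) ^ 2)⁻¹ :=
    integral_congr_ae (Eventually.of_forall fun t => pk_eq hc γ t)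
  rw [h0, integral_const_mul]
  have h1 := integral_sub_left_eq_self (fun x : ℝ => (1 + ((L / c) * x) ^ 2)⁻¹) volume γ
  rw [h1, Measure.integral_comp_mul_left (fun x : ℝ => (1 + x ^ 2)⁻¹) (L / c),
    integral_univ_inv_one_add_sq, abs_of_pos (by positivity), smul_eq_mul]
  field_simp

open Classical in
/-- the pointwise majorant -/
noncomputable def GG (T a e s t : ℝ) : ℝ :=
  ∑ ρ ∈ Zf T, mx ρ * (4 * (Real.log T * (ρ.re - 1 / 2)) ^ 2 / (2 * Real.log T)) *
      pk (2 * Real.log T) (Real.log T) ρ.im t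
  + ∑ ρ ∈ Zf T, mx ρ * (4 * e ^ 2 / a) * pk a (Real.log T) ρ.im t
  + ∑ ρ ∈ (Zf T).filter (fun ρ => e ≤ |Real.log T * (ρ.re - 1 / 2)|),
      mx ρ * (2 * (|Real.log T * (ρ.re - 1 / 2)| + s)) * pk 1 (Real.log T) ρ.im t

lemma GG_integrable {T a e s : ℝ} (hL : 0 < Real.log T) (ha : 0 < a) :
    Integrable (GG T a e s) := by
  unfold GG
  refine Integrable.add (Integrable.add ?_ ?_) ?_
  · exact integrable_finsetSum _ fun ρ _ => (pk_integrable (by positivity) hL _).const_mul _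
  · exact integrable_finsetSum _ fun ρ _ => (pk_integrable ha hL _).const_mul _
  · exact integrable_finsetSum _ fun ρ _ => (pk_integrable one_pos hL _).const_mul _

open Classical in
lemma GG_integral {T a e s : ℝ} (hL : 0 < Real.log T) (ha : 0 < a) :
    ∫ t, GG T a e s t =
      Real.pi / Real.log T ^ 3 * ∑ ρ ∈ Zf T, mx ρ * (Real.log T * (ρ.re - 1 / 2)) ^ 2
      + 4 * e ^ 2 * Real.pi / (a ^ 2 * Real.log T) * ∑ ρ ∈ Zf T, mx ρ
      + 2 * Real.pi / Real.log T *
        ∑ ρ ∈ (Zf T).filter (fun ρ => e ≤ |Real.log T * (ρ.re - 1 / 2)|),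
          mx ρ * (|Real.log T * (ρ.re - 1 / 2)| + s) := by
  unfold GG
  rw [integral_add, integral_add, integral_finsetSum, integral_finsetSum, integral_finsetSum]
  · congr 1
    · congr 1
      · rw [Finset.mul_sum]
        refine Finset.sum_congr rfl fun ρ _ => ?_
        rw [integral_const_mul, pk_integral (by positivity) hL]
        field_simp
        ring
      · rw [Finset.mul_sum]
        refine Finset.sum_congr rfl fun ρ _ => ?_
        rw [integral_const_mul, pk_integral ha hL]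
        field_simp
    · rw [Finset.mul_sum]
      refine Finset.sum_congr rfl fun ρ _ => ?_
      rw [integral_const_mul, pk_integral one_pos hL]
      field_simp
  · exact fun ρ _ => (pk_integrable one_pos hL _).const_mul _
  · exact fun ρ _ => (pk_integrable ha hL _).const_mul _
  · exact fun ρ _ => (pk_integrable (by positivity) hL _).const_mul _
  · exact integrable_finsetSum _ fun ρ _ => (pk_integrable (by positivity) hL _).const_mul _
  · exact integrable_finsetSum _ fun ρ _ => (pk_integrable ha hL _).const_mul _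
  · exact Integrable.add
      (integrable_finsetSum _ fun ρ _ => (pk_integrable (by positivity) hL _).const_mul _)
      (integrable_finsetSum _ fun ρ _ => (pk_integrable ha hL _).const_mul _)
  · exact integrable_finsetSum _ fun ρ _ => (pk_integrable one_pos hL _).const_mul _

lemma term_nonneg (_T c x L γ t : ℝ) (ρ : ℂ) (hc : 0 ≤ c) (hx : 0 ≤ x) :
    0 ≤ mx ρ * (x / c) * pk c L γ t :=
  mul_nonneg (mul_nonneg (mx_nonneg ρ) (div_nonneg hx hc)) (pk_nonneg _ _ _ _)

/-- pointwise bound away from the ordinates -/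
lemma pointwise {T a e s C₀ t : ℝ} (hL : 0 < Real.log T) (ha : 0 < a) (he : 0 < e)
    (hea : e ≤ a / 2) (hs : 0 < s)
    (hXX : ‖XX T a t - (SS T a t - SS T (2 * Real.log T) t)‖ ≤ C₀)
    (ht : ∀ ρ ∈ Zf T, ρ.im ≠ t) :
    min ‖XX T a t - (S0 T a t - S0 T (2 * Real.log T) t)‖ s ≤ C₀ + GG T a e s t := by
  classical
  set L := Real.log T with hLdef
  have hzz : ∀ b : ℝ, ∀ ρ ∈ Zf T, zz T t ρ ≠ (b : ℂ) := by
    intro b ρ hρ h
    have h1 := congrArg Complex.im h
    simp only [zz, Complex.add_im, Complex.ofReal_im, Complex.mul_im, Complex.ofReal_re,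
      Complex.I_im, Complex.I_re, mul_one, mul_zero, zero_add, add_zero] at h1
    rcases mul_eq_zero.1 h1 with h2 | h2
    · exact hL.ne' h2
    · exact ht ρ hρ (by linarith)
  have hC0 : 0 ≤ C₀ := (norm_nonneg _).trans hXX
  have hG1 : 0 ≤ ∑ ρ ∈ Zf T, mx ρ * (4 * (L * (ρ.re - 1 / 2)) ^ 2 / (2 * L)) *
      pk (2 * L) L ρ.im t :=
    Finset.sum_nonneg fun ρ _ => term_nonneg T _ _ _ _ _ _ (by positivity) (by positivity)
  have hG2 : 0 ≤ ∑ ρ ∈ Zf T, mx ρ * (4 * e ^ 2 / a) * pk a L ρ.im t :=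
    Finset.sum_nonneg fun ρ _ => term_nonneg T _ _ _ _ _ _ (by positivity) (by positivity)
  have hterm3 : ∀ ρ : ℂ, 0 ≤ mx ρ * (2 * (|L * (ρ.re - 1 / 2)| + s)) * pk 1 L ρ.im t :=
    fun ρ => mul_nonneg (mul_nonneg (mx_nonneg ρ) (by positivity)) (pk_nonneg _ _ _ _)
  by_cases hbad : ∃ ρ ∈ (Zf T).filter (fun ρ => e ≤ |L * (ρ.re - 1 / 2)|), |L * (ρ.im - t)| < 1
  · obtain ⟨ρ₀, hρ₀, hv⟩ := hbad
    have h1 : s ≤ mx ρ₀ * (2 * (|L * (ρ₀.re - 1 / 2)| + s)) * pk 1 L ρ₀.im t := by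
      have hm := mx_one_le (Finset.mem_filter.1 hρ₀).1
      have hp : 1 / 2 ≤ pk 1 L ρ₀.im t := by
        unfold pk
        have : (L * (ρ₀.im - t)) ^ 2 ≤ 1 := by
          rw [← sq_abs]
          exact pow_le_one₀ (abs_nonneg _) hv.le
        rw [one_div]
        apply inv_anti₀ (by positivity)
        linarith
      have h2 : s * 2 ≤ mx ρ₀ * (2 * (|L * (ρ₀.re - 1 / 2)| + s)) := by
        have h3 : s * 2 ≤ 2 * (|L * (ρ₀.re - 1 / 2)| + s) := by
          linarith [abs_nonneg (L * (ρ₀.re - 1 / 2))]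
        have h4 : 0 ≤ 2 * (|L * (ρ₀.re - 1 / 2)| + s) := by positivity
        calc s * 2 ≤ 2 * (|L * (ρ₀.re - 1 / 2)| + s) := h3
          _ ≤ _ := le_mul_of_one_le_left h4 hm
      calc s = s * 2 * (1 / 2) := by ring
        _ ≤ _ := mul_le_mul h2 hp (by norm_num) (by nlinarith [mx_nonneg ρ₀])
    have h5 : mx ρ₀ * (2 * (|L * (ρ₀.re - 1 / 2)| + s)) * pk 1 L ρ₀.im t ≤
        ∑ ρ ∈ (Zf T).filter (fun ρ => e ≤ |L * (ρ.re - 1 / 2)|),
          mx ρ * (2 * (|L * (ρ.re - 1 / 2)| + s)) * pk 1 L ρ.im t :=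
      Finset.single_le_sum (f := fun ρ : ℂ => mx ρ * (2 * (|L * (ρ.re - 1 / 2)| + s)) *
        pk 1 L ρ.im t) (fun ρ _ => hterm3 ρ) hρ₀
    refine (min_le_right _ _).trans ?_
    unfold GG
    linarith
  · push Not at hbad
    have e1 := SS_sub_S0 ha (hzz a)
    have e2 := SS_sub_S0 (b := 2 * L) (by positivity) (hzz (2 * L))
    have hdec : XX T a t - (S0 T a t - S0 T (2 * L) t) =
        (XX T a t - (SS T a t - SS T (2 * L) t)) + (SS T a t - S0 T a t)
          - (SS T (2 * L) t - S0 T (2 * L) t) := by ring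
    have hb1 : ‖SS T (2 * L) t - S0 T (2 * L) t‖ ≤
        ∑ ρ ∈ Zf T, mx ρ * (4 * (L * (ρ.re - 1 / 2)) ^ 2 / (2 * L)) * pk (2 * L) L ρ.im t := by
      rw [e2]
      refine (norm_sum_le _ _).trans (Finset.sum_le_sum fun ρ hρ => ?_)
      rw [norm_mul, Complex.norm_real, Real.norm_of_nonneg (mx_nonneg ρ), mul_assoc]
      apply mul_le_mul_of_nonneg_left _ (mx_nonneg ρ)
      have hx : |L * (ρ.re - 1 / 2)| ≤ 2 * L / 2 := by
        rw [mem_Zf] at hρ
        obtain ⟨⟨_, h1, h2⟩, _⟩ := hρ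
        rw [abs_mul, abs_of_pos hL]
        have : |ρ.re - 1 / 2| ≤ 1 := by rw [abs_le]; constructor <;> linarith
        calc L * |ρ.re - 1 / 2| ≤ L * 1 := mul_le_mul_of_nonneg_left this hL.le
          _ = _ := by ring
      refine (eb_small (by positivity) hx).trans (le_of_eq ?_)
      unfold pk
      rw [div_mul_eq_div_div, div_eq_mul_inv]
    have hb2 : ‖SS T a t - S0 T a t‖ ≤
        ∑ ρ ∈ Zf T, mx ρ * (4 * e ^ 2 / a) * pk a L ρ.im t +
        ∑ ρ ∈ (Zf T).filter (fun ρ => e ≤ |L * (ρ.re - 1 / 2)|),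
          mx ρ * (2 * (|L * (ρ.re - 1 / 2)| + s)) * pk 1 L ρ.im t := by
      rw [e1]
      refine (norm_sum_le _ _).trans ?_
      rw [← Finset.sum_filter_add_sum_filter_not (Zf T) (fun ρ => e ≤ |L * (ρ.re - 1 / 2)|),
        add_comm]
      apply add_le_add
      · have hsub : ∑ ρ ∈ (Zf T).filter (fun ρ => ¬ e ≤ |L * (ρ.re - 1 / 2)|),
            mx ρ * (4 * e ^ 2 / a) * pk a L ρ.im t ≤
            ∑ ρ ∈ Zf T, mx ρ * (4 * e ^ 2 / a) * pk a L ρ.im t :=
          Finset.sum_le_sum_of_subset_of_nonneg (Finset.filter_subset _ _)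
            fun ρ _ _ => term_nonneg T _ _ _ _ _ _ ha.le (by positivity)
        refine le_trans (Finset.sum_le_sum fun ρ hρ => ?_) hsub
        obtain ⟨_, hne⟩ := Finset.mem_filter.1 hρ
        push Not at hne
        rw [norm_mul, Complex.norm_real, Real.norm_of_nonneg (mx_nonneg ρ), mul_assoc]
        apply mul_le_mul_of_nonneg_left _ (mx_nonneg ρ)
        refine (eb_small ha (hne.le.trans hea)).trans ?_
        unfold pk
        rw [div_mul_eq_div_div, div_eq_mul_inv]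
        apply mul_le_mul_of_nonneg_right _ (by positivity)
        apply div_le_div_of_nonneg_right _ ha.le
        have : (L * (ρ.re - 1 / 2)) ^ 2 ≤ e ^ 2 := by
          rw [← sq_abs]
          exact pow_le_pow_left₀ (abs_nonneg _) hne.le 2
        linarith
      · refine Finset.sum_le_sum fun ρ hρ => ?_
        have hv := hbad ρ hρ
        rw [norm_mul, Complex.norm_real, Real.norm_of_nonneg (mx_nonneg ρ), mul_assoc]
        apply mul_le_mul_of_nonneg_left _ (mx_nonneg ρ)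
        have hv0 : L * (ρ.im - t) ≠ 0 := by
          intro h0; rw [h0, abs_zero] at hv; linarith
        refine (eb_large ha hv0).trans ?_
        set v := L * (ρ.im - t) with hvdef
        set x := |L * (ρ.re - 1 / 2)| with hxdef
        have hx0 : 0 ≤ x := abs_nonneg _
        have hv1 : 1 ≤ v ^ 2 := by
          rw [← sq_abs]
          exact one_le_pow₀ hv
        unfold pk
        rw [← hvdef, ← div_eq_mul_inv, div_le_div_iff₀ (by positivity) (by positivity)]
        nlinarith [mul_nonneg hx0 (by linarith : 0 ≤ v ^ 2 - 1), mul_nonneg hs.le (sq_nonneg v)]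
    refine (min_le_left _ _).trans ?_
    rw [hdec]
    have h1 := norm_sub_le ((XX T a t - (SS T a t - SS T (2 * L) t)) + (SS T a t - S0 T a t))
      (SS T (2 * L) t - S0 T (2 * L) t)
    have h2 := norm_add_le (XX T a t - (SS T a t - SS T (2 * L) t)) (SS T a t - S0 T a t)
    unfold GG
    linarith

lemma min_sq_le {y B : ℝ} (hy : 0 ≤ y) (hB : 0 ≤ B) :
    min (y ^ 2) B ≤ Real.sqrt B * min y (Real.sqrt B) := by
  have hs := Real.sqrt_nonneg B
  have hss := Real.mul_self_sqrt hB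
  rcases le_total y (Real.sqrt B) with h | h
  · rw [min_eq_left h]
    refine (min_le_left _ _).trans ?_
    nlinarith
  · rw [min_eq_right h, hss]
    exact min_le_right _ _

end CVp

open CVp in
theorem conv_measure {l : Filter ℝ} (hl : l ≤ atTop) (hOff : OffLine l) {a : ℝ} (ha : 0 < a)
    {δ : ℝ} (hδ : 0 < δ) (hδ2 : δ < 1 / 2) {B : ℝ} (hB : 0 < B) {ε : ℝ} (hε : 0 < ε) :
    ∀ᶠ T : ℝ in l, ∫ t in (δ * T)..((1 - δ) * T),
      min (‖XX T a t - (S0 T a t - S0 T (2 * Real.log T) t)‖ ^ 2) B ≤ ε * T := by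
  classical
  obtain ⟨C, hC, hXX⟩ := XX_diff
  obtain ⟨T₁, hT₁⟩ := hXX a ha δ hδ hδ2
  obtain ⟨C₂, T₂, hC₂, hT₂⟩ := sum_x2
  set s := Real.sqrt B with hs
  have hs0 : 0 < s := Real.sqrt_pos.2 hB
  have hpi := Real.pi_pos
  -- choose parameters
  obtain ⟨e, he0, hea, he1⟩ : ∃ e : ℝ, 0 < e ∧ e ≤ a / 2 ∧
      s * (4 * e ^ 2 * Real.pi / a ^ 2) ≤ ε / 5 := by
    set K := s * (4 * Real.pi / a ^ 2) with hK
    have hK0 : 0 < K := by positivity
    refine ⟨min (a / 2) (min 1 (ε / 5 / K)), by positivity, min_le_left _ _, ?_⟩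
    set e := min (a / 2) (min 1 (ε / 5 / K)) with he
    have e0 : 0 < e := by positivity
    have e1 : e ≤ 1 := (min_le_right _ _).trans (min_le_left _ _)
    have e2 : e ≤ ε / 5 / K := (min_le_right _ _).trans (min_le_right _ _)
    rw [le_div_iff₀ hK0] at e2
    have : e ^ 2 ≤ e := by nlinarith
    calc s * (4 * e ^ 2 * Real.pi / a ^ 2) = e ^ 2 * K := by rw [hK]; ring
      _ ≤ e * K := mul_le_mul_of_nonneg_right this hK0.le
      _ ≤ _ := e2
  obtain ⟨η, hη0, hη1⟩ : ∃ η : ℝ, 0 < η ∧ s * (2 * Real.pi * η * C₂) ≤ ε / 5 := by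
    refine ⟨ε / 5 / (s * (2 * Real.pi * C₂)), by positivity, le_of_eq ?_⟩
    field_simp
  obtain ⟨κ, hκ0, hκ1⟩ : ∃ κ : ℝ, 0 < κ ∧ s * (κ * (s + 1 / (4 * η))) ≤ ε / 5 := by
    refine ⟨ε / 5 / (s * (s + 1 / (4 * η))), by positivity, le_of_eq ?_⟩
    field_simp
  have hoff : ∀ᶠ T : ℝ in l, offCount T e / SN T < κ := by
    have := (hOff e he0).eventually (gt_mem_nhds hκ0)
    exact this
  have hlog : Tendsto (fun T : ℝ => Real.log T) l atTop := Real.tendsto_log_atTop.mono_left hl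
  have hlarge := hlog.eventually_ge_atTop (max 1 (max (5 * s * C / ε) (5 * s * Real.pi * C₂ / ε)))
  filter_upwards [hoff, hlarge, hl (eventually_ge_atTop T₁), hl (eventually_ge_atTop T₂),
    hl (eventually_ge_atTop (1 : ℝ)), hl NT_le_ev] with T g1 g2 g3 g4 g5 g6
  have hT0 : 0 < T := by linarith
  set L := Real.log T with hL
  have hL1 : 1 ≤ L := (le_max_left _ _).trans g2
  have hL0 : 0 < L := by linarith
  have hL2 : 5 * s * C / ε ≤ L := (le_max_left _ _).trans ((le_max_right _ _).trans g2)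
  have hL3 : 5 * s * Real.pi * C₂ / ε ≤ L := (le_max_right _ _).trans ((le_max_right _ _).trans g2)
  have hab : δ * T ≤ (1 - δ) * T := by nlinarith
  rw [intervalIntegral.integral_of_le hab]
  -- the integral inequality
  have hint : IntegrableOn (fun t => s * (C / L + GG T a e s t)) (Ioc (δ * T) ((1 - δ) * T)) := by
    apply Integrable.const_mul
    apply Integrable.add
    · exact integrableOn_const (by simp)
    · exact (GG_integrable hL0 ha).integrableOn
  have hae : ∀ᵐ t ∂(volume.restrict (Ioc (δ * T) ((1 - δ) * T))),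
      min (‖XX T a t - (S0 T a t - S0 T (2 * Real.log T) t)‖ ^ 2) B ≤
        s * (C / L + GG T a e s t) := by
    have hfin : ({t : ℝ | ∃ ρ ∈ Zf T, ρ.im = t}).Finite := by
      have : {t : ℝ | ∃ ρ ∈ Zf T, ρ.im = t} = ((Zf T).image Complex.im : Set ℝ) := by
        ext t; simp
      rw [this]
      exact Finset.finite_toSet _
    have h1 : ∀ᵐ t ∂(volume : Measure ℝ), t ∉ {t : ℝ | ∃ ρ ∈ Zf T, ρ.im = t} :=
      hfin.measure_zero volume |> compl_mem_ae_iff.2
    rw [ae_restrict_iff' measurableSet_Ioc]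
    filter_upwards [h1] with t ht htI
    have ht' : ∀ ρ ∈ Zf T, ρ.im ≠ t := fun ρ hρ h => ht ⟨ρ, hρ, h⟩
    have hz : ∀ ρ ∈ Zf T, zz T t ρ ≠ (a : ℂ) := by
      intro ρ hρ h
      have h1 := congrArg Complex.im h
      simp only [zz, Complex.add_im, Complex.ofReal_im, Complex.mul_im, Complex.ofReal_re,
        Complex.I_im, Complex.I_re, mul_one, mul_zero, zero_add, add_zero] at h1
      rcases mul_eq_zero.1 h1 with h2 | h2
      · exact hL0.ne' h2
      · exact ht' ρ hρ (by linarith)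
    have hx := hT₁ T g3 t htI.1.le htI.2 hz
    have hp := pointwise hL0 ha he0 hea hs0 hx ht'
    refine (min_sq_le (norm_nonneg _) hB.le).trans ?_
    exact mul_le_mul_of_nonneg_left hp hs0.le
  have hmono : ∫ t in Ioc (δ * T) ((1 - δ) * T),
      min (‖XX T a t - (S0 T a t - S0 T (2 * Real.log T) t)‖ ^ 2) B ≤
      ∫ t in Ioc (δ * T) ((1 - δ) * T), s * (C / L + GG T a e s t) := by
    apply integral_mono_of_nonneg _ hint hae
    exact Eventually.of_forall fun t => le_min (by positivity) hB.le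
  refine hmono.trans ?_
  have hci : Integrable (fun _ : ℝ => C / L) (volume.restrict (Ioc (δ * T) ((1 - δ) * T))) :=
    integrableOn_const (by simp)
  have hgi : Integrable (GG T a e s) (volume.restrict (Ioc (δ * T) ((1 - δ) * T))) :=
    (GG_integrable hL0 ha).integrableOn
  rw [integral_const_mul, integral_add hci hgi]
  have hI1 : ∫ _t in Ioc (δ * T) ((1 - δ) * T), C / L ≤ (C / L) * T := by
    rw [setIntegral_const, smul_eq_mul, mul_comm]
    apply mul_le_mul_of_nonneg_left _ (by positivity)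
    rw [Measure.real, Real.volume_Ioc, ENNReal.toReal_ofReal (by linarith)]
    nlinarith
  have hGnn : ∀ t, 0 ≤ GG T a e s t := by
    intro t
    unfold GG
    refine add_nonneg (add_nonneg ?_ ?_) ?_
    · exact Finset.sum_nonneg fun ρ _ => term_nonneg T _ _ _ _ _ _ (by positivity) (by positivity)
    · exact Finset.sum_nonneg fun ρ _ => term_nonneg T _ _ _ _ _ _ (by positivity) (by positivity)
    · exact Finset.sum_nonneg fun ρ _ =>
        mul_nonneg (mul_nonneg (mx_nonneg ρ) (by positivity)) (pk_nonneg _ _ _ _)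
  have hI2 : ∫ t in Ioc (δ * T) ((1 - δ) * T), GG T a e s t ≤ ∫ t, GG T a e s t :=
    setIntegral_le_integral (GG_integrable hL0 ha) (Eventually.of_forall hGnn)
  rw [GG_integral hL0 ha] at hI2
  have hNT : ∑ ρ ∈ Zf T, mx ρ ≤ T * L := by
    have : ∑ ρ ∈ Zf T, mx ρ = NT T := by
      unfold NT
      refine Finset.sum_congr rfl fun ρ hρ => ?_
      rw [mem_Zf] at hρ
      rw [mult_eq hρ.1]
      rfl
    rw [this]; exact g6
  have hx2 := hT₂ T g4
  have hsn : SN T = T * L / (2 * Real.pi) := rfl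
  have hoffc : offCount T e ≤ κ * (T * L / (2 * Real.pi)) := by
    rw [div_lt_iff₀ (by rw [hsn]; positivity), hsn] at g1
    exact g1.le
  have hbadsum : ∑ ρ ∈ (Zf T).filter (fun ρ => e ≤ |L * (ρ.re - 1 / 2)|),
      mx ρ * (|L * (ρ.re - 1 / 2)| + s) ≤
      η * (C₂ * (T * L)) + (1 / (4 * η) + s) * offCount T e := by
    have h1 : ∀ ρ ∈ (Zf T).filter (fun ρ => e ≤ |L * (ρ.re - 1 / 2)|),
        mx ρ * (|L * (ρ.re - 1 / 2)| + s) ≤
        η * (mx ρ * (L * (ρ.re - 1 / 2)) ^ 2) + (1 / (4 * η) + s) * mx ρ := by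
      intro ρ _
      set x := |L * (ρ.re - 1 / 2)| with hx
      have h2 : (L * (ρ.re - 1 / 2)) ^ 2 = x ^ 2 := (sq_abs _).symm
      rw [h2]
      have h3 : x ≤ η * x ^ 2 + 1 / (4 * η) := by
        have h4 : 0 ≤ (2 * η * x - 1) ^ 2 / (4 * η) := by positivity
        have h5 : (2 * η * x - 1) ^ 2 / (4 * η) = η * x ^ 2 - x + 1 / (4 * η) := by
          field_simp; ring
        linarith
      have := mul_le_mul_of_nonneg_left h3 (mx_nonneg ρ)
      nlinarith
    refine (Finset.sum_le_sum h1).trans ?_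
    rw [Finset.sum_add_distrib, ← Finset.mul_sum, ← Finset.mul_sum]
    apply add_le_add
    · apply mul_le_mul_of_nonneg_left _ hη0.le
      refine le_trans ?_ hx2
      exact Finset.sum_le_sum_of_subset_of_nonneg (Finset.filter_subset _ _)
        fun ρ _ _ => mul_nonneg (mx_nonneg ρ) (sq_nonneg _)
    · apply le_of_eq
      unfold offCount
      congr!
  -- assemble
  have b1 : s * ((C / L) * T) ≤ ε / 5 * T := by
    rw [div_le_iff₀ hε] at hL2
    rw [← mul_assoc]
    apply mul_le_mul_of_nonneg_right _ hT0.le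
    rw [← mul_div_assoc, div_le_iff₀ hL0]
    linarith
  have b2 : s * (Real.pi / L ^ 3 * ∑ ρ ∈ Zf T, mx ρ * (L * (ρ.re - 1 / 2)) ^ 2) ≤ ε / 5 * T := by
    have h1 : Real.pi / L ^ 3 * ∑ ρ ∈ Zf T, mx ρ * (L * (ρ.re - 1 / 2)) ^ 2 ≤
        Real.pi / L ^ 3 * (C₂ * (T * L)) := mul_le_mul_of_nonneg_left hx2 (by positivity)
    have h2 : s * (Real.pi / L ^ 3 * (C₂ * (T * L))) = s * Real.pi * C₂ / L ^ 2 * T := by
      field_simp
    have h3 : s * Real.pi * C₂ / L ^ 2 ≤ ε / 5 := by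
      rw [div_le_iff₀ (by positivity)]
      rw [div_le_iff₀ hε] at hL3
      have hLL : L ≤ L ^ 2 := by
        calc L = L * 1 := (mul_one L).symm
          _ ≤ L * L := mul_le_mul_of_nonneg_left hL1 hL0.le
          _ = L ^ 2 := by ring
      have := mul_le_mul_of_nonneg_left hLL (by positivity : 0 ≤ ε / 5)
      linarith
    calc _ ≤ s * (Real.pi / L ^ 3 * (C₂ * (T * L))) := mul_le_mul_of_nonneg_left h1 hs0.le
      _ = s * Real.pi * C₂ / L ^ 2 * T := h2
      _ ≤ _ := mul_le_mul_of_nonneg_right h3 hT0.le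
  have b3 : s * (4 * e ^ 2 * Real.pi / (a ^ 2 * L) * ∑ ρ ∈ Zf T, mx ρ) ≤ ε / 5 * T := by
    have h1 : 4 * e ^ 2 * Real.pi / (a ^ 2 * L) * ∑ ρ ∈ Zf T, mx ρ ≤
        4 * e ^ 2 * Real.pi / (a ^ 2 * L) * (T * L) := mul_le_mul_of_nonneg_left hNT (by positivity)
    have h2 : s * (4 * e ^ 2 * Real.pi / (a ^ 2 * L) * (T * L)) =
        s * (4 * e ^ 2 * Real.pi / a ^ 2) * T := by
      field_simp
    calc _ ≤ s * (4 * e ^ 2 * Real.pi / (a ^ 2 * L) * (T * L)) :=
          mul_le_mul_of_nonneg_left h1 hs0.le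
      _ = s * (4 * e ^ 2 * Real.pi / a ^ 2) * T := h2
      _ ≤ _ := mul_le_mul_of_nonneg_right he1 hT0.le
  have b4 : s * (2 * Real.pi / L * ∑ ρ ∈ (Zf T).filter (fun ρ => e ≤ |L * (ρ.re - 1 / 2)|),
      mx ρ * (|L * (ρ.re - 1 / 2)| + s)) ≤ ε / 5 * T + ε / 5 * T := by
    have h0 : η * (C₂ * (T * L)) + (1 / (4 * η) + s) * offCount T e ≤
        η * (C₂ * (T * L)) + (1 / (4 * η) + s) * (κ * (T * L / (2 * Real.pi))) := by
      have := mul_le_mul_of_nonneg_left hoffc (by positivity : 0 ≤ 1 / (4 * η) + s)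
      linarith
    have h1 := mul_le_mul_of_nonneg_left (hbadsum.trans h0)
      (by positivity : 0 ≤ s * (2 * Real.pi / L))
    have h2 : s * (2 * Real.pi / L) * (η * (C₂ * (T * L)) +
        (1 / (4 * η) + s) * (κ * (T * L / (2 * Real.pi)))) =
        s * (2 * Real.pi * η * C₂) * T + s * (κ * (s + 1 / (4 * η))) * T := by
      field_simp
      ring
    rw [h2] at h1
    have h3 := mul_le_mul_of_nonneg_right hη1 hT0.le
    have h4 := mul_le_mul_of_nonneg_right hκ1 hT0.le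
    rw [mul_assoc] at h1
    linarith
  have hfinal := mul_le_mul_of_nonneg_left (add_le_add hI1 hI2) hs0.le
  refine hfinal.trans ?_
  rw [mul_add, mul_add, mul_add]
  linarith

end Pool.Agent.Helper69.GGM
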