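import Pool.Agent.Helper69.GGM.HD1
import Pool.Agent.Helper69.GGM.HD2

/-!
# GGM block HX: consequences of HD1 and HD2 in scaled form

`hadamard_diff`: immediate from `arch_diff` and `xi_diff` (for `0 < s.re`, `xi s ≠ 0` iff `ζ(s) ≠ 0` when
`s.re < 1`; for `s.re >= 1`, `xi_ne_zero_of_one_le_re`; see `xi_eq_zero_iff`).

`XX_diff`: take `s = 1/2 + a/L + it`, `s' = 1/2 + (2L)/L + it = 5/2 + it` in `hadamard_diff`. Since
`s - ρ = (a - zz T t ρ)/L`, dividing by `L` gives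
`‖XX T a t - XX T (2L) t - (SS T a t - SS T (2L) t)‖ <= C/L`. `ζ(s) ≠ 0`: a zero `s` would be a
`ρ ∈ Zf T` with `zz T t ρ = a`. And `‖XX T (2L) t‖ = ‖ζ'/ζ(5/2+it)‖/L <= C'/L` because
`ζ'/ζ(5/2+it) = -Σ Λ(n) n^(-5/2-it)` (`ArithmeticFunction.LSeries_vonMangoldt_eq_deriv_riemannZeta_div` or
similar) is bounded by `Σ Λ(n) n^(-5/2)`.
-/

open Complex Set MeasureTheory Filter Topology
open Pool.Agent.Helper57.LH Pool.Agent.Helper57.PC Pool.Agent.Helper57.Zeta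

namespace Pool.Agent.Helper69.GGM

theorem hadamard_diff : ∃ C : ℝ, 0 < C ∧ ∀ δ : ℝ, 0 < δ → δ < 1 / 2 → ∃ T₀ : ℝ, ∀ T : ℝ, T₀ ≤ T →
    ∀ s s' : ℂ, 1 / 2 ≤ s.re → s.re ≤ 3 → δ * T ≤ s.im → s.im ≤ (1 - δ) * T →
    1 / 2 ≤ s'.re → s'.re ≤ 3 → δ * T ≤ s'.im → s'.im ≤ (1 - δ) * T → ‖s - s'‖ ≤ 3 →
    riemannZeta s ≠ 0 → riemannZeta s' ≠ 0 →
    ‖logDeriv riemannZeta s - logDeriv riemannZeta s' -
      ∑ ρ ∈ Zf T, (mx ρ : ℂ) * (1 / (s - ρ) - 1 / (s' - ρ))‖ ≤ C := by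
  obtain ⟨C, hC, hA⟩ := arch_diff
  refine ⟨C + 1, by linarith, ?_⟩
  intro δ hδ hδ2
  obtain ⟨T₀, hT₀⟩ := xi_diff δ hδ hδ2
  refine ⟨max T₀ (1 / δ), ?_⟩
  intro T hT s s' h1 h2 h3 h4 h1' h2' h3' h4' h5 h6 h6'
  have hT1 : T₀ ≤ T := (le_max_left _ _).trans hT
  have hT2 : 1 ≤ δ * T := by
    have h7 : 1 / δ ≤ T := (le_max_right _ _).trans hT
    rw [div_le_iff₀ hδ] at h7
    linarith
  have hx : ∀ z : ℂ, riemannZeta z ≠ 0 → xi z ≠ 0 := by
    intro z hz h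
    exact hz (xi_eq_zero_iff.mp h).2.2
  have k1 := hA s s' h1 h2 (hT2.trans h3) h1' h2' (hT2.trans h3') h5 h6 h6'
  have k2 := hT₀ T hT1 s s' (by linarith) h2 h3 h4 (by linarith) h2' h3' h4' h5 (hx s h6) (hx s' h6')
  have e : logDeriv riemannZeta s - logDeriv riemannZeta s' -
      ∑ ρ ∈ Zf T, (mx ρ : ℂ) * (1 / (s - ρ) - 1 / (s' - ρ)) =
      ((logDeriv riemannZeta s - logDeriv riemannZeta s') - (logDeriv xi s - logDeriv xi s')) +
      (logDeriv xi s - logDeriv xi s' - ∑ ρ ∈ Zf T, (mx ρ : ℂ) * (1 / (s - ρ) - 1 / (s' - ρ))) := by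
    ring
  rw [e]
  exact (norm_add_le _ _).trans (add_le_add k1 k2)

/-- `ζ'/ζ` is bounded on the line `Re s = 5/2`. -/
lemma logDeriv_bdd7 : ∃ C : ℝ, 0 < C ∧ ∀ t : ℝ,
    ‖logDeriv riemannZeta (((5 / 2 : ℝ) : ℂ) + (t : ℂ) * I)‖ ≤ C := by
  refine ⟨1 + ∑' n, ‖LSeries.term (fun n => ((ArithmeticFunction.vonMangoldt n : ℝ) : ℂ))
    (((5 / 2 : ℝ) : ℂ)) n‖, ?_, ?_⟩
  · have : 0 ≤ ∑' n, ‖LSeries.term (fun n => ((ArithmeticFunction.vonMangoldt n : ℝ) : ℂ))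
      (((5 / 2 : ℝ) : ℂ)) n‖ := tsum_nonneg fun n => norm_nonneg _
    linarith
  intro t
  set s : ℂ := ((5 / 2 : ℝ) : ℂ) + (t : ℂ) * I with hs
  have hre0 : s.re = 5 / 2 := by rw [hs]; simp
  have hre : 1 < s.re := by rw [hre0]; norm_num
  have h1 := ArithmeticFunction.LSeries_vonMangoldt_eq_deriv_riemannZeta_div hre
  have h2 := (ArithmeticFunction.LSeriesSummable_vonMangoldt hre).norm
  have h3 : ∑' n, LSeries.term (fun n => ((ArithmeticFunction.vonMangoldt n : ℝ) : ℂ)) s n =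
      -(logDeriv riemannZeta s) := by
    rw [logDeriv_apply, ← neg_div, ← h1]
    rfl
  have h4 : ‖logDeriv riemannZeta s‖ ≤
      ∑' n, ‖LSeries.term (fun n => ((ArithmeticFunction.vonMangoldt n : ℝ) : ℂ)) s n‖ := by
    rw [← norm_neg, ← h3]
    exact norm_tsum_le_tsum_norm h2
  have h5 : ∀ n, ‖LSeries.term (fun n => ((ArithmeticFunction.vonMangoldt n : ℝ) : ℂ)) s n‖ =
      ‖LSeries.term (fun n => ((ArithmeticFunction.vonMangoldt n : ℝ) : ℂ)) (((5 / 2 : ℝ) : ℂ)) n‖ := by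
    intro n
    rw [LSeries.norm_term_eq, LSeries.norm_term_eq, hre0, Complex.ofReal_re]
  rw [tsum_congr h5] at h4
  linarith

theorem XX_diff : ∃ C : ℝ, 0 < C ∧ ∀ a : ℝ, 0 < a → ∀ δ : ℝ, 0 < δ → δ < 1 / 2 → ∃ T₀ : ℝ,
    ∀ T : ℝ, T₀ ≤ T → ∀ t : ℝ, δ * T ≤ t → t ≤ (1 - δ) * T → (∀ ρ ∈ Zf T, zz T t ρ ≠ (a : ℂ)) →
    ‖XX T a t - (SS T a t - SS T (2 * Real.log T) t)‖ ≤ C / Real.log T := by
  obtain ⟨C, hC, hH⟩ := hadamard_diff
  obtain ⟨C', hC', hB⟩ := logDeriv_bdd7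
  refine ⟨C + C', by linarith, ?_⟩
  intro a ha δ hδ hδ2
  obtain ⟨T₀, hT₀⟩ := hH δ hδ hδ2
  refine ⟨max T₀ (Real.exp (a + 1)), ?_⟩
  intro T hT t ht1 ht2 hz
  have hT1 : T₀ ≤ T := (le_max_left _ _).trans hT
  have hT2 : Real.exp (a + 1) ≤ T := (le_max_right _ _).trans hT
  have hT0 : 0 < T := lt_of_lt_of_le (Real.exp_pos _) hT2
  have hL : a + 1 ≤ Real.log T := by
    rw [Real.le_log_iff_exp_le hT0]; exact hT2
  set L := Real.log T with hLdef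
  have hL0 : 0 < L := by linarith
  have hLc : (L : ℂ) ≠ 0 := by exact_mod_cast hL0.ne'
  have haL : a / L ≤ 1 := by rw [div_le_one hL0]; linarith
  have haL0 : 0 < a / L := by positivity
  set s : ℂ := ((1 / 2 + a / L : ℝ) : ℂ) + (t : ℂ) * I with hs
  set s' : ℂ := ((5 / 2 : ℝ) : ℂ) + (t : ℂ) * I with hs'
  have hsre : s.re = 1 / 2 + a / L := by rw [hs]; simp
  have hsim : s.im = t := by rw [hs]; simp
  have hsre' : s'.re = 5 / 2 := by rw [hs']; simp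
  have hsim' : s'.im = t := by rw [hs']; simp
  have hss : s - s' = ((a / L - 2 : ℝ) : ℂ) := by
    rw [hs, hs']
    push_cast
    ring
  have hdist : ‖s - s'‖ ≤ 3 := by
    rw [hss, Complex.norm_real, Real.norm_eq_abs, abs_le]
    constructor <;> linarith
  have hζ' : riemannZeta s' ≠ 0 := riemannZeta_ne_zero_of_one_le_re (by rw [hsre']; norm_num)
  have hζ : riemannZeta s ≠ 0 := by
    intro h
    rcases lt_or_ge s.re 1 with h1 | h1
    · have hmem : s ∈ Zf T := by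
        rw [mem_Zf]
        refine ⟨?_, ?_, ?_⟩
        · rw [isNontrivialZero_iff, xi_eq_zero_iff]
          exact ⟨by rw [hsre]; linarith, h1, h⟩
        · rw [hsim]
          have : 0 ≤ δ * T := by positivity
          linarith
        · rw [hsim]
          have : (1 - δ) * T ≤ T := by nlinarith
          linarith
      apply hz s hmem
      unfold zz
      rw [hsre, hsim, ← hLdef]
      have e1 : L * (1 / 2 + a / L - 1 / 2) = a := by field_simp; ring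
      rw [e1, sub_self, mul_zero]
      simp
    · exact riemannZeta_ne_zero_of_one_le_re h1 h
  have k := hT₀ T hT1 s s' (by rw [hsre]; linarith) (by rw [hsre]; linarith) (by rw [hsim]; exact ht1)
    (by rw [hsim]; exact ht2) (by rw [hsre']; norm_num) (by rw [hsre']; norm_num)
    (by rw [hsim']; exact ht1) (by rw [hsim']; exact ht2) hdist hζ hζ'
  have kB := hB t
  have hzz : ∀ (b : ℝ) (ρ : ℂ), (b : ℂ) - zz T t ρ =
      (L : ℂ) * ((((1 / 2 + b / L : ℝ) : ℂ) + (t : ℂ) * I) - ρ) := by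
    intro b ρ
    have hρ : ρ = (ρ.re : ℂ) + (ρ.im : ℂ) * I := (Complex.re_add_im ρ).symm
    have hb : (b : ℂ) = (L : ℂ) * ((b / L : ℝ) : ℂ) := by
      push_cast
      field_simp
    unfold zz
    rw [← hLdef]
    conv_rhs => rw [hρ]
    conv_lhs => rw [hb]
    push_cast
    ring
  have hA : SS T a t = 1 / (L : ℂ) * ∑ ρ ∈ Zf T, (mx ρ : ℂ) * (1 / (s - ρ)) := by
    unfold SS
    rw [Finset.mul_sum]
    refine Finset.sum_congr rfl fun ρ _ => ?_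
    rw [hzz a ρ, ← hs, div_eq_mul_inv, mul_inv, one_div, one_div]
    ring
  have hA' : SS T (2 * L) t = 1 / (L : ℂ) * ∑ ρ ∈ Zf T, (mx ρ : ℂ) * (1 / (s' - ρ)) := by
    unfold SS
    rw [Finset.mul_sum]
    refine Finset.sum_congr rfl fun ρ _ => ?_
    have e2 : (1 / 2 + 2 * L / L : ℝ) = 5 / 2 := by field_simp; norm_num
    rw [hzz (2 * L) ρ, e2, ← hs', div_eq_mul_inv, mul_inv, one_div, one_div]
    ring
  have hfin : XX T a t - (SS T a t - SS T (2 * L) t) =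
      1 / (L : ℂ) * ((logDeriv riemannZeta s - logDeriv riemannZeta s' -
      ∑ ρ ∈ Zf T, (mx ρ : ℂ) * (1 / (s - ρ) - 1 / (s' - ρ))) + logDeriv riemannZeta s') := by
    rw [hA, hA']
    unfold XX
    rw [← hLdef, ← hs]
    simp only [mul_sub, Finset.sum_sub_distrib]
    ring
  rw [hfin, norm_mul, norm_div, norm_one, Complex.norm_real, Real.norm_of_nonneg hL0.le,
    one_div_mul_eq_div]
  gcongr
  exact (norm_add_le _ _).trans (add_le_add k kB)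

end Pool.Agent.Helper69.GGM
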