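import Pool.Agent.Helper69.GGM.CI
import Pool.Agent.Helper69.GGM.HX

/-!
# GGM block E2: lower bound near an off-line zero

Proof. `L = log T`, base point `A = a₂ + 2`. Put `z_ρ = zz T t₀ ρ = x_ρ + i v_ρ` (seen from `t₀`) and
`X(w) = XX T w.re (t₀ + w.im/L) = (1/L) (ζ'/ζ)(1/2 + i t₀ + w/L)`.
Apply `circle_lower` with `w₀ = z_{ρ₀}`, `r₀ = min (a₁/2) (1/2)`, `K` = the zeros `ρ ∈ Zf T` with `|v_ρ| <= 4`
(multiplicity `m = mx`, a natural number; `N = Σ_K m <= 17 Phi T t₀ <= 17 K₁`),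
`R(w) = XX T A t₀ - Σ_{ρ ∈ K} m/(A - z_ρ) + Σ_{ρ ∉ K} m (1/(w - z_ρ) - 1/(A - z_ρ))`.
For `|Im w| <= 1`, `0 <= Re w <= a₂+1`: `|w - z_ρ| >= 3|v_ρ|/4`, `|A - z_ρ| >= |v_ρ|` for `ρ ∉ K`, and
`|A - z_ρ| >= |v_ρ| >= η` for all `ρ`, so `‖R‖ <= K + 17K₁/η + 2(a₂+4) (17/16) K₁ =: Kb`; `R` is differentiable on
`|Im w| < 4`. The error `X(w) - X(A) - Σ_{ρ ∈ Zf T} m (1/(w-z_ρ) - 1/(A-z_ρ))` is `<= C/L <= 1/2` by `hadamard_diff`
(`s = 1/2 + i t₀ + w/L`, `s' = 1/2 + i t₀ + A/L`; `s - ρ = (w - z_ρ)/L`; `ζ(s) ≠ 0` iff `w ≠ z_ρ` for all `ρ ∈ Zf T`,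
and `ζ(s') ≠ 0` because `v_ρ ≠ 0`). The disc about `w₀` is contained in the rectangle
`(a₁/2, a₂+1) × (-1,1)` (`a₁ <= x_{ρ₀} <= a₂`, `|v_{ρ₀}| <= 1/2`); identify `ℂ` with `ℝ × ℝ`
(`Complex.measurableEquivRealProd`, `Complex.volume_preserving_equiv_real_prod`).
With `N <= 17 K₁`: `(π/2)(log(r₀ sqrt B/(4(N+Kb+1))) - 2N) >= (π/4) log B - C`,
`C = -(π/2)(log (r₀/(4(17K₁+Kb+1))) - 34 K₁)`.
Measurability: `XX_measurable` below (joint measurability of `(a,t) ↦ XX T a t`).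
-/

open Complex Set MeasureTheory Filter Topology
open Pool.Agent.Helper57.LH Pool.Agent.Helper57.PC Pool.Agent.Helper57.Zeta

namespace Pool.Agent.Helper69.GGM

lemma e2_zeta_measurable : Measurable riemannZeta := by
  apply measurable_of_continuousOn_compl_singleton (1:ℂ)
  intro s hs
  exact (differentiableAt_riemannZeta (by simpa using hs)).continuousAt.continuousWithinAt

lemma XX_measurable (T : ℝ) : Measurable (fun p : ℝ × ℝ => XX T p.1 p.2) := by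
  have h1 : Measurable (logDeriv riemannZeta) := by
    unfold logDeriv
    exact (measurable_deriv _).div e2_zeta_measurable
  unfold XX
  have h2 : Measurable (fun p : ℝ × ℝ =>
      (((1 / 2 + p.1 / Real.log T : ℝ) : ℂ) + (p.2 : ℂ) * Complex.I)) := by
    apply Measurable.add
    · exact Complex.measurable_ofReal.comp ((measurable_fst.div_const _).const_add _)
    · exact (Complex.measurable_ofReal.comp measurable_snd).mul_const _
  exact (h1.comp h2).div_const _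

lemma e2_X_measurable (T t c : ℝ) : Measurable (fun w : ℂ => XX T w.re (t + w.im / c)) := by
  have h5 : Measurable (fun w : ℂ => ((w.re, t + w.im / c) : ℝ × ℝ)) :=
    Complex.measurable_re.prodMk ((Complex.measurable_im.div_const _).const_add _)
  have h6 := Measurable.comp (g := fun p : ℝ × ℝ => XX T p.1 p.2)
    (f := fun w : ℂ => ((w.re, t + w.im / c) : ℝ × ℝ)) (XX_measurable T) h5
  exact h6

lemma e2_one_le {T : ℝ} {ρ : ℂ} (hρ : ρ ∈ Zf T) : 1 ≤ analyticOrderNatAt xi ρ := by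
  have hx : xi ρ = 0 := isNontrivialZero_iff.mp (mem_Zf.mp hρ).1
  obtain ⟨g, -, hfg, hga⟩ := div_point differentiable_xi xi_two_ne ρ
  rw [Nat.one_le_iff_ne_zero]
  intro h0
  have h1 := hfg ρ
  rw [h0, pow_zero, one_mul, hx] at h1
  exact hga h1.symm

lemma e2_zz_re (T t : ℝ) (ρ : ℂ) : (zz T t ρ).re = Real.log T * (ρ.re - 1 / 2) := by
  unfold zz; simp

lemma e2_zz_im (T t : ℝ) (ρ : ℂ) : (zz T t ρ).im = Real.log T * (ρ.im - t) := by
  unfold zz; simp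

/-- the point of the plane with scaled coordinate `w` seen from the height `t` -/
noncomputable def e2_s (T t : ℝ) (w : ℂ) : ℂ :=
  ((1 / 2 + w.re / Real.log T : ℝ) : ℂ) + ((t + w.im / Real.log T : ℝ) : ℂ) * Complex.I

lemma e2_s_re (T t : ℝ) (w : ℂ) : (e2_s T t w).re = 1 / 2 + w.re / Real.log T := by
  unfold e2_s; simp

lemma e2_s_im (T t : ℝ) (w : ℂ) : (e2_s T t w).im = t + w.im / Real.log T := by
  unfold e2_s; simp

lemma e2_sub {T : ℝ} (hL : Real.log T ≠ 0) (t : ℝ) (w ρ : ℂ) :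
    e2_s T t w - ρ = (w - zz T t ρ) / (Real.log T : ℂ) := by
  have hLc : (Real.log T : ℂ) ≠ 0 := by exact_mod_cast hL
  rw [eq_div_iff hLc]
  apply Complex.ext
  · rw [Complex.mul_re, Complex.sub_re, Complex.sub_re, e2_s_re, e2_zz_re, Complex.ofReal_re,
      Complex.ofReal_im]
    field_simp
    ring
  · rw [Complex.mul_im, Complex.sub_im, Complex.sub_im, e2_s_im, e2_zz_im, Complex.ofReal_re,
      Complex.ofReal_im]
    field_simp
    ring

lemma e2_sub' {T : ℝ} (hL : Real.log T ≠ 0) (t : ℝ) (w w' : ℂ) :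
    e2_s T t w - e2_s T t w' = (w - w') / (Real.log T : ℂ) := by
  have hLc : (Real.log T : ℂ) ≠ 0 := by exact_mod_cast hL
  rw [eq_div_iff hLc]
  apply Complex.ext
  · rw [Complex.mul_re, Complex.sub_re, Complex.sub_re, e2_s_re, e2_s_re, Complex.ofReal_re,
      Complex.ofReal_im]
    field_simp
    ring
  · rw [Complex.mul_im, Complex.sub_im, Complex.sub_im, e2_s_im, e2_s_im, Complex.ofReal_re,
      Complex.ofReal_im]
    field_simp
    ring

lemma e2_XX (T t : ℝ) (w : ℂ) :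
    XX T w.re (t + w.im / Real.log T) = logDeriv riemannZeta (e2_s T t w) / (Real.log T : ℂ) := by
  unfold XX e2_s
  rfl

open Classical in
/-- near zeros -/
noncomputable def e2K (T t : ℝ) : Finset ℂ := (Zf T).filter (fun ρ => |Real.log T * (ρ.im - t)| ≤ 4)

open Classical in
/-- far zeros -/
noncomputable def e2F (T t : ℝ) : Finset ℂ := (Zf T).filter (fun ρ => ¬ |Real.log T * (ρ.im - t)| ≤ 4)

open Classical in
lemma e2_split (T t : ℝ) (f : ℂ → ℂ) : ∑ ρ ∈ Zf T, f ρ = ∑ ρ ∈ e2K T t, f ρ + ∑ ρ ∈ e2F T t, f ρ := by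
  unfold e2K e2F
  rw [Finset.sum_filter_add_sum_filter_not]

open Classical in
lemma e2_near (T t : ℝ) : ∑ ρ ∈ e2K T t, mx ρ ≤ 17 * Phi T t := by
  unfold Phi
  rw [Finset.mul_sum]
  calc ∑ ρ ∈ e2K T t, mx ρ ≤ ∑ ρ ∈ e2K T t, 17 * (mx ρ * (1 + (Real.log T * (ρ.im - t)) ^ 2)⁻¹) := by
        apply Finset.sum_le_sum
        intro ρ hρ
        have h4 : |Real.log T * (ρ.im - t)| ≤ 4 := (Finset.mem_filter.mp hρ).2
        have h5 : (Real.log T * (ρ.im - t)) ^ 2 ≤ 16 := by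
          rw [← sq_abs]
          nlinarith [abs_nonneg (Real.log T * (ρ.im - t))]
        have h6 : (17:ℝ)⁻¹ ≤ (1 + (Real.log T * (ρ.im - t)) ^ 2)⁻¹ := by
          apply inv_anti₀ (by positivity) (by linarith)
        have h7 := mul_le_mul_of_nonneg_left h6 (mx_nonneg ρ)
        linarith
    _ ≤ _ := by
        apply Finset.sum_le_sum_of_subset_of_nonneg
        · exact Finset.filter_subset _ _
        · intro ρ _ _
          have := mx_nonneg ρ
          positivity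

open Classical in
lemma e2_far {T t : ℝ} {w : ℂ} {A D : ℝ} (hw : |w.im| ≤ 1) (hD : ‖(A : ℂ) - w‖ ≤ D) :
    ‖∑ ρ ∈ e2F T t, (mx ρ : ℂ) * (1 / (w - zz T t ρ) - 1 / ((A : ℂ) - zz T t ρ))‖ ≤
      2 * D * (17 / 16) * Phi T t := by
  have hD0 : 0 ≤ D := (norm_nonneg _).trans hD
  unfold Phi
  rw [Finset.mul_sum]
  calc ‖∑ ρ ∈ e2F T t, (mx ρ : ℂ) * (1 / (w - zz T t ρ) - 1 / ((A : ℂ) - zz T t ρ))‖
      ≤ ∑ ρ ∈ e2F T t, 2 * D * (17 / 16) * (mx ρ * (1 + (Real.log T * (ρ.im - t)) ^ 2)⁻¹) := by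
        refine (norm_sum_le _ _).trans ?_
        apply Finset.sum_le_sum
        intro ρ hρ
        have h4 : 4 < |Real.log T * (ρ.im - t)| := not_le.mp (Finset.mem_filter.mp hρ).2
        set v := Real.log T * (ρ.im - t) with hv
        have h1 : 3 / 4 * |v| ≤ ‖w - zz T t ρ‖ := by
          have h2 := Complex.abs_im_le_norm (w - zz T t ρ)
          rw [Complex.sub_im, e2_zz_im, ← hv] at h2
          have h3 := abs_sub_abs_le_abs_sub v w.im
          rw [abs_sub_comm] at h3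
          linarith
        have h2 : |v| ≤ ‖(A : ℂ) - zz T t ρ‖ := by
          have h2 := Complex.abs_im_le_norm ((A : ℂ) - zz T t ρ)
          rw [Complex.sub_im, e2_zz_im, ← hv, Complex.ofReal_im, zero_sub, abs_neg] at h2
          exact h2
        have hp1 : 0 < ‖w - zz T t ρ‖ := by linarith
        have hp2 : 0 < ‖(A : ℂ) - zz T t ρ‖ := by linarith
        have e1 : 1 / (w - zz T t ρ) - 1 / ((A : ℂ) - zz T t ρ) =
            ((A : ℂ) - w) / ((w - zz T t ρ) * ((A : ℂ) - zz T t ρ)) := by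
          have n1 : w - zz T t ρ ≠ 0 := norm_pos_iff.mp hp1
          have n2 : (A : ℂ) - zz T t ρ ≠ 0 := norm_pos_iff.mp hp2
          field_simp
          ring
        have hv0 : 0 < |v| := by linarith
        rw [norm_mul, e1, norm_div, norm_mul, Complex.norm_real, Real.norm_eq_abs,
          abs_of_nonneg (mx_nonneg ρ)]
        have h5 : ‖(A : ℂ) - w‖ / (‖w - zz T t ρ‖ * ‖(A : ℂ) - zz T t ρ‖) ≤
            2 * D * (17 / 16) * (1 + v ^ 2)⁻¹ := by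
          have h6 : 3 / 4 * |v| * |v| ≤ ‖w - zz T t ρ‖ * ‖(A : ℂ) - zz T t ρ‖ :=
            mul_le_mul h1 h2 hv0.le hp1.le
          have h7 : |v| * |v| = v ^ 2 := by rw [← sq_abs v]; ring
          have h8 : 16 ≤ v ^ 2 := by rw [← h7]; nlinarith
          have h9 : 0 < ‖w - zz T t ρ‖ * ‖(A : ℂ) - zz T t ρ‖ := mul_pos hp1 hp2
          rw [div_le_iff₀ h9]
          calc ‖(A : ℂ) - w‖ ≤ D := hD
            _ = D * 1 := (mul_one D).symm
            _ ≤ D * (2 * (17 / 16) * (1 + v ^ 2)⁻¹ * (3 / 4 * v ^ 2)) := by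
                apply mul_le_mul_of_nonneg_left _ hD0
                rw [show 2 * (17 / 16) * (1 + v ^ 2)⁻¹ * (3 / 4 * v ^ 2) =
                  (51 / 32 * v ^ 2) / (1 + v ^ 2) by ring]
                rw [le_div_iff₀ (by positivity)]
                linarith
            _ = 2 * D * (17 / 16) * (1 + v ^ 2)⁻¹ * (3 / 4 * |v| * |v|) := by
                rw [mul_assoc (3/4) |v| |v|, h7]; ring
            _ ≤ _ := by
                apply mul_le_mul_of_nonneg_left h6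
                positivity
        have h10 := mul_le_mul_of_nonneg_left h5 (mx_nonneg ρ)
        linarith
    _ ≤ _ := by
        apply Finset.sum_le_sum_of_subset_of_nonneg
        · exact Finset.filter_subset _ _
        · intro ρ _ _
          have := mx_nonneg ρ
          positivity

/-- the error of the Hadamard formula in scaled form -/
lemma e2_hadamard {a₁ a₂ η : ℝ} (h1 : 0 < a₁) (h12 : a₁ ≤ a₂) (hη : 0 < η) :
    ∀ δ : ℝ, 0 < δ → δ < 1 / 4 → ∃ T₀ : ℝ, ∀ T : ℝ, T₀ ≤ T → 1 ≤ Real.log T ∧ ∀ t₀ : ℝ,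
    2 * δ * T ≤ t₀ → t₀ ≤ (1 - 2 * δ) * T →
    (∀ ρ ∈ Zf T, η ≤ Real.log T * |ρ.im - t₀|) →
    ∀ w : ℂ, 0 < w.re → w.re ≤ a₂ + 1 → |w.im| ≤ 1 → (∀ ρ ∈ e2K T t₀, w ≠ zz T t₀ ρ) →
    ‖XX T w.re (t₀ + w.im / Real.log T) - XX T (a₂ + 2) t₀ -
      ∑ ρ ∈ Zf T, (mx ρ : ℂ) * (1 / (w - zz T t₀ ρ) - 1 / (((a₂ + 2 : ℝ) : ℂ) - zz T t₀ ρ))‖ ≤ 1 / 2 := by
  classical
  obtain ⟨C, hC0, hC⟩ := hadamard_diff
  intro δ hδ hδ4
  obtain ⟨T₁, hT₁⟩ := hC δ hδ (by linarith)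
  refine ⟨max T₁ (max (Real.exp (max 1 (max (2 * C) (a₂ + 4)))) (1 / δ)), ?_⟩
  intro T hT
  have hT1 : T₁ ≤ T := (le_max_left _ _).trans hT
  have hT2 : Real.exp (max 1 (max (2 * C) (a₂ + 4))) ≤ T :=
    (le_max_left _ _).trans ((le_max_right _ _).trans hT)
  have hT3 : 1 / δ ≤ T := (le_max_right _ _).trans ((le_max_right _ _).trans hT)
  have hTpos : 0 < T := (Real.exp_pos _).trans_le hT2
  set L := Real.log T with hL
  have hLm : max 1 (max (2 * C) (a₂ + 4)) ≤ L := by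
    rw [hL, Real.le_log_iff_exp_le hTpos]; exact hT2
  have hL1 : 1 ≤ L := (le_max_left _ _).trans hLm
  have hL2 : 2 * C ≤ L := (le_max_left _ _).trans ((le_max_right _ _).trans hLm)
  have hL3 : a₂ + 4 ≤ L := (le_max_right _ _).trans ((le_max_right _ _).trans hLm)
  have hδT : 1 ≤ δ * T := by
    rw [div_le_iff₀ hδ] at hT3; linarith
  have hLpos : 0 < L := by linarith
  have hLne : Real.log T ≠ 0 := hLpos.ne'
  refine ⟨hL1, ?_⟩
  intro t₀ ht1 ht2 hη' w hw1 hw2 hw3 hwK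
  have hw3' := abs_le.mp hw3
  set A : ℝ := a₂ + 2 with hA
  set s := e2_s T t₀ w with hs
  set s' := e2_s T t₀ (A : ℂ) with hs'
  have hd1 : w.im / L ≤ 1 := by rw [div_le_one hLpos]; linarith
  have hd2 : -1 ≤ w.im / L := by rw [le_div_iff₀ hLpos]; linarith
  have hre1 : s.re = 1 / 2 + w.re / L := e2_s_re _ _ _
  have him1 : s.im = t₀ + w.im / L := e2_s_im _ _ _
  have hre2 : s'.re = 1 / 2 + A / L := by rw [hs', e2_s_re, Complex.ofReal_re]
  have him2 : s'.im = t₀ := by rw [hs', e2_s_im, Complex.ofReal_im]; simp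
  have hq1 : 0 < w.re / L := div_pos hw1 hLpos
  have hq2 : w.re / L ≤ 1 := by rw [div_le_one hLpos]; linarith
  have hq3 : 0 < A / L := div_pos (by linarith) hLpos
  have hq4 : A / L ≤ 1 := by rw [div_le_one hLpos]; linarith
  -- zeros
  have hzero : ∀ u : ℂ, 1 / 2 < u.re → 0 ≤ u.im → u.im ≤ T → riemannZeta u = 0 → u ∈ Zf T := by
    intro u hu1 hu2 hu3 hu
    rw [mem_Zf]
    refine ⟨⟨hu, by linarith, ?_⟩, hu2, hu3⟩
    by_contra hcon
    exact riemannZeta_ne_zero_of_one_le_re (not_lt.mp hcon) hu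
  have hδT2 : δ * T ≤ t₀ + w.im / L := by linarith
  have hδT3 : t₀ + w.im / L ≤ (1 - δ) * T := by linarith
  have hδT4 : (1 - δ) * T ≤ T := by nlinarith
  have hζs : riemannZeta s ≠ 0 := by
    intro h0
    have hm : s ∈ Zf T := hzero s (by rw [hre1]; linarith) (by rw [him1]; linarith)
      (by rw [him1]; linarith) h0
    have hsw : w = zz T t₀ s := by
      have h5 := e2_sub hLne t₀ w s
      rw [← hs, sub_self, eq_comm, div_eq_zero_iff] at h5
      rcases h5 with h5 | h5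
      · exact sub_eq_zero.mp h5
      · exact absurd (by exact_mod_cast h5) hLne
    have hK : s ∈ e2K T t₀ := by
      unfold e2K
      rw [Finset.mem_filter]
      refine ⟨hm, ?_⟩
      have h6 : Real.log T * (s.im - t₀) = w.im := by
        rw [← e2_zz_im, ← hsw]
      rw [h6]
      linarith
    exact hwK s hK hsw
  have hζs' : riemannZeta s' ≠ 0 := by
    intro h0
    have hm : s' ∈ Zf T := hzero s' (by rw [hre2]; linarith) (by rw [him2]; nlinarith)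
      (by rw [him2]; nlinarith) h0
    have h5 := hη' s' hm
    rw [him2, sub_self, abs_zero, mul_zero] at h5
    linarith
  have hss' : ‖s - s'‖ ≤ 3 := by
    rw [hs, hs', e2_sub' hLne, norm_div, Complex.norm_real, Real.norm_eq_abs, abs_of_pos hLpos,
      div_le_iff₀ hLpos]
    have h5 := Complex.norm_le_abs_re_add_abs_im (w - (A : ℂ))
    rw [Complex.sub_re, Complex.sub_im, Complex.ofReal_re, Complex.ofReal_im, sub_zero] at h5
    have h6 : |w.re - A| ≤ a₂ + 2 := by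
      rw [abs_le]; constructor <;> linarith
    have h7 : a₂ + 4 ≤ L := hL3
    linarith
  have hmain := hT₁ T hT1 s s' (by rw [hre1]; linarith) (by rw [hre1]; linarith)
    (by rw [him1]; exact hδT2) (by rw [him1]; exact hδT3) (by rw [hre2]; linarith)
    (by rw [hre2]; linarith) (by rw [him2]; nlinarith) (by rw [him2]; nlinarith) hss' hζs hζs'
  have hLc : (L : ℂ) ≠ 0 := by exact_mod_cast hLne
  have hXA : XX T A t₀ = logDeriv riemannZeta s' / (L : ℂ) := by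
    have h5 := e2_XX T t₀ (A : ℂ)
    rw [Complex.ofReal_re, Complex.ofReal_im, zero_div, add_zero] at h5
    exact h5
  have hXw : XX T w.re (t₀ + w.im / L) = logDeriv riemannZeta s / (L : ℂ) := e2_XX T t₀ w
  have hsum : ∑ ρ ∈ Zf T, (mx ρ : ℂ) * (1 / (w - zz T t₀ ρ) - 1 / ((A : ℂ) - zz T t₀ ρ)) =
      (∑ ρ ∈ Zf T, (mx ρ : ℂ) * (1 / (s - ρ) - 1 / (s' - ρ))) / (L : ℂ) := by
    rw [Finset.sum_div]
    apply Finset.sum_congr rfl
    intro ρ _
    rw [hs, hs', e2_sub hLne, e2_sub hLne, one_div_div, one_div_div, ← hL]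
    field_simp
  rw [hXA, hXw, hsum, ← sub_div, ← sub_div, norm_div, Complex.norm_real, Real.norm_eq_abs,
    abs_of_pos hLpos, div_le_iff₀ hLpos]
  linarith

theorem local_lower {a₁ a₂ : ℝ} (h1 : 0 < a₁) (h12 : a₁ ≤ a₂) {K K₁ η : ℝ} (hK : 0 ≤ K) (hK1 : 0 ≤ K₁)
    (hη : 0 < η) : ∃ C : ℝ, ∀ δ : ℝ, 0 < δ → δ < 1 / 4 → ∃ T₀ : ℝ, ∀ T : ℝ, T₀ ≤ T → ∀ t₀ : ℝ,
    2 * δ * T ≤ t₀ → t₀ ≤ (1 - 2 * δ) * T → Phi T t₀ ≤ K₁ →
    (∀ ρ ∈ Zf T, η ≤ Real.log T * |ρ.im - t₀|) → ‖XX T (a₂ + 2) t₀‖ ≤ K →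
    (∃ ρ ∈ Zf T, a₁ ≤ Real.log T * (ρ.re - 1 / 2) ∧ Real.log T * (ρ.re - 1 / 2) ≤ a₂ ∧
      Real.log T * |ρ.im - t₀| ≤ 1 / 2) → ∀ B : ℝ, 0 < B →
    ENNReal.ofReal (Real.pi / 4 * Real.log B - C) ≤
      ∫⁻ p in Icc (a₁ / 2) (a₂ + 1) ×ˢ Icc (-1 : ℝ) 1,
        ENNReal.ofReal (min (‖XX T p.1 (t₀ + p.2 / Real.log T)‖ ^ 2) B) := by
  classical
  set Kb : ℝ := K + 17 * K₁ / η + 2 * (a₂ + 4) * (17 / 16) * K₁ with hKb
  have hKb0 : 0 ≤ Kb := by
    have : 0 ≤ a₂ := by linarith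
    positivity
  set r₀ : ℝ := min (a₁ / 2) (1 / 2) with hr₀
  have hr₀0 : 0 < r₀ := lt_min (by linarith) (by norm_num)
  have hr₀1 : r₀ ≤ 1 / 2 := min_le_right _ _
  have hr₀2 : r₀ ≤ a₁ / 2 := min_le_left _ _
  refine ⟨-(Real.pi / 2) * (Real.log (r₀ / (4 * (17 * K₁ + Kb + 1))) - 34 * K₁), ?_⟩
  intro δ hδ hδ4
  obtain ⟨T₀, hT₀⟩ := e2_hadamard h1 h12 hη δ hδ hδ4
  refine ⟨T₀, ?_⟩
  intro T hT t₀ ht1 ht2 hPhi hη' hXA hex B hB
  obtain ⟨hL1, hH⟩ := hT₀ T hT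
  have hH' := hH t₀ ht1 ht2 hη'
  obtain ⟨ρ₀, hρ₀, hρ1, hρ2, hρ3⟩ := hex
  set L := Real.log T with hL
  have hLpos : 0 < L := by linarith
  set A : ℝ := a₂ + 2 with hA
  set w₀ := zz T t₀ ρ₀ with hw₀
  have hw₀re : w₀.re = L * (ρ₀.re - 1 / 2) := e2_zz_re _ _ _
  have hw₀im : w₀.im = L * (ρ₀.im - t₀) := e2_zz_im _ _ _
  have hw₀im' : |w₀.im| ≤ 1 / 2 := by
    rw [hw₀im, abs_mul, abs_of_pos hLpos]; exact hρ3
  -- points of the closed ball
  have hball : ∀ w ∈ Metric.closedBall w₀ r₀, a₁ / 2 ≤ w.re ∧ w.re ≤ a₂ + 1 ∧ |w.im| ≤ 1 := by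
    intro w hw
    rw [Metric.mem_closedBall, dist_eq_norm] at hw
    have hr := (Complex.abs_re_le_norm (w - w₀)).trans hw
    have hi := (Complex.abs_im_le_norm (w - w₀)).trans hw
    rw [Complex.sub_re] at hr
    rw [Complex.sub_im] at hi
    have hr' := abs_le.mp hr
    have hi' := abs_le.mp hi
    have hi2 := abs_le.mp hw₀im'
    refine ⟨by linarith, by linarith, ?_⟩
    rw [abs_le]
    constructor <;> linarith
  set m : ℂ → ℕ := fun ρ => analyticOrderNatAt xi ρ with hm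
  have hmmx : ∀ ρ, ((m ρ : ℕ) : ℂ) = ((mx ρ : ℝ) : ℂ) := by
    intro ρ
    simp only [hm, mx]
    push_cast
    rfl
  have hmmxr : ∀ ρ, ((m ρ : ℕ) : ℝ) = mx ρ := fun ρ => rfl
  have hN : ∑ ρ ∈ e2K T t₀, (m ρ : ℝ) ≤ 17 * K₁ := by
    have h5 := e2_near T t₀
    have h6 : ∑ ρ ∈ e2K T t₀, (m ρ : ℝ) = ∑ ρ ∈ e2K T t₀, mx ρ := rfl
    rw [h6]
    linarith
  have hN0 : 0 ≤ ∑ ρ ∈ e2K T t₀, (m ρ : ℝ) := Finset.sum_nonneg fun _ _ => Nat.cast_nonneg _
  set X : ℂ → ℂ := fun w => XX T w.re (t₀ + w.im / L) with hX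
  have hXm : Measurable X := e2_X_measurable T t₀ L
  set R : ℂ → ℂ := fun w => XX T A t₀ - ∑ ρ ∈ e2K T t₀, (m ρ : ℂ) / ((A : ℂ) - zz T t₀ ρ) +
    ∑ ρ ∈ e2F T t₀, (mx ρ : ℂ) * (1 / (w - zz T t₀ ρ) - 1 / ((A : ℂ) - zz T t₀ ρ)) with hR
  have hRdiff : DifferentiableOn ℂ R (Metric.ball w₀ (2 * r₀)) := by
    rw [hR]
    apply DifferentiableOn.add (differentiableOn_const _)
    apply DifferentiableOn.fun_sum
    intro ρ hρ
    apply DifferentiableOn.const_mul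
    apply DifferentiableOn.sub _ (differentiableOn_const _)
    apply DifferentiableOn.div (differentiableOn_const _)
    · exact (differentiable_id.sub_const _).differentiableOn
    · intro w hw h0
      have h4 : 4 < |L * (ρ.im - t₀)| := not_le.mp (Finset.mem_filter.mp hρ).2
      have h5 : w = zz T t₀ ρ := sub_eq_zero.mp h0
      rw [Metric.mem_ball, dist_eq_norm] at hw
      have hi := (Complex.abs_im_le_norm (w - w₀)).trans_lt hw
      rw [Complex.sub_im, h5, e2_zz_im, ← hL] at hi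
      have h6 := abs_sub_abs_le_abs_sub (L * (ρ.im - t₀)) w₀.im
      linarith
  have hRb : ∀ w ∈ Metric.closedBall w₀ r₀, ‖R w‖ ≤ Kb := by
    intro w hw
    obtain ⟨hb1, hb2, hb3⟩ := hball w hw
    have hAw : ‖(A : ℂ) - w‖ ≤ a₂ + 4 := by
      have h5 := Complex.norm_le_abs_re_add_abs_im ((A : ℂ) - w)
      rw [Complex.sub_re, Complex.sub_im, Complex.ofReal_re, Complex.ofReal_im, zero_sub, abs_neg] at h5
      have h6 : |A - w.re| ≤ a₂ + 2 := by
        rw [abs_le]; constructor <;> linarith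
      linarith
    have hfar := e2_far (T := T) (t := t₀) hb3 hAw
    have hnear : ‖∑ ρ ∈ e2K T t₀, (m ρ : ℂ) / ((A : ℂ) - zz T t₀ ρ)‖ ≤ 17 * K₁ / η := by
      refine (norm_sum_le _ _).trans ?_
      calc ∑ ρ ∈ e2K T t₀, ‖(m ρ : ℂ) / ((A : ℂ) - zz T t₀ ρ)‖ ≤ ∑ ρ ∈ e2K T t₀, (m ρ : ℝ) / η := by
            apply Finset.sum_le_sum
            intro ρ hρ
            rw [norm_div, Complex.norm_natCast]
            apply div_le_div_of_nonneg_left (Nat.cast_nonneg _) hη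
            have h5 := Complex.abs_im_le_norm ((A : ℂ) - zz T t₀ ρ)
            rw [Complex.sub_im, e2_zz_im, Complex.ofReal_im, zero_sub, abs_neg, abs_mul,
              abs_of_pos hLpos] at h5
            exact (hη' ρ (Finset.mem_filter.mp hρ).1).trans h5
        _ = (∑ ρ ∈ e2K T t₀, (m ρ : ℝ)) / η := by rw [Finset.sum_div]
        _ ≤ 17 * K₁ / η := by
            apply div_le_div_of_nonneg_right hN hη.le
    have hfar2 : 2 * (a₂ + 4) * (17 / 16) * Phi T t₀ ≤ 2 * (a₂ + 4) * (17 / 16) * K₁ := by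
      apply mul_le_mul_of_nonneg_left hPhi
      have : 0 ≤ a₂ := by linarith
      positivity
    calc ‖R w‖ ≤ ‖XX T A t₀ - ∑ ρ ∈ e2K T t₀, (m ρ : ℂ) / ((A : ℂ) - zz T t₀ ρ)‖ +
          ‖∑ ρ ∈ e2F T t₀, (mx ρ : ℂ) * (1 / (w - zz T t₀ ρ) - 1 / ((A : ℂ) - zz T t₀ ρ))‖ :=
          norm_add_le _ _
      _ ≤ (‖XX T A t₀‖ + ‖∑ ρ ∈ e2K T t₀, (m ρ : ℂ) / ((A : ℂ) - zz T t₀ ρ)‖) +
          ‖∑ ρ ∈ e2F T t₀, (mx ρ : ℂ) * (1 / (w - zz T t₀ ρ) - 1 / ((A : ℂ) - zz T t₀ ρ))‖ := by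
          gcongr
          exact norm_sub_le _ _
      _ ≤ Kb := by rw [hKb]; linarith
  have hXR : ∀ w ∈ Metric.closedBall w₀ r₀, (∀ k ∈ e2K T t₀, w ≠ zz T t₀ k) →
      ‖X w - ∑ k ∈ e2K T t₀, (m k : ℂ) / (w - zz T t₀ k) - R w‖ ≤ 1 / 2 := by
    intro w hw hne
    obtain ⟨hb1, hb2, hb3⟩ := hball w hw
    have h5 := hH' w (by linarith) hb2 hb3 hne
    rw [e2_split T t₀] at h5
    have h6 : X w - ∑ k ∈ e2K T t₀, (m k : ℂ) / (w - zz T t₀ k) - R w =
        XX T w.re (t₀ + w.im / L) - XX T A t₀ -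
        (∑ ρ ∈ e2K T t₀, (mx ρ : ℂ) * (1 / (w - zz T t₀ ρ) - 1 / ((A : ℂ) - zz T t₀ ρ)) +
          ∑ ρ ∈ e2F T t₀, (mx ρ : ℂ) * (1 / (w - zz T t₀ ρ) - 1 / ((A : ℂ) - zz T t₀ ρ))) := by
      have h7 : ∑ ρ ∈ e2K T t₀, (mx ρ : ℂ) * (1 / (w - zz T t₀ ρ) - 1 / ((A : ℂ) - zz T t₀ ρ)) =
          ∑ k ∈ e2K T t₀, (m k : ℂ) / (w - zz T t₀ k) -
          ∑ ρ ∈ e2K T t₀, (m ρ : ℂ) / ((A : ℂ) - zz T t₀ ρ) := by
        rw [← Finset.sum_sub_distrib]
        apply Finset.sum_congr rfl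
        intro ρ _
        rw [hmmx]
        ring
      rw [h7, hR, hX]
      ring
    rw [h6]
    exact h5
  have hcl := circle_lower (e2K T t₀) (zz T t₀) m
    (fun k hk => e2_one_le (Finset.mem_filter.mp hk).1) X R hXm w₀ hr₀0 (by linarith) hKb0
    ⟨ρ₀, by
      unfold e2K
      rw [Finset.mem_filter]
      refine ⟨hρ₀, ?_⟩
      rw [← hL, ← hw₀im]
      linarith, rfl⟩ hRdiff hRb hXR hB
  -- the constant
  have hlow : Real.pi / 4 * Real.log B -
      -(Real.pi / 2) * (Real.log (r₀ / (4 * (17 * K₁ + Kb + 1))) - 34 * K₁) ≤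
      Real.pi / 2 * (Real.log (r₀ * Real.sqrt B / (4 * ((∑ k ∈ e2K T t₀, (m k : ℝ)) + Kb + 1))) -
        2 * ∑ k ∈ e2K T t₀, (m k : ℝ)) := by
    have hsB : 0 < Real.sqrt B := Real.sqrt_pos.mpr hB
    have hd1 : 0 < 4 * ((∑ k ∈ e2K T t₀, (m k : ℝ)) + Kb + 1) := by linarith
    have hd2 : 0 < 4 * (17 * K₁ + Kb + 1) := by linarith
    have hq : Real.log (r₀ * Real.sqrt B / (4 * (17 * K₁ + Kb + 1))) ≤
        Real.log (r₀ * Real.sqrt B / (4 * ((∑ k ∈ e2K T t₀, (m k : ℝ)) + Kb + 1))) := by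
      apply Real.log_le_log
      · positivity
      · apply div_le_div_of_nonneg_left (by positivity) hd1
        linarith
    have hq2 : Real.log (r₀ * Real.sqrt B / (4 * (17 * K₁ + Kb + 1))) =
        Real.log B / 2 + Real.log (r₀ / (4 * (17 * K₁ + Kb + 1))) := by
      rw [show r₀ * Real.sqrt B / (4 * (17 * K₁ + Kb + 1)) =
        Real.sqrt B * (r₀ / (4 * (17 * K₁ + Kb + 1))) by ring,
        Real.log_mul hsB.ne' (by positivity), Real.log_sqrt hB.le]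
    have hpi := Real.pi_pos
    have hq3 : Real.log B / 2 + Real.log (r₀ / (4 * (17 * K₁ + Kb + 1))) - 34 * K₁ ≤
        Real.log (r₀ * Real.sqrt B / (4 * ((∑ k ∈ e2K T t₀, (m k : ℝ)) + Kb + 1))) -
        2 * ∑ k ∈ e2K T t₀, (m k : ℝ) := by linarith
    have hq4 := mul_le_mul_of_nonneg_left hq3 (by positivity : 0 ≤ Real.pi / 2)
    calc _ = Real.pi / 2 * (Real.log B / 2 + Real.log (r₀ / (4 * (17 * K₁ + Kb + 1))) - 34 * K₁) := by
          ring
      _ ≤ _ := hq4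
  refine (ENNReal.ofReal_le_ofReal hlow).trans (hcl.trans ?_)
  -- change of variables
  set f : ℝ × ℝ → ENNReal := fun p =>
    ENNReal.ofReal (min (‖XX T p.1 (t₀ + p.2 / L)‖ ^ 2) B) with hf
  have hcv : ∫⁻ w in Complex.measurableEquivRealProd ⁻¹' (Icc (a₁ / 2) (a₂ + 1) ×ˢ Icc (-1 : ℝ) 1),
      f (Complex.measurableEquivRealProd w) = ∫⁻ p in Icc (a₁ / 2) (a₂ + 1) ×ˢ Icc (-1 : ℝ) 1, f p :=
    Complex.volume_preserving_equiv_real_prod.setLIntegral_comp_preimage_emb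
      Complex.measurableEquivRealProd.measurableEmbedding f _
  rw [← hcv]
  have hsub : Metric.ball w₀ r₀ ⊆
      Complex.measurableEquivRealProd ⁻¹' (Icc (a₁ / 2) (a₂ + 1) ×ˢ Icc (-1 : ℝ) 1) := by
    intro w hw
    obtain ⟨hb1, hb2, hb3⟩ := hball w (Metric.ball_subset_closedBall hw)
    rw [mem_preimage]
    simp only [Complex.measurableEquivRealProd_apply, mem_prod, mem_Icc]
    exact ⟨⟨hb1, hb2⟩, abs_le.mp hb3⟩
  refine (lintegral_mono_set hsub).trans (le_of_eq ?_)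
  rfl

end Pool.Agent.Helper69.GGM
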