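import Pool.Agent.Helper69.GGM.E2

/-!
# GGM block E3a: average over `a`

Proof. `MM T a B` is monotone in `B` and `0 <= MM T a B <= B` (`T > 0`, `B >= 0`). From `MeanSqAt l a`: for every
`B > 0`, `ε > 0`, eventually along `l`: `MM T a B <= MM T a (max B B₀) <= VV a + ε`. So
`g_T(a) = max (MM T a B - VV a) 0 → 0` along `l` for each `a ∈ [b₁,b₂]`, `0 <= g_T <= B`; `l` is countably
generated, so by dominated convergence (`intervalIntegral.tendsto_integral_filter_of_dominated_convergence`;
measurability of `a ↦ MM T a B` from `XX_measurable` by Fubini) `∫ g_T → 0`. Use `VV a <= 1/(4a²) <= 1/(4b₁²)`.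
-/

open Complex Set MeasureTheory Filter Topology

namespace Pool.Agent.Helper69.GGM

lemma minXX_measurable (T B : ℝ) : Measurable (fun p : ℝ × ℝ => min (‖XX T p.1 p.2‖ ^ 2) B) :=
  ((XX_measurable T).norm.pow_const 2).min measurable_const

lemma XX_meas_t (T a : ℝ) : Measurable (fun t : ℝ => XX T a t) := by
  have h : Measurable (fun t : ℝ => ((a, t) : ℝ × ℝ)) := by fun_prop
  have h2 := (XX_measurable T).comp h
  simpa only [Function.comp_def] using h2

lemma minXX_meas_t (T a B : ℝ) : Measurable (fun t : ℝ => min (‖XX T a t‖ ^ 2) B) := by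
  have h := XX_meas_t T a
  exact (h.norm.pow_const 2).min measurable_const

lemma minXX_integrableOn (T a : ℝ) {B : ℝ} (hB : 0 ≤ B) (c d : ℝ) :
    IntegrableOn (fun t : ℝ => min (‖XX T a t‖ ^ 2) B) (Ioc c d) := by
  refine Measure.integrableOn_of_bounded (M := B) (by simp) (minXX_meas_t T a B).aestronglyMeasurable ?_
  refine Eventually.of_forall fun t => ?_
  rw [Real.norm_eq_abs, abs_of_nonneg (le_min (by positivity) hB)]
  exact min_le_right _ _

lemma MM_mono (T a : ℝ) {B B' : ℝ} (hT : 0 < T) (hB : 0 ≤ B) (hBB : B ≤ B') : MM T a B ≤ MM T a B' := by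
  unfold MM
  refine mul_le_mul_of_nonneg_left ?_ (by positivity)
  refine intervalIntegral.integral_mono_on hT.le ?_ ?_ fun t _ => min_le_min_left _ hBB
  · rw [intervalIntegrable_iff_integrableOn_Ioc_of_le hT.le]
    exact minXX_integrableOn T a hB _ _
  · rw [intervalIntegrable_iff_integrableOn_Ioc_of_le hT.le]
    exact minXX_integrableOn T a (hB.trans hBB) _ _

lemma MM_nonneg' (T a : ℝ) {B : ℝ} (hT : 0 < T) (hB : 0 ≤ B) : 0 ≤ MM T a B := by
  unfold MM
  refine mul_nonneg (by positivity) ?_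
  exact intervalIntegral.integral_nonneg hT.le fun t _ => le_min (by positivity) hB

lemma MM_le' (T a : ℝ) {B : ℝ} (hT : 0 < T) (hB : 0 ≤ B) : MM T a B ≤ B := by
  unfold MM
  have h : ∫ t in (0:ℝ)..T, min (‖XX T a t‖ ^ 2) B ≤ ∫ _t in (0:ℝ)..T, B := by
    refine intervalIntegral.integral_mono_on hT.le ?_ (by simp) fun t _ => min_le_right _ _
    rw [intervalIntegrable_iff_integrableOn_Ioc_of_le hT.le]
    exact minXX_integrableOn T a hB _ _
  rw [intervalIntegral.integral_const, smul_eq_mul, sub_zero] at h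
  calc 1 / T * ∫ t in (0:ℝ)..T, min (‖XX T a t‖ ^ 2) B ≤ 1 / T * (T * B) :=
        mul_le_mul_of_nonneg_left h (by positivity)
    _ = B := by field_simp

lemma MM_measurable (T B : ℝ) (hT : 0 < T) : Measurable (fun a : ℝ => MM T a B) := by
  unfold MM
  refine Measurable.const_mul ?_ _
  have h : (fun a : ℝ => ∫ t in (0:ℝ)..T, min (‖XX T a t‖ ^ 2) B) =
      fun a : ℝ => ∫ t, min (‖XX T a t‖ ^ 2) B ∂(volume.restrict (Ioc 0 T)) := by
    funext a
    rw [intervalIntegral.integral_of_le hT.le]
  rw [h]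
  exact ((minXX_measurable T B).stronglyMeasurable.integral_prod_right
    (ν := volume.restrict (Ioc 0 T))).measurable

lemma VV_le' {a b : ℝ} (hb : 0 < b) (hab : b ≤ a) : VV a ≤ 1 / (4 * b ^ 2) := by
  unfold VV
  have ha : 0 < a := hb.trans_le hab
  refine (div_le_div_of_nonneg_right (c := 4 * a ^ 2) (b := 1) ?_ (by positivity)).trans ?_
  · have := Real.exp_pos (-2 * a); linarith
  · refine one_div_le_one_div_of_le (by positivity) ?_
    have : b ^ 2 ≤ a ^ 2 := pow_le_pow_left₀ hb.le hab 2
    linarith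

lemma VV_nonneg' {a : ℝ} (ha : 0 < a) : 0 ≤ VV a := by
  unfold VV
  refine div_nonneg ?_ (by positivity)
  have : Real.exp (-2 * a) ≤ 1 := Real.exp_le_one_iff.mpr (by linarith)
  linarith

theorem average_bound {l : Filter ℝ} [l.IsCountablyGenerated] (hl : l ≤ atTop)
    (h : ∀ a : ℝ, 0 < a → MeanSqAt l a) {b₁ b₂ : ℝ} (hb : 0 < b₁) (hb2 : b₁ ≤ b₂) {B : ℝ} (hB : 0 < B) :
    ∀ᶠ T : ℝ in l, ∫ a in b₁..b₂, MM T a B ≤ (b₂ - b₁) / (4 * b₁ ^ 2) + 1 := by
  have hpos : ∀ᶠ T : ℝ in l, 0 < T := hl (eventually_gt_atTop 0)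
  have hVm : Measurable VV := by
    unfold VV; fun_prop
  have hlim : Tendsto (fun T : ℝ => ∫ a in b₁..b₂, max (MM T a B - VV a) 0) l
      (𝓝 (∫ _a in b₁..b₂, (0:ℝ))) := by
    refine intervalIntegral.tendsto_integral_filter_of_dominated_convergence (fun _ => B) ?_ ?_
      (by simp) ?_
    · filter_upwards [hpos] with T hT
      exact (((MM_measurable T B hT).sub hVm).max measurable_const).aestronglyMeasurable
    · filter_upwards [hpos] with T hT
      refine Eventually.of_forall fun a ha => ?_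
      rw [uIoc_of_le hb2] at ha
      have ha0 : 0 < a := hb.trans ha.1
      rw [Real.norm_eq_abs, abs_of_nonneg (le_max_right _ _)]
      refine max_le ?_ hB.le
      have := MM_le' T a hT hB.le
      have := VV_nonneg' ha0
      linarith
    · refine Eventually.of_forall fun a ha => ?_
      rw [uIoc_of_le hb2] at ha
      have ha0 : 0 < a := hb.trans ha.1
      rw [Metric.tendsto_nhds]
      intro ε hε
      obtain ⟨B₀, hB₀⟩ := h a ha0 (ε / 2) (by positivity)
      filter_upwards [hB₀ (max B B₀) (le_max_right _ _), hpos] with T hT hT0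
      rw [dist_zero_right, Real.norm_eq_abs, abs_of_nonneg (le_max_right _ _)]
      have h1 := MM_mono T a hT0 hB.le (le_max_left B B₀)
      have h2 := (abs_le.mp hT).2
      refine max_lt ?_ hε
      linarith
  rw [intervalIntegral.integral_const, smul_zero] at hlim
  have h1 : ∀ᶠ T : ℝ in l, ∫ a in b₁..b₂, max (MM T a B - VV a) 0 < 1 :=
    hlim.eventually (gt_mem_nhds one_pos)
  filter_upwards [h1, hpos] with T hT hT0
  have hi1 : IntervalIntegrable (fun a => MM T a B) volume b₁ b₂ := by
    rw [intervalIntegrable_iff_integrableOn_Ioc_of_le hb2]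
    refine Measure.integrableOn_of_bounded (M := B) (by simp)
      (MM_measurable T B hT0).aestronglyMeasurable ?_
    refine Eventually.of_forall fun a => ?_
    rw [Real.norm_eq_abs, abs_of_nonneg (MM_nonneg' T a hT0 hB.le)]
    exact MM_le' T a hT0 hB.le
  have hi2 : IntervalIntegrable (fun a => max (MM T a B - VV a) 0) volume b₁ b₂ := by
    rw [intervalIntegrable_iff_integrableOn_Ioc_of_le hb2]
    refine Measure.integrableOn_of_bounded (M := B) (by simp)
      (((MM_measurable T B hT0).sub hVm).max measurable_const).aestronglyMeasurable ?_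
    rw [ae_restrict_iff' measurableSet_Ioc]
    refine Eventually.of_forall fun a ha => ?_
    have ha0 : 0 < a := hb.trans ha.1
    rw [Real.norm_eq_abs, abs_of_nonneg (le_max_right _ _)]
    refine max_le ?_ hB.le
    have := MM_le' T a hT0 hB.le
    have := VV_nonneg' ha0
    linarith
  have hi3 : IntervalIntegrable (fun _ : ℝ => 1 / (4 * b₁ ^ 2)) volume b₁ b₂ := by simp
  calc ∫ a in b₁..b₂, MM T a B
      ≤ ∫ a in b₁..b₂, (max (MM T a B - VV a) 0 + 1 / (4 * b₁ ^ 2)) := by
        refine intervalIntegral.integral_mono_on hb2 hi1 (hi2.add hi3) fun a ha => ?_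
        have h2 := le_max_left (MM T a B - VV a) 0
        have h3 := VV_le' hb ha.1
        linarith
    _ = (∫ a in b₁..b₂, max (MM T a B - VV a) 0) + (b₂ - b₁) * (1 / (4 * b₁ ^ 2)) := by
        rw [intervalIntegral.integral_add hi2 hi3, intervalIntegral.integral_const, smul_eq_mul]
    _ ≤ (b₂ - b₁) / (4 * b₁ ^ 2) + 1 := by
        have : (b₂ - b₁) * (1 / (4 * b₁ ^ 2)) = (b₂ - b₁) / (4 * b₁ ^ 2) := by ring
        rw [this]; linarith

end Pool.Agent.Helper69.GGM
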