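import Pool.Agent.Helper69.GGM.M4b

/-!
# GGM block M4c: integral of the dominating function, and the fourth moment bound

ADAPT `Psi_cont`, `Psi_nonneg`, `calcG`, `calcH1`, `calcH0`, `int_Psi`, `Qbound` of
`Pool/Agent/Helper57/M/D.lean` (lines 2776-3166), with `Psi4` for `Psi` and without the weights `Wt`.
With `w = 2^j`: the G part is `<= C w^3 KK CE T e^(-w/1200)`, the H part `<= C w^3 w^4 KK CE T e^(-w/160)`
(`lam = e^(w/160)`, `∫ AH <= CE T`, `∫ ‖HT(V/2)‖^2 <= CE T e^(-w/80)`), and `poly_exp` with `k <= 7` gives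
`<= C T / w`. The final statement `M4` follows from `pointwise4` exactly as `Qbound` from `pointwise_Q`.
-/

open Complex Set MeasureTheory Filter Topology Metric
open Pool.Agent.Helper57.LH Pool.Agent.Helper57.Zeta

namespace Pool.Agent.Helper69.GGM

/-- constant -/
noncomputable def CP4 : ℝ := 25600000 * KK * CE * C8 + 38400000000 * KK * CE * C8 + 3840000000 * (6 + KK * CE)

lemma CP4_pos : 0 < CP4 := by
  unfold CP4
  have := KK_pos
  have := C8_pos
  have := CE_one
  positivity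

lemma Psi4_cont {T L : ℝ} (hL40 : 40 ≤ L) (j : ℕ) :
    Continuous (fun τ => Psi4 T L j τ) := by
  have hL0 : 0 < L := by linarith
  have hw : (1:ℝ) ≤ 2 ^ j := one_le_pow₀ (by norm_num)
  set w : ℝ := 2 ^ j with hwdef
  have h1L : 1 / L ≤ 1 / 40 := by gcongr
  have hwLp : 0 < w / L := by positivity
  have hsw : sg L w = 1 / 2 + 4 * (w / L) := by unfold sg; ring
  have c1 : Continuous (fun τ : ℝ => AH T ((sg L w : ℝ) + τ * I) (39 / 10 * w / L)) := by
    apply AH_cont T (by positivity)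
    rw [hsw]
    have : 39 / 10 * w / L = 39 / 10 * (w / L) := by ring
    linarith only [hwLp, this]
  have c2 : Continuous (fun τ : ℝ => ‖HT T ((sg L w : ℝ) + τ * I)‖ ^ 2) := (HT_cont T (by rw [hsw]; linarith only [hwLp])).norm.pow 2
  have c3 : Continuous (fun τ : ℝ => AH T ((sg L 1 : ℝ) + τ * I) (5 / L)) := by
    apply AH_cont T (by positivity)
    have h1 : sg L 1 = 1 / 2 + 4 * (1 / L) := by unfold sg; ring
    have : 5 / L = 5 * (1 / L) := by ring
    rw [h1]
    linarith only [h1L, this]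
  have c4 : Continuous (fun τ : ℝ => AH T ((sg L w : ℝ) + τ * I) ((4 * w + 1) / L)) := by
    apply AH_cont T (by positivity)
    rw [hsw]
    have : (4 * w + 1) / L = 4 * (w / L) + 1 / L := by ring
    linarith only [h1L, this]
  have c5 : Continuous (fun τ : ℝ => ‖HT T ((sg L (w / 2) : ℝ) + τ * I)‖ ^ 2) := by
    have h1 : sg L (w / 2) = 1 / 2 + 2 * (w / L) := by unfold sg; ring
    exact (HT_cont T (by rw [h1]; linarith only [hwLp])).norm.pow 2
  unfold Psi4
  simp only [← hwdef]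
  apply continuous_const.mul
  apply Continuous.add
  · exact continuous_const.mul (c1.add c2)
  · by_cases hj : j = 0
    · simp only [hj, if_true]
      exact continuous_const.mul (continuous_const.add (continuous_const.mul c3))
    · simp only [hj, if_false]
      exact continuous_const.mul ((continuous_const.mul c4).add (continuous_const.mul c5))

lemma Psi4_nonneg (T L : ℝ) (j : ℕ) (τ : ℝ) : 0 ≤ Psi4 T L j τ := by
  unfold Psi4
  have hK := KK_pos
  have h1 := AH_nonneg T ((sg L (2 ^ j) : ℝ) + τ * I) (39 / 10 * 2 ^ j / L)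
  have h2 := AH_nonneg T ((sg L 1 : ℝ) + τ * I) (5 / L)
  have h3 := AH_nonneg T ((sg L (2 ^ j) : ℝ) + τ * I) ((4 * 2 ^ j + 1) / L)
  apply mul_nonneg (by positivity)
  apply add_nonneg (by positivity)
  split_ifs <;> positivity

lemma calcG4 {w T I1 I2 : ℝ} (hw : 1 ≤ w) (hT : 0 < T)
    (h1 : I1 ≤ CE * T * Real.exp (-(w / 1200))) (h2 : I2 ≤ CE * T * Real.exp (-(w / 1200))) :
    64 * w ^ 3 * (200000 * KK * (1 * I1 + 1 * I2)) ≤ 25600000 * KK * CE * C8 * T * (1 / w) := by
  have hCE := CE_one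
  have hKK := KK_pos
  have hC8 := C8_pos
  have hw0 : 0 < w := by linarith only [hw]
  calc 64 * w ^ 3 * (200000 * KK * (1 * I1 + 1 * I2))
        ≤ 64 * w ^ 3 * (200000 * KK *
        (1 * (CE * T * Real.exp (-(w / 1200))) + 1 * (CE * T * Real.exp (-(w / 1200))))) := by
          gcongr
      _ = 25600000 * KK * CE * T * (w ^ 3 * Real.exp (-(w / 1200))) := by ring
      _ ≤ 25600000 * KK * CE * T * (w ^ 3 * Real.exp (-(w / 2400))) := by
          gcongr
          linarith only [hw]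
      _ ≤ 25600000 * KK * CE * T * (C8 * (1 / w)) := by
          have := poly_exp hw (k := 3) (by norm_num)
          unfold C8
          gcongr
      _ = _ := by ring

lemma calcH14 {w T I4 I5 : ℝ} (hw : 1 ≤ w) (hT : 0 < T)
    (h1 : I4 ≤ CE * T) (h2 : I5 ≤ CE * T * Real.exp (-(w / 80))) :
    64 * w ^ 3 * (3 * 10 ^ 8 * w ^ 4 * KK * ((Real.exp (w / 160))⁻¹ * I4 + Real.exp (w / 160) * I5))
      ≤ 38400000000 * KK * CE * C8 * T * (1 / w) := by
  have hCE := CE_one
  have hKK := KK_pos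
  have hC8 := C8_pos
  have hw0 : 0 < w := by linarith only [hw]
  calc 64 * w ^ 3 * (3 * 10 ^ 8 * w ^ 4 * KK * ((Real.exp (w / 160))⁻¹ * I4 + Real.exp (w / 160) * I5))
          ≤ 64 * w ^ 3 * (3 * 10 ^ 8 * w ^ 4 * KK * ((Real.exp (w / 160))⁻¹ * (CE * T) +
        Real.exp (w / 160) * (CE * T * Real.exp (-(w / 80))))) := by
            gcongr
        _ = 19200000000 * KK * CE * T * (w ^ 7 * (Real.exp (-(w / 160)) + (Real.exp (w / 160) * Real.exp (-(w / 80))))) := by
            rw [← Real.exp_neg]; ring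
        _ = 19200000000 * KK * CE * T * (w ^ 7 * (2 * Real.exp (-(w / 160)))) := by
            rw [← Real.exp_add]
            rw [show w / 160 + -(w / 80) = -(w / 160) by ring]
            ring
        _ ≤ 19200000000 * KK * CE * T * (w ^ 7 * (2 * Real.exp (-(w / 2400)))) := by
            gcongr
            linarith only [hw]
        _ = 38400000000 * KK * CE * T * (w ^ 7 * Real.exp (-(w / 2400))) := by ring
        _ ≤ 38400000000 * KK * CE * T * (C8 * (1 / w)) := by
            have := poly_exp hw (k := 7) (by norm_num)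
            unfold C8
            gcongr
        _ = _ := by ring

lemma calcH04 {T I0 I3 : ℝ}
    (h1 : I0 ≤ 6 * T) (h2 : I3 ≤ CE * T) :
    64 * 1 ^ 3 * (6 * 10 ^ 7 * (1 * I0 + KK * I3)) ≤ 3840000000 * (6 + KK * CE) * T := by
  have hKK := KK_pos
  calc 64 * 1 ^ 3 * (6 * 10 ^ 7 * (1 * I0 + KK * I3))
      ≤ 64 * 1 ^ 3 * (6 * 10 ^ 7 * (1 * (6 * T) + KK * (CE * T))) := by
        gcongr
    _ = _ := by ring

lemma int_Psi4 {T L : ℝ} (hT : 3 ^ 40 ≤ T) (hL : L = Real.log T) {j : ℕ} (hj : (2:ℝ) ^ j ≤ L) :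
    ∫ τ in RA T, Psi4 T L j τ ≤ CP4 * T * (1 / 2) ^ j := by
  have hT20 : (20:ℝ) ≤ T := le_trans (by norm_num) hT
  have hL40 : 40 ≤ L := by rw [hL]; exact log_T40 hT
  have hL0 : 0 < L := by linarith
  have hT0 : 0 < T := by linarith only [hT20]
  have hw : (1:ℝ) ≤ 2 ^ j := one_le_pow₀ (by norm_num)
  have hinv : ((1:ℝ) / 2) ^ j = 1 / 2 ^ j := by rw [one_div_pow]
  rw [hinv]
  have h1L : 1 / L ≤ 1 / 40 := by gcongr
  have h1Lp : 0 < 1 / L := by positivity
  have hCE := CE_one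
  have hKK := KK_pos
  have hC8 := C8_pos
  have hwL : (2:ℝ) ^ j / L ≤ 1 := by rw [div_le_one hL0]; exact hj
  have hwLp : 0 < (2:ℝ) ^ j / L := by positivity
  have h8 : (8:ℝ) ^ j = (2 ^ j) ^ 3 := by
    rw [← pow_mul, mul_comm, pow_mul]; norm_num
  have e0 : ∀ τ, Psi4 T L j τ =
    64 * (2 ^ j) ^ 3 * (200000 * KK * (AH T ((sg L (2 ^ j) : ℝ) + τ * I) (39 / 10 * 2 ^ j / L) +
      ‖HT T ((sg L (2 ^ j) : ℝ) + τ * I)‖ ^ 2) +
    (if j = 0 then 6 * 10 ^ 7 * (1 + KK * AH T ((sg L 1 : ℝ) + τ * I) (5 / L)) else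
      3 * 10 ^ 8 * (2 ^ j) ^ 4 * KK * ((Real.exp (2 ^ j / 160))⁻¹ *
        AH T ((sg L (2 ^ j) : ℝ) + τ * I) ((4 * 2 ^ j + 1) / L) +
        Real.exp (2 ^ j / 160) * ‖HT T ((sg L (2 ^ j / 2) : ℝ) + τ * I)‖ ^ 2))) := fun τ => by
    rw [← h8]; rfl
  have hw0 : j = 0 → (2:ℝ) ^ j = 1 := fun h => by rw [h, pow_zero]
  generalize (2:ℝ) ^ j = w at *
  have hsw : sg L w = 1 / 2 + 4 * (w / L) := by unfold sg; ring
  have eR1 : 39 / 10 * w / L = 39 / 10 * (w / L) := by ring
  have eR4 : (4 * w + 1) / L = 4 * (w / L) + 1 / L := by ring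
  have hs5 : sg L (w / 2) = 1 / 2 + 2 * (w / L) := by unfold sg; ring
  have hs1 : sg L 1 = 1 / 2 + 4 * (1 / L) := by unfold sg; ring
  have eR3 : 5 / L = 5 * (1 / L) := by ring
  have c1 : Continuous (fun τ : ℝ => AH T ((sg L w : ℝ) + τ * I) (39 / 10 * w / L)) := by
    apply AH_cont T (by positivity)
    rw [hsw, eR1]; linarith only [h1L, h1Lp, hwLp]
  have c2 : Continuous (fun τ : ℝ => ‖HT T ((sg L w : ℝ) + τ * I)‖ ^ 2) := (HT_cont T (by rw [hsw]; linarith only [h1L, h1Lp, hwLp])).norm.pow 2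
  have c3 : Continuous (fun τ : ℝ => AH T ((sg L 1 : ℝ) + τ * I) (5 / L)) := by
    apply AH_cont T (by positivity)
    rw [hs1, eR3]
    linarith only [h1L, h1Lp]
  have c4 : Continuous (fun τ : ℝ => AH T ((sg L w : ℝ) + τ * I) ((4 * w + 1) / L)) := by
    apply AH_cont T (by positivity)
    rw [hsw, eR4]
    linarith only [h1L, h1Lp]
  have c5 : Continuous (fun τ : ℝ => ‖HT T ((sg L (w / 2) : ℝ) + τ * I)‖ ^ 2) :=
    (HT_cont T (by rw [hs5]; linarith only [h1L, h1Lp, hwLp])).norm.pow 2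
  -- the integrals
  have hdec1 : dec T (1 / 2 + 1 / 10 * (w / L)) = Real.exp (-(w / 1200)) := by
    rw [dec_half (by positivity) (by linarith only [h1L, h1Lp, hwL]), ← hL]
    congr 1
    field_simp
    ring
  have hdec5 : dec T (1 / 2 + 3 / 2 * (w / L)) = Real.exp (-(w / 80)) := by
    rw [dec_half (by positivity) (by linarith only [hwL]), ← hL]
    congr 1
    field_simp
    ring
  have i1 : ∫ τ in RA T, AH T ((sg L w : ℝ) + τ * I) (39 / 10 * w / L) ≤ CE * T * Real.exp (-(w / 1200)) := by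
    have h := setint_AH (σ := sg L w) (R := 39 / 10 * w / L) hT (by positivity) (by rw [hsw, eR1, ← hL]; linarith only [h1Lp, hwLp]) (by rw [hsw, eR1]; linarith only [h1L, h1Lp, hwL])
    rw [show sg L w - 39 / 10 * w / L = 1 / 2 + 1 / 10 * (w / L) by rw [hsw]; ring, hdec1] at h
    exact h
  have i2 : ∫ τ in RA T, ‖HT T ((sg L w : ℝ) + τ * I)‖ ^ 2 ≤ CE * T * Real.exp (-(w / 1200)) := by
    have h := setint_H (σ := sg L w) hT (by rw [hsw, ← hL]; linarith only [h1Lp, hwLp]) (by rw [hsw]; linarith only [h1L, h1Lp, hwL])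
    refine h.trans ?_
    rw [← hdec1]
    have : dec T (sg L w) ≤ dec T (1 / 2 + 1 / 10 * (w / L)) := dec_anti (by linarith only [hT20]) (by rw [hsw]; linarith only [hwLp])
    gcongr
  have i3 : ∫ τ in RA T, AH T ((sg L 1 : ℝ) + τ * I) (5 / L) ≤ CE * T := by
    have h := setint_AH (σ := sg L 1) (R := 5 / L) hT (by positivity) (by rw [hs1, eR3, ← hL]; linarith only []) (by rw [hs1, eR3]; linarith only [h1L, h1Lp])
    refine h.trans ?_
    calc CE * T * dec T (sg L 1 - 5 / L) ≤ CE * T * 1 := by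
          have := dec_le_one (T := T) (by linarith only [hT20]) (sg L 1 - 5 / L)
          gcongr
      _ = _ := by ring
  have i4 : ∫ τ in RA T, AH T ((sg L w : ℝ) + τ * I) ((4 * w + 1) / L) ≤ CE * T := by
    have h := setint_AH (σ := sg L w) (R := (4 * w + 1) / L) hT (by positivity) (by rw [hsw, eR4, ← hL]; linarith only []) (by rw [hsw, eR4]; linarith only [h1L, h1Lp, hwL])
    refine h.trans ?_
    calc CE * T * dec T (sg L w - (4 * w + 1) / L) ≤ CE * T * 1 := by
          have := dec_le_one (T := T) (by linarith only [hT20]) (sg L w - (4 * w + 1) / L)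
          gcongr
      _ = _ := by ring
  have i5 : ∫ τ in RA T, ‖HT T ((sg L (w / 2) : ℝ) + τ * I)‖ ^ 2 ≤ CE * T * Real.exp (-(w / 80)) := by
    have h := setint_H (σ := sg L (w / 2)) hT (by rw [hs5, ← hL]; linarith only [h1Lp, hwLp]) (by rw [hs5]; linarith only [h1L, h1Lp, hwL])
    refine h.trans ?_
    rw [← hdec5]
    have : dec T (sg L (w / 2)) ≤ dec T (1 / 2 + 3 / 2 * (w / L)) := dec_anti (by linarith only [hT20]) (by rw [hs5]; linarith only [hwLp])
    gcongr
  -- split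
  have hG := calcG4 hw hT0 i1 i2
  rw [← lin2 c1 c2, ← integral_const_mul, ← integral_const_mul] at hG
  simp only [one_mul] at hG
  simp_rw [e0, mul_add (64 * w ^ 3)]
  have cG : Continuous (fun τ : ℝ => 64 * w ^ 3 * (200000 * KK * (AH T ((sg L w : ℝ) + τ * I) (39 / 10 * w / L) +
      ‖HT T ((sg L w : ℝ) + τ * I)‖ ^ 2))) :=
    continuous_const.mul (continuous_const.mul (c1.add c2))
  by_cases hj0 : j = 0
  · have hw1 : w = 1 := hw0 hj0
    simp only [hj0, if_true]
    have hH := calcH04 (T := T) (RA_vol hT0.le) i3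
    rw [← lin2 (f := fun _ => (1:ℝ)) continuous_const c3, ← integral_const_mul, ← integral_const_mul] at hH
    have cH : Continuous (fun τ : ℝ => 64 * w ^ 3 * (6 * 10 ^ 7 * (1 + KK * AH T ((sg L 1 : ℝ) + τ * I) (5 / L)))) :=
      continuous_const.mul (continuous_const.mul (continuous_const.add (continuous_const.mul c3)))
    have hadd := integral_add (ion cG T) (ion cH T)
    rw [hadd]
    have hH' : ∫ τ in RA T, 64 * w ^ 3 * (6 * 10 ^ 7 * (1 + KK * AH T ((sg L 1 : ℝ) + τ * I) (5 / L))) ≤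
        3840000000 * (6 + KK * CE) * T * (1 / w) := by
      rw [hw1, div_one]
      simp only [mul_one] at hH ⊢
      exact hH
    refine (add_le_add hG hH').trans ?_
    unfold CP4
    have : 0 ≤ 38400000000 * KK * CE * C8 * T * (1 / w) := by positivity
    linarith only [this]
  · simp only [hj0, if_false]
    have hH := calcH14 hw hT0 i4 i5
    rw [← lin2 c4 c5, ← integral_const_mul, ← integral_const_mul] at hH
    have cH : Continuous (fun τ : ℝ => 64 * w ^ 3 * (3 * 10 ^ 8 * w ^ 4 * KK * ((Real.exp (w / 160))⁻¹ * AH T ((sg L w : ℝ) + τ * I) ((4 * w + 1) / L) +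
        Real.exp (w / 160) * ‖HT T ((sg L (w / 2) : ℝ) + τ * I)‖ ^ 2))) :=
      continuous_const.mul (continuous_const.mul ((continuous_const.mul c4).add (continuous_const.mul c5)))
    have hadd := integral_add (ion cG T) (ion cH T)
    rw [hadd]
    refine (add_le_add hG hH).trans ?_
    unfold CP4
    have : 0 ≤ 3840000000 * (6 + KK * CE) * T * (1 / w) := by positivity
    linarith only [this]

/-- Fourth moment of the local number of zeros to the right of the critical line. -/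
theorem M4 : ∃ C : ℝ, 0 < C ∧ ∃ T0 : ℝ, 3 ^ 40 ≤ T0 ∧ ∀ T : ℝ, T0 ≤ T →
    ∃ Ψ : ℝ → ℝ, Continuous Ψ ∧ (∀ τ, 0 ≤ Ψ τ) ∧ ∫ τ in RA T, Ψ τ ≤ C * T ∧
    ∀ τ ∈ RA T, ∀ F : Finset ℂ, (∀ ρ ∈ F, xi ρ = 0 ∧ 1 / 2 ≤ ρ.re ∧ Real.log T * |ρ.im - τ| ≤ 1) →
      (∑ ρ ∈ F, (analyticOrderNatAt xi ρ : ℝ)) ^ 4 ≤ Ψ τ := by
  have hCP := CP4_pos
  refine ⟨2 * CP4, by positivity, max (3 ^ 40) ((2 * Z32 ^ 2 + 1) ^ 160), le_max_left _ _, ?_⟩
  intro T hT
  have hT1 : 3 ^ 40 ≤ T := (le_max_left _ _).trans hT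
  have hT2 : (2 * Z32 ^ 2 + 1) ^ 160 ≤ T := (le_max_right _ _).trans hT
  have hT20 : (20:ℝ) ≤ T := le_trans (by norm_num) hT1
  set L := Real.log T with hL
  have hL40 : 40 ≤ L := log_T40 hT1
  have hL0 : 0 < L := by linarith only [hL40]
  have hTpos : 0 < T := by linarith only [hT20]
  obtain ⟨n, hn1, hn2⟩ := exists_nat_pow_near (show (1:ℝ) ≤ L / 2 by linarith only [hL40]) (show (1:ℝ) < 2 by norm_num)
  set K := n + 1 with hK
  have hKL : (2:ℝ) ^ K ≤ L := by rw [hK, pow_succ]; linarith only [hn1]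
  refine ⟨fun τ => ∑ j ∈ Finset.range (K + 1), Psi4 T L j τ, ?_, ?_, ?_, ?_⟩
  · exact continuous_finsetSum _ fun j _ => Psi4_cont hL40 j
  · intro τ
    exact Finset.sum_nonneg fun j _ => Psi4_nonneg _ _ _ _
  · rw [integral_finsetSum _ (fun j _ => ion (Psi4_cont hL40 j) T)]
    calc ∑ j ∈ Finset.range (K + 1), ∫ τ in RA T, Psi4 T L j τ
        ≤ ∑ j ∈ Finset.range (K + 1), CP4 * T * (1 / 2) ^ j := by
          refine Finset.sum_le_sum fun j hj => ?_
          rw [Finset.mem_range] at hj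
          apply int_Psi4 hT1 hL
          exact le_trans (pow_le_pow_right₀ (by norm_num) (by omega)) hKL
      _ = CP4 * T * ∑ j ∈ Finset.range (K + 1), (1 / 2) ^ j := by rw [Finset.mul_sum]
      _ ≤ CP4 * T * 2 := by
          gcongr
          exact sum_half_pow _
      _ = _ := by ring
  · intro τ hτ F hF
    have hKgood : good T L K τ := by
      unfold good
      have hre : 2 ≤ (((sg L (2 ^ K) : ℝ) : ℂ) + τ * I).re := by
        have e1 : (((sg L (2 ^ K) : ℝ) : ℂ) + τ * I).re = 1 / 2 + 4 * (2 ^ K / L) := by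
          rw [Complex.add_re, Complex.ofReal_re, Complex.mul_I_re, Complex.ofReal_im]
          unfold sg
          ring
        rw [e1]
        have : 1 / 2 ≤ 2 ^ K / L := by
          rw [le_div_iff₀ hL0]; linarith only [hn2]
        linarith only [this]
      have hX1 : 1 < XT T := Real.one_lt_rpow (by linarith only [hT20]) (by norm_num)
      have h1 := right_bound hX1 hre
      unfold ET
      refine h1.trans ?_
      have hZ := Z32_pos
      have h2 : 2 * Z32 ^ 2 ≤ XT T ^ (1 / 4 : ℝ) := by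
        unfold XT
        rw [← Real.rpow_mul (by linarith only [hT20])]
        have h3 : ((2 * Z32 ^ 2 + 1) ^ 160) ^ ((1 / 40 : ℝ) * (1 / 4)) ≤ T ^ ((1 / 40 : ℝ) * (1 / 4)) := by
          gcongr
        have h4 : ((2 * Z32 ^ 2 + 1) ^ 160) ^ ((1 / 40 : ℝ) * (1 / 4)) = 2 * Z32 ^ 2 + 1 := by
          rw [← Real.rpow_natCast, ← Real.rpow_mul (by positivity)]
          norm_num
        linarith only [h3, h4]
      rw [Real.rpow_neg (by linarith only [hX1]), ← div_eq_mul_inv, div_le_iff₀ (Real.rpow_pos_of_pos (by linarith only [hX1]) _)]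
      linarith only [h2]
    apply pointwise4 hT1 hL hKgood hKL hτ F
    intro ρ hρ
    obtain ⟨h1, h2, h3⟩ := hF ρ hρ
    have h4 := (xi_eq_zero_iff.mp h1).2.1
    refine ⟨h1, mul_nonneg hL0.le (by linarith only [h2]), ?_, h3⟩
    rw [hK]
    nlinarith only [hL40, hn2, h4]

end Pool.Agent.Helper69.GGM
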