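import Pool.Agent.Helper57.M.E
import Pool.Agent.Helper69.GGM.M4c
import Pool.Agent.Helper69.GGM.Defs

/-!
# GGM block PH4: fourth moment of the majorant `Phi`

Proof. `L = log T`, `n(t) = Σ_{ρ ∈ Zf T, L|γ-t| <= 1} mx ρ`.
(1) `∫ n^4 <= C T`: on `RA T` (10 <= |t| <= 3T) apply `M4` to the zeros with `Re >= 1/2` and to the
reflections `1 - conj ρ` of the others (`refl`, `order_one_sub`, `order_conj`), so `n(t)^4 <= 16 Ψ(t)`; for
`|t| < 10` use `loc_count` and `Afun_bound` (`Σ_{|γ-t|<=1} mx <= 5/2 Afun t <= C`); for `|t| > 3T`, `n = 0`.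
(2) For real `v` let `k` be an integer with `|v - 2k| <= 1`; then `1/(1+v^2) <= 1/(1+k^2)` (if `k ≠ 0` then
`|v| >= 2|k| - 1 >= |k|`). With `v = L(γ-t)` this gives `Phi T t <= Σ_{k ∈ ℤ} n(t + 2k/L)/(1+k^2)`.
(3) Jensen/Hoelder: `(Σ w_k n_k)^4 <= W^3 Σ w_k n_k^4`, `w_k = 1/(1+k^2)`, `W = Σ w_k < ∞`, so
`∫ Phi^4 <= W^4 ∫ n^4`. (Any other route, e.g. an integral over shifts instead of a sum, is fine.)
Integrability: `Phi` is continuous, `0 <= Phi t <= NT/(1 + L^2 dist^2)` away from `[0,T]`.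
-/

open Complex Set MeasureTheory Filter Topology
open Pool.Agent.Helper57.LH Pool.Agent.Helper57.PC Pool.Agent.Helper57.Zeta

namespace Pool.Agent.Helper69.GGM

lemma jensen4 {ι : Type*} (s : Finset ι) (w z : ι → ℝ) (hw : ∀ i ∈ s, 0 ≤ w i) :
    (∑ i ∈ s, w i * z i) ^ 4 ≤ (∑ i ∈ s, w i) ^ 3 * ∑ i ∈ s, w i * z i ^ 4 := by
  have h1 : (∑ i ∈ s, w i * z i) ^ 2 ≤ (∑ i ∈ s, w i) * ∑ i ∈ s, w i * z i ^ 2 :=
    Finset.sum_sq_le_sum_mul_sum_of_sq_le_mul s hw (fun i hi => mul_nonneg (hw i hi) (sq_nonneg _))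
      (fun i _ => le_of_eq (by ring))
  have h2 : (∑ i ∈ s, w i * z i ^ 2) ^ 2 ≤ (∑ i ∈ s, w i) * ∑ i ∈ s, w i * z i ^ 4 :=
    Finset.sum_sq_le_sum_mul_sum_of_sq_le_mul s hw (fun i hi => mul_nonneg (hw i hi) (by positivity))
      (fun i _ => le_of_eq (by ring))
  have hW : 0 ≤ ∑ i ∈ s, w i := Finset.sum_nonneg hw
  calc (∑ i ∈ s, w i * z i) ^ 4 = ((∑ i ∈ s, w i * z i) ^ 2) ^ 2 := by ring
    _ ≤ ((∑ i ∈ s, w i) * ∑ i ∈ s, w i * z i ^ 2) ^ 2 := pow_le_pow_left₀ (sq_nonneg _) h1 2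
    _ = (∑ i ∈ s, w i) ^ 2 * (∑ i ∈ s, w i * z i ^ 2) ^ 2 := by ring
    _ ≤ (∑ i ∈ s, w i) ^ 2 * ((∑ i ∈ s, w i) * ∑ i ∈ s, w i * z i ^ 4) :=
        mul_le_mul_of_nonneg_left h2 (sq_nonneg _)
    _ = _ := by ring

/-- The weights `1/(1+k^2)`. -/
noncomputable def wk (k : ℤ) : ℝ := (1 + (k : ℝ) ^ 2)⁻¹

lemma wk_nonneg (k : ℤ) : 0 ≤ wk k := by unfold wk; positivity

lemma wk_summable : Summable wk := by
  have h1 : Summable (fun k : ℤ => 1 / (k : ℝ) ^ 2 + (if k = 0 then (1 : ℝ) else 0)) := by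
    apply Summable.add
    · exact Real.summable_one_div_int_pow.mpr (by norm_num)
    · exact (hasSum_ite_eq (0 : ℤ) (1 : ℝ)).summable
  refine Summable.of_nonneg_of_le wk_nonneg (fun k => ?_) h1
  unfold wk
  by_cases hk : k = 0
  · simp [hk]
  · rw [if_neg hk, add_zero, one_div]
    have h2 : 0 < (k : ℝ) ^ 2 := by positivity
    exact inv_anti₀ h2 (by linarith)

/-- The kernel is dominated by the weight of the nearest even integer. -/
lemma kernel_le (v : ℝ) : ∃ k : ℤ, |v - 2 * k| ≤ 1 ∧ (1 + v ^ 2)⁻¹ ≤ wk k ∧ |(k : ℝ)| ≤ |v| + 1 := by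
  refine ⟨round (v / 2), ?_, ?_, ?_⟩
  · have h := abs_sub_round (v / 2)
    have e : v - 2 * (round (v / 2) : ℤ) = 2 * (v / 2 - (round (v / 2) : ℤ)) := by ring
    rw [e, abs_mul, abs_of_pos (by norm_num : (0:ℝ) < 2)]
    linarith
  · have h := abs_sub_round (v / 2)
    set k := round (v / 2) with hk
    unfold wk
    apply inv_anti₀ (by positivity)
    have h1 : (k : ℝ) ^ 2 ≤ v ^ 2 := by
      by_cases h0 : k = 0
      · rw [h0]; simp; positivity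
      · have h2 : (1 : ℝ) ≤ |(k : ℝ)| := by
          have : (1 : ℤ) ≤ |k| := Int.one_le_abs h0
          exact_mod_cast this
        have h3 : |(k : ℝ)| ≤ |v| := by
          have h4 : |(k : ℝ)| ≤ |v / 2| + |v / 2 - k| := by
            have := abs_sub_abs_le_abs_sub (k : ℝ) (v / 2)
            rw [abs_sub_comm] at this
            linarith
          have h5 : |v / 2| = |v| / 2 := by rw [abs_div, abs_of_pos (by norm_num : (0:ℝ) < 2)]
          rw [h5] at h4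
          linarith
        rw [← sq_abs (k : ℝ), ← sq_abs v]
        exact pow_le_pow_left₀ (abs_nonneg _) h3 2
    linarith
  · have h := abs_sub_round (v / 2)
    set k := round (v / 2) with hk
    have h4 : |(k : ℝ)| ≤ |v / 2| + |v / 2 - k| := by
      have := abs_sub_abs_le_abs_sub (k : ℝ) (v / 2)
      rw [abs_sub_comm] at this
      linarith
    have h5 : |v / 2| = |v| / 2 := by rw [abs_div, abs_of_pos (by norm_num : (0:ℝ) < 2)]
    rw [h5] at h4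
    have := abs_nonneg v
    linarith

/-- The local number of zeros. -/
noncomputable def nloc (T t : ℝ) : ℝ :=
  ∑ ρ ∈ ZT T, (Icc ((ρ : ℂ).im - 1 / Real.log T) ((ρ : ℂ).im + 1 / Real.log T)).indicator (fun _ => mx ρ) t

lemma nloc_nonneg (T t : ℝ) : 0 ≤ nloc T t :=
  Finset.sum_nonneg fun ρ _ => Set.indicator_nonneg (fun _ _ => mx_nonneg _) _

lemma nloc_meas (T : ℝ) : Measurable (nloc T) := by
  unfold nloc
  exact Finset.measurable_sum _ fun _ _ => measurable_const.indicator measurableSet_Icc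

lemma mem_loc {L : ℝ} (hL : 0 < L) (g τ : ℝ) : τ ∈ Icc (g - 1 / L) (g + 1 / L) ↔ L * |g - τ| ≤ 1 := by
  rw [mem_Icc, ← le_div_iff₀' hL, abs_le]
  constructor
  · rintro ⟨h1, h2⟩
    constructor <;> linarith
  · rintro ⟨h1, h2⟩
    constructor <;> linarith

open Classical in
lemma nloc_eq {T : ℝ} (hL : 0 < Real.log T) (t : ℝ) :
    nloc T t = ∑ ρ ∈ (ZT T).filter (fun ρ : ZS => Real.log T * |(ρ : ℂ).im - t| ≤ 1), mx ρ := by
  unfold nloc
  rw [Finset.sum_filter]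
  refine Finset.sum_congr rfl fun ρ _ => ?_
  by_cases h : Real.log T * |(ρ : ℂ).im - t| ≤ 1
  · rw [Set.indicator_of_mem ((mem_loc hL _ _).mpr h), if_pos h]
  · rw [Set.indicator_of_notMem (fun h' => h ((mem_loc hL _ _).mp h')), if_neg h]

/-- In the range of `M4`. -/
lemma nloc_RA {T : ℝ} (hL : 0 < Real.log T) {Ψ : ℝ → ℝ}
    (hΨ : ∀ τ ∈ RA T, ∀ F : Finset ℂ, (∀ ρ ∈ F, xi ρ = 0 ∧ 1 / 2 ≤ ρ.re ∧ Real.log T * |ρ.im - τ| ≤ 1) →
      (∑ ρ ∈ F, (analyticOrderNatAt xi ρ : ℝ)) ^ 4 ≤ Ψ τ) {t : ℝ} (ht : t ∈ RA T) :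
    nloc T t ^ 4 ≤ 16 * Ψ t := by
  classical
  rw [nloc_eq hL]
  set F := (ZT T).filter (fun ρ : ZS => Real.log T * |(ρ : ℂ).im - t| ≤ 1) with hF
  have hFm : ∀ ρ ∈ F, Real.log T * |(ρ : ℂ).im - t| ≤ 1 := fun ρ hρ => (Finset.mem_filter.1 hρ).2
  rw [← Finset.sum_filter_add_sum_filter_not F (fun ρ : ZS => 1 / 2 ≤ (ρ : ℂ).re)]
  have h1 : (∑ ρ ∈ F.filter (fun ρ : ZS => 1 / 2 ≤ (ρ : ℂ).re), mx ρ) ^ 4 ≤ Ψ t := by
    have e : ∑ ρ ∈ F.filter (fun ρ : ZS => 1 / 2 ≤ (ρ : ℂ).re), mx ρ =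
        ∑ ρ ∈ (F.filter (fun ρ : ZS => 1 / 2 ≤ (ρ : ℂ).re)).map (Function.Embedding.subtype _),
          (analyticOrderNatAt xi ρ : ℝ) := by
      rw [Finset.sum_map]
      rfl
    rw [e]
    apply hΨ t ht
    intro ρ hρ
    obtain ⟨ρ', hρ', rfl⟩ := Finset.mem_map.1 hρ
    rw [Finset.mem_filter] at hρ'
    exact ⟨ρ'.2, hρ'.2, hFm _ hρ'.1⟩
  have h2 : (∑ ρ ∈ F.filter (fun ρ : ZS => ¬ 1 / 2 ≤ (ρ : ℂ).re), mx ρ) ^ 4 ≤ Ψ t := by
    have e : ∑ ρ ∈ F.filter (fun ρ : ZS => ¬ 1 / 2 ≤ (ρ : ℂ).re), mx ρ =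
        ∑ ρ ∈ ((F.filter (fun ρ : ZS => ¬ 1 / 2 ≤ (ρ : ℂ).re)).map refl.toEmbedding).map
          (Function.Embedding.subtype _), (analyticOrderNatAt xi ρ : ℝ) := by
      rw [Finset.sum_map, Finset.sum_map]
      refine Finset.sum_congr rfl fun ρ _ => ?_
      exact (refl_mx ρ).symm
    rw [e]
    apply hΨ t ht
    intro ρ hρ
    obtain ⟨ρ', hρ', rfl⟩ := Finset.mem_map.1 hρ
    obtain ⟨ρ'', hρ'', rfl⟩ := Finset.mem_map.1 hρ'
    rw [Finset.mem_filter] at hρ''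
    refine ⟨(refl ρ'').2, ?_, ?_⟩
    · change 1 / 2 ≤ (refl ρ'' : ℂ).re
      rw [refl_re]
      linarith [not_le.1 hρ''.2]
    · change Real.log T * |(refl ρ'' : ℂ).im - t| ≤ 1
      rw [refl_im]
      exact hFm _ hρ''.1
  have h3 := add_pow_le (a := ∑ ρ ∈ F.filter (fun ρ : ZS => 1 / 2 ≤ (ρ : ℂ).re), mx ρ)
    (b := ∑ ρ ∈ F.filter (fun ρ : ZS => ¬ 1 / 2 ≤ (ρ : ℂ).re), mx ρ)
    (Finset.sum_nonneg fun ρ _ => mx_nonneg _) (Finset.sum_nonneg fun ρ _ => mx_nonneg _) 4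
  have e8 : (2 : ℝ) ^ (4 - 1) = 8 := by norm_num
  rw [e8] at h3
  linarith

/-- The constant for the low ordinates. -/
noncomputable def C10 : ℝ := (5 / 2 * (CA * Real.sqrt 11)) ^ 4

lemma C10_nonneg : 0 ≤ C10 := by unfold C10; positivity

lemma nloc_low {T : ℝ} (hL : 1 ≤ Real.log T) {t : ℝ} (ht : |t| ≤ 10) : nloc T t ^ 4 ≤ C10 := by
  classical
  have hL0 : 0 < Real.log T := by linarith
  rw [nloc_eq hL0]
  unfold C10
  apply pow_le_pow_left₀ (Finset.sum_nonneg fun ρ _ => mx_nonneg _)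
  refine (loc_count _ t ?_).trans ?_
  · intro ρ hρ
    have h := (Finset.mem_filter.1 hρ).2
    have h0 := abs_nonneg ((ρ : ℂ).im - t)
    nlinarith
  · have h1 := (le_abs_self _).trans (Afun_bound t)
    have h2 : wg t ≤ Real.sqrt 11 := by
      unfold wg
      apply Real.sqrt_le_sqrt
      linarith
    have h3 : CA * wg t ≤ CA * Real.sqrt 11 := mul_le_mul_of_nonneg_left h2 CA_nonneg
    linarith

lemma nloc_high {T : ℝ} (hT : 10 ≤ T) (hL : 1 ≤ Real.log T) {t : ℝ} (ht : 10 < |t|) (ht' : t ∉ RA T) :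
    nloc T t = 0 := by
  classical
  have hL0 : 0 < Real.log T := by linarith
  rw [nloc_eq hL0]
  have h3T : 3 * T < |t| := by
    by_contra h
    exact ht' ⟨ht.le, not_lt.1 h⟩
  apply Finset.sum_eq_zero
  intro ρ hρ
  exfalso
  rw [Finset.mem_filter, mem_ZT] at hρ
  obtain ⟨⟨h1, h2⟩, h3⟩ := hρ
  have h4 : |(ρ : ℂ).im - t| ≤ 1 := by
    have h0 := abs_nonneg ((ρ : ℂ).im - t)
    nlinarith
  have h5 : |t| ≤ |(ρ : ℂ).im| + |(ρ : ℂ).im - t| := by
    have := abs_sub_abs_le_abs_sub t (ρ : ℂ).im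
    rw [abs_sub_comm] at this
    linarith
  rw [abs_of_nonneg h1] at h5
  linarith

lemma nloc_bound {T : ℝ} (hT : 10 ≤ T) (hL : 1 ≤ Real.log T) {Ψ : ℝ → ℝ} (hΨ0 : ∀ τ, 0 ≤ Ψ τ)
    (hΨ : ∀ τ ∈ RA T, ∀ F : Finset ℂ, (∀ ρ ∈ F, xi ρ = 0 ∧ 1 / 2 ≤ ρ.re ∧ Real.log T * |ρ.im - τ| ≤ 1) →
      (∑ ρ ∈ F, (analyticOrderNatAt xi ρ : ℝ)) ^ 4 ≤ Ψ τ) (t : ℝ) :
    nloc T t ^ 4 ≤ (RA T).indicator (fun τ => 16 * Ψ τ) t + (Icc (-10 : ℝ) 10).indicator (fun _ => C10) t := by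
  have hC := C10_nonneg
  have i1 : 0 ≤ (RA T).indicator (fun τ => 16 * Ψ τ) t :=
    Set.indicator_nonneg (fun τ _ => mul_nonneg (by norm_num) (hΨ0 τ)) _
  have i2 : 0 ≤ (Icc (-10 : ℝ) 10).indicator (fun _ => C10) t := Set.indicator_nonneg (fun _ _ => hC) _
  by_cases h1 : |t| ≤ 10
  · have h2 := nloc_low hL h1
    rw [Set.indicator_of_mem (s := Icc (-10 : ℝ) 10) (abs_le.1 h1)]
    linarith
  · by_cases h2 : t ∈ RA T
    · have h3 := nloc_RA (by linarith) hΨ h2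
      rw [Set.indicator_of_mem h2]
      linarith
    · rw [nloc_high hT hL (not_le.1 h1) h2]
      have : (0 : ℝ) ^ 4 = 0 := by norm_num
      rw [this]
      linarith

/-- The fourth moment of the local number of zeros. -/
lemma nloc_fourth : ∃ C T₀ : ℝ, 0 < C ∧ ∀ T : ℝ, T₀ ≤ T →
    Integrable (fun t => nloc T t ^ 4) ∧ ∫ t, nloc T t ^ 4 ≤ C * T := by
  obtain ⟨C, hC, T0, hT0, hM⟩ := M4
  have hC10 := C10_nonneg
  refine ⟨16 * C + 20 * C10, T0, by positivity, fun T hT => ?_⟩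
  have hT3 : (3 : ℝ) ^ 40 ≤ T := hT0.trans hT
  have hT10 : 10 ≤ T := le_trans (by norm_num) hT3
  have hL := log_T40 hT3
  obtain ⟨Ψ, hΨc, hΨ0, hΨi, hΨd⟩ := hM T hT
  have hb := nloc_bound hT10 (by linarith) hΨ0 hΨd
  have I1 : Integrable ((RA T).indicator (fun τ => 16 * Ψ τ)) :=
    (integrable_indicator_iff (RA_meas T)).2 (ion (continuous_const.mul hΨc) T)
  have I2 : Integrable ((Icc (-10 : ℝ) 10).indicator (fun _ => C10)) :=
    (integrable_indicator_iff measurableSet_Icc).2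
      (continuous_const.integrableOn_Icc)
  have I3 : Integrable (fun t => nloc T t ^ 4) := by
    refine (I1.add I2).mono' ((nloc_meas T).pow_const 4).aestronglyMeasurable (Eventually.of_forall fun t => ?_)
    rw [Real.norm_eq_abs, abs_of_nonneg (pow_nonneg (nloc_nonneg T t) 4)]
    exact hb t
  refine ⟨I3, ?_⟩
  calc ∫ t, nloc T t ^ 4 ≤ ∫ t, ((RA T).indicator (fun τ => 16 * Ψ τ) t + (Icc (-10 : ℝ) 10).indicator (fun _ => C10) t) :=
        integral_mono I3 (I1.add I2) hb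
    _ = 16 * (∫ τ in RA T, Ψ τ) + 20 * C10 := by
        rw [integral_add I1 I2, integral_indicator (RA_meas T), integral_indicator measurableSet_Icc,
          integral_const_mul, setIntegral_const, Real.volume_real_Icc_of_le (by norm_num), smul_eq_mul]
        norm_num
    _ ≤ 16 * (C * T) + 20 * C10 := by linarith
    _ ≤ (16 * C + 20 * C10) * T := by nlinarith

lemma Phi_cont (T : ℝ) : Continuous (fun t => Phi T t) := by
  unfold Phi
  refine continuous_finsetSum _ fun ρ _ => ?_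
  refine continuous_const.mul (Continuous.inv₀ (by fun_prop) fun t => ?_)
  positivity

lemma Phi_nonneg (T t : ℝ) : 0 ≤ Phi T t := by
  unfold Phi
  exact Finset.sum_nonneg fun ρ _ => mul_nonneg (mx_nonneg _) (by positivity)

/-- Pointwise bound on a bounded interval by finitely many shifts. -/
lemma Phi_le {T M : ℝ} (hL : 0 < Real.log T) {t : ℝ} (ht : |t| ≤ M) :
    Phi T t ≤ ∑ k ∈ Finset.Icc (-⌈Real.log T * (|T| + M) + 1⌉) ⌈Real.log T * (|T| + M) + 1⌉,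
      wk k * nloc T (t + 2 * k / Real.log T) := by
  set L := Real.log T with hLd
  set K := ⌈L * (|T| + M) + 1⌉ with hK
  have e1 : Phi T t = ∑ ρ ∈ ZT T, mx ρ * (1 + (L * ((ρ : ℂ).im - t)) ^ 2)⁻¹ := by
    unfold Phi
    rw [sum_ZT T (fun ρ => mx ρ * (1 + (Real.log T * (ρ.im - t)) ^ 2)⁻¹)]
  have e2 : ∑ k ∈ Finset.Icc (-K) K, wk k * nloc T (t + 2 * k / L) =
      ∑ ρ ∈ ZT T, ∑ k ∈ Finset.Icc (-K) K, wk k *
        (Icc ((ρ : ℂ).im - 1 / L) ((ρ : ℂ).im + 1 / L)).indicator (fun _ => mx ρ) (t + 2 * k / L) := by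
    rw [Finset.sum_comm]
    refine Finset.sum_congr rfl fun k _ => ?_
    unfold nloc
    rw [Finset.mul_sum]
  rw [e1, e2]
  refine Finset.sum_le_sum fun ρ hρ => ?_
  rw [mem_ZT] at hρ
  obtain ⟨k, hk1, hk2, hk3⟩ := kernel_le (L * ((ρ : ℂ).im - t))
  have hterm : ∀ j ∈ Finset.Icc (-K) K, 0 ≤ wk j *
      (Icc ((ρ : ℂ).im - 1 / L) ((ρ : ℂ).im + 1 / L)).indicator (fun _ => mx ρ) (t + 2 * j / L) :=
    fun j _ => mul_nonneg (wk_nonneg j) (Set.indicator_nonneg (fun _ _ => mx_nonneg _) _)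
  have hkm : k ∈ Finset.Icc (-K) K := by
    have h1 : |(ρ : ℂ).im - t| ≤ |T| + M := by
      have h2 : |(ρ : ℂ).im - t| ≤ |(ρ : ℂ).im| + |t| := abs_sub _ _
      have h3 : |(ρ : ℂ).im| ≤ |T| := by
        rw [abs_of_nonneg hρ.1]
        exact hρ.2.trans (le_abs_self _)
      linarith
    have h4 : |(k : ℝ)| ≤ L * (|T| + M) + 1 := by
      refine hk3.trans ?_
      rw [abs_mul, abs_of_pos hL]
      have := mul_le_mul_of_nonneg_left h1 hL.le
      linarith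
    have h5 : |(k : ℝ)| ≤ (K : ℝ) := h4.trans (Int.le_ceil _)
    have h6 := abs_le.1 h5
    rw [Finset.mem_Icc]
    constructor
    · have : (-(K : ℝ)) ≤ (k : ℝ) := h6.1
      exact_mod_cast this
    · exact_mod_cast h6.2
  refine le_trans ?_ (Finset.single_le_sum hterm hkm)
  have hin : t + 2 * k / L ∈ Icc ((ρ : ℂ).im - 1 / L) ((ρ : ℂ).im + 1 / L) := by
    rw [mem_loc hL]
    have e3 : (ρ : ℂ).im - (t + 2 * k / L) = (L * ((ρ : ℂ).im - t) - 2 * k) / L := by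
      field_simp
      ring
    rw [e3, abs_div, abs_of_pos hL, mul_div_cancel₀ _ hL.ne']
    exact hk1
  rw [Set.indicator_of_mem hin, mul_comm]
  exact mul_le_mul_of_nonneg_right hk2 (mx_nonneg _)

theorem Phi_fourth : ∃ C T₀ : ℝ, 0 < C ∧ ∀ T : ℝ, T₀ ≤ T →
    Integrable (fun t => Phi T t ^ 4) ∧ ∫ t, Phi T t ^ 4 ≤ C * T := by
  obtain ⟨C, T0, hC, hn⟩ := nloc_fourth
  have hWs := wk_summable
  set W : ℝ := ∑' k, wk k with hW
  have hW0 : 0 ≤ W := tsum_nonneg wk_nonneg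
  refine ⟨(W + 1) ^ 4 * C, max T0 3, by positivity, fun T hT => ?_⟩
  have hT3 : 3 ≤ T := (le_max_right _ _).trans hT
  obtain ⟨In, hn4⟩ := hn T ((le_max_left _ _).trans hT)
  have hL := one_le_log hT3
  have hL0 : 0 < Real.log T := by linarith
  have hcont : Continuous (fun t => Phi T t ^ 4) := (Phi_cont T).pow 4
  -- the bound on `[-M, M]`
  have hM : ∀ M : ℝ, 0 ≤ M → ∫ t in (-M)..M, ‖Phi T t ^ 4‖ ≤ (W + 1) ^ 4 * C * T := by
    intro M hM0
    set K := ⌈Real.log T * (|T| + M) + 1⌉ with hK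
    set S := Finset.Icc (-K) K with hS
    have hWS : ∑ k ∈ S, wk k ≤ W := hWs.sum_le_tsum S (fun k _ => wk_nonneg k)
    have hWS0 : 0 ≤ ∑ k ∈ S, wk k := Finset.sum_nonneg fun k _ => wk_nonneg k
    have Ik : ∀ k : ℤ, Integrable (fun t => nloc T (t + 2 * k / Real.log T) ^ 4) :=
      fun k => In.comp_add_right (2 * k / Real.log T)
    have Isum : Integrable (fun t => (∑ k ∈ S, wk k) ^ 3 * ∑ k ∈ S, wk k * nloc T (t + 2 * k / Real.log T) ^ 4) :=
      (integrable_finsetSum _ fun k _ => (Ik k).const_mul (wk k)).const_mul _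
    have h1 : ∫ t in (-M)..M, ‖Phi T t ^ 4‖ ≤
        ∫ t in Icc (-M) M, (∑ k ∈ S, wk k) ^ 3 * ∑ k ∈ S, wk k * nloc T (t + 2 * k / Real.log T) ^ 4 := by
      rw [intervalIntegral.integral_of_le (by linarith), ← integral_Icc_eq_integral_Ioc]
      refine setIntegral_mono_on hcont.norm.integrableOn_Icc Isum.integrableOn measurableSet_Icc fun t ht => ?_
      rw [Real.norm_eq_abs, abs_of_nonneg (pow_nonneg (Phi_nonneg T t) 4)]
      have h2 := Phi_le (T := T) hL0 (M := M) (abs_le.2 ht)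
      refine (pow_le_pow_left₀ (Phi_nonneg T t) h2 4).trans ?_
      exact jensen4 S wk (fun k : ℤ => nloc T (t + 2 * k / Real.log T)) (fun k _ => wk_nonneg k)
    have h3 : ∫ t in Icc (-M) M, (∑ k ∈ S, wk k) ^ 3 * ∑ k ∈ S, wk k * nloc T (t + 2 * k / Real.log T) ^ 4 ≤
        ∫ t, (∑ k ∈ S, wk k) ^ 3 * ∑ k ∈ S, wk k * nloc T (t + 2 * k / Real.log T) ^ 4 := by
      refine setIntegral_le_integral Isum (Eventually.of_forall fun t => ?_)
      exact mul_nonneg (pow_nonneg hWS0 3)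
        (Finset.sum_nonneg fun k _ => mul_nonneg (wk_nonneg k) (pow_nonneg (nloc_nonneg _ _) 4))
    have h4 : ∫ t, (∑ k ∈ S, wk k) ^ 3 * ∑ k ∈ S, wk k * nloc T (t + 2 * k / Real.log T) ^ 4 =
        (∑ k ∈ S, wk k) ^ 4 * ∫ t, nloc T t ^ 4 := by
      rw [integral_const_mul, integral_finsetSum _ (fun k _ => (Ik k).const_mul (wk k))]
      have e : ∀ k ∈ S, ∫ t, wk k * nloc T (t + 2 * k / Real.log T) ^ 4 = wk k * ∫ t, nloc T t ^ 4 := by
        intro k _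
        rw [integral_const_mul]
        congr 1
        exact integral_add_right_eq_self (fun t => nloc T t ^ 4) (2 * k / Real.log T)
      rw [Finset.sum_congr rfl e, ← Finset.sum_mul]
      ring
    have hI0 : 0 ≤ ∫ t, nloc T t ^ 4 := integral_nonneg fun t => pow_nonneg (nloc_nonneg _ _) 4
    refine (h1.trans h3).trans ?_
    rw [h4]
    have h5 : (∑ k ∈ S, wk k) ^ 4 ≤ (W + 1) ^ 4 := pow_le_pow_left₀ hWS0 (by linarith) 4
    calc (∑ k ∈ S, wk k) ^ 4 * ∫ t, nloc T t ^ 4 ≤ (W + 1) ^ 4 * (C * T) :=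
          mul_le_mul h5 hn4 hI0 (by positivity)
      _ = _ := by ring
  have hneg : Tendsto (fun n : ℕ => -(n : ℝ)) atTop atBot := tendsto_neg_atTop_atBot.comp tendsto_natCast_atTop_atTop
  have hpos : Tendsto (fun n : ℕ => (n : ℝ)) atTop atTop := tendsto_natCast_atTop_atTop
  have hI : Integrable (fun t => Phi T t ^ 4) :=
    integrable_of_intervalIntegral_norm_bounded ((W + 1) ^ 4 * C * T)
      (fun n : ℕ => hcont.integrableOn_Ioc) hneg hpos
      (Eventually.of_forall fun n => hM n (Nat.cast_nonneg n))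
  refine ⟨hI, ?_⟩
  have hlim := intervalIntegral_tendsto_integral hI hneg hpos
  refine le_of_tendsto hlim (Eventually.of_forall fun n => ?_)
  have h := hM n (Nat.cast_nonneg n)
  refine le_trans (le_of_eq ?_) h
  refine intervalIntegral.integral_congr fun t _ => ?_
  rw [Real.norm_eq_abs, abs_of_nonneg (pow_nonneg (Phi_nonneg T t) 4)]

end Pool.Agent.Helper69.GGM
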