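import Pool.Agent.Helper69.GGM.E2
import Pool.Agent.Helper69.GGM.PH4

/-!
# GGM block E3b: many good heights near off-line zeros

Proof. `L = log T`; `n_b(t) = Σ mx ρ` over the `ρ ∈ Zf T` with `a₁ <= x_ρ <= a₂`, `L|γ-t| <= 1/2`.
`∫ n_b dt = (1/L) Σ_bad mx >= κ SN T/L = κT/2π`; `n_b <= (5/4) Phi`; support of `n_b` in `[-1/(2L), T+1/(2L)]`.
`∫ n_b² <= (25/16) ∫ Phi² <= C T` (`Phi² <= Phi + Phi⁴`, `∫ Phi = (π/L) NT T <= C T`, `Phi_fourth`, `NT_upper`).
Let `G` be the set in the statement without its last condition. The complement of `G` in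
`[-1/(2L), T+1/(2L)]` has measure `<= 4δT + 2 + |{Phi > K₁}| + |{∃ρ, L|γ-t| < η}| + |{t ∈ [0,T] : ‖XX‖ > K}|
<= T (5δ + C/K₁⁴ + C η + V/K²)` for large `T`: Chebyshev with `Phi_fourth`; `2 η NT T/L`; and
`K² |{t ∈ [0,T]: ‖XX T (a₂+2) t‖ > K}| <= T MM T (a₂+2) (K²) <= V T`.
Choose `δ, η` small, `K₁, K` large so that this is `<= q T` with `sqrt (C q) <= κ/(4π)`; then by Cauchy-Schwarz
`∫_{G^c} n_b <= κT/4π`, so `∫_G n_b >= κT/4π`, and `n_b <= (5/4) K₁` on `G`, so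
`|G ∩ {n_b > 0}| >= κT/(5π K₁) = c T`, `c = κ/(5πK₁)`; `{n_b > 0}` is the last condition.
-/

open Complex Set MeasureTheory Filter Topology
open Pool.Agent.Helper57.LH Pool.Agent.Helper57.PC Pool.Agent.Helper57.Zeta

namespace Pool.Agent.Helper69.GGM

/-- number of the zeros of a finite set with ordinate within `1/(2L)` of `t` -/
noncomputable def e3b_nbd (F : Finset ℂ) (L t : ℝ) : ℝ :=
  ∑ ρ ∈ F, mx ρ * (Icc (ρ.im - 1 / (2 * L)) (ρ.im + 1 / (2 * L))).indicator 1 t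

/-- number of the zeros of a finite set with ordinate within `η/L` of `t` -/
noncomputable def e3b_nbe (F : Finset ℂ) (L η t : ℝ) : ℝ :=
  ∑ ρ ∈ F, mx ρ * (Icc (ρ.im - η / L) (ρ.im + η / L)).indicator 1 t

lemma e3b_one_le_mx {T : ℝ} {ρ : ℂ} (h : ρ ∈ Zf T) : 1 ≤ mx ρ := by
  rw [mem_Zf, isNontrivialZero_iff] at h
  have h1 := (order_pos_iff differentiable_xi xi_two_ne ρ).2 h.1
  unfold mx
  exact_mod_cast Nat.one_le_iff_ne_zero.2 h1

lemma e3b_sum_mx_eq_NT (T : ℝ) : ∑ ρ ∈ Zf T, mx ρ = NT T := by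
  unfold NT
  refine Finset.sum_congr rfl fun ρ hρ => ?_
  rw [mem_Zf] at hρ
  rw [mult_eq hρ.1]
  rfl

lemma e3b_integral_ind {a b : ℝ} (h : a ≤ b) : ∫ t, (Icc a b).indicator (1 : ℝ → ℝ) t = b - a := by
  rw [integral_indicator_one measurableSet_Icc, Real.volume_real_Icc_of_le h]

lemma e3b_integrable_ind (a b : ℝ) : Integrable ((Icc a b).indicator (1 : ℝ → ℝ)) :=
  (integrable_indicator_iff measurableSet_Icc).2 (continuousOn_const.integrableOn_Icc)

lemma e3b_integrable_nbd (F : Finset ℂ) (L : ℝ) : Integrable (e3b_nbd F L) := by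
  unfold e3b_nbd
  exact integrable_finsetSum _ fun ρ _ => (e3b_integrable_ind _ _).const_mul _

lemma e3b_integrable_nbe (F : Finset ℂ) (L η : ℝ) : Integrable (e3b_nbe F L η) := by
  unfold e3b_nbe
  exact integrable_finsetSum _ fun ρ _ => (e3b_integrable_ind _ _).const_mul _

lemma e3b_integral_nbd (F : Finset ℂ) {L : ℝ} (hL : 0 < L) : ∫ t, e3b_nbd F L t = (∑ ρ ∈ F, mx ρ) / L := by
  unfold e3b_nbd
  rw [integral_finsetSum _ fun ρ _ => (e3b_integrable_ind _ _).const_mul _, Finset.sum_div]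
  refine Finset.sum_congr rfl fun ρ _ => ?_
  rw [integral_const_mul, e3b_integral_ind (by have : 0 < 1 / (2 * L) := (by positivity); linarith)]
  field_simp
  ring

lemma e3b_integral_nbe (F : Finset ℂ) {L η : ℝ} (hL : 0 < L) (hη : 0 < η) :
    ∫ t, e3b_nbe F L η t = 2 * η * (∑ ρ ∈ F, mx ρ) / L := by
  unfold e3b_nbe
  rw [integral_finsetSum _ fun ρ _ => (e3b_integrable_ind _ _).const_mul _, mul_div_assoc, Finset.sum_div,
    Finset.mul_sum]
  refine Finset.sum_congr rfl fun ρ _ => ?_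
  rw [integral_const_mul, e3b_integral_ind (by have : 0 < η / L := (by positivity); linarith)]
  field_simp
  ring

lemma e3b_nbd_nonneg (F : Finset ℂ) (L t : ℝ) : 0 ≤ e3b_nbd F L t := by
  unfold e3b_nbd
  refine Finset.sum_nonneg fun ρ _ => mul_nonneg (mx_nonneg ρ) ?_
  exact indicator_nonneg (fun _ _ => zero_le_one) _

lemma e3b_nbe_nonneg (F : Finset ℂ) (L η t : ℝ) : 0 ≤ e3b_nbe F L η t := by
  unfold e3b_nbe
  refine Finset.sum_nonneg fun ρ _ => mul_nonneg (mx_nonneg ρ) ?_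
  exact indicator_nonneg (fun _ _ => zero_le_one) _

lemma e3b_mem_window {L : ℝ} (hL : 0 < L) (γ t : ℝ) :
    t ∈ Icc (γ - 1 / (2 * L)) (γ + 1 / (2 * L)) ↔ L * |γ - t| ≤ 1 / 2 := by
  rw [mem_Icc]
  have e : 1 / (2 * L) = (1 / 2) / L := by field_simp
  rw [e]
  rw [mul_comm, ← le_div_iff₀ hL, abs_le]
  constructor
  · rintro ⟨h1, h2⟩; constructor <;> linarith
  · rintro ⟨h1, h2⟩; constructor <;> linarith

lemma e3b_Phi_nonneg (T t : ℝ) : 0 ≤ Phi T t := by
  unfold Phi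
  refine Finset.sum_nonneg fun ρ _ => mul_nonneg (mx_nonneg ρ) ?_
  positivity

lemma e3b_nbd_le_Phi {T : ℝ} (hL : 0 < Real.log T) {F : Finset ℂ} (hF : F ⊆ Zf T) (t : ℝ) :
    e3b_nbd F (Real.log T) t ≤ 5 / 4 * Phi T t := by
  have h1 : e3b_nbd F (Real.log T) t ≤ ∑ ρ ∈ F, 5 / 4 * (mx ρ * (1 + (Real.log T * (ρ.im - t)) ^ 2)⁻¹) := by
    unfold e3b_nbd
    refine Finset.sum_le_sum fun ρ _ => ?_
    by_cases h : t ∈ Icc (ρ.im - 1 / (2 * Real.log T)) (ρ.im + 1 / (2 * Real.log T))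
    · rw [indicator_of_mem h]
      rw [e3b_mem_window hL] at h
      have h2 : (Real.log T * (ρ.im - t)) ^ 2 ≤ 1 / 4 := by
        rw [mul_pow, ← sq_abs (ρ.im - t), ← mul_pow]
        have h0 : 0 ≤ Real.log T * |ρ.im - t| := by positivity
        nlinarith
      have h3 : (4 / 5 : ℝ) ≤ (1 + (Real.log T * (ρ.im - t)) ^ 2)⁻¹ := by
        rw [le_inv_comm₀ (by norm_num) (by positivity)]
        linarith
      have := mx_nonneg ρ
      simp only [Pi.one_apply, mul_one]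
      nlinarith
    · rw [indicator_of_notMem h, mul_zero]
      have := mx_nonneg ρ
      positivity
  refine h1.trans ?_
  unfold Phi
  rw [Finset.mul_sum]
  refine Finset.sum_le_sum_of_subset_of_nonneg hF fun ρ _ _ => ?_
  have := mx_nonneg ρ
  positivity

lemma e3b_exists_of_nbd_pos {L : ℝ} (hL : 0 < L) {F : Finset ℂ} {t : ℝ} (h : 0 < e3b_nbd F L t) :
    ∃ ρ ∈ F, L * |ρ.im - t| ≤ 1 / 2 := by
  by_contra hc
  push Not at hc
  have : e3b_nbd F L t = 0 := by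
    unfold e3b_nbd
    refine Finset.sum_eq_zero fun ρ hρ => ?_
    have h1 := hc ρ hρ
    rw [indicator_of_notMem, mul_zero]
    rw [e3b_mem_window hL]
    exact not_le.2 h1
  linarith

lemma e3b_one_le_nbe {L η : ℝ} (hL : 0 < L) {T : ℝ} {t : ℝ} {ρ : ℂ} (hρ : ρ ∈ Zf T)
    (h : L * |ρ.im - t| < η) : 1 ≤ e3b_nbe (Zf T) L η t := by
  have h1 : mx ρ * (Icc (ρ.im - η / L) (ρ.im + η / L)).indicator 1 t ≤ e3b_nbe (Zf T) L η t := by
    unfold e3b_nbe
    exact Finset.single_le_sum (f := fun ρ : ℂ => mx ρ * (Icc (ρ.im - η / L) (ρ.im + η / L)).indicator 1 t)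
      (fun σ _ => mul_nonneg (mx_nonneg σ) (indicator_nonneg (fun _ _ => zero_le_one) _)) hρ
  refine le_trans ?_ h1
  rw [indicator_of_mem, Pi.one_apply, mul_one]
  · exact e3b_one_le_mx hρ
  · rw [mem_Icc]
    rw [mul_comm, ← lt_div_iff₀ hL, abs_lt] at h
    constructor <;> linarith [h.1, h.2]

/-- `y ≤ A + y⁴/A³` -/
lemma e3b_le_add_pow {A y : ℝ} (hA : 0 < A) (hy : 0 ≤ y) : y ≤ A + y ^ 4 / A ^ 3 := by
  rcases le_total y A with h | h
  · have : 0 ≤ y ^ 4 / A ^ 3 := by positivity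
    linarith
  · have h1 : y ≤ y ^ 4 / A ^ 3 := by
      rw [le_div_iff₀ (by positivity)]
      have h2 : A ^ 3 ≤ y ^ 3 := pow_le_pow_left₀ hA.le h 3
      calc y * A ^ 3 ≤ y * y ^ 3 := mul_le_mul_of_nonneg_left h2 hy
        _ = y ^ 4 := by ring
    linarith

/-- The truncated square of `XX`, cut to `(0,T]`. -/
noncomputable def e3b_trX (T a B t : ℝ) : ℝ := (Ioc 0 T).indicator (fun t => min (‖XX T a t‖ ^ 2) B) t

lemma e3b_trX_nonneg {T a B : ℝ} (hB : 0 ≤ B) (t : ℝ) : 0 ≤ e3b_trX T a B t := by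
  unfold e3b_trX
  exact indicator_nonneg (fun _ _ => le_min (by positivity) hB) _

lemma e3b_meas_slice {f : ℝ → ℝ → ℂ} (h : Measurable (fun p : ℝ × ℝ => f p.1 p.2)) (a : ℝ) :
    Measurable (fun t => f a t) := by
  have h2 : Measurable (fun t : ℝ => ((a, t) : ℝ × ℝ)) := by fun_prop
  exact h.comp h2

lemma e3b_XX_meas (T a : ℝ) : Measurable (fun t => XX T a t) :=
  e3b_meas_slice (f := fun a t => XX T a t) (XX_measurable T) a

lemma e3b_integrable_trX {T a B : ℝ} (hB : 0 ≤ B) : Integrable (e3b_trX T a B) := by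
  unfold e3b_trX
  refine (integrable_indicator_iff measurableSet_Ioc).2 ?_
  refine Measure.integrableOn_of_bounded (M := B) (by simp) ?_ ?_
  · exact (((e3b_XX_meas T a).norm.pow_const 2).min measurable_const).aestronglyMeasurable
  · refine Eventually.of_forall fun t => ?_
    rw [Real.norm_eq_abs, abs_of_nonneg (le_min (by positivity) hB)]
    exact min_le_right _ _

lemma e3b_integral_trX {T a B : ℝ} (hT : 0 < T) : ∫ t, e3b_trX T a B t = T * MM T a B := by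
  unfold e3b_trX MM
  rw [integral_indicator measurableSet_Ioc, intervalIntegral.integral_of_le hT.le]
  field_simp

open Classical in
theorem good_measure {a₁ a₂ κ V : ℝ} (h1 : 0 < a₁) (h12 : a₁ ≤ a₂) (hκ : 0 < κ) (hV : 0 ≤ V) :
    ∃ K K₁ η δ c : ℝ, 0 < K ∧ 0 < K₁ ∧ 0 < η ∧ 0 < δ ∧ δ < 1 / 4 ∧ 0 < c ∧ ∃ T₀ : ℝ, ∀ T : ℝ, T₀ ≤ T →
    κ * SN T ≤ ∑ ρ ∈ (Zf T).filter (fun ρ => a₁ ≤ Real.log T * (ρ.re - 1 / 2) ∧
      Real.log T * (ρ.re - 1 / 2) ≤ a₂), mx ρ → MM T (a₂ + 2) (K ^ 2) ≤ V →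
    ENNReal.ofReal (c * T) ≤ volume {t₀ : ℝ | 2 * δ * T ≤ t₀ ∧ t₀ ≤ (1 - 2 * δ) * T ∧ Phi T t₀ ≤ K₁ ∧
      (∀ ρ ∈ Zf T, η ≤ Real.log T * |ρ.im - t₀|) ∧ ‖XX T (a₂ + 2) t₀‖ ≤ K ∧
      ∃ ρ ∈ Zf T, a₁ ≤ Real.log T * (ρ.re - 1 / 2) ∧ Real.log T * (ρ.re - 1 / 2) ≤ a₂ ∧
        Real.log T * |ρ.im - t₀| ≤ 1 / 2} := by
  obtain ⟨C, T₁, hC, hPhi⟩ := Phi_fourth
  obtain ⟨T₂, hNT⟩ := (eventually_atTop).1 NT_le_ev
  set k0 : ℝ := κ / (2 * Real.pi) with hk0
  have hk : 0 < k0 := by rw [hk0]; positivity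
  set M : ℝ := 12 * (5 / 4) ^ 4 * C / k0 with hM
  have hM0 : 0 < M := by rw [hM]; positivity
  set A : ℝ := M + 1 with hA
  have hA0 : 0 < A := by linarith
  have hA1 : 1 ≤ A := by linarith
  set K₁ : ℝ := 12 * A * C / k0 + 1 with hK₁
  have hK1 : 1 ≤ K₁ := by
    have : 0 < 12 * A * C / k0 := by positivity
    linarith
  set K : ℝ := 12 * A * V / k0 + 1 with hK
  have hKK : 1 ≤ K := by
    have : 0 ≤ 12 * A * V / k0 := by positivity
    linarith
  set η : ℝ := k0 / (24 * A) with hη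
  have hη0 : 0 < η := by rw [hη]; positivity
  set δ : ℝ := min (1 / 8) (k0 / (48 * A)) with hδ
  have hδ0 : 0 < δ := by rw [hδ]; positivity
  have hδ1 : δ ≤ 1 / 8 := min_le_left _ _
  have hδ2 : δ ≤ k0 / (48 * A) := min_le_right _ _
  refine ⟨K, K₁, η, δ, 2 / 5 * k0 / K₁, by linarith, by linarith, hη0, hδ0, by linarith, by positivity,
    max (max T₁ T₂) (max 3 (12 * A / k0)), fun T hT hbad hMM => ?_⟩
  have hT1 : T₁ ≤ T := le_trans (le_trans (le_max_left _ _) (le_max_left _ _)) hT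
  have hT2 : T₂ ≤ T := le_trans (le_trans (le_max_right _ _) (le_max_left _ _)) hT
  have hT3 : 3 ≤ T := le_trans (le_trans (le_max_left _ _) (le_max_right _ _)) hT
  have hT4 : 12 * A / k0 ≤ T := le_trans (le_trans (le_max_right _ _) (le_max_right _ _)) hT
  have hT0 : 0 < T := by linarith
  have hNT' := hNT T hT2
  obtain ⟨hPi, hPb⟩ := hPhi T hT1
  have hL1 : 1 ≤ Real.log T := one_le_log hT3
  set L := Real.log T with hL
  have hL0 : 0 < L := by linarith
  set F := (Zf T).filter (fun ρ => a₁ ≤ L * (ρ.re - 1 / 2) ∧ L * (ρ.re - 1 / 2) ≤ a₂) with hF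
  set S : Set ℝ := {t₀ : ℝ | 2 * δ * T ≤ t₀ ∧ t₀ ≤ (1 - 2 * δ) * T ∧ Phi T t₀ ≤ K₁ ∧
      (∀ ρ ∈ Zf T, η ≤ L * |ρ.im - t₀|) ∧ ‖XX T (a₂ + 2) t₀‖ ≤ K ∧
      ∃ ρ ∈ Zf T, a₁ ≤ L * (ρ.re - 1 / 2) ∧ L * (ρ.re - 1 / 2) ≤ a₂ ∧
        L * |ρ.im - t₀| ≤ 1 / 2} with hS
  have hSsub : S ⊆ Icc (2 * δ * T) ((1 - 2 * δ) * T) := fun t ht => ⟨ht.1, ht.2.1⟩
  have hSfin : volume S ≠ ⊤ :=
    ne_top_of_le_ne_top (by simp) (measure_mono (μ := volume) hSsub)
  set S' := toMeasurable volume S with hS'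
  have hS'm : MeasurableSet S' := measurableSet_toMeasurable _ _
  have hS'v : volume S' = volume S := measure_toMeasurable S
  have hSS' : S ⊆ S' := subset_toMeasurable _ _
  have hs'int : Integrable (S'.indicator (1 : ℝ → ℝ)) := by
    refine (integrable_indicator_iff hS'm).2 ?_
    refine (integrableOn_const (μ := volume) (s := S') (C := (1 : ℝ)) ?_)
    rw [hS'v]; exact hSfin
  have hs'I : ∫ t, S'.indicator (1 : ℝ → ℝ) t = (volume S).toReal := by
    rw [integral_indicator_one hS'm, Measure.real, hS'v]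
  set e1 := (Icc (-(1 / (2 * L))) (2 * δ * T)).indicator (1 : ℝ → ℝ) with he1
  set e2 := (Icc ((1 - 2 * δ) * T) (T + 1 / (2 * L))).indicator (1 : ℝ → ℝ) with he2
  have he1n : ∀ t, 0 ≤ e1 t := fun t => indicator_nonneg (fun _ _ => zero_le_one) _
  have he2n : ∀ t, 0 ≤ e2 t := fun t => indicator_nonneg (fun _ _ => zero_le_one) _
  -- the pointwise inequality
  have hpt : ∀ t, e3b_nbd F L t ≤ 5 / 4 * K₁ * S'.indicator (1 : ℝ → ℝ) t + (A * e1 t + (A * e2 t +
      ((A / K₁ ^ 4 + (5 / 4) ^ 4 / A ^ 3) * Phi T t ^ 4 + (A * e3b_nbe (Zf T) L η t +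
        A / K ^ 2 * e3b_trX T (a₂ + 2) (K ^ 2) t)))) := by
    intro t
    have n0 := e3b_nbd_nonneg F L t
    have n1 : e3b_nbd F L t ≤ 5 / 4 * Phi T t := e3b_nbd_le_Phi (T := T) hL0 (Finset.filter_subset _ _) t
    have n2 := e3b_Phi_nonneg T t
    have n3 := e3b_nbe_nonneg (Zf T) L η t
    have n4 : 0 ≤ e3b_trX T (a₂ + 2) (K ^ 2) t := e3b_trX_nonneg (by positivity) t
    have n5 : 0 ≤ S'.indicator (1 : ℝ → ℝ) t := indicator_nonneg (fun _ _ => zero_le_one) _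
    have m1 : 0 ≤ 5 / 4 * K₁ * S'.indicator (1 : ℝ → ℝ) t := by positivity
    have m2 : 0 ≤ A * e1 t := mul_nonneg hA0.le (he1n t)
    have m3 : 0 ≤ A * e2 t := mul_nonneg hA0.le (he2n t)
    have m4 : 0 ≤ A / K₁ ^ 4 * Phi T t ^ 4 := by positivity
    have m5 : 0 ≤ (5 / 4) ^ 4 / A ^ 3 * Phi T t ^ 4 := by positivity
    have m6 : 0 ≤ A * e3b_nbe (Zf T) L η t := by positivity
    have m7 : 0 ≤ A / K ^ 2 * e3b_trX T (a₂ + 2) (K ^ 2) t := by positivity
    rcases n0.eq_or_lt with hz | hpos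
    · rw [← hz]
      linarith only [m1, m2, m3, m4, m5, m6, m7]
    obtain ⟨ρ, hρ, hρt⟩ := e3b_exists_of_nbd_pos hL0 hpos
    rw [hF, Finset.mem_filter] at hρ
    by_cases hSt : t ∈ S
    · have : S'.indicator (1 : ℝ → ℝ) t = 1 := by rw [indicator_of_mem (hSS' hSt)]; rfl
      rw [this]
      have hp : Phi T t ≤ K₁ := hSt.2.2.1
      linarith only [m1, m2, m3, m4, m5, m6, m7, n1, hp]
    · -- `n ≤ A + n⁴/A³`
      have h4 : e3b_nbd F L t ≤ A + (5 / 4) ^ 4 / A ^ 3 * Phi T t ^ 4 := by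
        refine (e3b_le_add_pow hA0 n0).trans ?_
        have : e3b_nbd F L t ^ 4 ≤ (5 / 4 * Phi T t) ^ 4 := pow_le_pow_left₀ n0 n1 4
        have h5 : e3b_nbd F L t ^ 4 / A ^ 3 ≤ (5 / 4 * Phi T t) ^ 4 / A ^ 3 :=
          div_le_div_of_nonneg_right this (by positivity)
        have h6 : (5 / 4 * Phi T t) ^ 4 / A ^ 3 = (5 / 4) ^ 4 / A ^ 3 * Phi T t ^ 4 := by ring
        linarith only [h5, h6]
      have key : A ≤ A * e1 t + A * e2 t + A / K₁ ^ 4 * Phi T t ^ 4 + A * e3b_nbe (Zf T) L η t +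
          A / K ^ 2 * e3b_trX T (a₂ + 2) (K ^ 2) t := by
        have hρ1 : 0 ≤ ρ.im := (mem_Zf.1 hρ.1).2.1
        have hρ2 : ρ.im ≤ T := (mem_Zf.1 hρ.1).2.2
        have hw := (e3b_mem_window hL0 ρ.im t).2 hρt
        rw [mem_Icc] at hw
        by_cases c1 : t < 2 * δ * T
        · have : e1 t = 1 := by
            rw [he1, indicator_of_mem]
            · rfl
            · exact ⟨by linarith only [hw.1, hρ1], c1.le⟩
          rw [this]
          linarith only [m3, m4, m6, m7]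
        by_cases c2 : (1 - 2 * δ) * T < t
        · have : e2 t = 1 := by
            rw [he2, indicator_of_mem]
            · rfl
            · exact ⟨c2.le, by linarith only [hw.2, hρ2]⟩
          rw [this]
          linarith only [m2, m4, m6, m7]
        push Not at c1 c2
        by_cases c3 : K₁ < Phi T t
        · have hh : 1 ≤ Phi T t ^ 4 / K₁ ^ 4 := by
            rw [le_div_iff₀ (by positivity), one_mul]
            exact pow_le_pow_left₀ (zero_le_one.trans hK1) c3.le 4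
          have : A ≤ A / K₁ ^ 4 * Phi T t ^ 4 := by
            have e : A / K₁ ^ 4 * Phi T t ^ 4 = A * (Phi T t ^ 4 / K₁ ^ 4) := by ring
            rw [e]
            exact le_mul_of_one_le_right hA0.le hh
          linarith only [m2, m3, m6, m7, this]
        push Not at c3
        by_cases c4 : ∀ σ ∈ Zf T, η ≤ L * |σ.im - t|
        · have c5 : K < ‖XX T (a₂ + 2) t‖ := by
            by_contra hc
            push Not at hc
            exact hSt ⟨c1, c2, c3, c4, hc, ρ, hρ.1, hρ.2.1, hρ.2.2, hρt⟩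
          have hmem : t ∈ Ioc 0 T := by
            refine ⟨lt_of_lt_of_le (by positivity) c1, c2.trans ?_⟩
            have : 0 ≤ δ * T := by positivity
            linarith only [this]
          have : e3b_trX T (a₂ + 2) (K ^ 2) t = K ^ 2 := by
            unfold e3b_trX
            rw [indicator_of_mem hmem]
            refine min_eq_right ?_
            exact pow_le_pow_left₀ (zero_le_one.trans hKK) c5.le 2
          have h7 : A / K ^ 2 * e3b_trX T (a₂ + 2) (K ^ 2) t = A := by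
            rw [this]; field_simp
          rw [h7]
          linarith only [m2, m3, m4, m6]
        · push Not at c4
          obtain ⟨σ, hσ, hσt⟩ := c4
          have := e3b_one_le_nbe hL0 hσ hσt
          have h8 : A ≤ A * e3b_nbe (Zf T) L η t := le_mul_of_one_le_right hA0.le this
          linarith only [m2, m3, m4, m7, h8]
      have h9 : (A / K₁ ^ 4 + (5 / 4) ^ 4 / A ^ 3) * Phi T t ^ 4 =
        A / K₁ ^ 4 * Phi T t ^ 4 + (5 / 4) ^ 4 / A ^ 3 * Phi T t ^ 4 := by ring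
      rw [h9]
      linarith only [h4, key, m1]
  -- integrate
  have i1 : Integrable (fun t => 5 / 4 * K₁ * S'.indicator (1 : ℝ → ℝ) t) := hs'int.const_mul _
  have i2 : Integrable (fun t => A * e1 t) := (e3b_integrable_ind _ _).const_mul _
  have i3 : Integrable (fun t => A * e2 t) := (e3b_integrable_ind _ _).const_mul _
  have i4 : Integrable (fun t => (A / K₁ ^ 4 + (5 / 4) ^ 4 / A ^ 3) * Phi T t ^ 4) := hPi.const_mul _
  have i5 : Integrable (fun t => A * e3b_nbe (Zf T) L η t) := (e3b_integrable_nbe _ _ _).const_mul _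
  have i6 : Integrable (fun t => A / K ^ 2 * e3b_trX T (a₂ + 2) (K ^ 2) t) :=
    (e3b_integrable_trX (by positivity)).const_mul _
  have i56 : Integrable (fun t => A * e3b_nbe (Zf T) L η t + A / K ^ 2 * e3b_trX T (a₂ + 2) (K ^ 2) t) :=
    i5.add i6
  have i456 : Integrable (fun t => (A / K₁ ^ 4 + (5 / 4) ^ 4 / A ^ 3) * Phi T t ^ 4 +
      (A * e3b_nbe (Zf T) L η t + A / K ^ 2 * e3b_trX T (a₂ + 2) (K ^ 2) t)) := i4.add i56
  have i3456 : Integrable (fun t => A * e2 t + ((A / K₁ ^ 4 + (5 / 4) ^ 4 / A ^ 3) * Phi T t ^ 4 +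
      (A * e3b_nbe (Zf T) L η t + A / K ^ 2 * e3b_trX T (a₂ + 2) (K ^ 2) t))) := i3.add i456
  have i23456 : Integrable (fun t => A * e1 t + (A * e2 t +
      ((A / K₁ ^ 4 + (5 / 4) ^ 4 / A ^ 3) * Phi T t ^ 4 +
      (A * e3b_nbe (Zf T) L η t + A / K ^ 2 * e3b_trX T (a₂ + 2) (K ^ 2) t)))) := i2.add i3456
  have hint := integral_mono (e3b_integrable_nbd F L) (i1.add i23456) hpt
  have hE : ∫ t, (5 / 4 * K₁ * S'.indicator (1 : ℝ → ℝ) t + (A * e1 t + (A * e2 t +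
      ((A / K₁ ^ 4 + (5 / 4) ^ 4 / A ^ 3) * Phi T t ^ 4 + (A * e3b_nbe (Zf T) L η t +
        A / K ^ 2 * e3b_trX T (a₂ + 2) (K ^ 2) t))))) =
      5 / 4 * K₁ * (volume S).toReal + (A * (2 * δ * T + 1 / (2 * L)) + (A * (2 * δ * T + 1 / (2 * L)) +
      ((A / K₁ ^ 4 + (5 / 4) ^ 4 / A ^ 3) * (∫ t, Phi T t ^ 4) + (A * (2 * η * NT T / L) +
        A / K ^ 2 * (T * MM T (a₂ + 2) (K ^ 2)))))) := by
    have hLi : 0 < 1 / (2 * L) := by positivity
    have hδT : 0 < 2 * δ * T := by positivity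
    have hδT2 : (1 - 2 * δ) * T ≤ T := by linarith only [hδT]
    have j1 : ∫ t, e1 t = 2 * δ * T + 1 / (2 * L) := by
      rw [he1, e3b_integral_ind (by linarith only [hδT, hLi])]; ring
    have j2 : ∫ t, e2 t = 2 * δ * T + 1 / (2 * L) := by
      rw [he2, e3b_integral_ind (by linarith only [hδT2, hLi])]; ring
    rw [integral_add i1 i23456, integral_add i2 i3456, integral_add i3 i456, integral_add i4 i56,
      integral_add i5 i6, integral_const_mul, integral_const_mul, integral_const_mul, integral_const_mul,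
      integral_const_mul, integral_const_mul, hs'I, j1, j2, e3b_integral_nbe _ hL0 hη0, e3b_integral_trX hT0,
      e3b_sum_mx_eq_NT]
  have hint2 : ∫ t, e3b_nbd F L t ≤ 5 / 4 * K₁ * (volume S).toReal + (A * (2 * δ * T + 1 / (2 * L)) +
      (A * (2 * δ * T + 1 / (2 * L)) +
      ((A / K₁ ^ 4 + (5 / 4) ^ 4 / A ^ 3) * (∫ t, Phi T t ^ 4) + (A * (2 * η * NT T / L) +
        A / K ^ 2 * (T * MM T (a₂ + 2) (K ^ 2)))))) := by
    rw [← hE]
    exact hint
  rw [e3b_integral_nbd F hL0] at hint2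
  -- lower bound for the left side
  have hlow : k0 * T ≤ (∑ ρ ∈ F, mx ρ) / L := by
    rw [le_div_iff₀ hL0]
    refine le_trans (le_of_eq ?_) hbad
    rw [hk0]
    unfold SN
    rw [← hL]
    ring
  -- the error terms
  have u1 : A * (2 * δ * T) ≤ k0 * T / 24 := by
    have : A * δ ≤ k0 / 48 := by
      have := mul_le_mul_of_nonneg_left hδ2 hA0.le
      refine this.trans (le_of_eq ?_)
      field_simp
    have h2 := mul_le_mul_of_nonneg_right this hT0.le
    linarith only [h2]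
  have u2 : A * (1 / (2 * L)) ≤ k0 * T / 24 := by
    have h5 : 1 / (2 * L) ≤ 1 / 2 := by
      rw [div_le_div_iff₀ (by positivity) (by norm_num)]
      linarith only [hL1]
    have h6 : 12 * A ≤ k0 * T := by
      rw [div_le_iff₀ hk] at hT4
      linarith only [hT4]
    have h7 := mul_le_mul_of_nonneg_left h5 hA0.le
    linarith only [h6, h7]
  have hPn : 0 ≤ ∫ t, Phi T t ^ 4 := integral_nonneg fun t => by positivity
  have u3 : A / K₁ ^ 4 * (∫ t, Phi T t ^ 4) ≤ k0 * T / 12 := by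
    have h5 : 12 * A * C / k0 ≤ K₁ ^ 4 := by
      have h6 : K₁ ≤ K₁ ^ 4 := le_self_pow₀ hK1 (by norm_num)
      linarith only [h6, hK₁]
    have h7 : 12 * A * C ≤ K₁ ^ 4 * k0 := by rwa [div_le_iff₀ hk] at h5
    have h8 : A / K₁ ^ 4 * (∫ t, Phi T t ^ 4) ≤ A / K₁ ^ 4 * (C * T) :=
      mul_le_mul_of_nonneg_left hPb (by positivity)
    refine h8.trans ?_
    rw [div_mul_eq_mul_div, div_le_iff₀ (by positivity)]
    have h12 := mul_le_mul_of_nonneg_right h7 hT0.le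
    linarith only [h12]
  have u4 : (5 / 4) ^ 4 / A ^ 3 * (∫ t, Phi T t ^ 4) ≤ k0 * T / 12 := by
    have h5 : M ≤ A ^ 3 := by
      have h6 : A ≤ A ^ 3 := le_self_pow₀ hA1 (by norm_num)
      linarith only [h6, hA]
    have h7 : 12 * (5 / 4) ^ 4 * C ≤ A ^ 3 * k0 := by
      rw [hM, div_le_iff₀ hk] at h5
      exact h5
    have h8 : (5 / 4) ^ 4 / A ^ 3 * (∫ t, Phi T t ^ 4) ≤ (5 / 4) ^ 4 / A ^ 3 * (C * T) :=
      mul_le_mul_of_nonneg_left hPb (by positivity)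
    refine h8.trans ?_
    rw [div_mul_eq_mul_div, div_le_iff₀ (by positivity)]
    have h12 := mul_le_mul_of_nonneg_right h7 hT0.le
    linarith only [h12]
  have u5 : A * (2 * η * NT T / L) ≤ k0 * T / 12 := by
    have h5 : NT T / L ≤ T := by
      rw [div_le_iff₀ hL0]; exact hNT'
    have h6 : A * (2 * η) = k0 / 12 := by
      rw [hη]; field_simp; ring
    have h7 : A * (2 * η * NT T / L) = k0 / 12 * (NT T / L) := by rw [← h6]; ring
    rw [h7]
    have h8 := mul_le_mul_of_nonneg_left h5 (show 0 ≤ k0 / 12 by positivity)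
    linarith only [h8]
  have u6 : A / K ^ 2 * (T * MM T (a₂ + 2) (K ^ 2)) ≤ k0 * T / 12 := by
    have h5 : 12 * A * V / k0 ≤ K ^ 2 := by
      have h6 : K ≤ K ^ 2 := le_self_pow₀ hKK (by norm_num)
      linarith only [h6, hK]
    have h7 : 12 * A * V ≤ K ^ 2 * k0 := by rwa [div_le_iff₀ hk] at h5
    have h8 : A / K ^ 2 * (T * MM T (a₂ + 2) (K ^ 2)) ≤ A / K ^ 2 * (T * V) :=
      mul_le_mul_of_nonneg_left (mul_le_mul_of_nonneg_left hMM hT0.le) (by positivity)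
    refine h8.trans ?_
    rw [div_mul_eq_mul_div, div_le_iff₀ (by positivity)]
    have h12 := mul_le_mul_of_nonneg_right h7 hT0.le
    linarith only [h12]
  have hfinal : k0 * T / 2 ≤ 5 / 4 * K₁ * (volume S).toReal := by
    have h9 : (A / K₁ ^ 4 + (5 / 4) ^ 4 / A ^ 3) * (∫ t, Phi T t ^ 4) =
      A / K₁ ^ 4 * (∫ t, Phi T t ^ 4) + (5 / 4) ^ 4 / A ^ 3 * (∫ t, Phi T t ^ 4) := by ring
    rw [h9] at hint2
    have h10 : A * (2 * δ * T + 1 / (2 * L)) = A * (2 * δ * T) + A * (1 / (2 * L)) := by ring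
    rw [h10] at hint2
    linarith only [hint2, hlow, u1, u2, u3, u4, u5, u6]
  rw [ENNReal.ofReal_le_iff_le_toReal hSfin]
  have h11 : 2 / 5 * k0 / K₁ * T = (k0 * T / 2) / (5 / 4 * K₁) := by field_simp; ring
  rw [h11, div_le_iff₀ (by positivity)]
  linarith only [hfinal]

end Pool.Agent.Helper69.GGM
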