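import Pool.Agent.Helper69.GGM.E3a
import Pool.Agent.Helper69.GGM.E3b
import Pool.Agent.Helper69.GGM.M2

/-!
# GGM block E3c: the mean square law forces the zeros onto the line

Proof. (1) Claim: for `0 < a₁ <= a₂`, `κ > 0`: eventually along `l`,
`Σ_{ρ ∈ Zf T, a₁ <= x_ρ <= a₂} mx ρ < κ SN T`. Take `V = VV (a₂+2) + 1`; by `MeanSqAt l (a₂+2)` and monotonicity
in `B`, for each `K`, eventually `MM T (a₂+2) (K²) <= V`. Suppose the claim fails: then frequently along `l`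
(`Filter.Frequently`) the hypothesis of `good_measure` holds, giving a set `G_T` of measure `>= cT`.
`local_lower` on `G_T` (with the constants `K, K₁, η, δ` of `good_measure`) and Tonelli:
`c T ((π/4) log B - C) <= ∫_{t₀ ∈ [2δT,(1-2δ)T]} ∫_{rectangle} <= 2 ∫_{a₁/2}^{a₂+1} T MM T a B da`
(`t₀ + v/L ∈ [0,T]` for large `T`), and `average_bound` bounds the right side by `2T((a₂+1)/(a₁²) + 1)`.
Choose `B` large: contradiction.
(2) `offCount T ε <= 2 Σ_{ε <= x_ρ <= A} mx + 2 Σ_{x_ρ > A} mx` (reflection `ρ ↦ 1 - conj ρ`), and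
`Σ_{x_ρ > A} mx <= A^(-2) Σ mx x² <= C T log T/A²` (`sum_x2`). Given `κ' > 0` choose `A` large, then apply (1).
-/

open Complex Set MeasureTheory Filter Topology
open Pool.Agent.Helper57.LH Pool.Agent.Helper57.PC Pool.Agent.Helper57.Zeta
open scoped ENNReal

namespace Pool.Agent.Helper69.GGM

attribute [local irreducible] XX

private lemma trunc_nonneg' (T a B t : ℝ) (hB : 0 ≤ B) : 0 ≤ min (‖XX T a t‖ ^ 2) B := le_min (by positivity) hB

private lemma trunc_measurable (T B : ℝ) : Measurable (fun p : ℝ × ℝ => min (‖XX T p.1 p.2‖ ^ 2) B) :=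
  ((XX_measurable T).norm.pow_const 2).min measurable_const

private lemma trunc_measurable' (T a B : ℝ) : Measurable (fun t : ℝ => min (‖XX T a t‖ ^ 2) B) :=
  (trunc_measurable T B).comp (measurable_const.prodMk measurable_id)

private lemma trunc_integrableOn (T a : ℝ) {B : ℝ} (hB : 0 ≤ B) {s : Set ℝ} (hs : volume s ≠ ∞) :
    IntegrableOn (fun t : ℝ => min (‖XX T a t‖ ^ 2) B) s := by
  apply Measure.integrableOn_of_bounded (M := B) hs (trunc_measurable' T a B).aestronglyMeasurable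
  refine Eventually.of_forall fun t => ?_
  rw [Real.norm_of_nonneg (trunc_nonneg' T a B t hB)]
  exact min_le_right _ _

private lemma MMc_mono {T a B B' : ℝ} (hT : 0 < T) (hB : 0 ≤ B) (h : B ≤ B') : MM T a B ≤ MM T a B' := by
  unfold MM
  apply mul_le_mul_of_nonneg_left _ (by positivity)
  apply intervalIntegral.integral_mono_on hT.le
  · rw [intervalIntegrable_iff_integrableOn_Ioc_of_le hT.le]
    exact trunc_integrableOn T a hB (by simp)
  · rw [intervalIntegrable_iff_integrableOn_Ioc_of_le hT.le]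
    exact trunc_integrableOn T a (hB.trans h) (by simp)
  · intro t _
    exact min_le_min le_rfl h

/-- the inner lower integral -/
private lemma lint_eq_MM {T a B : ℝ} (hT : 0 < T) (hB : 0 ≤ B) :
    ∫⁻ t in Icc 0 T, ENNReal.ofReal (min (‖XX T a t‖ ^ 2) B) = ENNReal.ofReal (T * MM T a B) := by
  rw [← ofReal_integral_eq_lintegral_ofReal (trunc_integrableOn T a hB (by simp))
    (Eventually.of_forall fun t => trunc_nonneg' T a B t hB)]
  congr 1
  unfold MM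
  rw [intervalIntegral.integral_of_le hT.le, integral_Icc_eq_integral_Ioc]
  field_simp

private lemma MM_nonneg {T a B : ℝ} (hT : 0 < T) (hB : 0 ≤ B) : 0 ≤ MM T a B := by
  unfold MM
  apply mul_nonneg (by positivity)
  apply intervalIntegral.integral_nonneg hT.le
  intro t _
  exact trunc_nonneg' T a B t hB

private lemma MM_le {T a B : ℝ} (hT : 0 < T) (hB : 0 ≤ B) : MM T a B ≤ B := by
  unfold MM
  have h1 : ∫ t in (0:ℝ)..T, min (‖XX T a t‖ ^ 2) B ≤ ∫ _ in (0:ℝ)..T, B := by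
    apply intervalIntegral.integral_mono_on hT.le
    · rw [intervalIntegrable_iff_integrableOn_Ioc_of_le hT.le]
      exact trunc_integrableOn T a hB (by simp)
    · exact intervalIntegrable_const
    · intro t _
      exact min_le_right _ _
  rw [intervalIntegral.integral_const, sub_zero, smul_eq_mul] at h1
  calc 1 / T * ∫ t in (0:ℝ)..T, min (‖XX T a t‖ ^ 2) B ≤ 1 / T * (T * B) := by gcongr
    _ = B := by field_simp

private lemma MMc_measurable {T B : ℝ} (hT : 0 < T) (hB : 0 ≤ B) : Measurable (fun a : ℝ => MM T a B) := by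
  have h1 : Measurable (fun a : ℝ => ∫⁻ t in Icc 0 T, ENNReal.ofReal (min (‖XX T a t‖ ^ 2) B)) :=
    (trunc_measurable T B).ennreal_ofReal.lintegral_prod_right'
  have h2 : (fun a : ℝ => MM T a B) = fun a =>
      (1 / T) * (∫⁻ t in Icc 0 T, ENNReal.ofReal (min (‖XX T a t‖ ^ 2) B)).toReal := by
    funext a
    rw [lint_eq_MM hT hB, ENNReal.toReal_ofReal (mul_nonneg hT.le (MM_nonneg hT hB))]
    field_simp
  rw [h2]
  exact h1.ennreal_toReal.const_mul _

private lemma lint_MM {T B b₁ b₂ : ℝ} (hT : 0 < T) (hB : 0 ≤ B) (hb : b₁ ≤ b₂) :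
    ∫⁻ a in Icc b₁ b₂, ENNReal.ofReal (T * MM T a B) = ENNReal.ofReal (T * ∫ a in b₁..b₂, MM T a B) := by
  rw [← ofReal_integral_eq_lintegral_ofReal]
  · congr 1
    rw [integral_const_mul, intervalIntegral.integral_of_le hb, integral_Icc_eq_integral_Ioc]
  · apply Measure.integrableOn_of_bounded (M := T * B) (by simp)
      ((MMc_measurable hT hB).const_mul T).aestronglyMeasurable
    refine Eventually.of_forall fun a => ?_
    rw [Real.norm_of_nonneg (mul_nonneg hT.le (MM_nonneg hT hB))]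
    gcongr
    exact MM_le hT hB
  · exact Eventually.of_forall fun a => mul_nonneg hT.le (MM_nonneg hT hB)

/-- Tonelli -/
private lemma tonelli_upper {T B b₁ b₂ s₁ s₂ L : ℝ} (hT : 0 < T) (hB : 0 ≤ B) (hb : b₁ ≤ b₂) (hL : 0 < L)
    (h1 : 1 / L ≤ s₁) (h2 : s₂ + 1 / L ≤ T) :
    ∫⁻ t₀ in Icc s₁ s₂, ∫⁻ p in Icc b₁ b₂ ×ˢ Icc (-1 : ℝ) 1,
      ENNReal.ofReal (min (‖XX T p.1 (t₀ + p.2 / L)‖ ^ 2) B) ≤
      ENNReal.ofReal (2 * (T * ∫ a in b₁..b₂, MM T a B)) := by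
  have hF : Measurable (fun p : ℝ × ℝ => ENNReal.ofReal (min (‖XX T p.1 p.2‖ ^ 2) B)) :=
    (trunc_measurable T B).ennreal_ofReal
  have hG : Measurable (fun q : ℝ × (ℝ × ℝ) => ENNReal.ofReal (min (‖XX T q.2.1 (q.1 + q.2.2 / L)‖ ^ 2) B)) :=
    hF.comp (by fun_prop : Measurable fun q : ℝ × (ℝ × ℝ) => (q.2.1, q.1 + q.2.2 / L))
  rw [lintegral_lintegral_swap (hG.aemeasurable)]
  have h3 : ∀ p ∈ Icc b₁ b₂ ×ˢ Icc (-1 : ℝ) 1,
      ∫⁻ t₀ in Icc s₁ s₂, ENNReal.ofReal (min (‖XX T p.1 (t₀ + p.2 / L)‖ ^ 2) B) ≤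
        ENNReal.ofReal (T * MM T p.1 B) := by
    intro p hp
    rw [← lint_eq_MM hT hB]
    have hp2 := hp.2
    have e1 : |p.2 / L| ≤ 1 / L := by
      rw [abs_div, abs_of_pos hL]
      gcongr
      exact abs_le.mpr hp2
    rw [abs_le] at e1
    calc ∫⁻ t₀ in Icc s₁ s₂, ENNReal.ofReal (min (‖XX T p.1 (t₀ + p.2 / L)‖ ^ 2) B)
        = ∫⁻ t₀, (Icc s₁ s₂).indicator (fun t₀ => ENNReal.ofReal (min (‖XX T p.1 (t₀ + p.2 / L)‖ ^ 2) B)) t₀ := by
          rw [lintegral_indicator measurableSet_Icc]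
      _ ≤ ∫⁻ t₀, (fun t => (Icc 0 T).indicator (fun t => ENNReal.ofReal (min (‖XX T p.1 t‖ ^ 2) B)) t) (t₀ + p.2 / L) := by
          apply lintegral_mono
          intro t₀
          simp only
          by_cases ht : t₀ ∈ Icc s₁ s₂
          · rw [indicator_of_mem ht, indicator_of_mem]
            constructor <;> linarith [ht.1, ht.2, e1.1, e1.2]
          · rw [indicator_of_notMem ht]; exact bot_le
      _ = ∫⁻ t, (Icc 0 T).indicator (fun t => ENNReal.ofReal (min (‖XX T p.1 t‖ ^ 2) B)) t :=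
          lintegral_add_right_eq_self _ _
      _ = _ := by rw [lintegral_indicator measurableSet_Icc]
  calc ∫⁻ p in Icc b₁ b₂ ×ˢ Icc (-1 : ℝ) 1, ∫⁻ t₀ in Icc s₁ s₂,
        ENNReal.ofReal (min (‖XX T p.1 (t₀ + p.2 / L)‖ ^ 2) B)
      ≤ ∫⁻ p in Icc b₁ b₂ ×ˢ Icc (-1 : ℝ) 1, ENNReal.ofReal (T * MM T p.1 B) :=
        setLIntegral_mono' (measurableSet_Icc.prod measurableSet_Icc) h3
    _ = ∫⁻ a in Icc b₁ b₂, ∫⁻ _ in Icc (-1 : ℝ) 1, ENNReal.ofReal (T * MM T a B) := by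
        rw [Measure.volume_eq_prod, ← Measure.prod_restrict, lintegral_prod]
        exact ((((MMc_measurable hT hB).comp measurable_fst).const_mul T).ennreal_ofReal).aemeasurable
    _ = ∫⁻ a in Icc b₁ b₂, ENNReal.ofReal 2 * ENNReal.ofReal (T * MM T a B) := by
        apply lintegral_congr
        intro a
        rw [setLIntegral_const, Real.volume_Icc, mul_comm]
        norm_num
    _ = ENNReal.ofReal 2 * ∫⁻ a in Icc b₁ b₂, ENNReal.ofReal (T * MM T a B) := by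
        rw [lintegral_const_mul]
        exact ((MMc_measurable hT hB).const_mul T).ennreal_ofReal
    _ = _ := by
        rw [lint_MM hT hB hb, ← ENNReal.ofReal_mul (by norm_num)]

open Classical in
private lemma band_rare {l : Filter ℝ} [l.IsCountablyGenerated] (hl : l ≤ atTop)
    (h : ∀ a : ℝ, 0 < a → MeanSqAt l a) {a₁ a₂ κ : ℝ} (h1 : 0 < a₁) (h12 : a₁ ≤ a₂) (hκ : 0 < κ) :
    ∀ᶠ T : ℝ in l, ∑ ρ ∈ (Zf T).filter (fun ρ => a₁ ≤ Real.log T * (ρ.re - 1 / 2) ∧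
      Real.log T * (ρ.re - 1 / 2) ≤ a₂), mx ρ < κ * SN T := by
  by_contra hcon
  rw [not_eventually] at hcon
  have hA : 0 < a₂ + 2 := by linarith
  have hV : 0 ≤ VV (a₂ + 2) + 1 := by have := VV_nonneg hA; linarith
  obtain ⟨K, K₁, η, δ, c, hK, hK₁, hη, hδ, hδ4, hc, T₁, hgood⟩ := good_measure h1 h12 hκ hV
  obtain ⟨C, hC⟩ := local_lower h1 h12 hK.le hK₁.le hη
  obtain ⟨T₂, hlow⟩ := hC δ hδ hδ4
  set W : ℝ := (a₂ + 1 - a₁ / 2) / (4 * (a₁ / 2) ^ 2) + 1 with hW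
  have hW0 : 0 < W := by
    have : 0 ≤ (a₂ + 1 - a₁ / 2) / (4 * (a₁ / 2) ^ 2) := by
      apply div_nonneg (by linarith) (by positivity)
    linarith
  set B : ℝ := Real.exp (4 / Real.pi * (C + (2 * W + 1) / c)) with hBdef
  have hB : 0 < B := Real.exp_pos _
  have hval : Real.pi / 4 * Real.log B - C = (2 * W + 1) / c := by
    rw [hBdef, Real.log_exp]
    have := Real.pi_pos
    field_simp
    ring
  -- the eventual facts
  obtain ⟨B₀, hB₀⟩ := h (a₂ + 2) hA 1 one_pos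
  have e1 := hB₀ (max B₀ (K ^ 2)) (le_max_left _ _)
  have e2 := average_bound hl h (b₁ := a₁ / 2) (b₂ := a₂ + 1) (by positivity) (by linarith) hB
  have e3 : ∀ᶠ T : ℝ in l, T₁ ≤ T ∧ T₂ ≤ T ∧ Real.exp 1 ≤ T ∧ 1 / (2 * δ) ≤ T :=
    hl ((eventually_ge_atTop _).and ((eventually_ge_atTop _).and ((eventually_ge_atTop _).and (eventually_ge_atTop _))))
  obtain ⟨T, hT, e1, e2, h31, h32, h33, h34⟩ := (hcon.and_eventually (e1.and (e2.and e3))).exists
  rw [not_lt] at hT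
  have hT0 : 0 < T := lt_of_lt_of_le (Real.exp_pos 1) h33
  have hL1 : 1 ≤ Real.log T := by
    rw [Real.le_log_iff_exp_le hT0]; exact h33
  have hMM : MM T (a₂ + 2) (K ^ 2) ≤ VV (a₂ + 2) + 1 := by
    have := MMc_mono (a := a₂ + 2) hT0 (sq_nonneg K) (le_max_right B₀ (K ^ 2))
    have e := (abs_le.mp e1).2
    linarith
  have hvol := hgood T h31 hT hMM
  set G : Set ℝ := {t₀ : ℝ | 2 * δ * T ≤ t₀ ∧ t₀ ≤ (1 - 2 * δ) * T ∧ Phi T t₀ ≤ K₁ ∧
      (∀ ρ ∈ Zf T, η ≤ Real.log T * |ρ.im - t₀|) ∧ ‖XX T (a₂ + 2) t₀‖ ≤ K ∧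
      ∃ ρ ∈ Zf T, a₁ ≤ Real.log T * (ρ.re - 1 / 2) ∧ Real.log T * (ρ.re - 1 / 2) ≤ a₂ ∧
        Real.log T * |ρ.im - t₀| ≤ 1 / 2} with hG
  set Q : ℝ → ℝ≥0∞ := fun t₀ => ∫⁻ p in Icc (a₁ / 2) (a₂ + 1) ×ˢ Icc (-1 : ℝ) 1,
        ENNReal.ofReal (min (‖XX T p.1 (t₀ + p.2 / Real.log T)‖ ^ 2) B) with hQ
  have hQm : Measurable Q := by
    have hF : Measurable (fun p : ℝ × ℝ => ENNReal.ofReal (min (‖XX T p.1 p.2‖ ^ 2) B)) :=
      (trunc_measurable T B).ennreal_ofReal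
    have hG' : Measurable (fun q : ℝ × (ℝ × ℝ) => ENNReal.ofReal (min (‖XX T q.2.1 (q.1 + q.2.2 / Real.log T)‖ ^ 2) B)) :=
      hF.comp (by fun_prop : Measurable fun q : ℝ × (ℝ × ℝ) => (q.2.1, q.1 + q.2.2 / Real.log T))
    exact hG'.lintegral_prod_right'
  have hGsub : G ⊆ Icc (2 * δ * T) ((1 - 2 * δ) * T) := fun t ht => ⟨ht.1, ht.2.1⟩
  have hlowG : ∀ t ∈ G, ENNReal.ofReal ((2 * W + 1) / c) ≤ Q t := by
    intro t ht
    rw [← hval]
    exact hlow T h32 t ht.1 ht.2.1 ht.2.2.1 ht.2.2.2.1 ht.2.2.2.2.1 ht.2.2.2.2.2 B hB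
  have hup := tonelli_upper (T := T) (B := B) (b₁ := a₁ / 2) (b₂ := a₂ + 1) (s₁ := 2 * δ * T) (s₂ := (1 - 2 * δ) * T)
    (L := Real.log T) hT0 hB.le (by linarith) (by linarith) ?_ ?_
  · have hchain : ENNReal.ofReal ((2 * W + 1) / c) * volume G ≤ ENNReal.ofReal (2 * (T * W)) := by
      calc ENNReal.ofReal ((2 * W + 1) / c) * volume G
          = ∫⁻ _ in G, ENNReal.ofReal ((2 * W + 1) / c) := by rw [setLIntegral_const]
        _ ≤ ∫⁻ t in G, Q t := setLIntegral_mono hQm hlowG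
        _ ≤ ∫⁻ t in Icc (2 * δ * T) ((1 - 2 * δ) * T), Q t := lintegral_mono_set hGsub
        _ ≤ _ := hup
        _ ≤ _ := by
            apply ENNReal.ofReal_le_ofReal
            gcongr
    have h5 : ENNReal.ofReal ((2 * W + 1) * T) ≤ ENNReal.ofReal (2 * (T * W)) := by
      calc ENNReal.ofReal ((2 * W + 1) * T) = ENNReal.ofReal ((2 * W + 1) / c) * ENNReal.ofReal (c * T) := by
            rw [← ENNReal.ofReal_mul (by positivity)]
            congr 1
            field_simp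
        _ ≤ ENNReal.ofReal ((2 * W + 1) / c) * volume G := by gcongr
        _ ≤ _ := hchain
    rw [ENNReal.ofReal_le_ofReal_iff (by positivity)] at h5
    nlinarith
  · calc 1 / Real.log T ≤ 1 := by
          rw [div_le_one (by linarith)]; exact hL1
      _ ≤ 2 * δ * T := by
          rw [div_le_iff₀ (by positivity)] at h34
          linarith
  · have h6 : 1 / Real.log T ≤ 1 := by
      rw [div_le_one (by linarith)]; exact hL1
    have h7 : 1 ≤ 2 * δ * T := by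
      rw [div_le_iff₀ (by positivity)] at h34
      linarith
    linarith

private lemma refl_mem_Zf {T : ℝ} {ρ : ℂ} (h : ρ ∈ Zf T) : 1 - starRingEnd ℂ ρ ∈ Zf T := by
  rw [mem_Zf] at h ⊢
  obtain ⟨h1, h2, h3⟩ := h
  refine ⟨?_, ?_, ?_⟩
  · rw [isNontrivialZero_iff] at h1 ⊢
    rw [xi_one_sub, xi_conj, h1, map_zero]
  · simpa using h2
  · simpa using h3

private lemma mx_refl (ρ : ℂ) : mx (1 - starRingEnd ℂ ρ) = mx ρ := by
  unfold mx
  rw [order_one_sub, order_conj]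

open Classical in
private lemma offCount_le {T ε A : ℝ} (hε : 0 < ε) (hA : ε ≤ A) :
    offCount T ε ≤ 2 * (∑ ρ ∈ (Zf T).filter (fun ρ => ε ≤ Real.log T * (ρ.re - 1 / 2) ∧
      Real.log T * (ρ.re - 1 / 2) ≤ A), mx ρ) +
      2 * ((∑ ρ ∈ Zf T, mx ρ * (Real.log T * (ρ.re - 1 / 2)) ^ 2) / A ^ 2) := by
  set x : ℂ → ℝ := fun ρ => Real.log T * (ρ.re - 1 / 2) with hx
  have hA0 : 0 < A := lt_of_lt_of_le hε hA
  have hxr : ∀ ρ : ℂ, x (1 - starRingEnd ℂ ρ) = - x ρ := by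
    intro ρ
    simp only [hx, sub_re, one_re, conj_re]
    ring
  have e0 : offCount T ε = ∑ ρ ∈ (Zf T).filter (fun ρ => ε ≤ |x ρ|), mx ρ := rfl
  have e1 : ∑ ρ ∈ (Zf T).filter (fun ρ => ε ≤ |x ρ|), mx ρ ≤
      ∑ ρ ∈ (Zf T).filter (fun ρ => ε ≤ x ρ), mx ρ + ∑ ρ ∈ (Zf T).filter (fun ρ => ε ≤ -x ρ), mx ρ := by
    rw [Finset.sum_filter, Finset.sum_filter, Finset.sum_filter, ← Finset.sum_add_distrib]
    refine Finset.sum_le_sum fun ρ _ => ?_
    have hm := mx_nonneg ρ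
    by_cases h1 : ε ≤ |x ρ|
    · rcases le_abs.mp h1 with h2 | h2
      · rw [if_pos h1, if_pos h2]
        have : 0 ≤ (if ε ≤ -x ρ then mx ρ else 0) := by split_ifs <;> simp [hm]
        linarith
      · rw [if_pos h1, if_pos h2]
        have : 0 ≤ (if ε ≤ x ρ then mx ρ else 0) := by split_ifs <;> simp [hm]
        linarith
    · rw [if_neg h1]
      have h3 : 0 ≤ (if ε ≤ x ρ then mx ρ else 0) := by split_ifs <;> simp [hm]
      have h4 : 0 ≤ (if ε ≤ -x ρ then mx ρ else 0) := by split_ifs <;> simp [hm]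
      linarith
  have e2 : ∑ ρ ∈ (Zf T).filter (fun ρ => ε ≤ -x ρ), mx ρ = ∑ ρ ∈ (Zf T).filter (fun ρ => ε ≤ x ρ), mx ρ := by
    apply Finset.sum_nbij' (fun ρ => 1 - starRingEnd ℂ ρ) (fun ρ => 1 - starRingEnd ℂ ρ)
    · intro ρ hρ
      rw [Finset.mem_filter] at hρ ⊢
      exact ⟨refl_mem_Zf hρ.1, by rw [hxr]; exact hρ.2⟩
    · intro ρ hρ
      rw [Finset.mem_filter] at hρ ⊢
      exact ⟨refl_mem_Zf hρ.1, by rw [hxr, neg_neg]; exact hρ.2⟩
    · intro ρ _; simp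
    · intro ρ _; simp
    · intro ρ _; exact (mx_refl ρ).symm
  have e3 : ∑ ρ ∈ (Zf T).filter (fun ρ => ε ≤ x ρ), mx ρ ≤
      ∑ ρ ∈ (Zf T).filter (fun ρ => ε ≤ x ρ ∧ x ρ ≤ A), mx ρ + (∑ ρ ∈ Zf T, mx ρ * x ρ ^ 2) / A ^ 2 := by
    rw [Finset.sum_filter, Finset.sum_filter, Finset.sum_div, ← Finset.sum_add_distrib]
    refine Finset.sum_le_sum fun ρ _ => ?_
    have hm := mx_nonneg ρ
    have hq : 0 ≤ mx ρ * x ρ ^ 2 / A ^ 2 := by positivity
    by_cases h1 : ε ≤ x ρ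
    · by_cases h2 : x ρ ≤ A
      · rw [if_pos h1, if_pos ⟨h1, h2⟩]; linarith
      · rw [if_pos h1, if_neg (fun h => h2 h.2)]
        push Not at h2
        rw [zero_add, le_div_iff₀ (by positivity)]
        gcongr
    · rw [if_neg h1]
      have h4 : 0 ≤ (if ε ≤ x ρ ∧ x ρ ≤ A then mx ρ else 0) := by split_ifs <;> simp [hm]
      linarith
  rw [e0]
  rw [e2] at e1
  linarith

theorem offLine_of_meanSq {l : Filter ℝ} [l.IsCountablyGenerated] (hl : l ≤ atTop)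
    (h : ∀ a : ℝ, 0 < a → MeanSqAt l a) : OffLine l := by
  classical
  intro ε hε
  obtain ⟨C, T₀, hC, hx2⟩ := sum_x2
  rw [Metric.tendsto_nhds]
  intro κ hκ
  have hpi := Real.pi_pos
  obtain ⟨A, hA1, hA2⟩ : ∃ A : ℝ, ε ≤ A ∧ 2 * (C * (2 * Real.pi) / A ^ 2) ≤ κ / 3 := by
    refine ⟨max ε (Real.sqrt (6 * (C * (2 * Real.pi)) / κ)), le_max_left _ _, ?_⟩
    set A := max ε (Real.sqrt (6 * (C * (2 * Real.pi)) / κ)) with hAdef
    have hA0 : 0 < A := lt_of_lt_of_le hε (le_max_left _ _)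
    have h1 : 6 * (C * (2 * Real.pi)) / κ ≤ A ^ 2 := by
      rw [← Real.sqrt_le_left hA0.le]
      exact le_max_right _ _
    rw [div_le_iff₀ hκ] at h1
    rw [← mul_div_assoc, div_le_iff₀ (by positivity)]
    linarith
  have hA0 : 0 < A := lt_of_lt_of_le hε hA1
  filter_upwards [band_rare hl h hε hA1 (κ := κ / 6) (by positivity), hl (eventually_ge_atTop T₀),
    hl (eventually_gt_atTop 1)] with T h1 h2 h3
  have hS := SN_pos h3
  have h4 := offCount_le (T := T) hε hA1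
  have h5 := hx2 T h2
  have h6 : (∑ ρ ∈ Zf T, mx ρ * (Real.log T * (ρ.re - 1 / 2)) ^ 2) / A ^ 2 ≤
      C * (2 * Real.pi) / A ^ 2 * SN T := by
    rw [div_mul_eq_mul_div]
    gcongr
    refine h5.trans (le_of_eq ?_)
    unfold SN
    field_simp
  have h7 : 2 * (C * (2 * Real.pi) / A ^ 2 * SN T) ≤ κ / 3 * SN T := by
    have := mul_le_mul_of_nonneg_right hA2 hS.le
    linarith
  have h8 : 0 ≤ offCount T ε := by
    unfold offCount
    exact Finset.sum_nonneg fun ρ _ => mx_nonneg ρ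
  rw [Real.dist_eq, sub_zero, abs_of_nonneg (by positivity), div_lt_iff₀ hS]
  have h9 : 0 < κ * SN T := by positivity
  nlinarith

end Pool.Agent.Helper69.GGM
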