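import Mathlib

/-!
# GGM block KI: the kernel integral

`kk a A y = 1/(a - iy) - 1/(A - iy)`. Claim: for `a, A > 0` and real `w` the product
`kk a A (y+w) * conj (kk a A y)` is integrable in `y` and the real part of its integral is
`2π (2a/((2a)²+w²) - 2(a+A)/((a+A)²+w²) + 2A/((2A)²+w²))`.

Proof (elementary). For `p,q ∈ {a,A}`:
`1/((p-i(y+w))(q+iy)) = (1/(p-i(y+w)) + 1/(q+iy)) / (p+q-iw)` and the numerator has the primitive
`arctan((y+w)/p) + arctan(y/q) + (i/2) (log(p²+(y+w)²) - log(q²+y²))`, which tends to `± π`.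
-/

open Complex Set MeasureTheory Filter Topology

namespace Pool.Agent.Helper69.GGM

noncomputable def kk (a A y : ℝ) : ℂ := 1 / ((a : ℂ) - (y : ℂ) * I) - 1 / ((A : ℂ) - (y : ℂ) * I)

namespace KI

/-- the cross term -/
noncomputable def cr (p q w y : ℝ) : ℂ :=
  1 / ((p : ℂ) - ((y + w : ℝ) : ℂ) * I) * (1 / ((q : ℂ) + (y : ℂ) * I))

lemma u_ne {p : ℝ} (hp : 0 < p) (x : ℝ) : (p : ℂ) - (x : ℂ) * I ≠ 0 := by
  intro h
  have := congrArg Complex.re h
  simp at this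
  exact hp.ne' this

lemma v_ne {p : ℝ} (hp : 0 < p) (x : ℝ) : (p : ℂ) + (x : ℂ) * I ≠ 0 := by
  intro h
  have := congrArg Complex.re h
  simp at this
  exact hp.ne' this

lemma norm_u (p x : ℝ) : ‖(p : ℂ) - (x : ℂ) * I‖ ^ 2 = p ^ 2 + x ^ 2 := by
  rw [← Complex.normSq_eq_norm_sq, Complex.normSq_apply]
  simp
  ring

lemma norm_v (p x : ℝ) : ‖(p : ℂ) + (x : ℂ) * I‖ ^ 2 = p ^ 2 + x ^ 2 := by
  rw [← Complex.normSq_eq_norm_sq, Complex.normSq_apply]
  simp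
  ring

lemma int_sq {q : ℝ} (hq : 0 < q) : Integrable (fun y : ℝ => (q ^ 2 + y ^ 2)⁻¹) := by
  have h := (integrable_inv_one_add_sq.comp_div (R := q) hq.ne').const_mul (q ^ 2)⁻¹
  refine h.congr (Eventually.of_forall fun y => ?_)
  have hq2 : q ^ 2 ≠ 0 := by positivity
  have h1 : q ^ 2 + y ^ 2 ≠ 0 := by positivity
  have h2 : (1 : ℝ) + (y / q) ^ 2 ≠ 0 := by positivity
  simp only
  rw [← mul_inv]
  congr 1
  field_simp

lemma cont_cr {p q : ℝ} (hp : 0 < p) (hq : 0 < q) (w : ℝ) : Continuous (cr p q w) := by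
  unfold cr
  refine Continuous.mul ?_ ?_
  · refine Continuous.div continuous_const (by fun_prop) (fun y => u_ne hp _)
  · refine Continuous.div continuous_const (by fun_prop) (fun y => v_ne hq _)

lemma int_cr {p q : ℝ} (hp : 0 < p) (hq : 0 < q) (w : ℝ) : Integrable (cr p q w) := by
  have h1 : Integrable (fun y : ℝ => (p ^ 2 + (y + w) ^ 2)⁻¹) := (int_sq hp).comp_add_right w
  have h2 : Integrable (fun y : ℝ => (q ^ 2 + y ^ 2)⁻¹) := int_sq hq
  refine Integrable.mono' (h1.add h2) (cont_cr hp hq w).aestronglyMeasurable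
    (Eventually.of_forall fun y => ?_)
  unfold cr
  rw [norm_mul, norm_div, norm_div, norm_one]
  set s := ‖(p : ℂ) - ((y + w : ℝ) : ℂ) * I‖ with hs
  set t := ‖(q : ℂ) + (y : ℂ) * I‖ with ht
  have hs2 : s ^ 2 = p ^ 2 + (y + w) ^ 2 := norm_u p (y + w)
  have ht2 : t ^ 2 = q ^ 2 + y ^ 2 := norm_v q y
  simp only [Pi.add_apply]
  rw [← hs2, ← ht2]
  have e1 : (s ^ 2)⁻¹ = (1 / s) ^ 2 := by rw [div_pow, one_pow, one_div]
  have e2 : (t ^ 2)⁻¹ = (1 / t) ^ 2 := by rw [div_pow, one_pow, one_div]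
  rw [e1, e2]
  nlinarith [sq_nonneg (1 / s - 1 / t), sq_nonneg (1 / s), sq_nonneg (1 / t)]

/-- the primitive -/
noncomputable def pr (p q w y : ℝ) : ℂ :=
  ((Real.arctan ((y + w) / p) + Real.arctan (y / q) : ℝ) : ℂ) +
    ((1 / 2 * (Real.log (p ^ 2 + (y + w) ^ 2) - Real.log (q ^ 2 + y ^ 2)) : ℝ) : ℂ) * I

lemma deriv_pr {p q : ℝ} (hp : 0 < p) (hq : 0 < q) (w y : ℝ) :
    HasDerivAt (pr p q w) (((p : ℂ) + q - w * I) * cr p q w y) y := by
  have hA : HasDerivAt (fun y : ℝ => (y + w) / p) (1 / p) y :=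
    ((hasDerivAt_id y).add_const w).div_const p
  have hB : HasDerivAt (fun y : ℝ => y / q) (1 / q) y := (hasDerivAt_id y).div_const q
  have h1 : HasDerivAt (fun y : ℝ => Real.arctan ((y + w) / p) + Real.arctan (y / q))
      (p / (p ^ 2 + (y + w) ^ 2) + q / (q ^ 2 + y ^ 2)) y := by
    have := hA.arctan.add hB.arctan
    refine this.congr_deriv ?_
    have e1 : p ^ 2 + (y + w) ^ 2 ≠ 0 := by positivity
    have e2 : q ^ 2 + y ^ 2 ≠ 0 := by positivity
    have e3 : (1 : ℝ) + ((y + w) / p) ^ 2 ≠ 0 := by positivity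
    have e4 : (1 : ℝ) + (y / q) ^ 2 ≠ 0 := by positivity
    have f1 : 1 / (1 + ((y + w) / p) ^ 2) * (1 / p) = p / (p ^ 2 + (y + w) ^ 2) := by
      field_simp
    have f2 : 1 / (1 + (y / q) ^ 2) * (1 / q) = q / (q ^ 2 + y ^ 2) := by
      field_simp
    rw [f1, f2]
  have h2 : HasDerivAt (fun y : ℝ => 1 / 2 * (Real.log (p ^ 2 + (y + w) ^ 2) -
      Real.log (q ^ 2 + y ^ 2)))
      ((y + w) / (p ^ 2 + (y + w) ^ 2) - y / (q ^ 2 + y ^ 2)) y := by
    have a1 : HasDerivAt (fun y : ℝ => p ^ 2 + (y + w) ^ 2) (2 * (y + w)) y := by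
      have := (((hasDerivAt_id y).add_const w).pow 2).const_add (p ^ 2)
      simpa using this
    have a2 : HasDerivAt (fun y : ℝ => q ^ 2 + y ^ 2) (2 * y) y := by
      have := ((hasDerivAt_id y).pow 2).const_add (q ^ 2)
      simpa using this
    have e1 : p ^ 2 + (y + w) ^ 2 ≠ 0 := by positivity
    have e2 : q ^ 2 + y ^ 2 ≠ 0 := by positivity
    have := ((a1.log e1).sub (a2.log e2)).const_mul (1 / 2)
    refine this.congr_deriv ?_
    field_simp
  have h3 := h1.ofReal_comp.add (h2.ofReal_comp.mul_const I)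
  refine h3.congr_deriv ?_
  unfold cr
  have n1 : ((p : ℂ) ^ 2 + (y + w) ^ 2) = ((p : ℂ) - ((y + w : ℝ) : ℂ) * I) *
      ((p : ℂ) + ((y + w : ℝ) : ℂ) * I) := by
    push_cast
    ring_nf
    rw [I_sq]
    ring
  have n2 : ((q : ℂ) ^ 2 + y ^ 2) = ((q : ℂ) - (y : ℂ) * I) * ((q : ℂ) + (y : ℂ) * I) := by
    ring_nf
    rw [I_sq]
    ring
  have g1 := u_ne hp (y + w)
  have g2 := v_ne hp (y + w)
  have g3 := u_ne hq y
  have g4 := v_ne hq y
  have k1 : ((p / (p ^ 2 + (y + w) ^ 2) + q / (q ^ 2 + y ^ 2) : ℝ) : ℂ) +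
      (((y + w) / (p ^ 2 + (y + w) ^ 2) - y / (q ^ 2 + y ^ 2) : ℝ) : ℂ) * I =
      ((p : ℂ) + ((y + w : ℝ) : ℂ) * I) / ((p : ℂ) ^ 2 + (y + w) ^ 2) +
        ((q : ℂ) - (y : ℂ) * I) / ((q : ℂ) ^ 2 + y ^ 2) := by
    push_cast
    ring
  have k2 : ((p : ℂ) + ((y + w : ℝ) : ℂ) * I) / ((p : ℂ) ^ 2 + (y + w) ^ 2) =
      1 / ((p : ℂ) - ((y + w : ℝ) : ℂ) * I) := by
    rw [n1, div_eq_div_iff (mul_ne_zero g1 g2) g1]
    ring
  have k3 : ((q : ℂ) - (y : ℂ) * I) / ((q : ℂ) ^ 2 + y ^ 2) = 1 / ((q : ℂ) + (y : ℂ) * I) := by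
    rw [n2, div_eq_div_iff (mul_ne_zero g3 g4) g4]
    ring
  rw [k1, k2, k3, div_add_div _ _ g1 g4, div_mul_div_comm, ← mul_div_assoc]
  congr 1
  push_cast
  ring

lemma log_lim {p q : ℝ} (hp : 0 < p) (hq : 0 < q) (w : ℝ) {l : Filter ℝ}
    (hl : Tendsto (fun y : ℝ => y⁻¹) l (𝓝 0)) (hl0 : ∀ᶠ y : ℝ in l, y ≠ 0) :
    Tendsto (fun y : ℝ => Real.log (p ^ 2 + (y + w) ^ 2) - Real.log (q ^ 2 + y ^ 2)) l (𝓝 0) := by
  have h1 : Tendsto (fun y : ℝ => (p ^ 2 * (y⁻¹) ^ 2 + (1 + w * y⁻¹) ^ 2) /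
      (q ^ 2 * (y⁻¹) ^ 2 + 1)) l (𝓝 ((p ^ 2 * 0 ^ 2 + (1 + w * 0) ^ 2) / (q ^ 2 * 0 ^ 2 + 1))) := by
    refine Tendsto.div ?_ ?_ (by norm_num)
    · exact ((hl.pow 2).const_mul _).add (((hl.const_mul w).const_add 1).pow 2)
    · exact ((hl.pow 2).const_mul _).add_const 1
  have h2 := (Real.continuousAt_log (x := 1) one_ne_zero).tendsto
  have h3 : (p ^ 2 * 0 ^ 2 + (1 + w * 0) ^ 2) / (q ^ 2 * 0 ^ 2 + 1) = (1 : ℝ) := by norm_num
  rw [h3] at h1
  have h4 := h2.comp h1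
  rw [Real.log_one] at h4
  refine h4.congr' ?_
  filter_upwards [hl0] with y hy
  have e1 : p ^ 2 + (y + w) ^ 2 ≠ 0 := by positivity
  have e2 : q ^ 2 + y ^ 2 ≠ 0 := by positivity
  rw [Function.comp_apply, ← Real.log_div e1 e2]
  congr 1
  have e3 : q ^ 2 * (y⁻¹) ^ 2 + 1 ≠ 0 := by positivity
  field_simp

lemma pr_atTop {p q : ℝ} (hp : 0 < p) (hq : 0 < q) (w : ℝ) :
    Tendsto (pr p q w) atTop (𝓝 (Real.pi : ℂ)) := by
  have a1 : Tendsto (fun y : ℝ => (y + w) / p) atTop atTop :=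
    (tendsto_atTop_add_const_right _ w tendsto_id).atTop_div_const hp
  have a2 : Tendsto (fun y : ℝ => y / q) atTop atTop := tendsto_id.atTop_div_const hq
  have h1 := (tendsto_nhds_of_tendsto_nhdsWithin (Real.tendsto_arctan_atTop.comp a1)).add
    (tendsto_nhds_of_tendsto_nhdsWithin (Real.tendsto_arctan_atTop.comp a2))
  have h2 := (log_lim hp hq w tendsto_inv_atTop_zero (eventually_ne_atTop 0)).const_mul (1 / 2)
  have h3 := ((Complex.continuous_ofReal.tendsto _).comp h1).add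
    (((Complex.continuous_ofReal.tendsto _).comp h2).mul_const I)
  have e : ((Real.pi / 2 + Real.pi / 2 : ℝ) : ℂ) + ((1 / 2 * 0 : ℝ) : ℂ) * I = (Real.pi : ℂ) := by
    push_cast
    ring
  rw [e] at h3
  exact h3

lemma pr_atBot {p q : ℝ} (hp : 0 < p) (hq : 0 < q) (w : ℝ) :
    Tendsto (pr p q w) atBot (𝓝 (-(Real.pi : ℂ))) := by
  have a1 : Tendsto (fun y : ℝ => (y + w) / p) atBot atBot :=
    (tendsto_atBot_add_const_right _ w tendsto_id).atBot_div_const hp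
  have a2 : Tendsto (fun y : ℝ => y / q) atBot atBot := tendsto_id.atBot_div_const hq
  have h1 := (tendsto_nhds_of_tendsto_nhdsWithin (Real.tendsto_arctan_atBot.comp a1)).add
    (tendsto_nhds_of_tendsto_nhdsWithin (Real.tendsto_arctan_atBot.comp a2))
  have h2 := (log_lim hp hq w tendsto_inv_atBot_zero (eventually_ne_atBot 0)).const_mul (1 / 2)
  have h3 := ((Complex.continuous_ofReal.tendsto _).comp h1).add
    (((Complex.continuous_ofReal.tendsto _).comp h2).mul_const I)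
  have e : ((-(Real.pi / 2) + -(Real.pi / 2) : ℝ) : ℂ) + ((1 / 2 * 0 : ℝ) : ℂ) * I =
      -(Real.pi : ℂ) := by
    push_cast
    ring
  rw [e] at h3
  exact h3

lemma cr_integral {p q : ℝ} (hp : 0 < p) (hq : 0 < q) (w : ℝ) :
    ∫ y : ℝ, cr p q w y = 2 * Real.pi / ((p : ℂ) + q - w * I) := by
  have hne : (p : ℂ) + q - w * I ≠ 0 := by
    have := u_ne (p := p + q) (by positivity) w
    push_cast at this
    exact this
  have h := integral_of_hasDerivAt_of_tendsto (fun y => deriv_pr hp hq w y)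
    ((int_cr hp hq w).const_mul _) (pr_atBot hp hq w) (pr_atTop hp hq w)
  rw [integral_const_mul] at h
  rw [eq_div_iff hne, mul_comm, h]
  ring

lemma re_term (c w : ℝ) (hc : 0 < c) : (2 * (Real.pi : ℂ) / ((c : ℂ) - w * I)).re =
    2 * Real.pi * (c / (c ^ 2 + w ^ 2)) := by
  have hne := u_ne hc w
  have e : (2 * (Real.pi : ℂ) / ((c : ℂ) - w * I)) =
      ((2 * Real.pi * (c / (c ^ 2 + w ^ 2)) : ℝ) : ℂ) +
      ((2 * Real.pi * (w / (c ^ 2 + w ^ 2)) : ℝ) : ℂ) * I := by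
    have n1 : ((c : ℂ) ^ 2 + w ^ 2) = ((c : ℂ) - (w : ℂ) * I) * ((c : ℂ) + (w : ℂ) * I) := by
      ring_nf
      rw [I_sq]
      ring
    have hne2 := v_ne hc w
    have hh : ((c : ℂ) ^ 2 + w ^ 2) ≠ 0 := by rw [n1]; exact mul_ne_zero hne hne2
    push_cast
    rw [div_eq_iff hne]
    field_simp
    rw [n1]
    ring
  rw [e, Complex.add_re, Complex.ofReal_re, Complex.re_ofReal_mul, I_re]
  ring

lemma expand (a A w y : ℝ) : kk a A (y + w) * (starRingEnd ℂ) (kk a A y) =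
    cr a a w y - cr a A w y - (cr A a w y - cr A A w y) := by
  have h : ∀ b : ℝ, (starRingEnd ℂ) (1 / ((b : ℂ) - (y : ℂ) * I)) = 1 / ((b : ℂ) + (y : ℂ) * I) := by
    intro b
    rw [map_div₀, map_one, map_sub, map_mul, conj_ofReal, conj_ofReal, conj_I]
    congr 1
    ring
  unfold kk cr
  rw [map_sub, h, h]
  ring

end KI

open KI

lemma kk_prod_integrable {a A : ℝ} (ha : 0 < a) (hA : 0 < A) (w : ℝ) :
    Integrable (fun y : ℝ => kk a A (y + w) * (starRingEnd ℂ) (kk a A y)) := by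
  have h := (((int_cr ha ha w).sub (int_cr ha hA w)).sub ((int_cr hA ha w).sub (int_cr hA hA w)))
  refine h.congr (Eventually.of_forall fun y => ?_)
  simp only [Pi.sub_apply]
  rw [expand]

lemma kk_prod_integral {a A : ℝ} (ha : 0 < a) (hA : 0 < A) (w : ℝ) :
    (∫ y : ℝ, kk a A (y + w) * (starRingEnd ℂ) (kk a A y)).re =
      2 * Real.pi * (2 * a / ((2 * a) ^ 2 + w ^ 2) - 2 * ((a + A) / ((a + A) ^ 2 + w ^ 2)) +
        2 * A / ((2 * A) ^ 2 + w ^ 2)) := by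
  have e : (fun y : ℝ => kk a A (y + w) * (starRingEnd ℂ) (kk a A y)) =
      fun y => (cr a a w y - cr a A w y) - (cr A a w y - cr A A w y) := by
    funext y
    rw [expand]
  have i1 := int_cr ha ha w
  have i2 := int_cr ha hA w
  have i3 := int_cr hA ha w
  have i4 := int_cr hA hA w
  rw [e, integral_sub (f := fun y => cr a a w y - cr a A w y)
    (g := fun y => cr A a w y - cr A A w y) (i1.sub i2) (i3.sub i4), integral_sub i1 i2,
    integral_sub i3 i4, cr_integral ha ha, cr_integral ha hA, cr_integral hA ha, cr_integral hA hA]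
  have r1 := re_term (a + a) w (by positivity)
  have r2 := re_term (a + A) w (by positivity)
  have r3 := re_term (A + a) w (by positivity)
  have r4 := re_term (A + A) w (by positivity)
  push_cast at r1 r2 r3 r4
  simp only [Complex.sub_re]
  rw [r1, r2, r3, r4, add_comm A a, ← two_mul a, ← two_mul A]
  ring

end Pool.Agent.Helper69.GGM
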