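import Pool.Agent.Helper69.GGM.Psi4

/-!
# GGM block M4a: fourth power versions of classG, classH, classH0, classH1

ADAPT the proofs of `classG`, `classH`, `classH0`, `classH1` in `Pool/Agent/Helper57/M/D.lean`
(lines 2122-2330); copy them and change the last steps.

* `classG4`: as in classG one has `n <= 6 (A + 2 e)` with `n` the sum, `A` the circle average of
  `log (1 + ‖ET‖)`, `e = ‖ET c‖ <= 1/2`. Use `log (1+y) <= 2 sqrt y` (as in classH), so `A <= 2 b`,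
  `b` = average of `sqrt ‖ET‖`, `b^2 <= a`, `a^2 <= KK*AH` (`avg_E_sq`). Hence
  `n^4 <= 1296*8*(A^4 + 16 e^4) <= 10368 (16 KK AH + 4 KK ‖HT‖^2)` (use `e^4 <= e^2/4`, `ET_c_le`).
* `classH4`: `n <= 10 V (A + 1)`; now use `log (1+y) <= 4 y^(1/4) = 4 sqrt (sqrt y)`, so `A <= 4 d`,
  `d` = average of `sqrt (sqrt ‖ET‖)`, `d^2 <= b`, `b^2 <= a` (`avg_sq_le` twice), so
  `n^4 <= 10^4 V^4 (4 d + 1)^4 <= 10^4 V^4 * 8 (256 a + 1) <= 3*10^7 V^4 (a + 1)`.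
* `classH04`: V = 1 and `a + 1 <= 2 (1 + a^2)`.
* `classH14`: `a <= (lam⁻¹ a^2 + lam)/2`, `1 <= lam`, and `1 <= 4 KK ‖HT(V/2)‖^2` from `hbad`.
-/

open Complex Set MeasureTheory Filter Topology Metric
open Pool.Agent.Helper57.LH Pool.Agent.Helper57.Zeta

namespace Pool.Agent.Helper69.GGM

lemma classG4 {T L w τ : ℝ} (hT : 20 ≤ T) (hL : L = Real.log T) (hL40 : 40 ≤ L) (hw : 1 ≤ w) (hwL : w ≤ L)
    (hτ : 10 ≤ |τ|) (hτ3 : |τ| ≤ 3 * T) (hgood : ‖ET T ((sg L w : ℝ) + τ * I)‖ ≤ 1 / 2)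
    (F : Finset ℂ) (hF : ∀ ρ ∈ F, xi ρ = 0 ∧ w ≤ L * (ρ.re - 1 / 2) ∧ L * (ρ.re - 1 / 2) ≤ 2 * w ∧
      L * |ρ.im - τ| ≤ 1) :
    (∑ ρ ∈ F, (analyticOrderNatAt xi ρ : ℝ)) ^ 4 ≤
      200000 * KK * (AH T ((sg L w : ℝ) + τ * I) (39 / 10 * w / L) + ‖HT T ((sg L w : ℝ) + τ * I)‖ ^ 2) := by
  have hL0 : 0 < L := by linarith only [hL40]
  set σ := sg L w with hσ
  have hwL1 : w / L ≤ 1 := by rw [div_le_one hL0]; exact hwL
  have hwL0 : 0 < w / L := by positivity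
  set R := 39 / 10 * w / L with hR
  set r := 32 / 10 * w / L with hr
  have hR' : R = 39 / 10 * (w / L) := by rw [hR]; ring
  have hr' : r = 32 / 10 * (w / L) := by rw [hr]; ring
  have hσ' : σ = 1 / 2 + 4 * (w / L) := by rw [hσ]; unfold sg; ring
  have hr0 : 0 < r := by rw [hr']; positivity
  have hrR : r < R := by rw [hr', hR']; linarith only [hwL0]
  have hR0 : 0 < R := hr0.trans hrR
  have hR5 : R ≤ 9 / 2 := by rw [hR']; linarith only [hwL1]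
  have hRσ : R < σ := by rw [hR', hσ']; linarith only [hwL0]
  have hσ9 : σ + R ≤ 9 := by rw [hR', hσ']; linarith only [hwL1]
  have e1 : (σ + τ * I : ℂ).re = σ := by simp
  have e2 : (σ + τ * I : ℂ).im = τ := by simp
  have hcount := count_le (T := T) (c := σ + τ * I) hr0 hrR (by rw [e2]; linarith only [hτ, hwL1, hR']) (by rw [e1]; exact hRσ) hgood F (by
    intro ρ hρ
    obtain ⟨h0, h1, h2, h3⟩ := hF ρ hρ
    refine ⟨h0, ?_⟩
    rw [hr]
    apply dist_scale hL0 rfl rfl (by positivity)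
    have : 0 ≤ L * |ρ.im - τ| := by positivity
    nlinarith only [hw, h1, h2, h3, this])
  have hE := ET_contOn hT hτ hτ3 hR0.le hR5 hRσ hσ9
  set a := Real.circleAverage (fun z => ‖ET T z‖) (σ + τ * I) R with ha
  have ha2 : a ^ 2 ≤ KK * AH T (σ + τ * I) R := avg_E_sq hT hτ hτ3 hR0.le hR5 hRσ hσ9
  have ha0 : 0 ≤ a := Real.circleAverage_nonneg_of_nonneg (fun _ _ => norm_nonneg _)
  set b := Real.circleAverage (fun z => Real.sqrt ‖ET T z‖) (σ + τ * I) R with hb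
  have hb0 : 0 ≤ b := Real.circleAverage_nonneg_of_nonneg (fun _ _ => Real.sqrt_nonneg _)
  have hsq : ContinuousOn (fun z => Real.sqrt ‖ET T z‖) (sphere (σ + τ * I) |R|) :=
    Real.continuous_sqrt.comp_continuousOn hE.norm
  have hb2 : b ^ 2 ≤ a := by
    have := avg_sq_le hsq
    rw [← hb] at this
    refine this.trans (le_of_eq ?_)
    rw [ha]
    congr 1
    funext z
    exact Real.sq_sqrt (norm_nonneg _)
  have hlogb : Real.circleAverage (fun z => Real.log (1 + ‖ET T z‖)) (σ + τ * I) R ≤ 2 * b := by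
    rw [show 2 * b = Real.circleAverage (fun z => (2:ℝ) • Real.sqrt ‖ET T z‖) (σ + τ * I) R by
      rw [Real.circleAverage_fun_smul, smul_eq_mul]]
    apply Real.circleAverage_mono
    · exact log_circ hE
    · apply ContinuousOn.circleIntegrable'
      exact hsq.const_smul (2:ℝ)
    · intro z _
      simp only [smul_eq_mul]
      have hx := norm_nonneg (ET T z)
      set x := ‖ET T z‖
      have hs := Real.sqrt_nonneg x
      have hss := Real.sq_sqrt hx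
      have h2 := Real.log_le_sub_one_of_pos (show 0 < 1 + Real.sqrt x by linarith only [hs])
      have h3 : Real.log (1 + x) ≤ Real.log ((1 + Real.sqrt x) ^ 2) := by
        apply Real.log_le_log (by linarith only [hx])
        nlinarith only [hs, hss]
      rw [Real.log_pow] at h3
      push_cast at h3
      linarith only [h2, h3]
  have he2 := ET_c_le (σ := σ) hT hτ hτ3 (by linarith only [hwL0, hr', hrR, hRσ]) (by linarith only [hwL1, hR', hr', hσ', hrR])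
  set e := ‖ET T (σ + τ * I)‖ with he
  have he0 : 0 ≤ e := norm_nonneg _
  set n := ∑ ρ ∈ F, (analyticOrderNatAt xi ρ : ℝ) with hn
  have hn0 : 0 ≤ n := Finset.sum_nonneg fun _ _ => Nat.cast_nonneg _
  have hfrac : 1 / 6 ≤ 1 - r / R := by
    rw [hr', hR', mul_div_mul_right _ _ hwL0.ne']
    norm_num
  have h1 : n * (1 / 6) ≤ 2 * b + 2 * e := by
    calc n * (1 / 6) ≤ n * (1 - r / R) := by gcongr
      _ ≤ _ := by linarith only [hlogb, hcount]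
  have h2 : n ≤ 12 * (b + e) := by linarith only [h1]
  have h4 : (b + e) ^ 4 ≤ 8 * (b ^ 4 + e ^ 4) := by
    have h5 : (b + e) ^ 2 ≤ 2 * (b ^ 2 + e ^ 2) := by nlinarith only [sq_nonneg (b - e)]
    have h6 : ((b + e) ^ 2) ^ 2 ≤ (2 * (b ^ 2 + e ^ 2)) ^ 2 := by gcongr
    nlinarith only [h6, sq_nonneg (b ^ 2 - e ^ 2)]
  have h5 : b ^ 4 ≤ KK * AH T (σ + τ * I) R := by
    have h6 : (b ^ 2) ^ 2 ≤ a ^ 2 := by gcongr
    nlinarith only [h6, ha2]
  have h6 : e ^ 4 ≤ KK * ‖HT T (σ + τ * I)‖ ^ 2 := by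
    have h7 : e ^ 2 ≤ 1 := by nlinarith only [he0, hgood]
    have h8 : e ^ 4 ≤ e ^ 2 := by nlinarith only [h7, sq_nonneg e]
    exact h8.trans he2
  have h7 : 0 ≤ KK * AH T (σ + τ * I) R := by
    have := sq_nonneg a
    linarith only [this, ha2]
  have h8 : 0 ≤ KK * ‖HT T (σ + τ * I)‖ ^ 2 := by
    have := sq_nonneg e
    linarith only [this, he2]
  calc n ^ 4 ≤ (12 * (b + e)) ^ 4 := by gcongr
    _ = 20736 * (b + e) ^ 4 := by ring
    _ ≤ 20736 * (8 * (b ^ 4 + e ^ 4)) := by gcongr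
    _ ≤ 20736 * (8 * (KK * AH T (σ + τ * I) R + KK * ‖HT T (σ + τ * I)‖ ^ 2)) := by gcongr
    _ ≤ 200000 * (KK * AH T (σ + τ * I) R + KK * ‖HT T (σ + τ * I)‖ ^ 2) := by
        linarith only [h7, h8]
    _ = _ := by ring

lemma classH4 {T L V τ : ℝ} (hT : 20 ≤ T) (hL : L = Real.log T) (hL40 : 40 ≤ L) (hV : 1 ≤ V) (hVL : V ≤ L)
    (hτ : 10 ≤ |τ|) (hτ3 : |τ| ≤ 3 * T) (hgood : ‖ET T ((sg L V : ℝ) + τ * I)‖ ≤ 1 / 2)
    (F : Finset ℂ) (hF : ∀ ρ ∈ F, xi ρ = 0 ∧ 0 ≤ L * (ρ.re - 1 / 2) ∧ L * (ρ.re - 1 / 2) ≤ V ∧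
      L * |ρ.im - τ| ≤ 1) :
    ∃ a : ℝ, 0 ≤ a ∧ a ^ 2 ≤ KK * AH T ((sg L V : ℝ) + τ * I) ((4 * V + 1) / L) ∧
    (∑ ρ ∈ F, (analyticOrderNatAt xi ρ : ℝ)) ^ 4 ≤ 3 * 10 ^ 7 * V ^ 4 * (a + 1) := by
  have hL0 : 0 < L := by linarith only [hL40]
  set σ := sg L V with hσ
  have hVL1 : V / L ≤ 1 := by rw [div_le_one hL0]; exact hVL
  have hVL0 : 0 < V / L := by positivity
  have hL1 : 1 / L ≤ 1 / 40 := by gcongr
  have hL1' : 0 < 1 / L := by positivity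
  set R := (4 * V + 1) / L with hR
  set r := (4 * V + 1 / 2) / L with hr
  have hR' : R = 4 * (V / L) + 1 / L := by rw [hR]; ring
  have hr' : r = 4 * (V / L) + 1 / L / 2 := by rw [hr]; ring
  have hσ' : σ = 1 / 2 + 4 * (V / L) := by rw [hσ]; unfold sg; ring
  have hr0 : 0 < r := by rw [hr']; positivity
  have hrR : r < R := by rw [hr', hR']; linarith only [hL1']
  have hR0 : 0 < R := hr0.trans hrR
  have hR5 : R ≤ 9 / 2 := by rw [hR']; linarith only [hVL1, hL1]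
  have hRσ : R < σ := by rw [hR', hσ']; linarith only [hL1]
  have hσ9 : σ + R ≤ 9 := by rw [hR', hσ']; linarith only [hVL1, hL1]
  have e1 : (σ + τ * I : ℂ).re = σ := by simp
  have e2 : (σ + τ * I : ℂ).im = τ := by simp
  have hcount := count_le (T := T) (c := σ + τ * I) hr0 hrR (by rw [e2]; linarith only [hτ, hVL1, hL1, hL1', hR']) (by rw [e1]; exact hRσ) hgood F (by
    intro ρ hρ
    obtain ⟨h0, h1, h2, h3⟩ := hF ρ hρ
    refine ⟨h0, ?_⟩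
    rw [hr]
    apply dist_scale hL0 rfl rfl (by positivity)
    have : 0 ≤ L * |ρ.im - τ| := by positivity
    nlinarith only [hV, h1, h2, h3, this])
  have hE := ET_contOn hT hτ hτ3 hR0.le hR5 hRσ hσ9
  set a := Real.circleAverage (fun z => ‖ET T z‖) (σ + τ * I) R with ha
  have ha2 : a ^ 2 ≤ KK * AH T (σ + τ * I) R := avg_E_sq hT hτ hτ3 hR0.le hR5 hRσ hσ9
  have ha0 : 0 ≤ a := Real.circleAverage_nonneg_of_nonneg (fun _ _ => norm_nonneg _)
  set b := Real.circleAverage (fun z => Real.sqrt ‖ET T z‖) (σ + τ * I) R with hb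
  have hb0 : 0 ≤ b := Real.circleAverage_nonneg_of_nonneg (fun _ _ => Real.sqrt_nonneg _)
  have hsq : ContinuousOn (fun z => Real.sqrt ‖ET T z‖) (sphere (σ + τ * I) |R|) :=
    Real.continuous_sqrt.comp_continuousOn hE.norm
  have hb2 : b ^ 2 ≤ a := by
    have := avg_sq_le hsq
    rw [← hb] at this
    refine this.trans (le_of_eq ?_)
    rw [ha]
    congr 1
    funext z
    exact Real.sq_sqrt (norm_nonneg _)
  set d := Real.circleAverage (fun z => Real.sqrt (Real.sqrt ‖ET T z‖)) (σ + τ * I) R with hd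
  have hd0 : 0 ≤ d := Real.circleAverage_nonneg_of_nonneg (fun _ _ => Real.sqrt_nonneg _)
  have hsq2 : ContinuousOn (fun z => Real.sqrt (Real.sqrt ‖ET T z‖)) (sphere (σ + τ * I) |R|) :=
    Real.continuous_sqrt.comp_continuousOn hsq
  have hd2 : d ^ 2 ≤ b := by
    have := avg_sq_le hsq2
    rw [← hd] at this
    refine this.trans (le_of_eq ?_)
    rw [hb]
    congr 1
    funext z
    exact Real.sq_sqrt (Real.sqrt_nonneg _)
  have hlogd : Real.circleAverage (fun z => Real.log (1 + ‖ET T z‖)) (σ + τ * I) R ≤ 4 * d := by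
    rw [show 4 * d = Real.circleAverage (fun z => (4:ℝ) • Real.sqrt (Real.sqrt ‖ET T z‖)) (σ + τ * I) R by
      rw [Real.circleAverage_fun_smul, smul_eq_mul]]
    apply Real.circleAverage_mono
    · exact log_circ hE
    · apply ContinuousOn.circleIntegrable'
      exact hsq2.const_smul (4:ℝ)
    · intro z _
      simp only [smul_eq_mul]
      have hx := norm_nonneg (ET T z)
      set x := ‖ET T z‖
      have hs := Real.sqrt_nonneg x
      have hss := Real.sq_sqrt hx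
      have hy := Real.sqrt_nonneg (Real.sqrt x)
      have hyy := Real.sq_sqrt hs
      set y := Real.sqrt (Real.sqrt x)
      have h2 := Real.log_le_sub_one_of_pos (show 0 < 1 + y by linarith only [hy])
      have hx4 : x = y ^ 4 := by rw [← hss, ← hyy]; ring
      have h3 : Real.log (1 + x) ≤ Real.log ((1 + y) ^ 4) := by
        apply Real.log_le_log (by linarith only [hx])
        rw [hx4]
        nlinarith only [hy, pow_nonneg hy 2, pow_nonneg hy 3]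
      rw [Real.log_pow] at h3
      push_cast at h3
      linarith only [h2, h3]
  set e := ‖ET T (σ + τ * I)‖ with he
  set n := ∑ ρ ∈ F, (analyticOrderNatAt xi ρ : ℝ) with hn
  have hn0 : 0 ≤ n := Finset.sum_nonneg fun _ _ => Nat.cast_nonneg _
  have hfrac : 1 / (10 * V) ≤ 1 - r / R := by
    have e3 : 1 - r / R = (1 / 2) / (4 * V + 1) := by
      rw [hr, hR]
      field_simp
      ring
    rw [e3, div_le_div_iff₀ (by positivity) (by positivity)]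
    linarith only [hV]
  have h1 : n * (1 / (10 * V)) ≤ 4 * d + 1 := by
    calc n * (1 / (10 * V)) ≤ n * (1 - r / R) := by gcongr
      _ ≤ _ := by linarith only [hlogd, hgood, hcount]
  have h2 : n ≤ 10 * V * (4 * d + 1) := by
    rw [mul_one_div, div_le_iff₀ (by positivity)] at h1
    linarith only [h1]
  refine ⟨a, ha0, ha2, ?_⟩
  have h4 : (4 * d + 1) ^ 4 ≤ 8 * (256 * d ^ 4 + 1) := by
    have h5 : (4 * d + 1) ^ 2 ≤ 2 * (16 * d ^ 2 + 1) := by nlinarith only [sq_nonneg (4 * d - 1)]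
    have h6 : ((4 * d + 1) ^ 2) ^ 2 ≤ (2 * (16 * d ^ 2 + 1)) ^ 2 := by gcongr
    nlinarith only [h6, sq_nonneg (16 * d ^ 2 - 1)]
  have h5 : d ^ 4 ≤ a := by
    have h6 : (d ^ 2) ^ 2 ≤ b ^ 2 := by gcongr
    nlinarith only [h6, hb2]
  have h6 : (4 * d + 1) ^ 4 ≤ 3000 * (a + 1) := by linarith only [h4, h5, ha0]
  have hV4 : 0 ≤ 10 ^ 4 * V ^ 4 := by positivity
  calc n ^ 4 ≤ (10 * V * (4 * d + 1)) ^ 4 := by gcongr
    _ = 10 ^ 4 * V ^ 4 * (4 * d + 1) ^ 4 := by ring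
    _ ≤ 10 ^ 4 * V ^ 4 * (3000 * (a + 1)) := mul_le_mul_of_nonneg_left h6 hV4
    _ = _ := by ring

lemma classH04 {T L τ : ℝ} (hT : 20 ≤ T) (hL : L = Real.log T) (hL40 : 40 ≤ L)
    (hτ : 10 ≤ |τ|) (hτ3 : |τ| ≤ 3 * T) (hgood : ‖ET T ((sg L 1 : ℝ) + τ * I)‖ ≤ 1 / 2)
    (F : Finset ℂ) (hF : ∀ ρ ∈ F, xi ρ = 0 ∧ 0 ≤ L * (ρ.re - 1 / 2) ∧ L * (ρ.re - 1 / 2) ≤ 1 ∧
      L * |ρ.im - τ| ≤ 1) :
    (∑ ρ ∈ F, (analyticOrderNatAt xi ρ : ℝ)) ^ 4 ≤
      6 * 10 ^ 7 * (1 + KK * AH T ((sg L 1 : ℝ) + τ * I) (5 / L)) := by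
  obtain ⟨a, ha0, ha2, h⟩ := classH4 hT hL hL40 le_rfl (by linarith only [hL40]) hτ hτ3 hgood F hF
  rw [show (4 * 1 + 1 : ℝ) / L = 5 / L by norm_num] at ha2
  calc (∑ ρ ∈ F, (analyticOrderNatAt xi ρ : ℝ)) ^ 4 ≤ 3 * 10 ^ 7 * 1 ^ 4 * (a + 1) := h
    _ ≤ 6 * 10 ^ 7 * (1 + a ^ 2) := by nlinarith only [sq_nonneg (a - 1), sq_nonneg a]
    _ ≤ 6 * 10 ^ 7 * (1 + KK * AH T ((sg L 1 : ℝ) + τ * I) (5 / L)) := by gcongr

lemma classH14 {T L V τ lam : ℝ} (hT : 20 ≤ T) (hL : L = Real.log T) (hL40 : 40 ≤ L) (hV : 2 ≤ V) (hVL : V ≤ L)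
    (hlam : 1 ≤ lam)
    (hτ : 10 ≤ |τ|) (hτ3 : |τ| ≤ 3 * T) (hgood : ‖ET T ((sg L V : ℝ) + τ * I)‖ ≤ 1 / 2)
    (hbad : 1 / 2 < ‖ET T ((sg L (V / 2) : ℝ) + τ * I)‖)
    (F : Finset ℂ) (hF : ∀ ρ ∈ F, xi ρ = 0 ∧ 0 ≤ L * (ρ.re - 1 / 2) ∧ L * (ρ.re - 1 / 2) ≤ V ∧
      L * |ρ.im - τ| ≤ 1) :
    (∑ ρ ∈ F, (analyticOrderNatAt xi ρ : ℝ)) ^ 4 ≤
      3 * 10 ^ 8 * V ^ 4 * KK * (lam⁻¹ * AH T ((sg L V : ℝ) + τ * I) ((4 * V + 1) / L) +
        lam * ‖HT T ((sg L (V / 2) : ℝ) + τ * I)‖ ^ 2) := by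
  obtain ⟨a, ha0, ha2, h⟩ := classH4 hT hL hL40 (by linarith only [hV]) hVL hτ hτ3 hgood F hF
  have hL0 : 0 < L := by linarith only [hL40]
  have hlam0 : 0 < lam := by linarith only [hlam]
  have hVL0 : V / L ≤ 1 := by rw [div_le_one hL0]; exact hVL
  have hVLp : 0 < V / L := by positivity
  have hσ : sg L (V / 2) = 1 / 2 + 2 * (V / L) := by unfold sg; ring
  have h1 := ET_c_le (σ := sg L (V / 2)) hT hτ hτ3 (by rw [hσ]; linarith only [hVLp]) (by rw [hσ]; linarith only [hVL0])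
  have h2 : 1 ≤ 4 * (KK * ‖HT T ((sg L (V / 2) : ℝ) + τ * I)‖ ^ 2) := by
    have h3 : (1/2:ℝ) ^ 2 ≤ ‖ET T ((sg L (V / 2) : ℝ) + τ * I)‖ ^ 2 := by
      apply pow_le_pow_left₀ (by norm_num) hbad.le
    linarith only [h1, h3]
  set H := KK * ‖HT T ((sg L (V / 2) : ℝ) + τ * I)‖ ^ 2 with hH
  have hH0 : 0 ≤ H := by linarith only [h2]
  have hl0 : 0 < lam⁻¹ := inv_pos.2 hlam0
  have h4 : a + 1 ≤ lam⁻¹ * a ^ 2 + 2 * lam := by
    have h6 : lam⁻¹ * (a - lam) ^ 2 ≥ 0 := by positivity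
    have h7 : lam⁻¹ * (a - lam) ^ 2 = lam⁻¹ * a ^ 2 - 2 * a + lam := by
      field_simp
      ring
    have h8 : 0 ≤ lam⁻¹ * a ^ 2 := by positivity
    linarith only [h6, h7, h8, hlam]
  have h5 : lam⁻¹ * a ^ 2 ≤ lam⁻¹ * (KK * AH T ((sg L V : ℝ) + τ * I) ((4 * V + 1) / L)) :=
    mul_le_mul_of_nonneg_left ha2 hl0.le
  have h6 : 2 * lam ≤ 8 * (lam * H) := by
    have : lam * 1 ≤ lam * (4 * H) := mul_le_mul_of_nonneg_left h2 hlam0.le
    linarith only [this]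
  have h7 : 0 ≤ lam * H := by positivity
  have h8 : 0 ≤ lam⁻¹ * (KK * AH T ((sg L V : ℝ) + τ * I) ((4 * V + 1) / L)) := by
    have : 0 ≤ lam⁻¹ * a ^ 2 := by positivity
    linarith only [this, h5]
  have h9 : a + 1 ≤ 10 * (lam⁻¹ * (KK * AH T ((sg L V : ℝ) + τ * I) ((4 * V + 1) / L)) + lam * H) := by
    linarith only [h4, h5, h6, h7, h8]
  have hV4 : 0 ≤ 3 * 10 ^ 7 * V ^ 4 := by positivity
  calc (∑ ρ ∈ F, (analyticOrderNatAt xi ρ : ℝ)) ^ 4 ≤ 3 * 10 ^ 7 * V ^ 4 * (a + 1) := h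
    _ ≤ 3 * 10 ^ 7 * V ^ 4 * (10 * (lam⁻¹ * (KK * AH T ((sg L V : ℝ) + τ * I) ((4 * V + 1) / L)) + lam * H)) :=
        mul_le_mul_of_nonneg_left h9 hV4
    _ = _ := by rw [hH]; ring

end Pool.Agent.Helper69.GGM
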