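import Pool.Agent.Helper69.GGM.M4a

/-!
# GGM block M4b: pointwise bound for fourth powers of local counts

Adapted from `split_scales`, `cs_scales`, `pointwise_Q` of `Pool/Agent/Helper57/M/D.lean`.
(1) plain split: for `good T L K τ` and `0 <= L(ρ.re-1/2) < 2^K`
on `F`: `Σ_F m <= Σ_{j<=K} (Gc T L τ F j + Hc T L τ F j)` (a zero with `2^j <= x < 2^(j+1)`: if scale j is
good it is in Gc j, else it lies below the first good scale above j; zeros with `x < 1` lie below the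
first good scale `>= 0`). (2) `(Σ (a_j+b_j))^4 <= 64 Σ 8^j (a_j^4 + b_j^4)`: Cauchy-Schwarz twice,
`(Σ c_j)^2 <= 2 Σ 2^j c_j^2`, `(Σ 2^j c_j^2)^2 <= 2 Σ 2^j 4^j c_j^4`, and `(a+b)^4 <= 8 (a^4+b^4)`.
(3) insert `classG4`, `classH04`, `classH14` (`lam = exp (2^j/160)`) of block M4a.
-/

open Complex Set MeasureTheory Filter Topology Metric
open Pool.Agent.Helper57.LH Pool.Agent.Helper57.Zeta

namespace Pool.Agent.Helper69.GGM

private lemma split_plain {T L τ : ℝ} {K : ℕ} (hK : good T L K τ) (F : Finset ℂ)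
    (hF : ∀ ρ ∈ F, 0 ≤ L * (ρ.re - 1 / 2) ∧ L * (ρ.re - 1 / 2) < 2 ^ K) :
    ∑ ρ ∈ F, (analyticOrderNatAt xi ρ : ℝ) ≤
      ∑ j ∈ Finset.range (K + 1), (Gc T L τ F j + Hc T L τ F j) := by
  classical
  have e : ∀ j : ℕ, Gc T L τ F j + Hc T L τ F j =
      ∑ ρ ∈ F, (analyticOrderNatAt xi ρ : ℝ) *
        ((if good T L j τ ∧ ((2:ℝ) ^ j ≤ L * (ρ.re - 1 / 2) ∧ L * (ρ.re - 1 / 2) < 2 ^ (j + 1)) then (1:ℝ) else 0) +
        (if (good T L j τ ∧ (j = 0 ∨ ¬ good T L (j - 1) τ)) ∧ L * (ρ.re - 1 / 2) ≤ 2 ^ j then (1:ℝ) else 0)) := by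
    intro j
    simp_rw [mul_add]
    rw [Finset.sum_add_distrib]
    congr 1
    · unfold Gc
      by_cases h : good T L j τ
      · rw [if_pos h, Finset.sum_filter]
        refine Finset.sum_congr rfl fun ρ _ => ?_
        by_cases h2 : ((2:ℝ) ^ j ≤ L * (ρ.re - 1 / 2) ∧ L * (ρ.re - 1 / 2) < 2 ^ (j + 1))
        · rw [if_pos h2, if_pos ⟨h, h2⟩, mul_one]
        · rw [if_neg h2, if_neg (fun h3 => h2 h3.2), mul_zero]
      · rw [if_neg h]
        symm
        apply Finset.sum_eq_zero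
        intro ρ _
        rw [if_neg (fun h3 => h h3.1), mul_zero]
    · unfold Hc
      by_cases h : good T L j τ ∧ (j = 0 ∨ ¬ good T L (j - 1) τ)
      · rw [if_pos h, Finset.sum_filter]
        refine Finset.sum_congr rfl fun ρ _ => ?_
        by_cases h2 : L * (ρ.re - 1 / 2) ≤ 2 ^ j
        · rw [if_pos h2, if_pos ⟨h, h2⟩, mul_one]
        · rw [if_neg h2, if_neg (fun h3 => h2 h3.2), mul_zero]
      · rw [if_neg h]
        symm
        apply Finset.sum_eq_zero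
        intro ρ _
        rw [if_neg (fun h3 => h h3.1), mul_zero]
  simp_rw [e]
  rw [Finset.sum_comm]
  refine Finset.sum_le_sum fun ρ hρ => ?_
  rw [← Finset.mul_sum]
  apply le_mul_of_one_le_right (Nat.cast_nonneg _)
  obtain ⟨h0, h1⟩ := hF ρ hρ
  set v := L * (ρ.re - 1 / 2) with hv
  have hex : ∃ j : ℕ, good T L j τ ∧ v < 2 ^ j := ⟨K, hK, h1⟩
  set j := Nat.find hex with hj
  have hj1 : good T L j τ ∧ v < 2 ^ j := Nat.find_spec hex
  have hjK : j ≤ K := Nat.find_min' hex ⟨hK, h1⟩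
  have hnn : ∀ i ∈ Finset.range (K + 1), 0 ≤ ((if good T L i τ ∧ ((2:ℝ) ^ i ≤ v ∧ v < 2 ^ (i + 1)) then (1:ℝ) else 0) +
        (if (good T L i τ ∧ (i = 0 ∨ ¬ good T L (i - 1) τ)) ∧ v ≤ 2 ^ i then (1:ℝ) else 0)) := by
    intro i _
    apply add_nonneg
    · split_ifs
      · exact zero_le_one
      · exact le_rfl
    · split_ifs
      · exact zero_le_one
      · exact le_rfl
  by_cases hc : j = 0 ∨ ¬ good T L (j - 1) τ
  · refine le_trans ?_ (Finset.single_le_sum hnn (Finset.mem_range.mpr (Nat.lt_succ_of_le hjK)))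
    rw [if_pos (c := (good T L j τ ∧ (j = 0 ∨ ¬ good T L (j - 1) τ)) ∧ v ≤ 2 ^ j) ⟨⟨hj1.1, hc⟩, hj1.2.le⟩]
    have h3 : (0:ℝ) ≤ (if good T L j τ ∧ ((2:ℝ) ^ j ≤ v ∧ v < 2 ^ (j + 1)) then (1:ℝ) else 0) := by
      split_ifs
      · exact zero_le_one
      · exact le_rfl
    linarith only [h3]
  · push Not at hc
    obtain ⟨hj0, hgm⟩ := hc
    have hjm : j - 1 + 1 = j := Nat.succ_pred_eq_of_ne_zero hj0
    have hmin := Nat.find_min hex (m := j - 1) (by rw [← hj]; omega)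
    have hv2 : (2:ℝ) ^ (j - 1) ≤ v := by
      by_contra hlt
      exact hmin ⟨hgm, not_le.mp hlt⟩
    refine le_trans ?_ (Finset.single_le_sum hnn (Finset.mem_range.mpr (show j - 1 < K + 1 by omega)))
    rw [if_pos (c := good T L (j - 1) τ ∧ ((2:ℝ) ^ (j - 1) ≤ v ∧ v < 2 ^ (j - 1 + 1))) ⟨hgm, hv2, by rw [hjm]; exact hj1.2⟩]
    have h3 : (0:ℝ) ≤ (if (good T L (j - 1) τ ∧ (j - 1 = 0 ∨ ¬ good T L (j - 1 - 1) τ)) ∧ v ≤ 2 ^ (j - 1) then (1:ℝ) else 0) := by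
      split_ifs
      · exact zero_le_one
      · exact le_rfl
    linarith only [h3]

private lemma cs_one (K : ℕ) (c : ℕ → ℝ) :
    (∑ j ∈ Finset.range (K + 1), c j) ^ 2 ≤ 2 * ∑ j ∈ Finset.range (K + 1), 2 ^ j * c j ^ 2 := by
  have h := Finset.sq_sum_div_le_sum_sq_div (Finset.range (K + 1)) c (g := fun j => ((1:ℝ) / 2) ^ j)
    (fun i _ => by positivity)
  have hS : 0 < ∑ j ∈ Finset.range (K + 1), ((1:ℝ) / 2) ^ j := by
    apply Finset.sum_pos
    · intro i _; positivity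
    · exact ⟨0, by simp⟩
  rw [div_le_iff₀ hS] at h
  refine h.trans ?_
  have hnn : 0 ≤ ∑ i ∈ Finset.range (K + 1), c i ^ 2 / ((1:ℝ) / 2) ^ i := by positivity
  calc (∑ i ∈ Finset.range (K + 1), c i ^ 2 / ((1:ℝ) / 2) ^ i) * ∑ j ∈ Finset.range (K + 1), ((1:ℝ) / 2) ^ j
      ≤ (∑ i ∈ Finset.range (K + 1), c i ^ 2 / ((1:ℝ) / 2) ^ i) * 2 := by
        gcongr
        exact sum_half_pow _
    _ = _ := by
        rw [mul_comm]
        congr 1
        refine Finset.sum_congr rfl fun i _ => ?_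
        rw [one_div, inv_pow, div_inv_eq_mul]
        ring

private lemma four_add (a b : ℝ) : (a + b) ^ 4 ≤ 8 * (a ^ 4 + b ^ 4) := by
  have h1 : (a + b) ^ 2 ≤ 2 * (a ^ 2 + b ^ 2) := by nlinarith only [sq_nonneg (a - b)]
  have h2 : (a ^ 2 + b ^ 2) ^ 2 ≤ 2 * (a ^ 4 + b ^ 4) := by nlinarith only [sq_nonneg (a ^ 2 - b ^ 2)]
  have h3 := pow_le_pow_left₀ (sq_nonneg (a + b)) h1 2
  calc (a + b) ^ 4 = ((a + b) ^ 2) ^ 2 := by ring
    _ ≤ (2 * (a ^ 2 + b ^ 2)) ^ 2 := h3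
    _ = 4 * (a ^ 2 + b ^ 2) ^ 2 := by ring
    _ ≤ _ := by linarith only [h2]

private lemma cs_four (K : ℕ) (a b : ℕ → ℝ) :
    (∑ j ∈ Finset.range (K + 1), (a j + b j)) ^ 4 ≤
      ∑ j ∈ Finset.range (K + 1), 64 * 8 ^ j * (a j ^ 4 + b j ^ 4) := by
  have h1 := cs_one K (fun j => a j + b j)
  have h2 := cs_one K (fun j => 2 ^ j * (a j + b j) ^ 2)
  have h3 := pow_le_pow_left₀ (sq_nonneg _) h1 2
  calc (∑ j ∈ Finset.range (K + 1), (a j + b j)) ^ 4
      = ((∑ j ∈ Finset.range (K + 1), (a j + b j)) ^ 2) ^ 2 := by ring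
    _ ≤ (2 * ∑ j ∈ Finset.range (K + 1), 2 ^ j * (a j + b j) ^ 2) ^ 2 := h3
    _ = 4 * (∑ j ∈ Finset.range (K + 1), 2 ^ j * (a j + b j) ^ 2) ^ 2 := by ring
    _ ≤ 4 * (2 * ∑ j ∈ Finset.range (K + 1), 2 ^ j * (2 ^ j * (a j + b j) ^ 2) ^ 2) := by
        linarith only [h2]
    _ = ∑ j ∈ Finset.range (K + 1), 8 * 8 ^ j * (a j + b j) ^ 4 := by
        rw [← mul_assoc, Finset.mul_sum]
        refine Finset.sum_congr rfl fun j _ => ?_
        have : (8:ℝ) ^ j = 2 ^ j * 2 ^ j * 2 ^ j := by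
          rw [← mul_pow, ← mul_pow]; norm_num
        rw [this]
        ring
    _ ≤ _ := by
        refine Finset.sum_le_sum fun j _ => ?_
        have h4 := mul_le_mul_of_nonneg_left (four_add (a j) (b j)) (show (0:ℝ) ≤ 8 * 8 ^ j by positivity)
        calc _ ≤ _ := h4
          _ = _ := by ring

lemma pointwise4 {T L τ : ℝ} (hT : 3 ^ 40 ≤ T) (hL : L = Real.log T) {K : ℕ} (hK : good T L K τ)
    (hKL : (2:ℝ) ^ K ≤ L) (hτ : τ ∈ RA T) (F : Finset ℂ)
    (hF : ∀ ρ ∈ F, xi ρ = 0 ∧ 0 ≤ L * (ρ.re - 1 / 2) ∧ L * (ρ.re - 1 / 2) < 2 ^ K ∧ L * |ρ.im - τ| ≤ 1) :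
    (∑ ρ ∈ F, (analyticOrderNatAt xi ρ : ℝ)) ^ 4 ≤ ∑ j ∈ Finset.range (K + 1), Psi4 T L j τ := by
  classical
  have hT20 : (20:ℝ) ≤ T := le_trans (by norm_num) hT
  have hL40 : 40 ≤ L := by rw [hL]; exact log_T40 hT
  have h1 := split_plain hK F (fun ρ hρ => ⟨(hF ρ hρ).2.1, (hF ρ hρ).2.2.1⟩)
  have h0 : 0 ≤ ∑ ρ ∈ F, (analyticOrderNatAt xi ρ : ℝ) :=
    Finset.sum_nonneg fun ρ _ => Nat.cast_nonneg _
  refine (pow_le_pow_left₀ h0 h1 4).trans ((cs_four K _ _).trans ?_)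
  refine Finset.sum_le_sum fun j hj => ?_
  rw [Finset.mem_range] at hj
  have h2j : (2:ℝ) ^ j ≤ L := le_trans (pow_le_pow_right₀ (by norm_num) (by omega)) hKL
  have h1j : (1:ℝ) ≤ 2 ^ j := one_le_pow₀ (by norm_num)
  unfold Psi4
  apply mul_le_mul_of_nonneg_left _ (by positivity)
  apply add_le_add
  · unfold Gc
    by_cases hg : good T L j τ
    · rw [if_pos hg]
      apply classG4 hT20 hL hL40 h1j h2j hτ.1 hτ.2 hg
      intro ρ hρ
      rw [Finset.mem_filter] at hρ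
      obtain ⟨hρF, hρ1, hρ2⟩ := hρ
      obtain ⟨hx, hv0, _, hu⟩ := hF ρ hρF
      refine ⟨hx, hρ1, ?_, hu⟩
      rw [pow_succ] at hρ2
      linarith only [hρ2]
    · rw [if_neg hg]
      have := AH_nonneg T ((sg L (2 ^ j) : ℝ) + τ * I) (39 / 10 * 2 ^ j / L)
      have := KK_pos
      rw [zero_pow (by norm_num)]
      positivity
  · unfold Hc
    by_cases hg : good T L j τ ∧ (j = 0 ∨ ¬ good T L (j - 1) τ)
    · rw [if_pos hg]
      by_cases hj0 : j = 0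
      · rw [if_pos hj0]
        subst hj0
        apply classH04 hT20 hL hL40 hτ.1 hτ.2
        · have := hg.1
          unfold good at this
          rwa [pow_zero] at this
        · intro ρ hρ
          rw [Finset.mem_filter] at hρ
          obtain ⟨hρF, hρ1⟩ := hρ
          obtain ⟨hx, hv0, _, hu⟩ := hF ρ hρF
          rw [pow_zero] at hρ1
          exact ⟨hx, hv0, hρ1, hu⟩
      · rw [if_neg hj0]
        have hbad : ¬ good T L (j - 1) τ := by
          rcases hg.2 with h | h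
          · exact absurd h hj0
          · exact h
        obtain ⟨i, rfl⟩ : ∃ i, j = i + 1 := ⟨j - 1, by omega⟩
        apply classH14 (lam := Real.exp (2 ^ (i + 1) / 160)) hT20 hL hL40 _ h2j (Real.one_le_exp (by positivity)) hτ.1 hτ.2 hg.1
        · unfold good at hbad
          rw [show (2:ℝ) ^ (i + 1) / 2 = 2 ^ (i + 1 - 1) by rw [pow_succ]; simp]
          exact not_le.mp hbad
        · intro ρ hρ
          rw [Finset.mem_filter] at hρ
          obtain ⟨hρF, hρ1⟩ := hρ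
          obtain ⟨hx, hv0, _, hu⟩ := hF ρ hρF
          exact ⟨hx, hv0, hρ1, hu⟩
        · have : (1:ℝ) ≤ 2 ^ i := one_le_pow₀ (by norm_num)
          rw [pow_succ]; linarith only [this]
    · rw [if_neg hg]
      split_ifs with hj0
      · have := AH_nonneg T ((sg L 1 : ℝ) + τ * I) (5 / L)
        have := KK_pos
        rw [zero_pow (by norm_num)]
        positivity
      · have := AH_nonneg T ((sg L (2 ^ j) : ℝ) + τ * I) ((4 * 2 ^ j + 1) / L)
        have := KK_pos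
        rw [zero_pow (by norm_num)]
        positivity

end Pool.Agent.Helper69.GGM
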