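import Pool.Agent.Helper69.GGM.MCL

/-!
# GGM block MC: mean square law at `a` iff law for the kernel `Pk (2a)`

Proof. `UU_value` turns the right side into `UU T a → VV a` along `l`.
(⇐) given `ε`, take `θ` small: `MM <= (1+θ)(VV a + θ) + θ <= VV a + ε` for every `B > 0` (`upper_comparison`),
and `MM >= (UU - θ)/(1+θ) >= VV a - ε` for `B >= B₀` (`lower_comparison`).
(⇒) take `B >= ` the `B₀`'s of `MeanSqAt` and of `lower_comparison`: `UU <= (1+θ)(VV a + θ) + θ`,
`UU >= (MM - θ)/(1+θ) >= (VV a - 2θ)/(1+θ)`.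
-/

open Complex Set MeasureTheory Filter Topology
open Pool.Agent.Helper57.LH Pool.Agent.Helper57.PC Pool.Agent.Helper57.Zeta

namespace Pool.Agent.Helper69.GGM

private lemma mc_up {v θ x y ε : ℝ} (hv : 0 ≤ v) (hθ : 0 < θ) (hθ1 : θ ≤ 1) (hε : θ * (v + 4) ≤ ε)
    (h1 : x ≤ (1 + θ) * y + θ) (h2 : y ≤ v + θ) : x ≤ v + ε - θ := by
  have : (1 + θ) * y ≤ (1 + θ) * (v + θ) := by gcongr
  nlinarith

private lemma mc_low {v θ x y ε : ℝ} (hv : 0 ≤ v) (hθ : 0 < θ) (hθ1 : θ ≤ 1) (hε : θ * (v + 4) ≤ ε)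
    (h1 : y ≤ (1 + θ) * x + θ) (h2 : v - θ ≤ y) : v - ε + θ ≤ x := by
  by_contra hx
  push Not at hx
  have h3 : (1 + θ) * x < (1 + θ) * (v - ε + θ) := by gcongr
  nlinarith [mul_nonneg hθ.le hv, mul_pos hθ hθ, mul_nonneg hθ.le (sub_nonneg.mpr hε)]

theorem meanSq_iff {l : Filter ℝ} (hl : l ≤ atTop) (hOff : OffLine l) {a : ℝ} (ha : 0 < a) :
    MeanSqAt l a ↔ Tendsto (fun T : ℝ => WP T (Pk (2 * a)) / SN T) l (𝓝 (1 / 2 + VV a)) := by
  have hUV := (UU_value ha).mono_left hl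
  have hv := VV_nonneg ha
  set v := VV a with hvdef
  have key : Tendsto (fun T : ℝ => WP T (Pk (2 * a)) / SN T) l (𝓝 (1 / 2 + v)) ↔
      Tendsto (fun T : ℝ => UU T a) l (𝓝 v) := by
    constructor
    · intro h
      have h2 := hUV.add (h.sub_const (1 / 2))
      simp only [zero_add, add_sub_cancel_left] at h2
      refine h2.congr fun T => ?_
      ring
    · intro h
      have h2 := (h.sub hUV).const_add (1 / 2)
      simp only [sub_zero] at h2
      refine h2.congr fun T => ?_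
      ring
  rw [key]
  have hθ : ∀ ε : ℝ, 0 < ε → ∃ θ : ℝ, 0 < θ ∧ θ ≤ 1 ∧ θ * (v + 4) ≤ ε := by
    intro ε hε
    refine ⟨min 1 (ε / (v + 4)), by positivity, min_le_left _ _, ?_⟩
    calc min 1 (ε / (v + 4)) * (v + 4) ≤ ε / (v + 4) * (v + 4) := by
          gcongr
          exact min_le_right _ _
      _ = ε := by field_simp
  constructor
  · intro h
    rw [Metric.tendsto_nhds]
    intro ε hε
    obtain ⟨θ, h0, h1, h2⟩ := hθ ε hε
    obtain ⟨B₁, hB₁⟩ := h θ h0
    obtain ⟨B₂, hB₂⟩ := lower_comparison hl hOff ha h0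
    set B := max (max B₁ B₂) 1 with hB
    have hBpos : 0 < B := lt_of_lt_of_le one_pos (le_max_right _ _)
    filter_upwards [hB₁ B ((le_max_left _ _).trans (le_max_left _ _)),
      hB₂ B ((le_max_right _ _).trans (le_max_left _ _)), upper_comparison hl hOff ha h0 hBpos] with T e1 e2 e3
    rw [abs_le] at e1
    have u1 := mc_up hv h0 h1 h2 e2 (by linarith)
    have u2 := mc_low hv h0 h1 h2 e3 (by linarith)
    rw [Real.dist_eq, abs_lt]
    constructor <;> linarith
  · intro h ε hε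
    obtain ⟨θ, h0, h1, h2⟩ := hθ ε hε
    obtain ⟨B₂, hB₂⟩ := lower_comparison hl hOff ha h0
    refine ⟨max B₂ 1, fun B hB => ?_⟩
    have hBpos : 0 < B := lt_of_lt_of_le one_pos ((le_max_right _ _).trans hB)
    have hU : ∀ᶠ T : ℝ in l, |UU T a - v| < θ := by
      have := Metric.tendsto_nhds.mp h θ h0
      simpa [Real.dist_eq] using this
    filter_upwards [hU, hB₂ B ((le_max_left _ _).trans hB), upper_comparison hl hOff ha h0 hBpos] with T e1 e2 e3
    rw [abs_lt] at e1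
    have u1 := mc_up hv h0 h1 h2 e3 (by linarith)
    have u2 := mc_low hv h0 h1 h2 e2 (by linarith)
    rw [abs_le]
    constructor <;> linarith

end Pool.Agent.Helper69.GGM
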