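import Pool.Agent.Helper69.GGM.MCU
import Pool.Agent.Helper69.GGM.FF
import Pool.Agent.Helper69.GGM.BE

/-!
# GGM block MCL: lower comparison, and the value of `UU`

`g_small`: `(1/T) ∫ ‖S0 T A - S0 T (2L)‖² = (WP(Pk 2A) - 2 WP(Pk (A+2L)) + WP(Pk 4L))/SN` by `S0_second_moment`,
and `poisson_large` at `2A`, `A+2L`, `4L` (all in `[1,5L]`): `<= C/(2A) + 2C/(2L) + C/(4L) <= 4C/A` for `T` large
(the halves cancel: `1/2 - 1 + 1/2 = 0`).

`UU_value`: `UU T a - (WP T (Pk (2a))/SN T - 1/2) = -2 (WP(Pk(a+2L))/SN - 1/2) + (WP(Pk 4L)/SN - 1/2) → 0`.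

`lower_comparison`. `L = log T`, `u = f + g`, `f = S0 T a - S0 T A`, `g = S0 T A - S0 T (2L)`, `r = XX T a - u`,
`I = [δT,(1-δ)T]`, parameters `A >= max a 1`, `δ`, `B`. For `τ ∈ (0,1]`:
`T UU T a = ∫ ‖u‖² <= (1+τ) ∫ ‖f‖² + (1+1/τ) ∫ ‖g‖²`,
`∫ ‖f‖² <= ∫_I ‖f‖² + C_A sqrt δ T` (`S0_edges`),
`∫_I ‖f‖² <= ∫_I min (‖f‖²) B + (1/B) ∫ ‖f‖⁴` (as `x² - x⁴/B <= min x² B`; `S0_fourth`),
`min (‖f‖²) B <= (1+τ) min (‖XX‖²) B + (1+1/τ)(2‖g‖² + 2 min (‖r‖²) B)` (`f = XX - g - r`).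
Hence `UU T a <= (1+τ)² MM T a B + C_τ/A + C'_{A} (sqrt δ + 1/B) (1+τ) + C_τ (1/T)∫_I min(‖r‖²) B`.
Given `θ`: choose `τ` with `(1+τ)² <= 1+θ`, then `A` large, then `δ` small and `B₀` large, then use
`conv_measure` for each `B >= B₀`. (`MM T a B >= (1/T) ∫_I min(‖XX‖²) B` as the integrand is `>= 0`.)
-/

open Complex Set MeasureTheory Filter Topology
open Pool.Agent.Helper57.LH Pool.Agent.Helper57.PC Pool.Agent.Helper57.Zeta

namespace Pool.Agent.Helper69.GGM

theorem g_small : ∃ C : ℝ, 0 < C ∧ ∀ A : ℝ, 1 ≤ A → ∀ᶠ T : ℝ in atTop,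
    ∫ t, ‖S0 T A t - S0 T (2 * Real.log T) t‖ ^ 2 ≤ C / A * T := by
  obtain ⟨C, T₀, hC, hP⟩ := poisson_large
  refine ⟨2 * C, by positivity, fun A hA => ?_⟩
  have hA0 : 0 < A := by linarith
  filter_upwards [eventually_ge_atTop T₀, eventually_gt_atTop 1,
    Real.tendsto_log_atTop.eventually_ge_atTop A] with T hT hT1 hTL
  have hL : 0 < Real.log T := Real.log_pos hT1
  have hT0 : 0 < T := by linarith
  have hS := SN_pos hT1
  rw [S0_second_moment hT1 hA0 (A := 2 * Real.log T) (by positivity)]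
  have h1 := hP T hT (2 * A) (by linarith) (by linarith)
  have h2 := hP T hT (A + 2 * Real.log T) (by linarith) (by linarith)
  have h3 := hP T hT (2 * (2 * Real.log T)) (by linarith) (by linarith)
  set x := WP T (Pk (2 * A)) with hx
  set y := WP T (Pk (A + 2 * Real.log T)) with hy
  set z := WP T (Pk (2 * (2 * Real.log T))) with hz
  have e1 : 2 * Real.pi / Real.log T * (x - 2 * y + z) =
      T * ((x / SN T - 1 / 2) - 2 * (y / SN T - 1 / 2) + (z / SN T - 1 / 2)) := by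
    have e2 : SN T = T * Real.log T / (2 * Real.pi) := rfl
    rw [e2]
    have := Real.pi_ne_zero
    field_simp
    ring
  rw [e1]
  have b2 : C / (A + 2 * Real.log T) ≤ C / (2 * A) * (2 / 3) := by
    rw [div_mul_div_comm, div_le_div_iff₀ (by positivity) (by positivity)]
    nlinarith
  have b3 : C / (2 * (2 * Real.log T)) ≤ C / (2 * A) * (1 / 2) := by
    rw [div_mul_div_comm, div_le_div_iff₀ (by positivity) (by positivity)]
    nlinarith
  have b4 : 2 * C / A = 4 * (C / (2 * A)) := by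
    field_simp
    ring
  have b5 : 0 ≤ C / (2 * A) := by positivity
  rw [b4, mul_comm (4 * (C / (2 * A))) T]
  apply mul_le_mul_of_nonneg_left _ hT0.le
  have c1 := abs_le.mp h1
  have c2 := abs_le.mp h2
  have c3 := abs_le.mp h3
  linarith [c1.1, c1.2, c2.1, c2.2, c3.1, c3.2]

theorem UU_value {a : ℝ} (ha : 0 < a) :
    Tendsto (fun T : ℝ => UU T a - (WP T (Pk (2 * a)) / SN T - 1 / 2)) atTop (𝓝 0) := by
  obtain ⟨C, T₀, hC, hP⟩ := poisson_large
  have h0 : Tendsto (fun T : ℝ => 2 * C / Real.log T) atTop (𝓝 0) :=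
    Real.tendsto_log_atTop.const_div_atTop (2 * C)
  rw [tendsto_zero_iff_abs_tendsto_zero]
  refine squeeze_zero' (Eventually.of_forall fun T => abs_nonneg _) ?_ h0
  filter_upwards [eventually_ge_atTop T₀, eventually_gt_atTop 1,
    Real.tendsto_log_atTop.eventually_ge_atTop (max a 1)] with T hT hT1 hTL
  have hLa : a ≤ Real.log T := (le_max_left _ _).trans hTL
  have hL1 : 1 ≤ Real.log T := (le_max_right _ _).trans hTL
  have hL : 0 < Real.log T := by linarith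
  have hS := SN_pos hT1
  have h2 := hP T hT (a + 2 * Real.log T) (by linarith) (by linarith)
  have h3 := hP T hT (4 * Real.log T) (by linarith) (by linarith)
  show |UU T a - (WP T (Pk (2 * a)) / SN T - 1 / 2)| ≤ 2 * C / Real.log T
  have e1 : UU T a - (WP T (Pk (2 * a)) / SN T - 1 / 2) =
      -2 * (WP T (Pk (a + 2 * Real.log T)) / SN T - 1 / 2) +
        (WP T (Pk (4 * Real.log T)) / SN T - 1 / 2) := by
    unfold UU
    field_simp
    ring
  rw [e1]
  have b2 : C / (a + 2 * Real.log T) ≤ C / Real.log T * (1 / 2) := by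
    rw [div_mul_div_comm, div_le_div_iff₀ (by positivity) (by positivity)]
    nlinarith
  have b3 : C / (4 * Real.log T) ≤ C / Real.log T * (1 / 2) := by
    rw [div_mul_div_comm, div_le_div_iff₀ (by positivity) (by positivity)]
    nlinarith
  have b4 : 2 * C / Real.log T = 2 * (C / Real.log T) := by ring
  have b5 : 0 ≤ C / Real.log T := by positivity
  rw [b4, abs_le]
  have c2 := abs_le.mp h2
  have c3 := abs_le.mp h3
  constructor <;> linarith [c2.1, c2.2, c3.1, c3.2]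

namespace MCLaux

lemma two_terms {τ x y : ℝ} (hτ : 0 < τ) :
    (x + y) ^ 2 ≤ (1 + τ) * x ^ 2 + (1 + 1 / τ) * y ^ 2 := by
  have h1 : 0 ≤ (1 / τ) * (τ * x - y) ^ 2 := by positivity
  have h2 : τ * (1 / τ) = 1 := by field_simp
  have h3 : (1 / τ) * (τ * x - y) ^ 2 = τ * (τ * (1 / τ)) * x ^ 2 - 2 * (τ * (1 / τ)) * (x * y) +
      (1 / τ) * y ^ 2 := by ring
  rw [h3, h2] at h1
  nlinarith

lemma norm_two {τ : ℝ} (hτ : 0 < τ) (f g : ℂ) :
    ‖f + g‖ ^ 2 ≤ (1 + τ) * ‖f‖ ^ 2 + (1 + 1 / τ) * ‖g‖ ^ 2 := by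
  have h1 : ‖f + g‖ ^ 2 ≤ (‖f‖ + ‖g‖) ^ 2 := by
    have := norm_add_le f g
    gcongr
  exact h1.trans (two_terms hτ)

lemma trunc {x B : ℝ} (hx : 0 ≤ x) (hB : 0 < B) : x ^ 2 ≤ min (x ^ 2) B + (1 / B) * x ^ 4 := by
  rcases le_total (x ^ 2) B with h | h
  · rw [min_eq_left h]
    have : 0 ≤ (1 / B) * x ^ 4 := by positivity
    linarith
  · rw [min_eq_right h]
    have h1 : x ^ 2 ≤ (1 / B) * x ^ 4 := by
      rw [one_div, ← div_eq_inv_mul, le_div_iff₀ hB]
      have h2 : x ^ 4 = x ^ 2 * x ^ 2 := by ring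
      rw [h2]
      exact mul_le_mul_of_nonneg_left h (by positivity)
    linarith

/-- `f = X - g - r` -/
lemma ptwise2 {τ B : ℝ} (hτ : 0 < τ) (hB : 0 < B) (X f g : ℂ) :
    min (‖f‖ ^ 2) B ≤ (1 + τ) * min (‖X‖ ^ 2) B +
      (1 + 1 / τ) * (2 * ‖g‖ ^ 2 + 2 * min (‖X - (f + g)‖ ^ 2) B) := by
  have hτi : 0 < 1 / τ := by positivity
  have hX := norm_nonneg X
  have hg := norm_nonneg g
  have hr := norm_nonneg (X - (f + g))
  have hf : ‖f‖ ≤ ‖X‖ + (‖g‖ + ‖X - (f + g)‖) := by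
    have h1 : f = X - (g + (X - (f + g))) := by ring
    calc ‖f‖ = ‖X - (g + (X - (f + g)))‖ := by rw [← h1]
      _ ≤ ‖X‖ + ‖g + (X - (f + g))‖ := norm_sub_le _ _
      _ ≤ ‖X‖ + (‖g‖ + ‖X - (f + g)‖) := by
          have := norm_add_le g (X - (f + g))
          linarith
  rcases le_total (‖X‖ ^ 2) B with h1 | h1
  · rcases le_total (‖X - (f + g)‖ ^ 2) B with h2 | h2
    · rw [min_eq_left h1, min_eq_left h2]
      refine (min_le_left _ _).trans ?_
      have h3 : ‖f‖ ^ 2 ≤ (‖X‖ + (‖g‖ + ‖X - (f + g)‖)) ^ 2 := by gcongr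
      refine h3.trans ((two_terms hτ).trans ?_)
      have h4 : (‖g‖ + ‖X - (f + g)‖) ^ 2 ≤ 2 * ‖g‖ ^ 2 + 2 * ‖X - (f + g)‖ ^ 2 := by
        nlinarith [sq_nonneg (‖g‖ - ‖X - (f + g)‖)]
      have h5 : (1 + 1 / τ) * (‖g‖ + ‖X - (f + g)‖) ^ 2 ≤
          (1 + 1 / τ) * (2 * ‖g‖ ^ 2 + 2 * ‖X - (f + g)‖ ^ 2) :=
        mul_le_mul_of_nonneg_left h4 (by positivity)
      linarith
    · rw [min_eq_right h2]
      refine (min_le_right _ _).trans ?_
      have h3 : 0 ≤ (1 + τ) * min (‖X‖ ^ 2) B :=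
        mul_nonneg (by positivity) (le_min (by positivity) hB.le)
      have h4 : 0 ≤ ‖g‖ ^ 2 := by positivity
      nlinarith [mul_pos hτi hB, mul_nonneg hτi.le h4]
  · rw [min_eq_right h1]
    refine (min_le_right _ _).trans ?_
    have h3 : 0 ≤ (1 + 1 / τ) * (2 * ‖g‖ ^ 2 + 2 * min (‖X - (f + g)‖ ^ 2) B) := by
      have : 0 ≤ min (‖X - (f + g)‖ ^ 2) B := le_min (by positivity) hB.le
      positivity
    nlinarith [mul_pos hτ hB]

end MCLaux

open MCUaux MCLaux in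
theorem lower_comparison {l : Filter ℝ} (hl : l ≤ atTop) (hOff : OffLine l) {a : ℝ} (ha : 0 < a)
    {θ : ℝ} (hθ : 0 < θ) :
    ∃ B₀ : ℝ, ∀ B : ℝ, B₀ ≤ B → ∀ᶠ T : ℝ in l, UU T a ≤ (1 + θ) * MM T a B + θ := by
  obtain ⟨Cg, hCg, hgs⟩ := g_small
  -- the parameters
  obtain ⟨τ, hτ, hτ1, hτθ⟩ : ∃ τ : ℝ, 0 < τ ∧ τ ≤ 1 ∧ 3 * τ ≤ θ := by
    refine ⟨min 1 (θ / 3), by positivity, min_le_left _ _, ?_⟩
    have := min_le_right 1 (θ / 3)
    linarith
  set κ : ℝ := 1 + 1 / τ with hκ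
  have hκ0 : 0 < κ := by positivity
  obtain ⟨A, hAa, hA1, hAθ⟩ : ∃ A : ℝ, a ≤ A ∧ 1 ≤ A ∧ 5 * κ * (Cg / A) ≤ θ / 4 := by
    refine ⟨max (max a 1) (20 * κ * Cg / θ), (le_max_left _ _).trans (le_max_left _ _),
      (le_max_right _ _).trans (le_max_left _ _), ?_⟩
    set A := max (max a 1) (20 * κ * Cg / θ) with hA
    have h1 : 1 ≤ A := (le_max_right _ _).trans (le_max_left _ _)
    have h2 : 20 * κ * Cg / θ ≤ A := le_max_right _ _
    have h3 : 0 < A := by linarith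
    rw [div_le_iff₀ hθ] at h2
    rw [mul_div_assoc', div_le_div_iff₀ h3 (by norm_num)]
    linarith
  have hA0 : 0 < A := by linarith
  obtain ⟨C4, T4, hC4, h4⟩ := S0_fourth ha hAa
  obtain ⟨Ce, hCe, he⟩ := S0_edges ha hAa
  obtain ⟨δ, hδ, hδ2, hδθ⟩ : ∃ δ : ℝ, 0 < δ ∧ δ < 1 / 2 ∧ 2 * Ce * Real.sqrt δ ≤ θ / 4 := by
    refine ⟨min (1 / 4) ((θ / (8 * Ce)) ^ 2), by positivity, ?_, ?_⟩
    · exact (min_le_left _ _).trans_lt (by norm_num)
    · have h1 : Real.sqrt (min (1 / 4) ((θ / (8 * Ce)) ^ 2)) ≤ θ / (8 * Ce) := by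
        rw [← Real.sqrt_sq (show 0 ≤ θ / (8 * Ce) by positivity)]
        apply Real.sqrt_le_sqrt
        rw [Real.sqrt_sq (show 0 ≤ θ / (8 * Ce) by positivity)]
        exact min_le_right _ _
      have h2 : 2 * Ce * (θ / (8 * Ce)) = θ / 4 := by field_simp; ring
      have h3 := mul_le_mul_of_nonneg_left h1 (show 0 ≤ 2 * Ce by positivity)
      linarith
  set ε : ℝ := θ / (16 * κ) with hε
  have hε0 : 0 < ε := by positivity
  have hεθ : 4 * κ * ε = θ / 4 := by rw [hε]; field_simp; ring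
  refine ⟨8 * C4 / θ, fun B hB => ?_⟩
  have hB0 : 0 < B := lt_of_lt_of_le (by positivity) hB
  have hBθ : 2 * (1 / B * C4) ≤ θ / 4 := by
    rw [div_le_iff₀ hθ] at hB
    rw [one_div, ← div_eq_inv_mul, mul_div_assoc', div_le_div_iff₀ hB0 (by norm_num)]
    linarith
  filter_upwards [conv_measure hl hOff ha hδ hδ2 hB0 hε0, hl (eventually_gt_atTop 1),
    hl (eventually_ge_atTop T4), hl (he δ hδ hδ2), hl (hgs A hA1)] with T hcm hT hT4 hTe hTg
  have hL : 0 < Real.log T := Real.log_pos hT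
  have hT0 : 0 < T := by linarith
  have h2L : 0 < 2 * Real.log T := by positivity
  obtain ⟨hf4i, hf4⟩ := h4 T hT4
  set f : ℝ → ℂ := fun t => S0 T a t - S0 T A t with hf
  set g : ℝ → ℂ := fun t => S0 T A t - S0 T (2 * Real.log T) t with hg
  have hfc : Continuous f := (continuous_S0 T ha).sub (continuous_S0 T hA0)
  have hgc : Continuous g := (continuous_S0 T hA0).sub (continuous_S0 T h2L)
  have hf2i : Integrable (fun t => ‖f t‖ ^ 2) := S0_sq_integrable hT ha hA0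
  have hg2i : Integrable (fun t => ‖g t‖ ^ 2) := S0_sq_integrable hT hA0 h2L
  have hu2i : Integrable (fun t => ‖S0 T a t - S0 T (2 * Real.log T) t‖ ^ 2) :=
    S0_sq_integrable hT ha h2L
  have hXm : Measurable (fun t => XX T a t) := measurable_XX T a
  have bd : ∀ h : ℝ → ℂ, Measurable h → ∀ x y : ℝ,
      IntervalIntegrable (fun t => min (‖h t‖ ^ 2) B) volume x y := by
    intro h hh x y
    have hm : Measurable (fun t => min (‖h t‖ ^ 2) B) := (hh.norm.pow_const 2).min measurable_const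
    refine (intervalIntegrable_const (c := B)).mono_fun hm.aestronglyMeasurable ?_
    refine Filter.Eventually.of_forall (fun t => ?_)
    change ‖min (‖h t‖ ^ 2) B‖ ≤ ‖B‖
    rw [Real.norm_of_nonneg (le_min (by positivity) hB0.le), Real.norm_of_nonneg hB0.le]
    exact min_le_right _ _
  have hδT : 0 ≤ δ * T := by positivity
  have hδT' : δ * T ≤ (1 - δ) * T := by nlinarith
  have hδT'' : (1 - δ) * T ≤ T := by nlinarith
  -- step 1
  have s1 : T * UU T a ≤ (1 + τ) * (∫ t, ‖f t‖ ^ 2) + κ * ∫ t, ‖g t‖ ^ 2 := by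
    rw [← integral_u_sq hT ha, ← integral_const_mul, ← integral_const_mul,
      ← integral_add (hf2i.const_mul _) (hg2i.const_mul _)]
    refine integral_mono hu2i ((hf2i.const_mul _).add (hg2i.const_mul _)) (fun t => ?_)
    have e1 : S0 T a t - S0 T (2 * Real.log T) t = f t + g t := by
      simp only [hf, hg]; ring
    show ‖S0 T a t - S0 T (2 * Real.log T) t‖ ^ 2 ≤ (1 + τ) * ‖f t‖ ^ 2 + κ * ‖g t‖ ^ 2
    rw [e1]
    exact norm_two hτ _ _
  -- step 2
  have s2 : ∫ t, ‖f t‖ ^ 2 ≤ (∫ t in (δ * T)..((1 - δ) * T), ‖f t‖ ^ 2) + Ce * Real.sqrt δ * T := by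
    rw [← integral_add_compl (measurableSet_Icc (a := δ * T) (b := (1 - δ) * T)) hf2i,
      intervalIntegral.integral_of_le hδT', ← integral_Icc_eq_integral_Ioc]
    linarith
  -- step 3
  have hf2c : Continuous (fun t => ‖f t‖ ^ 2) := hfc.norm.pow 2
  have hf4c : Continuous (fun t => ‖f t‖ ^ 4) := hfc.norm.pow 4
  have hg2c : Continuous (fun t => ‖g t‖ ^ 2) := hgc.norm.pow 2
  have s3 : ∫ t in (δ * T)..((1 - δ) * T), ‖f t‖ ^ 2 ≤
      (∫ t in (δ * T)..((1 - δ) * T), min (‖f t‖ ^ 2) B) + 1 / B * C4 * T := by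
    have h1 : ∫ t in (δ * T)..((1 - δ) * T), ‖f t‖ ^ 2 ≤
        ∫ t in (δ * T)..((1 - δ) * T), (min (‖f t‖ ^ 2) B + 1 / B * ‖f t‖ ^ 4) := by
      refine intervalIntegral.integral_mono_on hδT' (hf2c.intervalIntegrable _ _)
        ((bd f hfc.measurable _ _).add ((hf4c.intervalIntegrable _ _).const_mul _)) (fun t _ => ?_)
      exact trunc (norm_nonneg _) hB0
    rw [intervalIntegral.integral_add (bd f hfc.measurable _ _)
      ((hf4c.intervalIntegrable _ _).const_mul _), intervalIntegral.integral_const_mul] at h1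
    have h2 : ∫ t in (δ * T)..((1 - δ) * T), ‖f t‖ ^ 4 ≤ C4 * T := by
      rw [intervalIntegral.integral_of_le hδT']
      refine (setIntegral_le_integral hf4i (Filter.Eventually.of_forall (fun t => by positivity))).trans hf4
    have h3 : 1 / B * (∫ t in (δ * T)..((1 - δ) * T), ‖f t‖ ^ 4) ≤ 1 / B * (C4 * T) :=
      mul_le_mul_of_nonneg_left h2 (by positivity)
    linarith
  -- step 4
  have hXi := bd _ hXm
  have hRi := bd (fun t => XX T a t - (f t + g t)) (hXm.sub (hfc.add hgc).measurable)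
  have s4 : ∫ t in (δ * T)..((1 - δ) * T), min (‖f t‖ ^ 2) B ≤
      (1 + τ) * (∫ t in (δ * T)..((1 - δ) * T), min (‖XX T a t‖ ^ 2) B) +
      κ * (2 * (∫ t in (δ * T)..((1 - δ) * T), ‖g t‖ ^ 2) +
        2 * ∫ t in (δ * T)..((1 - δ) * T), min (‖XX T a t - (f t + g t)‖ ^ 2) B) := by
    have i1 := (hXi (δ * T) ((1 - δ) * T)).const_mul (1 + τ)
    have i2 := (hg2c.intervalIntegrable (μ := volume) (δ * T) ((1 - δ) * T)).const_mul 2
    have i3 := (hRi (δ * T) ((1 - δ) * T)).const_mul 2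
    rw [← intervalIntegral.integral_const_mul (1 + τ), ← intervalIntegral.integral_const_mul 2,
      ← intervalIntegral.integral_const_mul 2, ← intervalIntegral.integral_add i2 i3,
      ← intervalIntegral.integral_const_mul κ,
      ← intervalIntegral.integral_add i1 ((i2.add i3).const_mul _)]
    refine intervalIntegral.integral_mono_on hδT' (bd f hfc.measurable _ _)
      (i1.add ((i2.add i3).const_mul _)) (fun t _ => ?_)
    exact ptwise2 hτ hB0 (XX T a t) (f t) (g t)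
  -- the pieces
  have p1 : ∫ t in (δ * T)..((1 - δ) * T), min (‖XX T a t‖ ^ 2) B ≤ T * MM T a B := by
    have e1 : T * MM T a B = ∫ t in (0:ℝ)..T, min (‖XX T a t‖ ^ 2) B := by
      unfold MM
      rw [← mul_assoc, mul_one_div_cancel hT0.ne', one_mul]
    rw [e1]
    refine intervalIntegral.integral_mono_interval hδT hδT' hδT''
      (Filter.Eventually.of_forall (fun t => ?_)) (hXi _ _)
    exact le_min (by positivity) hB0.le
  have p2 : ∫ t in (δ * T)..((1 - δ) * T), ‖g t‖ ^ 2 ≤ ∫ t, ‖g t‖ ^ 2 := by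
    rw [intervalIntegral.integral_of_le hδT']
    exact setIntegral_le_integral hg2i (Filter.Eventually.of_forall (fun t => by positivity))
  have p3 : ∫ t in (δ * T)..((1 - δ) * T), min (‖XX T a t - (f t + g t)‖ ^ 2) B ≤ ε * T := by
    have e1 : (fun t => min (‖XX T a t - (f t + g t)‖ ^ 2) B) =
        fun t => min (‖XX T a t - (S0 T a t - S0 T (2 * Real.log T) t)‖ ^ 2) B := by
      funext t
      have e2 : f t + g t = S0 T a t - S0 T (2 * Real.log T) t := by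
        simp only [hf, hg]; ring
      rw [e2]
    rw [e1]
    exact hcm
  have hMM : 0 ≤ T * MM T a B := by
    refine le_trans ?_ p1
    refine intervalIntegral.integral_nonneg hδT' (fun t _ => ?_)
    exact le_min (by positivity) hB0.le
  set G := ∫ t, ‖g t‖ ^ 2 with hG
  have hG0 : 0 ≤ G := integral_nonneg (fun t => by positivity)
  have q1 : ∫ t in (δ * T)..((1 - δ) * T), min (‖f t‖ ^ 2) B ≤
      (1 + τ) * (T * MM T a B) + κ * (2 * (Cg / A * T) + 2 * (ε * T)) := by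
    refine s4.trans ?_
    have r1 := mul_le_mul_of_nonneg_left p1 (show 0 ≤ 1 + τ by positivity)
    have r2 : κ * (2 * (∫ t in (δ * T)..((1 - δ) * T), ‖g t‖ ^ 2) +
        2 * ∫ t in (δ * T)..((1 - δ) * T), min (‖XX T a t - (f t + g t)‖ ^ 2) B) ≤
        κ * (2 * (Cg / A * T) + 2 * (ε * T)) := by
      apply mul_le_mul_of_nonneg_left _ hκ0.le
      linarith
    linarith
  set E1 : ℝ := κ * (2 * (Cg / A * T) + 2 * (ε * T)) + 1 / B * C4 * T + Ce * Real.sqrt δ * T with hE1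
  have hE10 : 0 ≤ E1 := by positivity
  have q2 : ∫ t, ‖f t‖ ^ 2 ≤ (1 + τ) * (T * MM T a B) + E1 := by
    linarith
  have q3 : T * UU T a ≤ (1 + τ) * ((1 + τ) * (T * MM T a B) + E1) + κ * (Cg / A * T) := by
    have r1 := mul_le_mul_of_nonneg_left q2 (show 0 ≤ 1 + τ by positivity)
    have r2 := mul_le_mul_of_nonneg_left hTg hκ0.le
    linarith
  have q4 : (1 + τ) * ((1 + τ) * (T * MM T a B)) ≤ (1 + θ) * (T * MM T a B) := by
    rw [← mul_assoc]
    apply mul_le_mul_of_nonneg_right _ hMM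
    nlinarith
  have q5 : (1 + τ) * E1 ≤ 2 * E1 := by
    apply mul_le_mul_of_nonneg_right _ hE10
    linarith
  have q6 : 2 * E1 + κ * (Cg / A * T) ≤ θ * T := by
    have e1 : 2 * E1 + κ * (Cg / A * T) =
        (5 * κ * (Cg / A) + 4 * κ * ε + 2 * (1 / B * C4) + 2 * Ce * Real.sqrt δ) * T := by
      rw [hE1]; ring
    rw [e1]
    apply mul_le_mul_of_nonneg_right _ hT0.le
    linarith
  have q7 : T * UU T a ≤ T * ((1 + θ) * MM T a B + θ) := by linarith
  exact le_of_mul_le_mul_left q7 hT0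

end Pool.Agent.Helper69.GGM
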