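import Pool.Agent.Helper69.GGM.KI
import Pool.Agent.Helper69.GGM.Defs

/-!
# GGM block SM: exact second moment of `S0 T a - S0 T A` over the real line

Proof. `L = log T > 0`. With `v_ρ = L(γ-t)`, `S0 T a t - S0 T A t = Σ_ρ mx ρ * kk a A (v_ρ)` (`z0 T t ρ = v_ρ I`).
`‖·‖² = Re Σ_ρ Σ_ρ' mx mx' kk(v_ρ) conj kk(v_ρ')`; substitute `y = L(γ'-t)`, `v_ρ = y + L(γ-γ')`,
`L(γ-γ') = 2π nd T (ρ,ρ')`; use `kk_prod_integral` with `w = 2π nd`; `Pk c u = c/(c²+(2πu)²)`;
`mx ρ = mult ρ` on `Zf T` (`mult_eq`, `mem_Zf`). Note the sum over pairs is finite.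
-/

open Complex Set MeasureTheory Filter Topology
open Pool.Agent.Helper57.LH Pool.Agent.Helper57.PC Pool.Agent.Helper57.Zeta

namespace Pool.Agent.Helper69.GGM

/-- the term of a pair of zeros -/
noncomputable def smF (T a A : ℝ) (p : ℂ × ℂ) (t : ℝ) : ℂ :=
  kk a A (Real.log T * (p.1.im - t)) * (starRingEnd ℂ) (kk a A (Real.log T * (p.2.im - t)))

lemma smF_eq (T a A : ℝ) (p : ℂ × ℂ) (t : ℝ) :
    smF T a A p t = (fun y : ℝ => kk a A (y + Real.log T * (p.1.im - p.2.im)) *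
      (starRingEnd ℂ) (kk a A y)) (Real.log T * p.2.im - Real.log T * t) := by
  unfold smF
  simp only
  congr 2
  · ring
  · congr 1
    ring

lemma smF_integrable {T a A : ℝ} (hT : 1 < T) (ha : 0 < a) (hA : 0 < A) (p : ℂ × ℂ) :
    Integrable (smF T a A p) := by
  have hL : Real.log T ≠ 0 := (Real.log_pos hT).ne'
  have h1 := kk_prod_integrable ha hA (Real.log T * (p.1.im - p.2.im))
  have h2 := (h1.comp_sub_left (Real.log T * p.2.im)).comp_mul_left' hL
  refine h2.congr (Eventually.of_forall fun t => ?_)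
  exact (smF_eq T a A p t).symm

lemma smF_integral {T a A : ℝ} (hT : 1 < T) (ha : 0 < a) (hA : 0 < A) (p : ℂ × ℂ) :
    (∫ t, smF T a A p t).re = (2 * Real.pi / Real.log T) *
      (Pk (2 * a) (nd T p) - 2 * Pk (a + A) (nd T p) + Pk (2 * A) (nd T p)) := by
  have hL : 0 < Real.log T := Real.log_pos hT
  have h1 := kk_prod_integral ha hA (Real.log T * (p.1.im - p.2.im))
  obtain ⟨g, hg⟩ : ∃ g : ℝ → ℂ, g = fun y : ℝ => kk a A (y + Real.log T * (p.1.im - p.2.im)) *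
      (starRingEnd ℂ) (kk a A y) := ⟨_, rfl⟩
  have h2 : ∫ t, smF T a A p t = (Real.log T)⁻¹ • ∫ y, g y := by
    have e : ∀ t, smF T a A p t = g (Real.log T * p.2.im - Real.log T * t) := by
      intro t
      rw [hg]
      exact smF_eq T a A p t
    simp only [e]
    have h3 := MeasureTheory.Measure.integral_comp_mul_left
      (fun x => g (Real.log T * p.2.im - x)) (Real.log T)
    rw [h3, integral_sub_left_eq_self g volume, abs_of_pos (inv_pos.2 hL)]
  rw [h2, hg, Complex.smul_re, h1]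
  have hw : Real.log T * (p.1.im - p.2.im) = 2 * Real.pi * nd T p := by
    unfold nd
    field_simp
  rw [hw]
  unfold Pk
  rw [smul_eq_mul]
  ring

lemma smS0_diff (T a A t : ℝ) : S0 T a t - S0 T A t =
    ∑ ρ ∈ Zf T, (mx ρ : ℂ) * kk a A (Real.log T * (ρ.im - t)) := by
  unfold S0
  rw [← Finset.sum_sub_distrib]
  refine Finset.sum_congr rfl fun ρ _ => ?_
  unfold kk z0
  ring

lemma smS0_sq (T a A t : ℝ) : ‖S0 T a t - S0 T A t‖ ^ 2 =
    (∑ p ∈ Zf T ×ˢ Zf T, ((mx p.1 * mx p.2 : ℝ) : ℂ) * smF T a A p t).re := by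
  have h1 : ((‖S0 T a t - S0 T A t‖ ^ 2 : ℝ) : ℂ) =
      ∑ p ∈ Zf T ×ˢ Zf T, ((mx p.1 * mx p.2 : ℝ) : ℂ) * smF T a A p t := by
    have h2 := Complex.mul_conj' (S0 T a t - S0 T A t)
    rw [Complex.ofReal_pow, ← h2, smS0_diff, map_sum, Finset.sum_mul_sum, Finset.sum_product]
    refine Finset.sum_congr rfl fun ρ _ => Finset.sum_congr rfl fun ρ' _ => ?_
    unfold smF
    rw [map_mul, Complex.conj_ofReal]
    push_cast
    ring
  rw [← h1, Complex.ofReal_re]

theorem S0_sq_integrable {T a A : ℝ} (hT : 1 < T) (ha : 0 < a) (hA : 0 < A) :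
    Integrable (fun t => ‖S0 T a t - S0 T A t‖ ^ 2) := by
  simp only [smS0_sq]
  exact Complex.reCLM.integrable_comp (integrable_finset_sum _ fun p _ =>
    (smF_integrable hT ha hA p).const_mul _)

theorem S0_second_moment {T a A : ℝ} (hT : 1 < T) (ha : 0 < a) (hA : 0 < A) :
    ∫ t, ‖S0 T a t - S0 T A t‖ ^ 2 = (2 * Real.pi / Real.log T) *
      (WP T (Pk (2 * a)) - 2 * WP T (Pk (a + A)) + WP T (Pk (2 * A))) := by
  simp only [smS0_sq]
  have h1 : Integrable (fun t => ∑ p ∈ Zf T ×ˢ Zf T, ((mx p.1 * mx p.2 : ℝ) : ℂ) * smF T a A p t) :=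
    integrable_finset_sum _ fun p _ => (smF_integrable hT ha hA p).const_mul _
  have h2 := Complex.reCLM.integral_comp_comm h1
  simp only [Complex.reCLM_apply] at h2
  rw [h2, integral_finset_sum _ fun p _ => (smF_integrable hT ha hA p).const_mul _, Complex.re_sum]
  have h3 : ∀ p ∈ Zf T ×ˢ Zf T, (∫ t, ((mx p.1 * mx p.2 : ℝ) : ℂ) * smF T a A p t).re =
      (2 * Real.pi / Real.log T) * ((mult p.1 : ℝ) * (mult p.2 : ℝ) * Pk (2 * a) (nd T p) -
        2 * ((mult p.1 : ℝ) * (mult p.2 : ℝ) * Pk (a + A) (nd T p)) +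
        (mult p.1 : ℝ) * (mult p.2 : ℝ) * Pk (2 * A) (nd T p)) := by
    intro p hp
    rw [Finset.mem_product] at hp
    have e1 : mx p.1 = (mult p.1 : ℝ) := by
      unfold mx
      rw [mult_eq (mem_Zf.1 hp.1).1]
    have e2 : mx p.2 = (mult p.2 : ℝ) := by
      unfold mx
      rw [mult_eq (mem_Zf.1 hp.2).1]
    rw [integral_const_mul, Complex.re_ofReal_mul, smF_integral hT ha hA, e1, e2]
    ring
  rw [Finset.sum_congr rfl h3, ← Finset.mul_sum, Finset.sum_add_distrib, Finset.sum_sub_distrib,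
    ← Finset.mul_sum]
  rfl

end Pool.Agent.Helper69.GGM
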