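import Pool.Agent.Helper69.GGM.CV
import Pool.Agent.Helper69.GGM.SM

/-!
# GGM block MCU: upper comparison

Proof. `L = log T`, `u(t) = S0 T a t - S0 T (2L) t`; `∫_ℝ ‖u‖² = (2π/L) (...) = T * UU T a` (`S0_second_moment`
with `A = 2L`, `2A = 4L`, `SN T = TL/2π`). Pointwise, with `r = XX T a t - u`:
`min (‖XX‖²) B <= (1+θ) ‖u‖² + (1+1/θ) min (‖r‖²) B` (because `min (‖u+r‖) √B <= ‖u‖ + min ‖r‖ √B`).
Choose `δ` with `2 δ B <= θ/2`; on `[0,δT] ∪ [(1-δ)T,T]` bound the integrand by `B`; on the rest integrate the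
pointwise inequality and apply `conv_measure` with `ε = (θ/2)/(1+1/θ)`.
(If `B <= 0` the statement is trivial or use `B > 0`.)
-/

open Complex Set MeasureTheory Filter Topology
open Pool.Agent.Helper57.LH Pool.Agent.Helper57.PC Pool.Agent.Helper57.Zeta

namespace Pool.Agent.Helper69.GGM

lemma integral_u_sq {T a : ℝ} (hT : 1 < T) (ha : 0 < a) :
    ∫ t, ‖S0 T a t - S0 T (2 * Real.log T) t‖ ^ 2 = T * UU T a := by
  have hL : 0 < Real.log T := Real.log_pos hT
  rw [S0_second_moment hT ha (A := 2 * Real.log T) (by positivity)]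
  unfold UU SN
  have hT0 : T ≠ 0 := by positivity
  have h4 : 2 * (2 * Real.log T) = 4 * Real.log T := by ring
  rw [h4]
  have hpi : Real.pi ≠ 0 := Real.pi_ne_zero
  field_simp

namespace MCUaux

lemma measurable_zeta : Measurable riemannZeta := by
  apply measurable_of_continuousOn_compl_singleton (1 : ℂ)
  intro s hs
  exact (differentiableAt_riemannZeta (by simpa using hs)).continuousAt.continuousWithinAt

lemma measurable_logDeriv_zeta : Measurable (logDeriv riemannZeta) := by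
  have : logDeriv riemannZeta = fun s => deriv riemannZeta s / riemannZeta s := by
    funext s; rfl
  rw [this]
  exact (measurable_deriv riemannZeta).div measurable_zeta

lemma measurable_XX (T a : ℝ) : Measurable (fun t => XX T a t) := by
  unfold XX
  refine Measurable.div_const ?_ _
  exact measurable_logDeriv_zeta.comp (by fun_prop)

lemma continuous_S0 (T : ℝ) {b : ℝ} (hb : 0 < b) : Continuous (fun t => S0 T b t) := by
  unfold S0 z0
  refine continuous_finsetSum _ (fun ρ _ => ?_)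
  refine Continuous.div continuous_const (by fun_prop) (fun t => ?_)
  intro h
  have := congrArg Complex.re h
  simp at this
  exact hb.ne' this

lemma ptwise {θ B : ℝ} (hθ : 0 < θ) (hB : 0 < B) (u x : ℂ) :
    min (‖x‖ ^ 2) B ≤ (1 + θ) * ‖u‖ ^ 2 + (1 + 1 / θ) * min (‖x - u‖ ^ 2) B := by
  have h1 : ‖x‖ ≤ ‖u‖ + ‖x - u‖ := by
    have := norm_add_le u (x - u)
    simpa using this
  have hu := norm_nonneg u
  have hr := norm_nonneg (x - u)
  have hx := norm_nonneg x
  have hθi : 0 < 1 / θ := by positivity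
  have hθθ : θ * (1 / θ) = 1 := by field_simp
  rcases le_total (‖x - u‖ ^ 2) B with h | h
  · rw [min_eq_left h]
    refine (min_le_left _ _).trans ?_
    have h2 : ‖x‖ ^ 2 ≤ (‖u‖ + ‖x - u‖) ^ 2 := by gcongr
    refine h2.trans ?_
    have h3 : 2 * (‖u‖ * ‖x - u‖) ≤ θ * ‖u‖ ^ 2 + (1 / θ) * ‖x - u‖ ^ 2 := by
      have h4 : 0 ≤ (1 / θ) * (θ * ‖u‖ - ‖x - u‖) ^ 2 := by positivity
      have h5 : (1 / θ) * (θ * ‖u‖ - ‖x - u‖) ^ 2
          = θ * (θ * (1 / θ)) * ‖u‖ ^ 2 - 2 * (θ * (1 / θ)) * (‖u‖ * ‖x - u‖)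
            + (1 / θ) * ‖x - u‖ ^ 2 := by ring
      rw [h5, hθθ] at h4
      linarith
    nlinarith
  · rw [min_eq_right h]
    refine (min_le_right _ _).trans ?_
    have : 0 ≤ (1 + θ) * ‖u‖ ^ 2 := by positivity
    nlinarith [mul_pos hθi hB]

end MCUaux

open MCUaux in
theorem upper_comparison {l : Filter ℝ} (hl : l ≤ atTop) (hOff : OffLine l) {a : ℝ} (ha : 0 < a)
    {θ : ℝ} (hθ : 0 < θ) {B : ℝ} (hB : 0 < B) :
    ∀ᶠ T : ℝ in l, MM T a B ≤ (1 + θ) * UU T a + θ := by
  obtain ⟨δ, hδ, hδ2, hδB⟩ : ∃ δ : ℝ, 0 < δ ∧ δ < 1 / 2 ∧ 2 * δ * B ≤ θ / 2 := by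
    refine ⟨min (1 / 4) (θ / (4 * B)), by positivity, ?_, ?_⟩
    · exact (min_le_left _ _).trans_lt (by norm_num)
    · have : min (1 / 4) (θ / (4 * B)) ≤ θ / (4 * B) := min_le_right _ _
      have h2 : 2 * (θ / (4 * B)) * B = θ / 2 := by field_simp; ring
      nlinarith
  have hθi : 0 < 1 + 1 / θ := by positivity
  set ε : ℝ := (θ / 2) / (1 + 1 / θ) with hεd
  have hε : 0 < ε := by positivity
  filter_upwards [conv_measure hl hOff ha hδ hδ2 hB hε, hl (eventually_gt_atTop 1)] with T hT1 hT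
  have hL : 0 < Real.log T := Real.log_pos hT
  have hT0 : 0 < T := by linarith
  have h2L : 0 < 2 * Real.log T := by positivity
  set u : ℝ → ℂ := fun t => S0 T a t - S0 T (2 * Real.log T) t with hu
  have hucont : Continuous u := (continuous_S0 T ha).sub (continuous_S0 T h2L)
  have hXm : Measurable (fun t => XX T a t) := measurable_XX T a
  -- bounded measurable functions are interval integrable
  have bd : ∀ g : ℝ → ℂ, Measurable g → ∀ x y : ℝ,
      IntervalIntegrable (fun t => min (‖g t‖ ^ 2) B) volume x y := by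
    intro g hg x y
    have hm : Measurable (fun t => min (‖g t‖ ^ 2) B) := (hg.norm.pow_const 2).min measurable_const
    refine (intervalIntegrable_const (c := B)).mono_fun hm.aestronglyMeasurable ?_
    refine Filter.Eventually.of_forall (fun t => ?_)
    change ‖min (‖g t‖ ^ 2) B‖ ≤ ‖B‖
    rw [Real.norm_of_nonneg (le_min (by positivity) hB.le), Real.norm_of_nonneg hB.le]
    exact min_le_right _ _
  have hI := bd _ hXm
  have hR := bd (fun t => XX T a t - u t) (hXm.sub hucont.measurable)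
  have hu2 : Continuous (fun t => ‖u t‖ ^ 2) := (hucont.norm).pow 2
  -- split
  have hδT : 0 ≤ δ * T := by positivity
  have hδT' : δ * T ≤ (1 - δ) * T := by nlinarith
  have hδT'' : (1 - δ) * T ≤ T := by nlinarith
  have hsplit : ∫ t in (0:ℝ)..T, min (‖XX T a t‖ ^ 2) B =
      (∫ t in (0:ℝ)..(δ * T), min (‖XX T a t‖ ^ 2) B) +
      (∫ t in (δ * T)..((1 - δ) * T), min (‖XX T a t‖ ^ 2) B) +
      ∫ t in ((1 - δ) * T)..T, min (‖XX T a t‖ ^ 2) B := by
    rw [intervalIntegral.integral_add_adjacent_intervals (hI _ _) (hI _ _),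
      intervalIntegral.integral_add_adjacent_intervals (hI _ _) (hI _ _)]
  have hA1 : ∫ t in (0:ℝ)..(δ * T), min (‖XX T a t‖ ^ 2) B ≤ δ * T * B := by
    have := intervalIntegral.integral_mono_on hδT (hI _ _) (intervalIntegrable_const (c := B))
      (fun t _ => min_le_right _ _)
    simpa using this
  have hA3 : ∫ t in ((1 - δ) * T)..T, min (‖XX T a t‖ ^ 2) B ≤ δ * T * B := by
    have := intervalIntegral.integral_mono_on hδT'' (hI _ _) (intervalIntegrable_const (c := B))
      (fun t _ => min_le_right _ _)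
    have h3 : ∫ _ in ((1 - δ) * T)..T, B = δ * T * B := by
      rw [intervalIntegral.integral_const, smul_eq_mul]; ring
    rw [h3] at this
    exact this
  have hA2 : ∫ t in (δ * T)..((1 - δ) * T), min (‖XX T a t‖ ^ 2) B ≤
      (1 + θ) * (∫ t in (δ * T)..((1 - δ) * T), ‖u t‖ ^ 2) +
      (1 + 1 / θ) * ∫ t in (δ * T)..((1 - δ) * T), min (‖XX T a t - u t‖ ^ 2) B := by
    rw [← intervalIntegral.integral_const_mul, ← intervalIntegral.integral_const_mul,
      ← intervalIntegral.integral_add ((hu2.intervalIntegrable _ _).const_mul _)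
        ((hR _ _).const_mul _)]
    refine intervalIntegral.integral_mono_on hδT' (hI _ _)
      (((hu2.intervalIntegrable _ _).const_mul _).add ((hR _ _).const_mul _)) (fun t _ => ?_)
    exact ptwise hθ hB (u t) (XX T a t)
  have hu3 : ∫ t in (δ * T)..((1 - δ) * T), ‖u t‖ ^ 2 ≤ T * UU T a := by
    rw [← integral_u_sq hT ha, intervalIntegral.integral_of_le hδT']
    exact setIntegral_le_integral (S0_sq_integrable hT ha h2L)
      (Filter.Eventually.of_forall (fun t => by positivity))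
  have hfin : ∫ t in (0:ℝ)..T, min (‖XX T a t‖ ^ 2) B ≤ T * ((1 + θ) * UU T a + θ) := by
    rw [hsplit]
    have h5 : (1 + 1 / θ) * (ε * T) = θ / 2 * T := by
      rw [hεd]; field_simp
    have h6 : (1 + 1 / θ) * (∫ t in (δ * T)..((1 - δ) * T), min (‖XX T a t - u t‖ ^ 2) B) ≤
        (1 + 1 / θ) * (ε * T) := mul_le_mul_of_nonneg_left hT1 hθi.le
    have h7 : (1 + θ) * (∫ t in (δ * T)..((1 - δ) * T), ‖u t‖ ^ 2) ≤ (1 + θ) * (T * UU T a) :=
      mul_le_mul_of_nonneg_left hu3 (by positivity)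
    have h8 : 2 * (δ * T * B) ≤ θ / 2 * T := by nlinarith
    nlinarith
  unfold MM
  rw [div_mul_eq_mul_div, one_mul, div_le_iff₀ hT0]
  linarith

end Pool.Agent.Helper69.GGM
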