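import Pool.Agent.Helper57.M.E
import Pool.Agent.Helper69.GGM.Pk

/-!
# GGM block PI: the predicted value for a Poisson kernel

Statement: `Pk c 0 + ∫ Pk c F = 1/2 + (1 - e^(-c))/c²`.

Proof. `Pk c 0 = 1/c`. `∫_ℝ Pk c = 1/2` (arctan; `integral_univ_inv_one_add_sq`). `pcDensity u = 1 - sc u` a.e.
(`sc_ae`, `pcDensity_eq`), `sc` integrable. `∫ Pk c u * sc u du = ∫_0^∞ e^(-cα) tri(α) dα
= ∫_0^1 (1-α) e^(-cα) dα = 1/c - (1-e^(-c))/c²`: write `Pk c u = ∫_{α>0} e^(-cα) cos(2πuα) dα` (Laplace transform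
of cos), Fubini (`e^(-cα) |sc u|` is integrable), and `sc_FT : ∫ sc x cos(2πvx) dx = tri v` (`M/E.lean` 2343).
-/

open Complex Set MeasureTheory Filter Topology
open Pool.Agent.Helper57.LH Pool.Agent.Helper57.PC Pool.Agent.Helper57.Zeta Pool.Agent.Helper57.LS

namespace Pool.Agent.Helper69.GGM

lemma Pk_form {c : ℝ} (hc : 0 < c) (u : ℝ) : Pk c u = 1 / c * (1 + (2 * Real.pi / c * u) ^ 2)⁻¹ := by
  unfold Pk
  have h1 : c ^ 2 + (2 * Real.pi * u) ^ 2 ≠ 0 := by positivity
  have h2 : 1 + (2 * Real.pi / c * u) ^ 2 ≠ 0 := by positivity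
  have h3 : c ^ 2 + (2 * Real.pi * u) ^ 2 = c ^ 2 * (1 + (2 * Real.pi / c * u) ^ 2) := by
    field_simp
  rw [h3]
  field_simp

lemma Pk_integrable {c : ℝ} (hc : 0 < c) : Integrable (Pk c) := by
  have h1 : Pk c = fun u => 1 / c * (1 + (2 * Real.pi / c * u) ^ 2)⁻¹ := by
    funext u; exact Pk_form hc u
  rw [h1]
  have h2 : (2 * Real.pi / c) ≠ 0 := by positivity
  exact (integrable_inv_one_add_sq.comp_mul_left' h2).const_mul _

lemma Pk_integral {c : ℝ} (hc : 0 < c) : ∫ u, Pk c u = 1 / 2 := by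
  have h1 : Pk c = fun u => 1 / c * (1 + (2 * Real.pi / c * u) ^ 2)⁻¹ := by
    funext u; exact Pk_form hc u
  have h2 : (2 * Real.pi / c) ≠ 0 := by positivity
  have h3 := Measure.integral_comp_mul_left (fun x : ℝ => (1 + x ^ 2)⁻¹) (2 * Real.pi / c)
  rw [integral_univ_inv_one_add_sq, abs_of_pos (by positivity : 0 < (2 * Real.pi / c)⁻¹), smul_eq_mul] at h3
  rw [h1, integral_const_mul, h3]
  have hpi := Real.pi_pos
  field_simp

/-- the Laplace transform of the cosine -/
lemma laplace_cos {c : ℝ} (hc : 0 < c) (b : ℝ) :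
    ∫ a in Ioi (0:ℝ), Real.exp (-c * a) * Real.cos (b * a) = c / (c ^ 2 + b ^ 2) := by
  have ha : ((-c : ℂ) + b * I).re < 0 := by simp [hc]
  have h1 := integral_exp_mul_complex_Ioi ha 0
  have h2 := integrableOn_exp_mul_complex_Ioi ha 0
  have h3 : ∫ a in Ioi (0:ℝ), Real.exp (-c * a) * Real.cos (b * a) =
      (∫ a in Ioi (0:ℝ), cexp (((-c : ℂ) + b * I) * a)).re := by
    rw [← Complex.reCLM_apply, ← Complex.reCLM.integral_comp_comm h2]
    apply setIntegral_congr_fun measurableSet_Ioi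
    intro a _
    simp only [Complex.reCLM_apply]
    rw [Complex.exp_re]
    simp
  rw [h3, h1]
  have h4 : c ^ 2 + b ^ 2 ≠ 0 := by positivity
  have h5 : ((-c : ℂ) + b * I) ≠ 0 := by
    intro h
    rw [h] at ha
    simp at ha
  have h6 : (((c ^ 2 + b ^ 2 : ℝ)) : ℂ) ≠ 0 := by exact_mod_cast h4
  have h7 : -cexp (((-c : ℂ) + b * I) * (0:ℝ)) / ((-c : ℂ) + b * I) = ((c / (c ^ 2 + b ^ 2) : ℝ) : ℂ) + ((b / (c ^ 2 + b ^ 2) : ℝ) : ℂ) * I := by
    rw [Complex.ofReal_zero, mul_zero, Complex.exp_zero, div_eq_iff h5, Complex.ofReal_div, Complex.ofReal_div]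
    field_simp
    push_cast
    ring_nf
    simp only [Complex.I_sq]
    ring
  rw [h7, Complex.add_re, Complex.ofReal_re, Complex.re_ofReal_mul, Complex.I_re, mul_zero, add_zero]

lemma Pk_laplace {c : ℝ} (hc : 0 < c) (u : ℝ) :
    Pk c u = ∫ a in Ioi (0:ℝ), Real.exp (-c * a) * Real.cos (2 * Real.pi * u * a) := by
  rw [laplace_cos hc]
  rfl

lemma exp_int {c : ℝ} (hc : 0 < c) : IntegrableOn (fun a : ℝ => Real.exp (-c * a)) (Ioi (0:ℝ)) :=
  exp_neg_integrableOn_Ioi 0 hc

lemma tri_laplace {c : ℝ} (hc : 0 < c) :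
    ∫ a in Ioi (0:ℝ), Real.exp (-c * a) * tri a = 1 / c - (1 - Real.exp (-c)) / c ^ 2 := by
  rw [setIntegral_eq_of_subset_of_forall_sdiff_eq_zero (s := Ioc 0 1) measurableSet_Ioi Ioc_subset_Ioi_self]
  · rw [← intervalIntegral.integral_of_le zero_le_one]
    have h1 : ∀ x ∈ uIcc (0:ℝ) 1, HasDerivAt (fun a : ℝ => -((1 - a) * Real.exp (-c * a)) / c + Real.exp (-c * a) / c ^ 2)
        (Real.exp (-c * x) * (1 - x)) x := by
      intro x _
      have h2 : HasDerivAt (fun a : ℝ => Real.exp (-c * a)) (Real.exp (-c * x) * (-c)) x := by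
        have := ((hasDerivAt_id x).const_mul (-c)).exp
        simpa using this
      have h3 : HasDerivAt (fun a : ℝ => 1 - a) (-1) x := by
        have := (hasDerivAt_id x).const_sub 1
        simpa using this
      have h4 := ((h3.mul h2).neg.div_const c).add (h2.div_const (c ^ 2))
      have hc2 : c ≠ 0 := hc.ne'
      have h4v : -(-1 * Real.exp (-c * x) + (1 - x) * (Real.exp (-c * x) * -c)) / c + Real.exp (-c * x) * -c / c ^ 2
          = Real.exp (-c * x) * (1 - x) := by
        field_simp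
        ring
      rw [h4v] at h4
      exact h4
    have h5 : ∫ a in (0:ℝ)..1, Real.exp (-c * a) * tri a = ∫ a in (0:ℝ)..1, Real.exp (-c * a) * (1 - a) := by
      apply intervalIntegral.integral_congr
      intro x hx
      rw [uIcc_of_le zero_le_one] at hx
      simp only
      rw [tri_of hx.1 hx.2]
    rw [h5, intervalIntegral.integral_eq_sub_of_hasDerivAt h1 (by
      apply Continuous.intervalIntegrable; fun_prop)]
    simp only [mul_one, sub_self, zero_mul, neg_zero, zero_div, zero_add, sub_zero, mul_zero, Real.exp_zero]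
    field_simp
    ring
  · intro x hx
    have h1 : 0 < x := hx.1
    have h2 : 1 ≤ |x| := by
      rw [abs_of_pos h1]
      by_contra h3
      push Not at h3
      exact hx.2 ⟨h1, h3.le⟩
    rw [tri_zero_of h2, mul_zero]

lemma Pk_sc {c : ℝ} (hc : 0 < c) : ∫ u, Pk c u * sc u = 1 / c - (1 - Real.exp (-c)) / c ^ 2 := by
  have h0 : ∀ u : ℝ, Pk c u * sc u = ∫ a in Ioi (0:ℝ), sc u * Real.exp (-c * a) * Real.cos (2 * Real.pi * u * a) := by
    intro u
    rw [Pk_laplace hc, mul_comm, ← integral_const_mul]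
    congr 1
    funext a
    ring
  have hint : Integrable (Function.uncurry (fun (u a : ℝ) => sc u * Real.exp (-c * a) * Real.cos (2 * Real.pi * u * a)))
      (volume.prod (volume.restrict (Ioi (0:ℝ)))) := by
    have h1 : Integrable (fun z : ℝ × ℝ => sc z.1 * Real.exp (-c * z.2)) (volume.prod (volume.restrict (Ioi (0:ℝ)))) :=
      Integrable.mul_prod sc_integrable (exp_int hc)
    refine h1.mono ?_ ?_
    · apply Continuous.aestronglyMeasurable
      have := sc_cont
      unfold Function.uncurry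
      fun_prop
    · filter_upwards with z
      simp only [Function.uncurry]
      rw [norm_mul]
      have h2 : ‖Real.cos (2 * Real.pi * z.1 * z.2)‖ ≤ 1 := Real.abs_cos_le_one _
      exact mul_le_of_le_one_right (norm_nonneg _) h2
  simp_rw [h0]
  rw [integral_integral_swap hint, ← tri_laplace hc]
  apply setIntegral_congr_fun measurableSet_Ioi
  intro a _
  simp only
  rw [← sc_FT a, ← integral_const_mul]
  congr 1
  funext u
  have h3 : 2 * Real.pi * u * a = 2 * Real.pi * a * u := by ring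
  rw [h3]
  ring

theorem Pk_value {c : ℝ} (hc : 0 < c) :
    Pk c 0 + ∫ u, Pk c u * pcDensity u = 1 / 2 + (1 - Real.exp (-c)) / c ^ 2 := by
  have h1 : ∫ u, Pk c u * pcDensity u = ∫ u, (Pk c u - Pk c u * sc u) := by
    apply integral_congr_ae
    filter_upwards [sc_ae] with u hu
    rw [pcDensity_eq, ← hu]
    ring
  have h2 : Integrable (fun u => Pk c u * sc u) := by
    refine (sc_integrable.const_mul (1 / c)).mono' ((Pk_cont hc).mul sc_cont).aestronglyMeasurable ?_
    filter_upwards with u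
    rw [Real.norm_of_nonneg (mul_nonneg (Pk_nonneg hc u) (sc_nonneg u))]
    exact mul_le_mul_of_nonneg_right (Pk_le hc u) (sc_nonneg u)
  rw [h1, integral_sub (Pk_integrable hc) h2, Pk_integral hc, Pk_sc hc]
  have h3 : Pk c 0 = 1 / c := by
    unfold Pk
    rw [mul_zero]
    field_simp
    ring
  rw [h3]
  ring

end Pool.Agent.Helper69.GGM
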