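import Pool.Agent.Helper69.GGM.TL

/-!
# GGM block PL: from windows to Poisson kernels

Proof. `φ = Pk c` is continuous, even, decreasing in `|u|`, `φ(u) = O(1/u²)`. For `h > 0` let
`Δ i = φ(ih) - φ((i+1)h)`. Then `Σ Δ i 1[|u| ≤ ih] <= φ(u) <= Σ Δ i 1[|u| ≤ (i+1)h]`; both step functions
satisfy the law by dominated convergence of series (Tannery), with the bound of `tail_pairs`; the limits
differ by at most `2 h φ(0)`.
-/

open Complex Set MeasureTheory Filter Topology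
open Pool.Agent.Helper57.LH Pool.Agent.Helper57.PC Pool.Agent.Helper57.Zeta

namespace Pool.Agent.Helper69.GGM

/-! ### The kernel -/

lemma PL_Pk_anti {c : ℝ} (hc : 0 < c) {x y : ℝ} (hx : 0 ≤ x) (hxy : x ≤ y) : Pk c y ≤ Pk c x := by
  unfold Pk
  apply div_le_div_of_nonneg_left hc.le (by positivity)
  have : (2 * Real.pi * x) ^ 2 ≤ (2 * Real.pi * y) ^ 2 := by
    have := Real.pi_pos
    gcongr
  linarith

lemma PL_Pk_abs (c u : ℝ) : Pk c |u| = Pk c u := by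
  unfold Pk
  rw [mul_pow (2 * Real.pi) |u|, mul_pow (2 * Real.pi) u, sq_abs]

lemma PL_Pk_integrable {c : ℝ} (hc : 0 < c) : Integrable (Pk c) := by
  have h1 := (integrable_inv_one_add_sq).comp_mul_left' (show (2 * Real.pi / c) ≠ 0 by positivity)
  have h2 := h1.const_mul (1 / c)
  refine h2.congr (Eventually.of_forall fun u => ?_)
  simp only
  unfold Pk
  field_simp

/-- the comparison `φ(x) <= K φ(u)` for `|u| <= x + h` -/
lemma PL_Pk_shift {c h : ℝ} (hc : 0 < c) {x u : ℝ} (hu : |u| ≤ x + h) :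
    Pk c x ≤ (2 + 8 * Real.pi ^ 2 * h ^ 2 / c ^ 2) * Pk c u := by
  unfold Pk
  rw [mul_div_assoc', div_le_div_iff₀ (by positivity) (by positivity)]
  have h1 : u ^ 2 ≤ 2 * x ^ 2 + 2 * h ^ 2 := by
    have : |u| ^ 2 ≤ (x + h) ^ 2 := by gcongr
    rw [sq_abs] at this
    nlinarith [sq_nonneg (x - h)]
  have h2 : c ^ 2 + (2 * Real.pi * u) ^ 2 ≤
      (2 + 8 * Real.pi ^ 2 * h ^ 2 / c ^ 2) * (c ^ 2 + (2 * Real.pi * x) ^ 2) := by
    have e : (2 + 8 * Real.pi ^ 2 * h ^ 2 / c ^ 2) * (c ^ 2 + (2 * Real.pi * x) ^ 2) =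
        2 * c ^ 2 + 8 * Real.pi ^ 2 * x ^ 2 + 8 * Real.pi ^ 2 * h ^ 2 +
          8 * Real.pi ^ 2 * h ^ 2 / c ^ 2 * (2 * Real.pi * x) ^ 2 := by
      field_simp
      ring
    rw [e]
    have h3 : 0 ≤ 8 * Real.pi ^ 2 * h ^ 2 / c ^ 2 * (2 * Real.pi * x) ^ 2 := by positivity
    have h4 : 4 * Real.pi ^ 2 * u ^ 2 ≤ 4 * Real.pi ^ 2 * (2 * x ^ 2 + 2 * h ^ 2) := by gcongr
    have h5 : 0 ≤ c ^ 2 := by positivity
    nlinarith
  calc c * (c ^ 2 + (2 * Real.pi * u) ^ 2) ≤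
      c * ((2 + 8 * Real.pi ^ 2 * h ^ 2 / c ^ 2) * (c ^ 2 + (2 * Real.pi * x) ^ 2)) := by gcongr
    _ = _ := by ring

/-! ### The increments -/

noncomputable def PLD (c h : ℝ) (i : ℕ) : ℝ := Pk c ((i : ℝ) * h) - Pk c (((i : ℝ) + 1) * h)

lemma PLD_nonneg {c h : ℝ} (hc : 0 < c) (hh : 0 < h) (i : ℕ) : 0 ≤ PLD c h i := by
  unfold PLD
  rw [sub_nonneg]
  apply PL_Pk_anti hc (by positivity)
  gcongr
  linarith

lemma PL_summable {c h : ℝ} (hc : 0 < c) (hh : 0 < h) : Summable (fun i : ℕ => Pk c ((i : ℝ) * h)) := by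
  rw [← summable_nat_add_iff 1]
  have h1 : Summable (fun i : ℕ => (c / (4 * Real.pi ^ 2 * h ^ 2)) * (1 / ((i + 1 : ℕ) : ℝ) ^ 2)) := by
    apply Summable.mul_left
    exact (summable_nat_add_iff 1).mpr (Real.summable_one_div_nat_pow.mpr one_lt_two)
  refine Summable.of_nonneg_of_le (fun i => Pk_nonneg hc _) (fun i => ?_) h1
  unfold Pk
  rw [div_mul_div_comm, mul_one]
  have hi : (0 : ℝ) < ((i + 1 : ℕ) : ℝ) := by positivity
  apply div_le_div_of_nonneg_left hc.le (by positivity)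
  have : 0 ≤ c ^ 2 := by positivity
  nlinarith

lemma PL_tendsto_zero {c h : ℝ} (hc : 0 < c) (hh : 0 < h) :
    Tendsto (fun i : ℕ => Pk c ((i : ℝ) * h)) atTop (𝓝 0) := (PL_summable hc hh).tendsto_atTop_zero

lemma PLD_sum (c h : ℝ) (n : ℕ) : ∑ i ∈ Finset.range n, PLD c h i = Pk c 0 - Pk c ((n : ℝ) * h) := by
  induction n with
  | zero => simp
  | succ n ih =>
    rw [Finset.sum_range_succ, ih]
    unfold PLD
    push_cast
    ring

lemma PLD_sum_from (c h : ℝ) (k n : ℕ) (hn : k ≤ n) :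
    ∑ i ∈ Finset.range n, PLD c h i * (if k ≤ i then (1:ℝ) else 0) = Pk c ((k : ℝ) * h) - Pk c ((n : ℝ) * h) := by
  induction n, hn using Nat.le_induction with
  | base =>
    rw [sub_self]
    apply Finset.sum_eq_zero
    intro i hi
    rw [Finset.mem_range] at hi
    rw [if_neg (by omega), mul_zero]
  | succ n hn ih =>
    rw [Finset.sum_range_succ, ih, if_pos hn]
    unfold PLD
    push_cast
    ring

lemma PLD_hasSum_from {c h : ℝ} (hc : 0 < c) (hh : 0 < h) (k : ℕ) :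
    HasSum (fun i => PLD c h i * (if k ≤ i then (1:ℝ) else 0)) (Pk c ((k : ℝ) * h)) := by
  rw [hasSum_iff_tendsto_nat_of_nonneg]
  · have h1 : Tendsto (fun n : ℕ => Pk c ((k : ℝ) * h) - Pk c ((n : ℝ) * h)) atTop
        (𝓝 (Pk c ((k : ℝ) * h) - 0)) := tendsto_const_nhds.sub (PL_tendsto_zero hc hh)
    rw [sub_zero] at h1
    refine h1.congr' ?_
    filter_upwards [eventually_ge_atTop k] with n hn
    rw [PLD_sum_from c h k n hn]
  · intro i
    have := PLD_nonneg hc hh i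
    split_ifs
    · simpa using this
    · simp

lemma PLD_sum_lin (c h : ℝ) (n : ℕ) : ∑ i ∈ Finset.range n, PLD c h i * ((i : ℝ) + 1) =
    (∑ i ∈ Finset.range n, Pk c ((i : ℝ) * h)) - n * Pk c ((n : ℝ) * h) := by
  induction n with
  | zero => simp
  | succ n ih =>
    rw [Finset.sum_range_succ, ih, Finset.sum_range_succ]
    unfold PLD
    push_cast
    ring

lemma PLD_summable_lin {c h : ℝ} (hc : 0 < c) (hh : 0 < h) :
    Summable (fun i : ℕ => PLD c h i * ((i : ℝ) + 1)) := by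
  refine summable_of_sum_range_le (c := ∑' i : ℕ, Pk c ((i : ℝ) * h)) (fun i => ?_) (fun n => ?_)
  · have := PLD_nonneg hc hh i
    positivity
  · rw [PLD_sum_lin]
    have h1 : ∑ i ∈ Finset.range n, Pk c ((i : ℝ) * h) ≤ ∑' i : ℕ, Pk c ((i : ℝ) * h) :=
      (PL_summable hc hh).sum_le_tsum _ (fun i _ => Pk_nonneg hc _)
    have h2 : 0 ≤ (n : ℝ) * Pk c ((n : ℝ) * h) := mul_nonneg (Nat.cast_nonneg n) (Pk_nonneg hc _)
    linarith

lemma PLD_summable_aff {c h : ℝ} (hc : 0 < c) (hh : 0 < h) {A B : ℝ} :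
    Summable (fun i : ℕ => PLD c h i * (A * ((i : ℝ) + 1) + B)) := by
  have h1 := (PLD_summable_lin hc hh).mul_left A
  have h2 := (PLD_hasSum_from hc hh 0).summable.mul_left B
  refine (h1.add h2).congr fun i => ?_
  simp only [Nat.zero_le, if_true]
  ring

/-! ### The step functions -/

noncomputable def PLup (c h u : ℝ) : ℝ := Pk c (((⌈|u| / h⌉₊ - 1 : ℕ) : ℝ) * h)

noncomputable def PLlo (c h u : ℝ) : ℝ := Pk c ((⌈|u| / h⌉₊ : ℝ) * h)

lemma PL_mem_Icc {u r : ℝ} : u ∈ Icc (-r) r ↔ |u| ≤ r := by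
  rw [mem_Icc, abs_le]

lemma PLup_hasSum {c h : ℝ} (hc : 0 < c) (hh : 0 < h) (u : ℝ) :
    HasSum (fun i : ℕ => PLD c h i * ic (Icc (-(((i : ℝ) + 1) * h)) (((i : ℝ) + 1) * h)) u) (PLup c h u) := by
  classical
  have h1 := PLD_hasSum_from hc hh (⌈|u| / h⌉₊ - 1)
  have h2 : (fun i : ℕ => PLD c h i * ic (Icc (-(((i : ℝ) + 1) * h)) (((i : ℝ) + 1) * h)) u) =
      fun i => PLD c h i * (if ⌈|u| / h⌉₊ - 1 ≤ i then (1:ℝ) else 0) := by
    funext i
    rw [ic_apply]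
    have h3 : u ∈ Icc (-(((i : ℝ) + 1) * h)) (((i : ℝ) + 1) * h) ↔ ⌈|u| / h⌉₊ - 1 ≤ i := by
      rw [PL_mem_Icc, ← div_le_iff₀ hh, Nat.sub_le_iff_le_add, Nat.ceil_le]
      push_cast
      rfl
    by_cases h4 : u ∈ Icc (-(((i : ℝ) + 1) * h)) (((i : ℝ) + 1) * h)
    · rw [if_pos h4, if_pos (h3.mp h4)]
    · rw [if_neg h4, if_neg (fun h5 => h4 (h3.mpr h5))]
  rw [h2]
  exact h1

lemma PLlo_hasSum {c h : ℝ} (hc : 0 < c) (hh : 0 < h) (u : ℝ) :
    HasSum (fun i : ℕ => PLD c h i * ic (Icc (-((i : ℝ) * h)) ((i : ℝ) * h)) u) (PLlo c h u) := by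
  classical
  have h1 := PLD_hasSum_from hc hh ⌈|u| / h⌉₊
  have h2 : (fun i : ℕ => PLD c h i * ic (Icc (-((i : ℝ) * h)) ((i : ℝ) * h)) u) =
      fun i => PLD c h i * (if ⌈|u| / h⌉₊ ≤ i then (1:ℝ) else 0) := by
    funext i
    rw [ic_apply]
    have h3 : u ∈ Icc (-((i : ℝ) * h)) ((i : ℝ) * h) ↔ ⌈|u| / h⌉₊ ≤ i := by
      rw [PL_mem_Icc, ← div_le_iff₀ hh, Nat.ceil_le]
    by_cases h4 : u ∈ Icc (-((i : ℝ) * h)) ((i : ℝ) * h)
    · rw [if_pos h4, if_pos (h3.mp h4)]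
    · rw [if_neg h4, if_neg (fun h5 => h4 (h3.mpr h5))]
  rw [h2]
  exact h1

lemma PLlo_le {c h : ℝ} (hc : 0 < c) (hh : 0 < h) (u : ℝ) : PLlo c h u ≤ Pk c u := by
  rw [← PL_Pk_abs c u]
  apply PL_Pk_anti hc (abs_nonneg u)
  rw [← div_le_iff₀ hh]
  exact Nat.le_ceil _

lemma PLup_ge {c h : ℝ} (hc : 0 < c) (hh : 0 < h) (u : ℝ) : Pk c u ≤ PLup c h u := by
  rw [← PL_Pk_abs c u]
  apply PL_Pk_anti hc (by positivity)
  rw [← le_div_iff₀ hh]
  rcases Nat.eq_zero_or_pos ⌈|u| / h⌉₊ with h0 | h0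
  · rw [h0]
    simp only [Nat.zero_sub, Nat.cast_zero]
    positivity
  · have h1 : ⌈|u| / h⌉₊ - 1 < ⌈|u| / h⌉₊ := by omega
    exact (Nat.lt_ceil.mp h1).le

lemma PLup_le {c h : ℝ} (hc : 0 < c) (hh : 0 < h) (u : ℝ) :
    PLup c h u ≤ (2 + 8 * Real.pi ^ 2 * h ^ 2 / c ^ 2) * Pk c u := by
  apply PL_Pk_shift hc
  have h1 : |u| / h ≤ ((⌈|u| / h⌉₊ - 1 : ℕ) : ℝ) + 1 := by
    have h2 : |u| / h ≤ (⌈|u| / h⌉₊ : ℝ) := Nat.le_ceil _
    have h3 : (⌈|u| / h⌉₊ : ℝ) ≤ (((⌈|u| / h⌉₊ - 1 : ℕ) + 1 : ℕ) : ℝ) := by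
      apply Nat.cast_le.mpr
      omega
    push_cast at h3
    linarith
  rw [div_le_iff₀ hh] at h1
  linarith

lemma PLup_meas (c h : ℝ) : Measurable (PLup c h) := by
  unfold PLup
  have h1 : Measurable (fun n : ℕ => Pk c (((n - 1 : ℕ) : ℝ) * h)) := measurable_from_nat
  exact h1.comp (Nat.measurable_ceil.comp (by fun_prop))

lemma PLlo_meas (c h : ℝ) : Measurable (PLlo c h) := by
  unfold PLlo
  have h1 : Measurable (fun n : ℕ => Pk c ((n : ℝ) * h)) := measurable_from_nat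
  exact h1.comp (Nat.measurable_ceil.comp (by fun_prop))

lemma PL_F_meas : Measurable pcDensity := by
  have : pcDensity = fun u => 1 - sq u := rfl
  rw [this]
  exact measurable_const.sub measurable_sq

lemma PL_mulF_integrable {S : ℝ → ℝ} (hm : Measurable S) (h0 : ∀ u, 0 ≤ S u) {g : ℝ → ℝ}
    (hg : Integrable g) (h1 : ∀ u, S u ≤ g u) : Integrable (fun u => S u * pcDensity u) := by
  refine hg.mono' (hm.mul PL_F_meas).aestronglyMeasurable (Eventually.of_forall fun u => ?_)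
  rw [Real.norm_of_nonneg (mul_nonneg (h0 u) (pcDensity_nonneg u))]
  calc S u * pcDensity u ≤ S u * 1 := mul_le_mul_of_nonneg_left (pcDensity_le_one u) (h0 u)
    _ ≤ g u := by rw [mul_one]; exact h1 u

lemma PL_ic_F {a b : ℝ} (hab : a ≤ b) : ∫ u, ic (Icc a b) u * pcDensity u = ∫ u in a..b, pcDensity u := by
  have h : ∀ u, ic (Icc a b) u * pcDensity u = (Icc a b).indicator pcDensity u := by
    intro u
    classical
    rw [ic_apply, indicator_apply]
    split_ifs <;> simp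
  simp_rw [h]
  rw [integral_indicator measurableSet_Icc, intervalIntegral.integral_of_le hab, integral_Icc_eq_integral_Ioc]

lemma PL_ic_int (a b : ℝ) : Integrable (fun u => ic (Icc a b) u) := by
  unfold ic
  rw [integrable_indicator_iff measurableSet_Icc]
  exact integrableOn_const (by rw [Real.volume_Icc]; exact ENNReal.ofReal_ne_top)

lemma PL_ic_meas (a b : ℝ) : Measurable (fun u => ic (Icc a b) u) := by
  unfold ic
  exact measurable_const.indicator measurableSet_Icc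

/-! ### Both functionals on a step function -/

lemma PL_WP_tsum {c h : ℝ} {ρ : ℕ → ℝ} {S : ℝ → ℝ}
    (hS : ∀ u, HasSum (fun i => PLD c h i * ic (Icc (-(ρ i)) (ρ i)) u) (S u)) (T : ℝ) :
    HasSum (fun i => PLD c h i * pairCount T (-(ρ i)) (ρ i)) (WP T S) := by
  unfold WP
  have h1 : HasSum (fun i => ∑ p ∈ Zf T ×ˢ Zf T, (mult p.1 : ℝ) * (mult p.2 : ℝ) *
      (PLD c h i * ic (Icc (-(ρ i)) (ρ i)) (nd T p)))
      (∑ p ∈ Zf T ×ˢ Zf T, (mult p.1 : ℝ) * (mult p.2 : ℝ) * S (nd T p)) := by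
    apply hasSum_sum
    intro p _
    exact (hS (nd T p)).mul_left _
  have h2 : (fun i => PLD c h i * pairCount T (-(ρ i)) (ρ i)) = fun i => ∑ p ∈ Zf T ×ˢ Zf T,
      (mult p.1 : ℝ) * (mult p.2 : ℝ) * (PLD c h i * ic (Icc (-(ρ i)) (ρ i)) (nd T p)) := by
    funext i
    rw [pairCount_WP]
    unfold WP
    rw [Finset.mul_sum]
    refine Finset.sum_congr rfl fun p _ => ?_
    ring
  rw [h2]
  exact h1

lemma PL_int_tsum {c h : ℝ} (hc : 0 < c) (hh : 0 < h) {ρ : ℕ → ℝ} {S : ℝ → ℝ}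
    (hρ0 : ∀ i, 0 ≤ ρ i) (hρ : ∀ i, ρ i ≤ ((i : ℝ) + 1) * h)
    (hS : ∀ u, HasSum (fun i => PLD c h i * ic (Icc (-(ρ i)) (ρ i)) u) (S u)) :
    HasSum (fun i => PLD c h i * ∫ u in (-(ρ i))..(ρ i), pcDensity u) (∫ u, S u * pcDensity u) := by
  have hle : ∀ i, -(ρ i) ≤ ρ i := fun i => by linarith [hρ0 i]
  have hint : ∀ i, Integrable (fun u => PLD c h i * ic (Icc (-(ρ i)) (ρ i)) u * pcDensity u) := by
    intro i
    have h1 := PL_mulF_integrable (PL_ic_meas (-(ρ i)) (ρ i)) (fun u => ic_nonneg _ u)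
      (PL_ic_int (-(ρ i)) (ρ i)) (fun u => le_refl _)
    refine (h1.const_mul (PLD c h i)).congr (Eventually.of_forall fun u => ?_)
    simp only
    ring
  have hval : ∀ i, ∫ u, PLD c h i * ic (Icc (-(ρ i)) (ρ i)) u * pcDensity u =
      PLD c h i * ∫ u in (-(ρ i))..(ρ i), pcDensity u := by
    intro i
    rw [← PL_ic_F (hle i), ← integral_const_mul]
    congr 1
    funext u
    ring
  have hnorm : ∀ i, ∫ u, ‖PLD c h i * ic (Icc (-(ρ i)) (ρ i)) u * pcDensity u‖ =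
      PLD c h i * ∫ u in (-(ρ i))..(ρ i), pcDensity u := by
    intro i
    rw [← hval i]
    congr 1
    funext u
    exact Real.norm_of_nonneg (mul_nonneg (mul_nonneg (PLD_nonneg hc hh i) (ic_nonneg _ u)) (pcDensity_nonneg u))
  have hsum : Summable fun i => ∫ u, ‖PLD c h i * ic (Icc (-(ρ i)) (ρ i)) u * pcDensity u‖ := by
    simp_rw [hnorm]
    refine Summable.of_nonneg_of_le (fun i => mul_nonneg (PLD_nonneg hc hh i) (int_F_nonneg (hle i)))
      (fun i => ?_) (PLD_summable_aff hc hh (A := 2 * h) (B := 0))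
    apply mul_le_mul_of_nonneg_left _ (PLD_nonneg hc hh i)
    have h1 := int_F_le (hle i)
    have h2 := hρ i
    linarith
  have hH := hasSum_integral_of_summable_integral_norm hint hsum
  simp_rw [hval] at hH
  have h2 : (fun u => ∑' i, PLD c h i * ic (Icc (-(ρ i)) (ρ i)) u * pcDensity u) = fun u => S u * pcDensity u := by
    funext u
    exact ((hS u).mul_right (pcDensity u)).tsum_eq
  rw [h2] at hH
  exact hH

/-- pairs in `[-n,n]` -/
lemma PL_pair_le {C S T : ℝ} (hT : ∀ u : ℝ, pairCount T u (u + 1) ≤ C * S) (n : ℕ) :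
    pairCount T (-(n : ℝ)) n ≤ (2 * n + 1) * (C * S) := by
  induction n with
  | zero =>
    have h1 : pairCount T (-((0:ℕ) : ℝ)) ((0:ℕ) : ℝ) ≤ pairCount T 0 (0 + 1) :=
      pairCount_mono T (by simp) (by simp)
    have h2 := hT 0
    push_cast at *
    linarith
  | succ n ih =>
    have h1 := pairCount_split T (-((n + 1 : ℕ) : ℝ)) (-(n : ℝ)) ((n + 1 : ℕ) : ℝ)
    have h2 := pairCount_split T (-(n : ℝ)) (n : ℝ) ((n + 1 : ℕ) : ℝ)
    have h3 := hT (-((n + 1 : ℕ) : ℝ))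
    have h4 := hT (n : ℝ)
    have e1 : -((n + 1 : ℕ) : ℝ) + 1 = -(n : ℝ) := by push_cast; ring
    have e2 : (n : ℝ) + 1 = ((n + 1 : ℕ) : ℝ) := by push_cast; ring
    rw [e1] at h3
    rw [e2] at h4
    push_cast at *
    linarith

lemma PL_pair_le' {C S T : ℝ} (hC : 0 ≤ C * S) (hT : ∀ u : ℝ, pairCount T u (u + 1) ≤ C * S) {r : ℝ} (hr : 0 ≤ r) :
    pairCount T (-r) r ≤ (2 * r + 3) * (C * S) := by
  have h1 := PL_pair_le hT ⌈r⌉₊
  have h2 : pairCount T (-r) r ≤ pairCount T (-(⌈r⌉₊ : ℝ)) ⌈r⌉₊ :=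
    pairCount_mono T (by linarith [Nat.le_ceil r]) (Nat.le_ceil r)
  have h3 : (⌈r⌉₊ : ℝ) < r + 1 := Nat.ceil_lt_add_one hr
  calc pairCount T (-r) r ≤ (2 * (⌈r⌉₊ : ℝ) + 1) * (C * S) := h2.trans h1
    _ ≤ (2 * r + 3) * (C * S) := by
      apply mul_le_mul_of_nonneg_right _ hC
      linarith

open Classical in
lemma PL_step_tendsto {l : Filter ℝ} (hl : l ≤ atTop)
    (hL : ∀ α β : ℝ, α ≤ β → Tendsto (fun T : ℝ => pairCount T α β / SN T) l
      (𝓝 ((∫ u in α..β, pcDensity u) + if α ≤ 0 ∧ 0 ≤ β then 1 else 0)))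
    {c h : ℝ} (hc : 0 < c) (hh : 0 < h) {ρ : ℕ → ℝ} {S : ℝ → ℝ}
    (hρ0 : ∀ i, 0 ≤ ρ i) (hρ : ∀ i, ρ i ≤ ((i : ℝ) + 1) * h)
    (hS : ∀ u, HasSum (fun i => PLD c h i * ic (Icc (-(ρ i)) (ρ i)) u) (S u)) :
    Tendsto (fun T : ℝ => WP T S / SN T) l (𝓝 (Pk c 0 + ∫ u, S u * pcDensity u)) := by
  obtain ⟨C, T₀, hC, hT⟩ := tail_pairs
  have hle : ∀ i, -(ρ i) ≤ ρ i := fun i => by linarith [hρ0 i]
  have e1 : ∀ T : ℝ, WP T S / SN T = ∑' i, PLD c h i * (pairCount T (-(ρ i)) (ρ i) / SN T) := by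
    intro T
    have h1 := (PL_WP_tsum hS T).div_const (SN T)
    rw [← h1.tsum_eq]
    congr 1
    funext i
    ring
  have e2 : Pk c 0 + ∫ u, S u * pcDensity u =
      ∑' i, PLD c h i * ((∫ u in (-(ρ i))..(ρ i), pcDensity u) + 1) := by
    have h1 := PLD_hasSum_from hc hh 0
    have h2 := PL_int_tsum hc hh hρ0 hρ hS
    have h3 := h1.add h2
    simp only [Nat.zero_le, if_true, Nat.cast_zero, zero_mul] at h3
    rw [← h3.tsum_eq]
    congr 1
    funext i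
    ring
  simp_rw [e1]
  rw [e2]
  refine tendsto_tsum_of_dominated_convergence
    (bound := fun i : ℕ => PLD c h i * ((2 * h * C) * ((i : ℝ) + 1) + 3 * C))
    (PLD_summable_aff hc hh) (fun i => ?_) ?_
  · have h1 := hL (-(ρ i)) (ρ i) (hle i)
    rw [if_pos ⟨by linarith [hρ0 i], hρ0 i⟩] at h1
    exact h1.const_mul _
  · filter_upwards [hl (eventually_gt_atTop 1), hl (eventually_ge_atTop T₀)] with T hT1 hT2 i
    have hS0 := SN_pos hT1
    have hn := pairCount_nonneg T (-(ρ i)) (ρ i)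
    rw [Real.norm_of_nonneg (mul_nonneg (PLD_nonneg hc hh i) (div_nonneg hn hS0.le))]
    apply mul_le_mul_of_nonneg_left _ (PLD_nonneg hc hh i)
    rw [div_le_iff₀ hS0]
    have h1 := PL_pair_le' (mul_nonneg hC.le hS0.le) (hT T hT2) (hρ0 i)
    have h2 : (2 * ρ i + 3) * (C * SN T) ≤ (2 * (((i : ℝ) + 1) * h) + 3) * (C * SN T) := by
      have := hρ i
      apply mul_le_mul_of_nonneg_right _ (mul_nonneg hC.le hS0.le)
      linarith
    calc pairCount T (-(ρ i)) (ρ i) ≤ (2 * (((i : ℝ) + 1) * h) + 3) * (C * SN T) := h1.trans h2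
      _ = _ := by ring

open Classical in
theorem poisson_of_law {l : Filter ℝ} (hl : l ≤ atTop)
    (hL : ∀ α β : ℝ, α ≤ β → Tendsto (fun T : ℝ => pairCount T α β / SN T) l
      (𝓝 ((∫ u in α..β, pcDensity u) + if α ≤ 0 ∧ 0 ≤ β then 1 else 0))) {c : ℝ} (hc : 0 < c) :
    Tendsto (fun T : ℝ => WP T (Pk c) / SN T) l (𝓝 (Pk c 0 + ∫ u, Pk c u * pcDensity u)) := by
  rw [Metric.tendsto_nhds]
  intro ε hε
  have hP0 : 0 < Pk c 0 := by unfold Pk; positivity
  obtain ⟨h, hh, hhe⟩ : ∃ h : ℝ, 0 < h ∧ 2 * h * Pk c 0 ≤ ε / 2 :=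
    ⟨ε / (4 * Pk c 0), by positivity, by
      have : 2 * (ε / (4 * Pk c 0)) * Pk c 0 = ε / 2 := by field_simp; norm_num
      linarith⟩
  have hup := PL_step_tendsto hl hL hc hh (ρ := fun i => ((i : ℝ) + 1) * h) (S := PLup c h)
    (fun i => by positivity) (fun i => le_refl _) (PLup_hasSum hc hh)
  have hlo := PL_step_tendsto hl hL hc hh (ρ := fun i => (i : ℝ) * h) (S := PLlo c h)
    (fun i => by positivity) (fun i => by
      apply mul_le_mul_of_nonneg_right _ hh.le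
      linarith) (PLlo_hasSum hc hh)
  have hPi : Integrable (fun u => Pk c u * pcDensity u) :=
    PL_mulF_integrable (Pk_cont hc).measurable (Pk_nonneg hc) (PL_Pk_integrable hc) (fun u => le_refl _)
  have hUi : Integrable (fun u => PLup c h u * pcDensity u) :=
    PL_mulF_integrable (PLup_meas c h) (fun u => Pk_nonneg hc _) ((PL_Pk_integrable hc).const_mul _)
      (PLup_le hc hh)
  have hLi : Integrable (fun u => PLlo c h u * pcDensity u) :=
    PL_mulF_integrable (PLlo_meas c h) (fun u => Pk_nonneg hc _) (PL_Pk_integrable hc) (PLlo_le hc hh)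
  have h1 : ∫ u, PLlo c h u * pcDensity u ≤ ∫ u, Pk c u * pcDensity u :=
    integral_mono hLi hPi fun u => mul_le_mul_of_nonneg_right (PLlo_le hc hh u) (pcDensity_nonneg u)
  have h2 : ∫ u, Pk c u * pcDensity u ≤ ∫ u, PLup c h u * pcDensity u :=
    integral_mono hPi hUi fun u => mul_le_mul_of_nonneg_right (PLup_ge hc hh u) (pcDensity_nonneg u)
  have h3 : ∫ u, PLup c h u * pcDensity u ≤ (∫ u, PLlo c h u * pcDensity u) + 2 * h * Pk c 0 := by
    have s1 := PL_int_tsum hc hh (ρ := fun i => ((i : ℝ) + 1) * h) (S := PLup c h)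
      (fun i => by positivity) (fun i => le_refl _) (PLup_hasSum hc hh)
    have s2 := PL_int_tsum hc hh (ρ := fun i => (i : ℝ) * h) (S := PLlo c h)
      (fun i => by positivity) (fun i => by
        apply mul_le_mul_of_nonneg_right _ hh.le
        linarith) (PLlo_hasSum hc hh)
    have s3 := (PLD_hasSum_from hc hh 0).mul_left (2 * h)
    simp only [Nat.zero_le, if_true, Nat.cast_zero, zero_mul] at s3
    refine hasSum_le (fun i => ?_) s1 (s2.add s3)
    have hs : (∫ u in (-(((i : ℝ) + 1) * h))..(((i : ℝ) + 1) * h), pcDensity u) ≤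
        (∫ u in (-((i : ℝ) * h))..((i : ℝ) * h), pcDensity u) + 2 * h := by
      rw [← intervalIntegral.integral_add_adjacent_intervals
        (intervalIntegrable_pcDensity (-(((i : ℝ) + 1) * h)) (-((i : ℝ) * h)))
        (intervalIntegrable_pcDensity (-((i : ℝ) * h)) (((i : ℝ) + 1) * h)),
        ← intervalIntegral.integral_add_adjacent_intervals
        (intervalIntegrable_pcDensity (-((i : ℝ) * h)) ((i : ℝ) * h))
        (intervalIntegrable_pcDensity ((i : ℝ) * h) (((i : ℝ) + 1) * h))]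
      have t1 := int_F_le (show -(((i : ℝ) + 1) * h) ≤ -((i : ℝ) * h) by nlinarith)
      have t2 := int_F_le (show (i : ℝ) * h ≤ ((i : ℝ) + 1) * h by nlinarith)
      linarith
    have := mul_le_mul_of_nonneg_left hs (PLD_nonneg hc hh i)
    linarith
  rw [Metric.tendsto_nhds] at hup hlo
  filter_upwards [hup (ε / 2) (by linarith), hlo (ε / 2) (by linarith), hl (eventually_gt_atTop 1)] with T hT1 hT2 hT3
  have hS0 := SN_pos hT3
  rw [Real.dist_eq, abs_lt] at hT1 hT2 ⊢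
  have w1 : WP T (PLlo c h) / SN T ≤ WP T (Pk c) / SN T := by
    have := WP_mono (T := T) (PLlo_le hc hh)
    gcongr
  have w2 : WP T (Pk c) / SN T ≤ WP T (PLup c h) / SN T := by
    have := WP_mono (T := T) (PLup_ge hc hh)
    gcongr
  constructor <;> linarith [hT1.1, hT1.2, hT2.1, hT2.2]

end Pool.Agent.Helper69.GGM
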