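import Pool.Agent.Helper69.GGM.Pk

/-!
# GGM block SWa: Poisson kernels span a dense space (Mathlib only)

Statement: an even continuous function with compact support is approximated by finite linear combinations of
Poisson kernels `Pk c`, `c > 0`, with error `<= ε Pk 1 u` for all `u`.

Proof. Put `w = 2πu`, `y = 1/(1+w²) = Pk 1 u ∈ (0,1]`. Then `Pk c u = c y/(1+(c²-1) y)`. Define
`ψ : [0,1] → ℝ` by `ψ(y) = φ(u)/y` for `y > 0`, `u = sqrt(1/y - 1)/(2π)`, and `ψ(0) = 0`; `ψ` is continuous (it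
vanishes near 0). It suffices to approximate `ψ` uniformly on `[0,1]` within `ε` by a finite combination of the
functions `f_s(y) = 1/(1+s y)`, `s > -1` (`s = c²-1`): multiply by `y`. By Weierstrass
(`exists_polynomial_near_continuousMap`) it suffices to approximate monomials `y^n`, by induction on `n`:
`f_s(y) - Σ_{k<n} (-s y)^k = (-s y)^n/(1+s y)`, so `y^n` is within `s` of
`(f_s - Σ_{k<n} (-s)^k y^k)/(-s)^n` for `0 < s` small, and the lower monomials are approximated by induction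
(`y^0 = f_0`, i.e. `c = 1`).
-/

open Set MeasureTheory Filter Topology

namespace Pool.Agent.Helper69.GGM

namespace SWa

/-- Linear combinations of the functions `1 / (1 + (c² - 1) y)`, `c > 0`. -/
noncomputable def WW : Submodule ℝ (ℝ → ℝ) :=
  Submodule.span ℝ {g : ℝ → ℝ | ∃ c : ℝ, 0 < c ∧ g = fun y => 1 / (1 + (c ^ 2 - 1) * y)}

/-- Uniform approximation on `[0,1]` by elements of `WW`. -/
def Ap (g : ℝ → ℝ) : Prop := ∀ ε : ℝ, 0 < ε → ∃ h ∈ WW, ∀ y ∈ Icc (0 : ℝ) 1, |g y - h y| ≤ ε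

lemma Ap.of_mem {g : ℝ → ℝ} (h : g ∈ WW) : Ap g := fun ε hε => ⟨g, h, fun y _ => by simpa using hε.le⟩

lemma Ap.add {g₁ g₂ : ℝ → ℝ} (h₁ : Ap g₁) (h₂ : Ap g₂) : Ap (fun y => g₁ y + g₂ y) := by
  intro ε hε
  obtain ⟨k₁, hk₁, H₁⟩ := h₁ (ε / 2) (by positivity)
  obtain ⟨k₂, hk₂, H₂⟩ := h₂ (ε / 2) (by positivity)
  refine ⟨k₁ + k₂, WW.add_mem hk₁ hk₂, fun y hy => ?_⟩
  have e : g₁ y + g₂ y - (k₁ + k₂) y = (g₁ y - k₁ y) + (g₂ y - k₂ y) := by
    simp only [Pi.add_apply]; ring
  rw [e]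
  have := abs_add_le (g₁ y - k₁ y) (g₂ y - k₂ y)
  have a1 := H₁ y hy
  have a2 := H₂ y hy
  linarith

lemma Ap.smul {g : ℝ → ℝ} (c : ℝ) (h : Ap g) : Ap (fun y => c * g y) := by
  intro ε hε
  obtain ⟨k, hk, H⟩ := h (ε / (|c| + 1)) (by positivity)
  refine ⟨c • k, WW.smul_mem c hk, fun y hy => ?_⟩
  have e : c * g y - (c • k) y = c * (g y - k y) := by
    simp only [Pi.smul_apply, smul_eq_mul]; ring
  rw [e, abs_mul]
  have a1 := H y hy
  have h1 : |c| * |g y - k y| ≤ (|c| + 1) * (ε / (|c| + 1)) := by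
    apply mul_le_mul (by linarith) a1 (abs_nonneg _) (by positivity)
  have h2 : (|c| + 1) * (ε / (|c| + 1)) = ε := by field_simp
  linarith

lemma Ap.zero : Ap (fun _ => 0) := Ap.of_mem WW.zero_mem

lemma Ap.sum {ι : Type*} (s : Finset ι) (g : ι → ℝ → ℝ) (h : ∀ i ∈ s, Ap (g i)) :
    Ap (fun y => ∑ i ∈ s, g i y) := by
  classical
  induction s using Finset.induction_on with
  | empty => simpa using Ap.zero
  | insert a s ha ih =>
    have h1 := (h a (Finset.mem_insert_self a s)).add (ih fun i hi => h i (Finset.mem_insert_of_mem hi))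
    have h2 : (fun y => g a y + ∑ i ∈ s, g i y) = fun y => ∑ i ∈ insert a s, g i y := by
      funext y; rw [Finset.sum_insert ha]
    rw [← h2]; exact h1

lemma Ap.closed {g : ℝ → ℝ} (h : ∀ ε : ℝ, 0 < ε → ∃ k, Ap k ∧ ∀ y ∈ Icc (0 : ℝ) 1, |g y - k y| ≤ ε) :
    Ap g := by
  intro ε hε
  obtain ⟨k, hk, H⟩ := h (ε / 2) (by positivity)
  obtain ⟨k', hk', H'⟩ := hk (ε / 2) (by positivity)
  refine ⟨k', hk', fun y hy => ?_⟩
  have e : g y - k' y = (g y - k y) + (k y - k' y) := by ring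
  rw [e]
  have := abs_add_le (g y - k y) (k y - k' y)
  have a1 := H y hy
  have a2 := H' y hy
  linarith

lemma Ap.frac {s : ℝ} (hs : 0 ≤ s) : Ap (fun y => 1 / (1 + s * y)) := by
  refine Ap.of_mem (Submodule.subset_span ⟨Real.sqrt (1 + s), by positivity, ?_⟩)
  funext y
  rw [Real.sq_sqrt (by positivity)]
  ring

lemma Ap.pow (n : ℕ) : Ap (fun y => y ^ n) := by
  induction n using Nat.strong_induction_on with
  | _ n ih =>
    refine Ap.closed fun s hs => ?_
    refine ⟨fun y => ((-s) ^ n)⁻¹ * (1 / (1 + s * y)) +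
      ∑ k ∈ Finset.range n, (-(((-s) ^ n)⁻¹ * (-s) ^ k)) * y ^ k, ?_, ?_⟩
    · refine ((Ap.frac hs.le).smul _).add (Ap.sum _ _ fun k hk => ?_)
      exact (ih k (Finset.mem_range.1 hk)).smul _
    · intro y hy
      have h1 : 0 < 1 + s * y := by have := hy.1; positivity
      have hsn : (-s) ^ n ≠ 0 := pow_ne_zero _ (by linarith)
      have h2 : ∑ k ∈ Finset.range n, (-(((-s) ^ n)⁻¹ * (-s) ^ k)) * y ^ k =
          -(((-s) ^ n)⁻¹ * ∑ k ∈ Finset.range n, (-(s * y)) ^ k) := by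
        rw [Finset.mul_sum, ← Finset.sum_neg_distrib]
        refine Finset.sum_congr rfl fun k _ => ?_
        rw [show -(s * y) = (-s) * y by ring, mul_pow]
        ring
      have h3 : (∑ k ∈ Finset.range n, (-(s * y)) ^ k) = (1 - (-(s * y)) ^ n) / (1 + s * y) := by
        have h4 := geom_sum_mul (-(s * y)) n
        rw [eq_div_iff h1.ne']
        linarith
      have h5 : (-(s * y)) ^ n = (-s) ^ n * y ^ n := by
        rw [show -(s * y) = (-s) * y by ring, mul_pow]
      have h6 : y ^ n - (((-s) ^ n)⁻¹ * (1 / (1 + s * y)) +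
          ∑ k ∈ Finset.range n, (-(((-s) ^ n)⁻¹ * (-s) ^ k)) * y ^ k) =
          y ^ n * (s * y / (1 + s * y)) := by
        rw [h2, h3, h5]
        field_simp
        ring
      show |y ^ n - (((-s) ^ n)⁻¹ * (1 / (1 + s * y)) +
          ∑ k ∈ Finset.range n, (-(((-s) ^ n)⁻¹ * (-s) ^ k)) * y ^ k)| ≤ s
      rw [h6, abs_of_nonneg (by have := hy.1; positivity)]
      have h7 : y ^ n ≤ 1 := pow_le_one₀ hy.1 hy.2
      have h8 : s * y / (1 + s * y) ≤ s := by
        rw [div_le_iff₀ h1]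
        have := hy.1
        have := hy.2
        nlinarith [mul_nonneg (mul_nonneg hs.le hs.le) hy.1]
      have h9 : 0 ≤ s * y / (1 + s * y) := by have := hy.1; positivity
      calc y ^ n * (s * y / (1 + s * y)) ≤ 1 * (s * y / (1 + s * y)) :=
            mul_le_mul_of_nonneg_right h7 h9
        _ ≤ s := by linarith

lemma Ap.poly (p : Polynomial ℝ) : Ap (fun y => p.eval y) := by
  have h : (fun y => p.eval y) = fun y => ∑ i ∈ Finset.range (p.natDegree + 1), p.coeff i * y ^ i := by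
    funext y; exact Polynomial.eval_eq_sum_range y
  rw [h]
  exact Ap.sum _ _ fun i _ => (Ap.pow i).smul _

lemma Ap.cont {g : ℝ → ℝ} (hg : ContinuousOn g (Icc 0 1)) : Ap g := by
  refine Ap.closed fun ε hε => ?_
  obtain ⟨p, hp⟩ := exists_polynomial_near_of_continuousOn 0 1 g hg ε hε
  refine ⟨fun y => p.eval y, Ap.poly p, fun y hy => ?_⟩
  rw [abs_sub_comm]
  exact (hp y hy).le

/-- The function `φ` in the coordinate `y`. -/
noncomputable def psi (φ : ℝ → ℝ) (y : ℝ) : ℝ := φ (Real.sqrt (1 / y - 1) / (2 * Real.pi)) / y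

lemma psi_cont {φ : ℝ → ℝ} (hφ : Continuous φ) (hs : HasCompactSupport φ) :
    ContinuousOn (psi φ) (Icc 0 1) := by
  intro y hy
  rcases hy.1.eq_or_lt with h0 | h0
  · subst h0
    obtain ⟨K, hK⟩ := hs.isCompact.isBounded.subset_closedBall 0
    have hz : ∀ u : ℝ, K < |u| → φ u = 0 := by
      intro u hu
      by_contra hne
      have h1 : u ∈ tsupport φ := subset_tsupport φ hne
      have h2 := hK h1
      rw [Metric.mem_closedBall, Real.dist_eq, sub_zero] at h2
      linarith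
    have hev : psi φ =ᶠ[𝓝[Icc 0 1] 0] fun _ => (0 : ℝ) := by
      have hδ : (0 : ℝ) < 1 / ((2 * Real.pi * (|K| + 1)) ^ 2 + 2) := by positivity
      have h1 : Iio (1 / ((2 * Real.pi * (|K| + 1)) ^ 2 + 2)) ∈ 𝓝 (0 : ℝ) := Iio_mem_nhds hδ
      filter_upwards [mem_nhdsWithin_of_mem_nhds h1, self_mem_nhdsWithin] with y hy1 hy2
      rcases hy2.1.eq_or_lt with h2 | h2
      · rw [← h2]; simp [psi]
      · unfold psi
        rw [hz, zero_div]
        have h3 : (2 * Real.pi * (|K| + 1)) ^ 2 + 2 < 1 / y := by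
          rw [lt_div_iff₀ h2]
          have h4 := hy1
          rw [mem_Iio, lt_div_iff₀ (by positivity)] at h4
          linarith
        have h5 : 2 * Real.pi * (|K| + 1) ≤ Real.sqrt (1 / y - 1) := by
          rw [Real.le_sqrt (by positivity) (by nlinarith [sq_nonneg (2 * Real.pi * (|K| + 1))])]
          linarith
        rw [abs_of_nonneg (by positivity)]
        rw [lt_div_iff₀ (by positivity)]
        have h6 : K ≤ |K| := le_abs_self K
        have h7 := Real.pi_pos
        nlinarith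
    have h00 : psi φ 0 = 0 := by simp [psi]
    have : Tendsto (psi φ) (𝓝[Icc 0 1] 0) (𝓝 0) := by
      refine Tendsto.congr' hev.symm tendsto_const_nhds
    unfold ContinuousWithinAt
    rw [h00]
    exact this
  · refine ContinuousAt.continuousWithinAt ?_
    unfold psi
    have h1 : ContinuousAt (fun y : ℝ => 1 / y - 1) y :=
      (continuousAt_const.div continuousAt_id h0.ne').sub continuousAt_const
    have h2 : ContinuousAt (fun y : ℝ => Real.sqrt (1 / y - 1) / (2 * Real.pi)) y :=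
      (Real.continuous_sqrt.continuousAt.comp h1).div_const _
    exact (hφ.continuousAt.comp h2).div continuousAt_id h0.ne'

end SWa

open SWa in
theorem poisson_dense {φ : ℝ → ℝ} (hφ : Continuous φ) (hs : HasCompactSupport φ) (he : ∀ u, φ (-u) = φ u)
    {ε : ℝ} (hε : 0 < ε) :
    ∃ (n : ℕ) (c lam : Fin n → ℝ), (∀ i, 0 < c i) ∧
      ∀ u : ℝ, |φ u - ∑ i, lam i * Pk (c i) u| ≤ ε * Pk 1 u := by
  obtain ⟨h, hW, H⟩ := Ap.cont (psi_cont hφ hs) ε hε
  obtain ⟨n, lam, g, hg⟩ := Submodule.mem_span_set'.1 hW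
  choose c hc hgc using fun i => (g i).2
  refine ⟨n, c, fun i => lam i / c i, hc, fun u => ?_⟩
  have hw : 0 < 1 + (2 * Real.pi * u) ^ 2 := by positivity
  have hP1 : Pk 1 u = 1 / (1 + (2 * Real.pi * u) ^ 2) := by unfold Pk; norm_num
  set y := 1 / (1 + (2 * Real.pi * u) ^ 2) with hy
  have hy0 : 0 < y := by positivity
  have hy1 : y ≤ 1 := by
    rw [hy, div_le_one hw]
    nlinarith [sq_nonneg (2 * Real.pi * u)]
  have hyinv : 1 / y = 1 + (2 * Real.pi * u) ^ 2 := by rw [hy]; field_simp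
  have hφu : φ u = y * psi φ y := by
    unfold psi
    have h1 : Real.sqrt (1 / y - 1) / (2 * Real.pi) = |u| := by
      rw [hyinv, show 1 + (2 * Real.pi * u) ^ 2 - 1 = (2 * Real.pi * u) ^ 2 by ring,
        Real.sqrt_sq_eq_abs, abs_mul, abs_of_pos (by positivity : (0 : ℝ) < 2 * Real.pi)]
      field_simp
    rw [h1]
    have h2 : φ |u| = φ u := by
      rcases abs_choice u with h | h
      · rw [h]
      · rw [h, he]
    rw [h2]
    field_simp
  have hsum : ∑ i, lam i / c i * Pk (c i) u = y * h y := by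
    rw [← hg, Finset.sum_apply, Finset.mul_sum]
    refine Finset.sum_congr rfl fun i _ => ?_
    rw [Pi.smul_apply, hgc i, smul_eq_mul]
    have hci := hc i
    have h3 : 0 < c i ^ 2 + (2 * Real.pi * u) ^ 2 := by positivity
    have h4 : 1 + (c i ^ 2 - 1) * y = y * (c i ^ 2 + (2 * Real.pi * u) ^ 2) := by
      have h5 : y * (1 + (2 * Real.pi * u) ^ 2) = 1 := by rw [← hyinv]; field_simp
      nlinarith
    show lam i / c i * Pk (c i) u = y * (lam i * (1 / (1 + (c i ^ 2 - 1) * y)))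
    rw [h4]
    unfold Pk
    field_simp
  rw [hsum, hφu, ← mul_sub, abs_mul, abs_of_pos hy0, hP1, mul_comm ε]
  exact mul_le_mul_of_nonneg_left (H y ⟨hy0.le, hy1⟩) hy0.le

end Pool.Agent.Helper69.GGM
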