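import Pool.Agent.Helper57.M.E
import Pool.Agent.Helper69.GGM.SWa
import Pool.Agent.Helper69.GGM.Defs

/-!
# GGM block SWb: from Poisson kernels to windows

Proof. (1) For `φ` even, continuous, compactly supported: `WP T φ/SN T → φ 0 + ∫ φ F` along `l`: approximate by
`p = Σ lam_i Pk (c_i)` (`poisson_dense`), `|WP T φ - WP T p| <= ε WP T (Pk 1)` (`WP_mono`, `WP_add`, `WP_smul`,
`WP_sum`), the law for each `Pk (c_i)` and for `Pk 1`.
(2) For `0 < α < β` and small `h > 0` take even trapezoids `φ^± ` with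
`φ^- <= 1_{[α,β]} + 1_{[-β,-α]} <= φ^+`, `φ^+` supported in `α-h <= |u| <= β+h` (`h < α`), `φ^- = 1` on
`α+h <= |u| <= β-h`. `WP T (ic (Icc α β)) + WP T (ic (Icc (-β) (-α))) = 2 pairCount T α β` (`pairCount_WP`,
`pairCount_neg`). `φ^±(0) = 0` and `∫ φ^± F` is within `4h` of `2 ∫_α^β F` (`0 <= F <= 1`, `F` even, `pc_even`).
-/

open Complex Set MeasureTheory Filter Topology
open Pool.Agent.Helper57.LH Pool.Agent.Helper57.PC Pool.Agent.Helper57.Zeta

namespace Pool.Agent.Helper69.GGM

lemma pc_meas_h48 : Measurable pcDensity := by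
  have : pcDensity = fun u => 1 - sq u := rfl
  rw [this]
  exact measurable_const.sub measurable_sq

lemma int_mul_F_h48 {φ : ℝ → ℝ} (h : Integrable φ) : Integrable (fun u => φ u * pcDensity u) := by
  refine h.norm.mono' (h.aestronglyMeasurable.mul pc_meas_h48.aestronglyMeasurable) ?_
  filter_upwards with u
  rw [norm_mul]
  have h1 : ‖pcDensity u‖ ≤ 1 := by
    rw [Real.norm_of_nonneg (pcDensity_nonneg u)]
    exact pcDensity_le_one u
  calc ‖φ u‖ * ‖pcDensity u‖ ≤ ‖φ u‖ * 1 := by gcongr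
    _ = ‖φ u‖ := mul_one _

lemma Pk_int_h48 {c : ℝ} (hc : 0 < c) : Integrable (Pk c) := by
  have h1 : Pk c = fun u => (1 / c) * (1 + ((2 * Real.pi / c) * u) ^ 2)⁻¹ := by
    ext u
    unfold Pk
    have := Real.pi_pos
    field_simp
  rw [h1]
  apply Integrable.const_mul
  have hpi := Real.pi_pos
  exact integrable_inv_one_add_sq.comp_mul_left' (by positivity)

/-- the law for continuous even functions with compact support -/
lemma law_cc_h48 {l : Filter ℝ} (hl : l ≤ atTop)
    (h : ∀ c : ℝ, 0 < c → Tendsto (fun T : ℝ => WP T (Pk c) / SN T) l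
      (𝓝 (Pk c 0 + ∫ u, Pk c u * pcDensity u)))
    {φ : ℝ → ℝ} (hφ : Continuous φ) (hs : HasCompactSupport φ) (he : ∀ u, φ (-u) = φ u) :
    Tendsto (fun T : ℝ => WP T φ / SN T) l (𝓝 (φ 0 + ∫ u, φ u * pcDensity u)) := by
  rw [Metric.tendsto_nhds]
  intro ε hε
  set M : ℝ := Pk 1 0 + ∫ u, Pk 1 u * pcDensity u with hM
  have hI0 : 0 ≤ ∫ u, Pk 1 u * pcDensity u :=
    integral_nonneg fun u => mul_nonneg (Pk_nonneg one_pos u) (pcDensity_nonneg u)
  have hM0 : 0 ≤ M := add_nonneg (Pk_nonneg one_pos 0) hI0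
  set η := ε / (4 * (M + 1)) with hη
  have hη0 : 0 < η := by positivity
  have hηM : η * (M + 1) = ε / 4 := by rw [hη]; field_simp
  obtain ⟨n, c, lam, hc, happ⟩ := poisson_dense hφ hs he hη0
  set p : ℝ → ℝ := fun u => ∑ i, lam i * Pk (c i) u with hpdef
  have hPi : ∀ i, Integrable (fun u => lam i * Pk (c i) u * pcDensity u) := by
    intro i
    exact int_mul_F_h48 ((Pk_int_h48 (hc i)).const_mul (lam i))
  have hpint : Integrable (fun u => p u * pcDensity u) := by
    have : (fun u => p u * pcDensity u) = fun u => ∑ i, lam i * Pk (c i) u * pcDensity u := by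
      ext u
      rw [hpdef]
      simp only [Finset.sum_mul]
    rw [this]
    exact integrable_finsetSum _ fun i _ => hPi i
  have hp : Tendsto (fun T : ℝ => WP T p / SN T) l (𝓝 (p 0 + ∫ u, p u * pcDensity u)) := by
    have h1 : Tendsto (fun T : ℝ => ∑ i, lam i * (WP T (Pk (c i)) / SN T)) l
        (𝓝 (∑ i, lam i * (Pk (c i) 0 + ∫ u, Pk (c i) u * pcDensity u))) :=
      tendsto_finsetSum _ fun i _ => (h (c i) (hc i)).const_mul (lam i)
    have h2 : (∑ i, lam i * (Pk (c i) 0 + ∫ u, Pk (c i) u * pcDensity u)) =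
        p 0 + ∫ u, p u * pcDensity u := by
      simp only [mul_add, Finset.sum_add_distrib]
      congr 1
      have h3 : (fun u => p u * pcDensity u) = fun u => ∑ i, lam i * Pk (c i) u * pcDensity u := by
        ext u
        rw [hpdef]
        simp only [Finset.sum_mul]
      rw [h3, integral_finsetSum _ (fun i _ => hPi i)]
      refine Finset.sum_congr rfl fun i _ => ?_
      rw [← integral_const_mul]
      congr 1
      ext u
      ring
    rw [← h2]
    refine h1.congr fun T => ?_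
    rw [hpdef, WP_sum, Finset.sum_div]
    refine Finset.sum_congr rfl fun i _ => ?_
    ring
  have hWP : ∀ T : ℝ, |WP T φ - WP T p| ≤ η * WP T (Pk 1) := by
    intro T
    rw [abs_le]
    constructor
    · have h1 : WP T p ≤ WP T (fun x => φ x + η * Pk 1 x) := WP_mono fun x => by
        have := (abs_le.mp (happ x)).1
        simp only [hpdef]
        linarith
      rw [WP_add, WP_smul] at h1
      linarith
    · have h1 : WP T φ ≤ WP T (fun x => p x + η * Pk 1 x) := WP_mono fun x => by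
        have := (abs_le.mp (happ x)).2
        simp only [hpdef]
        linarith
      rw [WP_add, WP_smul] at h1
      linarith
  have hφint : Integrable (fun u => φ u * pcDensity u) :=
    int_mul_F_h48 (hφ.integrable_of_hasCompactSupport hs)
  have hP1int : Integrable (fun u => Pk 1 u * pcDensity u) := int_mul_F_h48 (Pk_int_h48 one_pos)
  have hval : |(p 0 + ∫ u, p u * pcDensity u) - (φ 0 + ∫ u, φ u * pcDensity u)| ≤ η * M := by
    have h1 := abs_le.mp (happ 0)
    have h2 : (∫ u, p u * pcDensity u) ≤ (∫ u, φ u * pcDensity u) + η * ∫ u, Pk 1 u * pcDensity u := by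
      rw [← integral_const_mul, ← integral_add hφint (hP1int.const_mul η)]
      refine integral_mono hpint (hφint.add (hP1int.const_mul η)) fun u => ?_
      have h3 := (abs_le.mp (happ u)).1
      have h4 := pcDensity_nonneg u
      simp only [hpdef]
      nlinarith
    have h5 : (∫ u, φ u * pcDensity u) ≤ (∫ u, p u * pcDensity u) + η * ∫ u, Pk 1 u * pcDensity u := by
      rw [← integral_const_mul, ← integral_add hpint (hP1int.const_mul η)]
      refine integral_mono hφint (hpint.add (hP1int.const_mul η)) fun u => ?_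
      have h3 := (abs_le.mp (happ u)).2
      have h4 := pcDensity_nonneg u
      simp only [hpdef]
      nlinarith
    have h6 : p 0 = ∑ i, lam i * Pk (c i) 0 := rfl
    rw [abs_le, hM, mul_add, h6]
    constructor <;> linarith [h1.1, h1.2]
  filter_upwards [(Metric.tendsto_nhds.mp hp) (ε / 4) (by linarith),
    (h 1 one_pos).eventually (gt_mem_nhds (show Pk 1 0 + ∫ u, Pk 1 u * pcDensity u < M + 1 by
      rw [← hM]; linarith)), hl (eventually_gt_atTop 1)] with T h1 h2 hT
  have hS := SN_pos hT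
  rw [Real.dist_eq] at h1 ⊢
  have h3 : |WP T φ / SN T - WP T p / SN T| ≤ ε / 4 := by
    rw [← sub_div, abs_div, abs_of_pos hS, div_le_iff₀ hS]
    have h4 : WP T (Pk 1) ≤ (M + 1) * SN T := by
      rw [div_lt_iff₀ hS] at h2
      exact h2.le
    calc |WP T φ - WP T p| ≤ η * WP T (Pk 1) := hWP T
      _ ≤ η * ((M + 1) * SN T) := by gcongr
      _ = ε / 4 * SN T := by rw [← mul_assoc, hηM]
  have h7 : η * M ≤ ε / 4 := by
    rw [← hηM]
    nlinarith
  have h8 := abs_le.mp h3
  have h9 := abs_lt.mp h1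
  have h10 := abs_le.mp hval
  rw [abs_lt]
  constructor <;> linarith [h8.1, h8.2, h9.1, h9.2, h10.1, h10.2]

/-- trapezoids -/
noncomputable def tz48 (a b δ u : ℝ) : ℝ :=
  max 0 (min 1 (min (1 + (|u| - a) / δ) (1 + (b - |u|) / δ)))

lemma tz48_cont (a b δ : ℝ) : Continuous (tz48 a b δ) := by
  unfold tz48
  fun_prop

lemma tz48_even (a b δ u : ℝ) : tz48 a b δ (-u) = tz48 a b δ u := by
  unfold tz48
  rw [abs_neg]

/-- the indicator function of `a ≤ |u| ≤ b` -/
noncomputable def ic2_48 (a b u : ℝ) : ℝ := ic (Icc a b) u + ic (Icc (-b) (-a)) u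

lemma ic2_48_one {a b u : ℝ} (ha : 0 < a) (h : a ≤ |u|) (h' : |u| ≤ b) : ic2_48 a b u = 1 := by
  classical
  unfold ic2_48
  rw [ic_apply, ic_apply]
  rcases le_or_gt 0 u with hu | hu
  · rw [abs_of_nonneg hu] at h h'
    rw [if_pos ⟨h, h'⟩, if_neg (by rintro ⟨_, h2⟩; linarith), add_zero]
  · rw [abs_of_neg hu] at h h'
    rw [if_neg (by rintro ⟨h2, _⟩; linarith), if_pos ⟨by linarith, by linarith⟩, zero_add]

lemma ic2_48_zero {a b u : ℝ} (h : ¬ (a ≤ |u| ∧ |u| ≤ b)) (ha : 0 < a) : ic2_48 a b u = 0 := by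
  classical
  unfold ic2_48
  rw [ic_apply, ic_apply, if_neg, if_neg, add_zero]
  · rintro ⟨h1, h2⟩
    apply h
    rw [abs_of_neg (by linarith)]
    constructor <;> linarith
  · rintro ⟨h1, h2⟩
    apply h
    rw [abs_of_pos (by linarith)]
    exact ⟨h1, h2⟩

lemma ic2_le_tz48 {a b δ : ℝ} (ha : 0 < a) (hδ : 0 < δ) (u : ℝ) : ic2_48 a b u ≤ tz48 a b δ u := by
  by_cases h : a ≤ |u| ∧ |u| ≤ b
  · rw [ic2_48_one ha h.1 h.2]
    unfold tz48
    refine le_max_of_le_right (le_min le_rfl (le_min ?_ ?_))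
    · have : 0 ≤ (|u| - a) / δ := div_nonneg (by linarith) hδ.le
      linarith
    · have : 0 ≤ (b - |u|) / δ := div_nonneg (by linarith) hδ.le
      linarith
  · rw [ic2_48_zero h ha]
    exact le_max_left _ _

lemma tz48_zero {a b δ : ℝ} (hδ : 0 < δ) {u : ℝ} (h : ¬ (a - δ ≤ |u| ∧ |u| ≤ b + δ)) :
    tz48 a b δ u = 0 := by
  unfold tz48
  apply max_eq_left
  rw [not_and_or, not_le, not_le] at h
  rcases h with h | h
  · refine (min_le_right _ _).trans ((min_le_left _ _).trans ?_)
    have : (|u| - a) / δ ≤ -1 := by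
      rw [div_le_iff₀ hδ]
      linarith
    linarith
  · refine (min_le_right _ _).trans ((min_le_right _ _).trans ?_)
    have : (b - |u|) / δ ≤ -1 := by
      rw [div_le_iff₀ hδ]
      linarith
    linarith

lemma tz48_le_ic2 {a b δ : ℝ} (ha : 0 < a - δ) (hδ : 0 < δ) (u : ℝ) :
    tz48 a b δ u ≤ ic2_48 (a - δ) (b + δ) u := by
  by_cases h : a - δ ≤ |u| ∧ |u| ≤ b + δ
  · rw [ic2_48_one ha h.1 h.2]
    exact max_le zero_le_one (min_le_left _ _)
  · rw [ic2_48_zero h ha, tz48_zero hδ h]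

lemma tz48_supp {a b δ : ℝ} (hδ : 0 < δ) : HasCompactSupport (tz48 a b δ) := by
  apply HasCompactSupport.of_support_subset_isCompact (isCompact_Icc (a := -(b + δ)) (b := b + δ))
  intro u hu
  by_contra hcon
  apply hu
  apply tz48_zero hδ
  rintro ⟨_, h2⟩
  exact hcon (abs_le.mp h2)

lemma ic_int_h48 (a b : ℝ) : Integrable (ic (Icc a b)) := by
  unfold ic
  rw [integrable_indicator_iff measurableSet_Icc]
  exact continuous_const.continuousOn.integrableOn_compact isCompact_Icc

lemma int_ic_h48 {a b : ℝ} (hab : a ≤ b) :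
    ∫ u, ic (Icc a b) u * pcDensity u = ∫ u in a..b, pcDensity u := by
  classical
  have h1 : (fun u => ic (Icc a b) u * pcDensity u) = (Icc a b).indicator pcDensity := by
    ext u
    rw [ic_apply, indicator_apply]
    split_ifs <;> simp
  rw [h1, integral_indicator measurableSet_Icc, integral_Icc_eq_integral_Ioc,
    intervalIntegral.integral_of_le hab]

lemma int_ic2_h48 {a b : ℝ} (hab : a ≤ b) :
    ∫ u, ic2_48 a b u * pcDensity u = 2 * ∫ u in a..b, pcDensity u := by
  unfold ic2_48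
  simp only [add_mul]
  rw [integral_add (int_mul_F_h48 (ic_int_h48 _ _)) (int_mul_F_h48 (ic_int_h48 _ _)),
    int_ic_h48 hab, int_ic_h48 (by linarith : -b ≤ -a), ← int_pc_neg, two_mul]

lemma ic2_int_h48 (a b : ℝ) : Integrable (ic2_48 a b) := by
  unfold ic2_48
  exact (ic_int_h48 _ _).add (ic_int_h48 _ _)

theorem law_of_poisson {l : Filter ℝ} (hl : l ≤ atTop)
    (h : ∀ c : ℝ, 0 < c → Tendsto (fun T : ℝ => WP T (Pk c) / SN T) l
      (𝓝 (Pk c 0 + ∫ u, Pk c u * pcDensity u))) :
    ∀ α β : ℝ, 0 < α → α < β →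
      Tendsto (fun T : ℝ => pairCount T α β / SN T) l (𝓝 (∫ u in α..β, pcDensity u)) := by
  intro α β hα hαβ
  rw [Metric.tendsto_nhds]
  intro ε hε
  obtain ⟨δ, hδ0, hδε, hδα, hδβ⟩ : ∃ δ : ℝ, 0 < δ ∧ δ ≤ ε / 4 ∧ 2 * δ ≤ α ∧ 2 * δ ≤ β - α := by
    refine ⟨min (ε / 4) (min (α / 2) ((β - α) / 2)), ?_, min_le_left _ _, ?_, ?_⟩
    · exact lt_min (by linarith) (lt_min (by linarith) (by linarith))
    · have := (min_le_right (ε / 4) _).trans (min_le_left (α / 2) ((β - α) / 2))
      linarith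
    · have := (min_le_right (ε / 4) _).trans (min_le_right (α / 2) ((β - α) / 2))
      linarith
  have hlow := law_cc_h48 hl h (tz48_cont (α + δ) (β - δ) δ) (tz48_supp hδ0)
    (tz48_even (α + δ) (β - δ) δ)
  have hup := law_cc_h48 hl h (tz48_cont α β δ) (tz48_supp hδ0) (tz48_even α β δ)
  have h0 : tz48 (α + δ) (β - δ) δ 0 = 0 := by
    apply tz48_zero hδ0
    rw [abs_zero]
    rintro ⟨h1, _⟩
    linarith
  have h0' : tz48 α β δ 0 = 0 := by
    apply tz48_zero hδ0
    rw [abs_zero]
    rintro ⟨h1, _⟩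
    linarith
  rw [h0, zero_add] at hlow
  rw [h0', zero_add] at hup
  -- the integrals
  have hA1 : 2 * (∫ u in α..β, pcDensity u) - 4 * δ ≤ ∫ u, tz48 (α + δ) (β - δ) δ u * pcDensity u := by
    have h1 : ∫ u, ic2_48 (α + δ) (β - δ) u * pcDensity u ≤
        ∫ u, tz48 (α + δ) (β - δ) δ u * pcDensity u := by
      refine integral_mono (int_mul_F_h48 (ic2_int_h48 _ _)) (int_mul_F_h48
        ((tz48_cont _ _ _).integrable_of_hasCompactSupport (tz48_supp hδ0))) fun u => ?_
      exact mul_le_mul_of_nonneg_right (ic2_le_tz48 (by linarith) hδ0 u) (pcDensity_nonneg u)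
    rw [int_ic2_h48 (by linarith)] at h1
    have h2 := intervalIntegral.integral_add_adjacent_intervals
      (intervalIntegrable_pcDensity α (α + δ)) (intervalIntegrable_pcDensity (α + δ) (β - δ))
    have h3 := intervalIntegral.integral_add_adjacent_intervals
      (intervalIntegrable_pcDensity α (β - δ)) (intervalIntegrable_pcDensity (β - δ) β)
    have h4 := int_F_le (show α ≤ α + δ by linarith)
    have h5 := int_F_le (show β - δ ≤ β by linarith)
    linarith
  have hA2 : ∫ u, tz48 α β δ u * pcDensity u ≤ 2 * (∫ u in α..β, pcDensity u) + 4 * δ := by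
    have h1 : ∫ u, tz48 α β δ u * pcDensity u ≤ ∫ u, ic2_48 (α - δ) (β + δ) u * pcDensity u := by
      refine integral_mono (int_mul_F_h48
        ((tz48_cont _ _ _).integrable_of_hasCompactSupport (tz48_supp hδ0)))
        (int_mul_F_h48 (ic2_int_h48 _ _)) fun u => ?_
      exact mul_le_mul_of_nonneg_right (tz48_le_ic2 (by linarith) hδ0 u) (pcDensity_nonneg u)
    rw [int_ic2_h48 (by linarith)] at h1
    have h2 := intervalIntegral.integral_add_adjacent_intervals
      (intervalIntegrable_pcDensity (α - δ) α) (intervalIntegrable_pcDensity α β)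
    have h3 := intervalIntegral.integral_add_adjacent_intervals
      (intervalIntegrable_pcDensity (α - δ) β) (intervalIntegrable_pcDensity β (β + δ))
    have h4 := int_F_le (show α - δ ≤ α by linarith)
    have h5 := int_F_le (show β ≤ β + δ by linarith)
    linarith
  filter_upwards [(Metric.tendsto_nhds.mp hlow) δ hδ0, (Metric.tendsto_nhds.mp hup) δ hδ0,
    hl (eventually_gt_atTop 1)] with T h1 h2 hT
  have hS := SN_pos hT
  rw [Real.dist_eq] at h1 h2 ⊢
  have h3 : WP T (ic2_48 α β) = 2 * pairCount T α β := by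
    have h4 : WP T (ic2_48 α β) = WP T (ic (Icc α β)) + WP T (ic (Icc (-β) (-α))) := by
      rw [← WP_add]
      rfl
    rw [h4, ← pairCount_WP, ← pairCount_WP, pairCount_neg, two_mul]
  have h5 : WP T (tz48 (α + δ) (β - δ) δ) ≤ 2 * pairCount T α β := by
    rw [← h3]
    refine WP_mono fun u => ?_
    have := tz48_le_ic2 (a := α + δ) (b := β - δ) (δ := δ) (by linarith) hδ0 u
    rwa [show α + δ - δ = α by ring, show β - δ + δ = β by ring] at this
  have h6 : 2 * pairCount T α β ≤ WP T (tz48 α β δ) := by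
    rw [← h3]
    exact WP_mono fun u => ic2_le_tz48 hα hδ0 u
  have h7 : WP T (tz48 (α + δ) (β - δ) δ) / SN T ≤ 2 * (pairCount T α β / SN T) := by
    rw [← mul_div_assoc]
    gcongr
  have h8 : 2 * (pairCount T α β / SN T) ≤ WP T (tz48 α β δ) / SN T := by
    rw [← mul_div_assoc]
    gcongr
  have h9 := abs_lt.mp h1
  have h10 := abs_lt.mp h2
  rw [abs_lt]
  constructor <;> linarith [h9.1, h9.2, h10.1, h10.2]

end Pool.Agent.Helper69.GGM
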