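import Pool.Agent.Helper69.GGM.MC
import Pool.Agent.Helper69.GGM.E3c
import Pool.Agent.Helper69.GGM.PL
import Pool.Agent.Helper69.GGM.SWb
import Pool.Agent.Helper69.GGM.PI
import Pool.Agent.Helper69.GGM.OD

/-!
# GGM project: assembly
-/

open Complex Set MeasureTheory Filter Topology
open Pool.Agent.Helper57.LH Pool.Agent.Helper57.PC Pool.Agent.Helper57.Zeta

namespace Pool.Agent.Helper69.GGM

lemma value_eq {a : ℝ} (ha : 0 < a) :
    Pk (2 * a) 0 + ∫ u, Pk (2 * a) u * pcDensity u = 1 / 2 + VV a := by
  rw [Pk_value (by positivity : 0 < 2 * a)]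
  unfold VV
  rw [show -(2 * a) = -2 * a by ring, show (2 * a) ^ 2 = 4 * a ^ 2 by ring]

theorem main_iff {l : Filter ℝ} [l.IsCountablyGenerated] (hl : l ≤ atTop) :
    (∀ α β : ℝ, 0 < α → α < β →
      Tendsto (fun T : ℝ => pairCount T α β / SN T) l (𝓝 (∫ u in α..β, pcDensity u))) ↔
    ∀ a : ℝ, 0 < a → MeanSqAt l a := by
  classical
  constructor
  · intro h
    have hLow : LowHalf l := by
      intro α β hα hαβ δ hδ
      have h1 := h α β hα hαβ
      filter_upwards [h1.eventually (lt_mem_nhds (show (∫ u in α..β, pcDensity u) - δ < ∫ u in α..β, pcDensity u by linarith)),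
        hl (eventually_gt_atTop 1)] with T h2 hT
      have hS := SN_pos hT
      have h3 := (lt_div_iff₀ hS).mp h2
      unfold SN at h3
      exact h3.le
    have hfull : ∀ α β : ℝ, α ≤ β → Tendsto (fun T : ℝ => pairCount T α β / SN T) l
        (𝓝 ((∫ u in α..β, pcDensity u) + if α ≤ 0 ∧ 0 ≤ β then 1 else 0)) :=
      fun α β hαβ => full_law hl hLow hαβ
    have hOff : OffLine l := by
      apply offLine_of_diag hl
      have h0 := hfull 0 0 le_rfl
      simpa using h0
    intro a ha
    rw [meanSq_iff hl hOff ha, ← value_eq ha]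
    exact poisson_of_law hl hfull (by positivity)
  · intro h
    have hOff : OffLine l := offLine_of_meanSq hl h
    apply law_of_poisson hl
    intro c hc
    have ha : 0 < c / 2 := by positivity
    have h1 := (meanSq_iff hl hOff ha).mp (h _ ha)
    rw [← value_eq ha, show 2 * (c / 2) = c by ring] at h1
    exact h1

end Pool.Agent.Helper69.GGM
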