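import Pool.Agent.Helper57.M.D

/-!
# GGM project: the dominating function for fourth powers of local zero counts
-/

open Complex Set MeasureTheory Filter Topology Metric
open Pool.Agent.Helper57.LH Pool.Agent.Helper57.Zeta

namespace Pool.Agent.Helper69.GGM

/-- The dominating function for fourth powers. -/
noncomputable def Psi4 (T L : ℝ) (j : ℕ) (τ : ℝ) : ℝ :=
  64 * 8 ^ j * (200000 * KK * (AH T ((sg L (2 ^ j) : ℝ) + τ * I) (39 / 10 * 2 ^ j / L) +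
      ‖HT T ((sg L (2 ^ j) : ℝ) + τ * I)‖ ^ 2) +
    (if j = 0 then 6 * 10 ^ 7 * (1 + KK * AH T ((sg L 1 : ℝ) + τ * I) (5 / L)) else
      3 * 10 ^ 8 * (2 ^ j) ^ 4 * KK * ((Real.exp (2 ^ j / 160))⁻¹ *
        AH T ((sg L (2 ^ j) : ℝ) + τ * I) ((4 * 2 ^ j + 1) / L) +
        Real.exp (2 ^ j / 160) * ‖HT T ((sg L (2 ^ j / 2) : ℝ) + τ * I)‖ ^ 2)))

end Pool.Agent.Helper69.GGM
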